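import Pool.Agent.Lib.MP_33f9c4_lc.K.RDef

set_option autoImplicit false

/-!
# The clocked run of a fixed tree program

`clkT U` transforms `node (enc k) x` into `node (enc k') y`: the clock is decreased by one for every
elementary operation of `U`; the run is stopped when the clock is zero.
-/

namespace Pool.Agent.Lib.MP_33f9c4_lc.K

open Pool.Agent.Lib.PolyTime

theorem Ev.det {f : TP} {x y z : BT} {s t : ℕ} (h : Ev f x y s) (h' : Ev f x z t) :
    y = z ∧ s = t := by
  induction h generalizing z t with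
  | id x => cases h'; exact ⟨rfl, rfl⟩
  | leaf x => cases h'; exact ⟨rfl, rfl⟩
  | lft x => cases h'; exact ⟨rfl, rfl⟩
  | rgt x => cases h'; exact ⟨rfl, rfl⟩
  | pair hf hg ihf ihg =>
    cases h' with
    | pair hf' hg' =>
      obtain ⟨h1, h2⟩ := ihf hf'
      obtain ⟨h3, h4⟩ := ihg hg'
      exact ⟨by rw [h1, h3], by rw [h2, h4]⟩
  | comp hf hg ihf ihg =>
    cases h' with
    | comp hf' hg' =>
      obtain ⟨h1, h2⟩ := ihf hf'
      subst h1
      obtain ⟨h3, h4⟩ := ihg hg'
      exact ⟨h3, by rw [h2, h4]⟩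
  | iteN hc hf ihc ihf =>
    cases h' with
    | iteN hc' hf' =>
      obtain ⟨h1, h2⟩ := ihc hc'
      obtain ⟨h3, h4⟩ := ihf hf'
      exact ⟨h3, by rw [h2, h4]⟩
    | iteL hc' hg' =>
      obtain ⟨h1, h2⟩ := ihc hc'
      cases h1
  | iteL hc hg ihc ihg =>
    cases h' with
    | iteN hc' hf' =>
      obtain ⟨h1, h2⟩ := ihc hc'
      cases h1
    | iteL hc' hg' =>
      obtain ⟨h1, h2⟩ := ihc hc'
      obtain ⟨h3, h4⟩ := ihg hg'
      exact ⟨h3, by rw [h2, h4]⟩
  | loopN hx hf h ihf ih =>
    cases h' with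
    | loopN hx' hf' h' =>
      obtain ⟨h1, h2⟩ := ihf hf'
      subst h1
      obtain ⟨h3, h4⟩ := ih h'
      exact ⟨h3, by rw [h2, h4]⟩
    | loopL hx' =>
      rw [hx] at hx'
      cases hx'
  | loopL hx =>
    cases h' with
    | loopN hx' hf' h' =>
      rw [hx] at hx'
      cases hx'
    | loopL hx' => exact ⟨rfl, rfl⟩

theorem Ev.pos {f : TP} {x y : BT} {t : ℕ} (h : Ev f x y t) : 1 ≤ t := by
  cases h <;> omega

/-- one tick, then `op` on the value -/
def c1 (op : TP) : TP := .pair (.comp .lft .rgt) (.comp .rgt op)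

/-- the flag of the loop -/
def cfl : TP := .ite .lft (.comp .rgt .lft) .leaf

/-- The program `U` with a clock. -/
def clkT : TP → TP
  | .id => c1 .id
  | .leaf => c1 .leaf
  | .lft => c1 .lft
  | .rgt => c1 .rgt
  | .pair f g => .comp (.pair (clkT f) .rgt) (.ite (.comp .lft .lft)
      (.comp (.pair (.comp .lft .rgt) (.comp (.pair (.comp .lft .lft) .rgt) (clkT g)))
        (.pair (.comp (.comp .rgt .lft) .rgt) (.pair .lft (.comp .rgt .rgt)))) .lft)
  | .comp f g => .comp (clkT f) (.ite .lft (.comp (clkT g) (c1 .id)) .id)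
  | .ite c f g => .comp (.pair (clkT c) .rgt) (.ite (.comp .lft .lft)
      (.ite (.comp .lft .rgt) (.comp (.pair (.comp .lft .lft) .rgt) (.comp (clkT f) (c1 .id)))
        (.comp (.pair (.comp .lft .lft) .rgt) (.comp (clkT g) (c1 .id)))) .lft)
  | .loop f => .comp (.pair cfl .id) (.comp (.loop (.comp .rgt (.comp (clkT f)
      (.comp (c1 .id) (.pair cfl .id))))) (.comp .rgt (c1 .id)))

theorem R.pred (k : ℕ) : R .rgt (enc k) (enc (k - 1)) 1 := Tx.pred k

theorem R.tick {op : TP} {x y : BT} {t : ℕ} (k : ℕ) (h : R op x y t) :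
    R (c1 op) (.node (enc k) x) (.node (enc (k - 1)) y) (t + 6) :=
  (R.pair ((R.lft' (enc k) x).comp (R.pred k)) ((R.rgt' (enc k) x).comp h)).mono (by omega)

/-- the specification of a clocked run -/
def CSpec (U : TP) (A : ℕ) : Prop :=
  ∀ (k : ℕ) (x : BT), ∃ (k' : ℕ) (y : BT), k' ≤ k ∧
    R (clkT U) (.node (enc k) x) (.node (enc k') y) (A * (k - k' + 1)) ∧
    (0 < k' → Ev U x y (k - k')) ∧ (k' = 0 → ∀ y r, Ev U x y r → k ≤ r)

theorem cspec_atom {op : TP} (g : BT → BT) (h : ∀ x, Ev op x (g x) 1)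
    (hc : clkT op = c1 op) : CSpec op 7 := by
  intro k x
  refine ⟨k - 1, g x, by omega, ?_, ?_, ?_⟩
  · rw [hc]
    exact ((R.of (h x)).tick k).mono (by omega)
  · intro hk
    have : k - (k - 1) = 1 := by omega
    rw [this]
    exact h x
  · intro hk y r hr
    have := (h x).det hr
    omega

theorem enc_pos {k : ℕ} (hk : 0 < k) : enc k = .node .leaf (enc (k - 1)) := by
  obtain ⟨j, rfl⟩ : ∃ j, k = j + 1 := ⟨k - 1, by omega⟩
  rfl

theorem cspec_comp {f g : TP} {A B : ℕ} (hf : CSpec f A) (hg : CSpec g B) :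
    CSpec (.comp f g) (A + B + 20) := by
  intro k x
  obtain ⟨k1, y, h1, h2, h3, h4⟩ := hf k x
  rcases Nat.eq_zero_or_pos k1 with h0 | h0
  · subst h0
    refine ⟨0, y, by omega, ?_, by omega, ?_⟩
    · have h5 : R (.ite .lft (.comp (clkT g) (c1 .id)) .id) (.node (enc 0) y)
          (.node (enc 0) y) 3 := R.iteL (R.lft' _ _) (R.id _)
      refine (h2.comp h5).mono ?_
      nlinarith
    · intro _ z r hr
      cases hr with
      | comp hr1 hr2 =>
        have := h4 rfl _ _ hr1
        omega
  · obtain ⟨k2, z, g1, g2, g3, g4⟩ := hg k1 y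
    have h5 : R (.ite .lft (.comp (clkT g) (c1 .id)) .id) (.node (enc k1) y)
        (.node (enc (k2 - 1)) z) (1 + (B * (k1 - k2 + 1) + (1 + 6) + 1) + 1) := by
      have hl : R .lft (.node (enc k1) y) (.node .leaf (enc (k1 - 1))) 1 := by
        have := R.lft' (enc k1) y
        rwa [enc_pos h0] at this ⊢
      exact R.iteN hl (g2.comp ((R.id z).tick k2))
    refine ⟨k2 - 1, z, by omega, (h2.comp h5).mono ?_, ?_, ?_⟩
    · have e1 : A * (k - k1 + 1) ≤ A * (k - (k2 - 1) + 1) := Nat.mul_le_mul_left _ (by omega)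
      have e2 : B * (k1 - k2 + 1) ≤ B * (k - (k2 - 1) + 1) := Nat.mul_le_mul_left _ (by omega)
      nlinarith
    · intro hk
      have h6 := h3 h0
      have h7 := g3 (by omega)
      have : k - (k2 - 1) = (k - k1) + (k1 - k2) + 1 := by omega
      rw [this]
      exact .comp h6 h7
    · intro hk w r hr
      cases hr with
      | comp hr1 hr2 =>
        obtain ⟨e1, e2⟩ := (h3 h0).det hr1
        subst e1
        rcases Nat.eq_zero_or_pos k2 with h8 | h8
        · have := g4 h8 _ _ hr2
          omega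
        · have := (g3 h8).det hr2
          omega

theorem cspec_pair {f g : TP} {A B : ℕ} (hf : CSpec f A) (hg : CSpec g B) :
    CSpec (.pair f g) (A + B + 40) := by
  intro k x
  obtain ⟨k1, a, h1, h2, h3, h4⟩ := hf k x
  have h9 : R (.pair (clkT f) .rgt) (.node (enc k) x) (.node (.node (enc k1) a) x)
      (A * (k - k1 + 1) + 1 + 1) := h2.pair (R.rgt' _ _)
  rcases Nat.eq_zero_or_pos k1 with h0 | h0
  · subst h0
    refine ⟨0, a, by omega, ?_, by omega, ?_⟩
    · have h5 := R.iteL (f := (.comp (.pair (.comp .lft .rgt)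
          (.comp (.pair (.comp .lft .lft) .rgt) (clkT g)))
          (.pair (.comp (.comp .rgt .lft) .rgt) (.pair .lft (.comp .rgt .rgt)))))
          ((R.lft' (.node (enc 0) a) x).comp (R.lft' _ _)) (R.lft' (.node (enc 0) a) x)
      refine (h9.comp h5).mono ?_
      nlinarith
    · intro _ z r hr
      cases hr with
      | pair hr1 hr2 =>
        have := h4 rfl _ _ hr1
        omega
  · obtain ⟨k2, b, g1, g2, g3, g4⟩ := hg k1 x
    have h5 : R (.comp (.pair (.comp .lft .rgt)
          (.comp (.pair (.comp .lft .lft) .rgt) (clkT g)))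
          (.pair (.comp (.comp .rgt .lft) .rgt) (.pair .lft (.comp .rgt .rgt))))
        (.node (.node (enc k1) a) x) (.node (enc (k2 - 1)) (.node a b))
        (B * (k1 - k2 + 1) + 30) := by
      have p1 : R (.pair (.comp .lft .rgt) (.comp (.pair (.comp .lft .lft) .rgt) (clkT g)))
          (.node (.node (enc k1) a) x) (.node a (.node (enc k2) b)) _ :=
        R.pair ((R.lft' _ _).comp (R.rgt' _ _)) (R.comp (R.pair ((R.lft' _ _).comp (R.lft' _ _))
          (R.rgt' _ _)) g2)
      have p2 : R (.pair (.comp (.comp .rgt .lft) .rgt) (.pair .lft (.comp .rgt .rgt)))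
          (.node a (.node (enc k2) b)) (.node (enc (k2 - 1)) (.node a b)) _ :=
        R.pair (((R.rgt' _ _).comp (R.lft' _ _)).comp (R.pred k2))
          (R.pair (R.lft' _ _) ((R.rgt' _ _).comp (R.rgt' _ _)))
      exact (p1.comp p2).mono (by omega)
    have h6 : R (.comp .lft .lft) (.node (.node (enc k1) a) x) (.node .leaf (enc (k1 - 1))) 3 := by
      rw [← enc_pos h0]
      exact (R.lft' _ _).comp (R.lft' _ _)
    have h7 := h9.comp (R.iteN (g := .lft) h6 h5)
    refine ⟨k2 - 1, .node a b, by omega, h7.mono ?_, ?_, ?_⟩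
    · have e1 : A * (k - k1 + 1) ≤ A * (k - (k2 - 1) + 1) := Nat.mul_le_mul_left _ (by omega)
      have e2 : B * (k1 - k2 + 1) ≤ B * (k - (k2 - 1) + 1) := Nat.mul_le_mul_left _ (by omega)
      nlinarith
    · intro hk
      have h6 := h3 h0
      have h7 := g3 (by omega)
      have : k - (k2 - 1) = (k - k1) + (k1 - k2) + 1 := by omega
      rw [this]
      exact .pair h6 h7
    · intro hk w r hr
      cases hr with
      | pair hr1 hr2 =>
        obtain ⟨e1, e2⟩ := (h3 h0).det hr1
        rcases Nat.eq_zero_or_pos k2 with h8 | h8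
        · have := g4 h8 _ _ hr2
          omega
        · have := (g3 h8).det hr2
          omega

/-- the second half of the run of a branch -/
theorem cspec_br {g : TP} {B : ℕ} (hg : CSpec g B) (k1 : ℕ) (v x : BT) :
    ∃ (k2 : ℕ) (z : BT), k2 ≤ k1 ∧
      R (.comp (.pair (.comp .lft .lft) .rgt) (.comp (clkT g) (c1 .id)))
        (.node (.node (enc k1) v) x) (.node (enc (k2 - 1)) z) (B * (k1 - k2 + 1) + 20) ∧
      (0 < k2 → Ev g x z (k1 - k2)) ∧ (k2 = 0 → ∀ y r, Ev g x y r → k1 ≤ r) := by
  obtain ⟨k2, z, g1, g2, g3, g4⟩ := hg k1 x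
  refine ⟨k2, z, g1, ?_, g3, g4⟩
  exact (R.comp (R.pair ((R.lft' _ _).comp (R.lft' _ _)) (R.rgt' _ _))
    (g2.comp ((R.id z).tick k2))).mono (by omega)

theorem cspec_ite {c f g : TP} {A B D : ℕ} (hc : CSpec c A) (hf : CSpec f B) (hg : CSpec g D) :
    CSpec (.ite c f g) (A + B + D + 60) := by
  intro k x
  obtain ⟨k1, v, h1, h2, h3, h4⟩ := hc k x
  have h9 : R (.pair (clkT c) .rgt) (.node (enc k) x) (.node (.node (enc k1) v) x)
      (A * (k - k1 + 1) + 1 + 1) := h2.pair (R.rgt' _ _)
  rcases Nat.eq_zero_or_pos k1 with h0 | h0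
  · subst h0
    refine ⟨0, v, by omega, ?_, by omega, ?_⟩
    · have h5 := R.iteL (f := (.ite (.comp .lft .rgt) (.comp (.pair (.comp .lft .lft) .rgt)
          (.comp (clkT f) (c1 .id))) (.comp (.pair (.comp .lft .lft) .rgt)
            (.comp (clkT g) (c1 .id)))))
          ((R.lft' (.node (enc 0) v) x).comp (R.lft' _ _)) (R.lft' (.node (enc 0) v) x)
      refine (h9.comp h5).mono ?_
      nlinarith
    · intro _ z r hr
      cases hr with
      | iteN hr1 hr2 =>
        have := h4 rfl _ _ hr1
        omega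
      | iteL hr1 hr2 =>
        have := h4 rfl _ _ hr1
        omega
  · have h6 : R (.comp .lft .lft) (.node (.node (enc k1) v) x) (.node .leaf (enc (k1 - 1))) 3 := by
      rw [← enc_pos h0]
      exact (R.lft' _ _).comp (R.lft' _ _)
    have hv : R (.comp .lft .rgt) (.node (.node (enc k1) v) x) v 3 :=
      (R.lft' _ _).comp (R.rgt' _ _)
    cases v with
    | node v1 v2 =>
      obtain ⟨k2, z, g1, g2, g3, g4⟩ := cspec_br hf k1 (.node v1 v2) x
      have h7 := h9.comp (R.iteN (g := .lft) h6 (R.iteN (g := (.comp (.pair (.comp .lft .lft) .rgt)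
        (.comp (clkT g) (c1 .id)))) hv g2))
      refine ⟨k2 - 1, z, by omega, h7.mono ?_, ?_, ?_⟩
      · have e1 : A * (k - k1 + 1) ≤ A * (k - (k2 - 1) + 1) := Nat.mul_le_mul_left _ (by omega)
        have e2 : B * (k1 - k2 + 1) ≤ B * (k - (k2 - 1) + 1) := Nat.mul_le_mul_left _ (by omega)
        nlinarith
      · intro hk
        have h6 := h3 h0
        have h7 := g3 (by omega)
        have : k - (k2 - 1) = (k - k1) + (k1 - k2) + 1 := by omega
        rw [this]
        exact .iteN h6 h7
      · intro hk w r hr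
        cases hr with
        | iteN hr1 hr2 =>
          obtain ⟨e1, e2⟩ := (h3 h0).det hr1
          rcases Nat.eq_zero_or_pos k2 with h8 | h8
          · have := g4 h8 _ _ hr2
            omega
          · have := (g3 h8).det hr2
            omega
        | iteL hr1 hr2 =>
          obtain ⟨e1, e2⟩ := (h3 h0).det hr1
          cases e1
    | leaf =>
      obtain ⟨k2, z, g1, g2, g3, g4⟩ := cspec_br hg k1 .leaf x
      have h7 := h9.comp (R.iteN (g := .lft) h6 (R.iteL (f := (.comp (.pair (.comp .lft .lft) .rgt)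
        (.comp (clkT f) (c1 .id)))) hv g2))
      refine ⟨k2 - 1, z, by omega, h7.mono ?_, ?_, ?_⟩
      · have e1 : A * (k - k1 + 1) ≤ A * (k - (k2 - 1) + 1) := Nat.mul_le_mul_left _ (by omega)
        have e2 : D * (k1 - k2 + 1) ≤ D * (k - (k2 - 1) + 1) := Nat.mul_le_mul_left _ (by omega)
        nlinarith
      · intro hk
        have h6 := h3 h0
        have h7 := g3 (by omega)
        have : k - (k2 - 1) = (k - k1) + (k1 - k2) + 1 := by omega
        rw [this]
        exact .iteL h6 h7
      · intro hk w r hr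
        cases hr with
        | iteL hr1 hr2 =>
          obtain ⟨e1, e2⟩ := (h3 h0).det hr1
          rcases Nat.eq_zero_or_pos k2 with h8 | h8
          · have := g4 h8 _ _ hr2
            omega
          · have := (g3 h8).det hr2
            omega
        | iteN hr1 hr2 =>
          obtain ⟨e1, e2⟩ := (h3 h0).det hr1
          cases e1

/-- the value of the flag -/
def cflv (k : ℕ) (x : BT) : BT := if k = 0 then .leaf else K.lft x

theorem R.cfl (k : ℕ) (x : BT) : R cfl (.node (enc k) x) (cflv k x) 5 := by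
  rcases Nat.eq_zero_or_pos k with h | h
  · subst h
    exact (R.iteL (R.lft' _ _) (R.leaf _)).mono (by omega)
  · have hl : R .lft (.node (enc k) x) (.node .leaf (enc (k - 1))) 1 := by
      rw [← enc_pos h]
      exact R.lft' _ _
    have h1 : cflv k x = K.lft x := by rw [cflv, if_neg (by omega)]
    rw [h1]
    exact (R.iteN hl ((R.rgt' _ _).comp (R.lft _))).mono (by omega)

theorem cspec_loop_aux {f : TP} {A : ℕ} (hf : CSpec f A) : ∀ (k : ℕ) (x : BT),
    ∃ (k' : ℕ) (y fl : BT), k' ≤ k ∧
      R (.loop (.comp .rgt (.comp (clkT f) (.comp (c1 .id) (.pair cfl .id)))))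
        (.node (cflv k x) (.node (enc k) x)) (.node fl (.node (enc k') y))
        ((A + 30) * (k - k') + (A + 30)) ∧
      (0 < k' → Ev (.loop f) x y (k - k' + 1)) ∧
      (k' = 0 → ∀ y r, Ev (.loop f) x y r → k ≤ r) := by
  intro k
  induction k using Nat.strong_induction_on with
  | _ k ih =>
    intro x
    rcases Nat.eq_zero_or_pos k with h | h
    · subst h
      refine ⟨0, x, cflv 0 x, le_rfl, ?_, by omega, by intros; omega⟩
      exact (R.loopL (x := .node (cflv 0 x) (.node (enc 0) x)) rfl).mono (by omega)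
    · have hv : cflv k x = K.lft x := by rw [cflv, if_neg (by omega)]
      cases hx : K.lft x with
      | leaf =>
        refine ⟨k, x, cflv k x, le_rfl, ?_, ?_, by omega⟩
        · exact (R.loopL (x := .node (cflv k x) (.node (enc k) x)) (by
            show cflv k x = _
            rw [hv, hx])).mono (by omega)
        · intro _
          rw [Nat.sub_self, Nat.zero_add]
          exact .loopL hx
      | node a b =>
        obtain ⟨k1, y, h1, h2, h3, h4⟩ := hf k x
        have hb : R (.comp .rgt (.comp (clkT f) (.comp (c1 .id) (.pair cfl .id))))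
            (.node (cflv k x) (.node (enc k) x))
            (.node (cflv (k1 - 1) y) (.node (enc (k1 - 1)) y)) (A * (k - k1 + 1) + 20) :=
          ((R.rgt' _ _).comp (h2.comp (((R.id y).tick k1).comp
            (R.pair (R.cfl (k1 - 1) y) (R.id _))))).mono (by omega)
        have hn : K.lft (.node (cflv k x) (.node (enc k) x)) = .node a b := by
          show cflv k x = _
          rw [hv, hx]
        rcases Nat.eq_zero_or_pos k1 with h0 | h0
        · subst h0
          refine ⟨0, y, cflv 0 y, by omega, ?_, by omega, ?_⟩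
          · refine (R.loopN hn hb (R.loopL rfl)).mono ?_
            rw [Nat.sub_zero]
            nlinarith
          · intro _ z r hr
            cases hr with
            | loopN hx' hr1 hr2 =>
              have := h4 rfl _ _ hr1
              omega
            | loopL hx' =>
              rw [hx] at hx'
              cases hx'
        · obtain ⟨k', z, fl, e1, e2, e3, e4⟩ := ih (k1 - 1) (by omega) y
          refine ⟨k', z, fl, by omega, ?_, ?_, ?_⟩
          · refine (R.loopN hn hb e2).mono ?_
            have q1 : k - k' = (k - k1 + 1) + (k1 - 1 - k') := by omega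
            have q2 : 1 ≤ k - k1 + 1 := by omega
            rw [q1]
            nlinarith
          · intro hk
            have h5 := e3 hk
            have h6 := h3 h0
            have : k - k' + 1 = (k - k1) + (k1 - 1 - k' + 1) + 1 := by omega
            rw [this]
            exact .loopN hx h6 h5
          · intro hk w r hr
            cases hr with
            | loopN hx' hr1 hr2 =>
              obtain ⟨q1, q2⟩ := (h3 h0).det hr1
              subst q1
              have := e4 hk _ _ hr2
              omega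
            | loopL hx' =>
              rw [hx] at hx'
              cases hx'

theorem cspec_loop {f : TP} {A : ℕ} (hf : CSpec f A) : CSpec (.loop f) (2 * A + 90) := by
  intro k x
  obtain ⟨k', y, fl, h1, h2, h3, h4⟩ := cspec_loop_aux hf k x
  refine ⟨k' - 1, y, by omega, ?_, ?_, ?_⟩
  · refine ((R.pair (R.cfl k x) (R.id _)).comp (h2.comp ((R.rgt' _ _).comp
      ((R.id y).tick k')))).mono ?_
    have e1 : (A + 30) * (k - k') ≤ (A + 30) * (k - (k' - 1)) := Nat.mul_le_mul_left _ (by omega)
    nlinarith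
  · intro hk
    have := h3 (by omega)
    have e : k - (k' - 1) = k - k' + 1 := by omega
    rwa [e]
  · intro hk w r hr
    rcases Nat.eq_zero_or_pos k' with h0 | h0
    · exact h4 h0 w r hr
    · have := (h3 h0).det hr
      omega

theorem cspec (U : TP) : ∃ A, CSpec U A := by
  induction U with
  | id => exact ⟨7, cspec_atom (fun x => x) .id rfl⟩
  | leaf => exact ⟨7, cspec_atom (fun _ => .leaf) .leaf rfl⟩
  | lft => exact ⟨7, cspec_atom K.lft .lft rfl⟩
  | rgt => exact ⟨7, cspec_atom K.rgt .rgt rfl⟩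
  | pair f g ihf ihg =>
    obtain ⟨A, hA⟩ := ihf
    obtain ⟨B, hB⟩ := ihg
    exact ⟨_, cspec_pair hA hB⟩
  | comp f g ihf ihg =>
    obtain ⟨A, hA⟩ := ihf
    obtain ⟨B, hB⟩ := ihg
    exact ⟨_, cspec_comp hA hB⟩
  | ite c f g ihc ihf ihg =>
    obtain ⟨A, hA⟩ := ihc
    obtain ⟨B, hB⟩ := ihf
    obtain ⟨D, hD⟩ := ihg
    exact ⟨_, cspec_ite hA hB hD⟩
  | loop f ih =>
    obtain ⟨A, hA⟩ := ih
    exact ⟨_, cspec_loop hA⟩

/-- The program `U` with a clock. -/
theorem clk (U : TP) : ∃ (C : TP) (A : ℕ), ∀ (k : ℕ) (x : BT), ∃ z,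
    R C (.node (enc k) x) z (A * (k + 1)) ∧
    (∀ y r, Ev U x y r → r < k → z = .node (enc (k - r)) y) ∧
    ((¬ ∃ y r, r < k ∧ Ev U x y r) → lft z = .leaf) := by
  obtain ⟨A, hA⟩ := cspec U
  refine ⟨clkT U, A, fun k x => ?_⟩
  obtain ⟨k', y, h1, h2, h3, h4⟩ := hA k x
  refine ⟨_, h2.mono (Nat.mul_le_mul_left _ (by omega)), ?_, ?_⟩
  · intro z r hr hrk
    have h0 : 0 < k' := by
      by_contra hc
      have := h4 (by omega) z r hr
      omega
    obtain ⟨e1, e2⟩ := (h3 h0).det hr
    subst e1
    have : k' = k - r := by omega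
    rw [this]
  · intro hno
    have h0 : k' = 0 := by
      by_contra hc
      exact hno ⟨y, k - k', by have := (h3 (by omega)).pos; omega, h3 (by omega)⟩
    subst h0
    rfl

end Pool.Agent.Lib.MP_33f9c4_lc.K
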