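import Pool.Agent.Lib.MP_33f9c4_lc.K.Univ

set_option autoImplicit false

/-!
# Functions in `PT` are computed by tree programs in polynomial time

`PT f` = there are a `Prog K` (Pool/Agent/Lib/PolyTime/Prog.lean, big-step semantics `Run`), a stack `k₀` and a
polynomial `T` with `Run P (single k₀ (code a)) (single k₀ (code (f a))) t`, `t ≤ T (size a)`, `code a = (enc a).ser`.
The stacks are numbered, a state is the tree whose right spine carries the trees `tr (s k)`.
-/

namespace Pool.Agent.Lib.MP_33f9c4_lc.K

open Pool.Agent.Lib.PolyTime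

namespace APT

/-! ### Vectors -/

/-- the tree with right spine `g 0, g 1, ..., g (n - 1)` -/
def vecT : ℕ → (ℕ → BT) → BT
  | 0, _ => .leaf
  | n + 1, g => .node (g 0) (vecT n (fun i => g (i + 1)))

/-- read entry `i` -/
def getI : ℕ → TP
  | 0 => .lft
  | i + 1 => .comp .rgt (getI i)

/-- apply `f` to entry `i` -/
def atI : ℕ → TP → TP
  | 0, f => .pair (.comp .lft f) .rgt
  | i + 1, f => .pair .lft (.comp .rgt (atI i f))

theorem getI_spec : ∀ (i n : ℕ) (g : ℕ → BT), i < n → R (getI i) (vecT n g) (g i) (2 * i + 1) := by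
  intro i
  induction i with
  | zero =>
    intro n g h
    obtain ⟨n, rfl⟩ : ∃ m, n = m + 1 := ⟨n - 1, by omega⟩
    exact R.lft' _ _
  | succ i ih =>
    intro n g h
    obtain ⟨n, rfl⟩ : ∃ m, n = m + 1 := ⟨n - 1, by omega⟩
    have h1 := ih n (fun i => g (i + 1)) (by omega)
    exact ((R.rgt' _ _).comp h1).mono (by omega)

theorem atI_spec : ∀ (i n : ℕ) (g : ℕ → BT) (f : TP) (y : BT) (t : ℕ), i < n → R f (g i) y t →
    R (atI i f) (vecT n g) (vecT n (Function.update g i y)) (t + 4 * i + 4) := by
  intro i
  induction i with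
  | zero =>
    intro n g f y t h hf
    obtain ⟨n, rfl⟩ : ∃ m, n = m + 1 := ⟨n - 1, by omega⟩
    have e : vecT (n + 1) (Function.update g 0 y) = .node y (vecT n (fun i => g (i + 1))) := by
      simp only [vecT, Function.update_self]
      congr 1
    rw [e]
    exact (((R.lft' _ _).comp hf).pair (R.rgt' _ _)).mono (by omega)
  | succ i ih =>
    intro n g f y t h hf
    obtain ⟨n, rfl⟩ : ∃ m, n = m + 1 := ⟨n - 1, by omega⟩
    have h1 := ih n (fun i => g (i + 1)) f y t (by omega) hf
    have e : vecT (n + 1) (Function.update g (i + 1) y) =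
        .node (g 0) (vecT n (Function.update (fun i => g (i + 1)) i y)) := by
      simp only [vecT]
      congr 1
      congr 1
      funext j
      by_cases hj : j = i
      · subst hj; simp
      · rw [Function.update_of_ne (by omega), Function.update_of_ne hj]
    rw [e]
    exact ((R.lft' _ _).pair ((R.rgt' _ _).comp h1)).mono (by omega)

/-- the constant vector of leaves with `X` at the place `i` -/
def mkV : ℕ → ℕ → TP
  | 0, _ => .leaf
  | n + 1, 0 => .pair .id (quote (vecT n (fun _ => .leaf)))
  | n + 1, i + 1 => .pair .leaf (mkV n i)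

theorem size_vecT_leaf (n : ℕ) : (vecT n (fun _ => .leaf)).size = 2 * n + 1 := by
  induction n with
  | zero => rfl
  | succ n ih => simp only [vecT, BT.size_node, BT.size_leaf, ih]; omega

theorem mkV_spec : ∀ (n i : ℕ) (x : BT), i < n →
    R (mkV n i) x (vecT n (Function.update (fun _ => .leaf) i x)) (2 * n + 3) := by
  intro n
  induction n with
  | zero => intro i x h; omega
  | succ n ih =>
    intro i x h
    cases i with
    | zero =>
      have e : vecT (n + 1) (Function.update (fun _ => BT.leaf) 0 x) =
          .node x (vecT n (fun _ => .leaf)) := by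
        simp only [vecT, Function.update_self]
        congr 1
      rw [e]
      refine ((R.id x).pair (R.quote _ x)).mono ?_
      rw [size_vecT_leaf]
      omega
    | succ i =>
      have h1 := ih i x (by omega)
      have e : vecT (n + 1) (Function.update (fun _ => BT.leaf) (i + 1) x) =
          .node .leaf (vecT n (Function.update (fun _ => .leaf) i x)) := by
        simp only [vecT]
        congr 1
        congr 1
        funext j
        by_cases hj : j = i
        · subst hj; simp
        · rw [Function.update_of_ne (by omega), Function.update_of_ne hj]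
      rw [e]
      exact ((R.leaf x).pair h1).mono (by omega)

/-! ### Translation of programs -/

/-- the tree of a bit -/
def tb (b : Bool) : BT := if b then .node .leaf .leaf else .leaf

theorem tr_cons (b : Bool) (l : List Bool) : tr (b :: l) = .node (tb b) (tr l) := rfl

/-- the constant program of a bit -/
def cB (b : Bool) : TP := quote (tb b)

theorem cB_spec (b : Bool) (x : BT) : R (cB b) x (tb b) 3 := by
  refine (R.quote (tb b) x).mono ?_
  cases b <;> simp [tb]

/-- the test of a predicate at the top of a stack -/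
def tst (p : Option Bool → Bool) : TP :=
  .ite .id (.ite .lft (cB (p (some true))) (cB (p (some false)))) (cB (p none))

theorem tst_spec (p : Option Bool → Bool) (l : List Bool) :
    R (tst p) (tr l) (tb (p l.head?)) 7 := by
  cases l with
  | nil => exact (R.iteL (R.id _) (cB_spec _ _)).mono (by omega)
  | cons b l =>
    rw [tr_cons]
    cases b with
    | true =>
      exact (R.iteN (R.id _) (R.iteN (R.lft' (.node .leaf .leaf) (tr l)) (cB_spec _ _))).mono
        (by omega)
    | false =>
      exact (R.iteN (R.id _) (R.iteL (R.lft' .leaf (tr l)) (cB_spec _ _))).mono (by omega)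

section
variable {K : Type} [DecidableEq K] (n : ℕ) (e : K ≃ Fin n)

/-- the condition -/
def cnd (k : K) (p : Option Bool → Bool) : TP := .comp (getI (e k)) (tst p)

/-- translation -/
def tl : Prog K → TP
  | .skip => .id
  | .push k b => atI (e k) (.pair (cB b) .id)
  | .pop k => atI (e k) .rgt
  | .seq P Q => .comp (tl P) (tl Q)
  | .ite k p P Q => .ite (cnd n e k p) (tl P) (tl Q)
  | .loop k p P => .comp (.pair (cnd n e k p) .id)
      (.comp (.loop (.comp .rgt (.comp (tl P) (.pair (cnd n e k p) .id)))) .rgt)

/-- the entries of a state -/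
def ent (s : St K) : ℕ → BT := fun i => if h : i < n then tr (s (e.symm ⟨i, h⟩)) else .leaf

omit [DecidableEq K] in
theorem ent_apply (s : St K) (k : K) : ent n e s (e k) = tr (s k) := by
  unfold ent
  rw [dif_pos (e k).2]
  simp

theorem ent_update (s : St K) (k : K) (w : List Bool) :
    ent n e (Function.update s k w) = Function.update (ent n e s) (e k) (tr w) := by
  funext i
  by_cases hi : i = (e k : ℕ)
  · subst hi
    rw [ent_apply, Function.update_self, Function.update_self]
  · rw [Function.update_of_ne hi]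
    unfold ent
    by_cases h : i < n
    · rw [dif_pos h, dif_pos h, Function.update_of_ne]
      intro h'
      apply hi
      rw [← h']
      simp
    · rw [dif_neg h, dif_neg h]

/-- the tree of a state -/
def vs (s : St K) : BT := vecT n (ent n e s)

theorem cnd_spec (k : K) (p : Option Bool → Bool) (s : St K) :
    R (cnd n e k p) (vs n e s) (tb (p (s k).head?)) (2 * n + 10) := by
  have h1 := getI_spec (e k) n (ent n e s) (e k).2
  rw [ent_apply] at h1
  have h2 := (e k).2
  exact (h1.comp (tst_spec p (s k))).mono (by omega)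

/-- the constant of the simulation -/
def cc : ℕ := 8 * n + 100

theorem at_spec (k : K) (s : St K) (f : TP) (w : List Bool) (t : ℕ) (hf : R f (tr (s k)) (tr w) t) :
    R (atI (e k) f) (vs n e s) (vs n e (Function.update s k w)) (t + 4 * n + 4) := by
  have h0 : R f (ent n e s (e k)) (tr w) t := by rw [ent_apply]; exact hf
  have h1 := atI_spec (e k) n (ent n e s) f (tr w) t (e k).2 h0
  have h2 := (e k).2
  rw [← ent_update] at h1
  exact h1.mono (by omega)

/-- the extra statement for loops -/
def LpS : Prog K → St K → St K → ℕ → Prop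
  | .loop k p P, s, s', t => ∃ u, u + (4 * n + 40) ≤ cc n * t ∧
      Lp (.comp .rgt (.comp (tl n e P) (.pair (cnd n e k p) .id)))
        (.node (tb (p (s k).head?)) (vs n e s)) (.node .leaf (vs n e s')) u
  | _, _, _, _ => True

theorem loop_of_lp {k : K} {p : Option Bool → Bool} {P : Prog K} {s s' : St K} {t : ℕ}
    (h : LpS n e (.loop k p P) s s' t) :
    R (tl n e (.loop k p P)) (vs n e s) (vs n e s') (cc n * t - 1) := by
  obtain ⟨u, hu, h⟩ := h
  have h1 := h.finish rfl
  have h2 := (cnd_spec n e k p s).pair (R.id (vs n e s))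
  exact (h2.comp (h1.comp (R.rgt' _ _))).mono (by omega)

theorem sim {P : Prog K} {s s' : St K} {t : ℕ} (h : Run P s s' t) :
    1 ≤ t ∧ R (tl n e P) (vs n e s) (vs n e s') (cc n * t - 1) ∧ LpS n e P s s' t := by
  induction h with
  | skip s => exact ⟨le_rfl, (R.id _).mono (by simp only [cc]; omega), trivial⟩
  | push k b s =>
    refine ⟨le_rfl, ?_, trivial⟩
    have h1 : R (.pair (cB b) .id) (tr (s k)) (tr (b :: s k)) 5 :=
      ((cB_spec b (tr (s k))).pair (R.id _)).mono (by omega)
    exact (at_spec n e k s _ _ _ h1).mono (by simp only [cc]; omega)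
  | pop k s =>
    refine ⟨le_rfl, ?_, trivial⟩
    have h1 : R .rgt (tr (s k)) (tr (s k).tail) 1 := by
      cases s k with
      | nil => exact R.rgt _
      | cons b l => exact R.rgt' _ _
    exact (at_spec n e k s _ _ _ h1).mono (by simp only [cc]; omega)
  | @seq P Q s s' s'' t t' h h' ih1 ih2 =>
    have e1 : 1 ≤ cc n * t := Nat.le_trans (by simp only [cc]; omega) (Nat.mul_le_mul_left (cc n) ih1.1)
    have e2 : 1 ≤ cc n * t' := Nat.le_trans (by simp only [cc]; omega) (Nat.mul_le_mul_left (cc n) ih2.1)
    refine ⟨by omega, ?_, trivial⟩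
    exact (ih1.2.1.comp ih2.2.1).mono (by rw [Nat.mul_add]; omega)
  | @iteT k p P Q s s' t hp h ih =>
    refine ⟨by omega, ?_, trivial⟩
    have h1 := cnd_spec n e k p s
    rw [hp] at h1
    have h2 : R (cnd n e k p) (vs n e s) (.node .leaf .leaf) (2 * n + 10) := h1
    refine (R.iteN h2 ih.2.1).mono ?_
    rw [Nat.mul_add]
    simp only [cc]
    omega
  | @iteF k p P Q s s' t hp h ih =>
    refine ⟨by omega, ?_, trivial⟩
    have h1 := cnd_spec n e k p s
    rw [hp] at h1
    have h2 : R (cnd n e k p) (vs n e s) .leaf (2 * n + 10) := h1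
    refine (R.iteL h2 ih.2.1).mono ?_
    rw [Nat.mul_add]
    simp only [cc]
    omega
  | @loopT k p P s s' s'' t t' hp h h' ih1 ih2 =>
    have key : LpS n e (.loop k p P) s s'' (t + t' + 1) := by
      obtain ⟨u, hu, hl⟩ := ih2.2.2
      rw [LpS, hp]
      refine ⟨cc n * t + (2 * n + 20) + u, ?_, ?_⟩
      · rw [Nat.mul_add, Nat.mul_add]
        simp only [cc] at hu ⊢
        omega
      · have h1 : R (.comp .rgt (.comp (tl n e P) (.pair (cnd n e k p) .id)))
            (.node (tb true) (vs n e s)) (.node (tb (p (s' k).head?)) (vs n e s'))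
            (cc n * t + (2 * n + 19)) :=
          ((R.rgt' _ _).comp (ih1.2.1.comp ((cnd_spec n e k p s').pair (R.id _)))).mono (by omega)
        exact ((Lp.step (a := .leaf) (b := .leaf) rfl h1).trans hl).mono (by omega)
    exact ⟨by omega, loop_of_lp n e key, key⟩
  | @loopF k p P s hp =>
    have key : LpS n e (.loop k p P) s s 1 := by
      rw [LpS, hp]
      exact ⟨0, by simp only [cc]; omega, Lp.refl _ _⟩
    exact ⟨le_rfl, loop_of_lp n e key, key⟩

theorem vs_single (k₀ : K) (w : List Bool) :
    vs n e (single k₀ w) = vecT n (Function.update (fun _ => .leaf) (e k₀) (tr w)) := by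
  have h : single k₀ w = Function.update (fun _ => []) k₀ w := by
    funext k
    by_cases hk : k = k₀
    · subst hk; simp [single]
    · simp [single, hk]
  rw [h, vs, ent_update]
  congr 1
  congr 1
  funext i
  unfold ent
  by_cases hi : i < n
  · rw [dif_pos hi]; rfl
  · rw [dif_neg hi]

end

/-! ### Serialisation -/

/-- state `node W acc`; the items of `W` are `node x leaf` (write the tree `x`) and `leaf` (write
`true`) -/
def sBody : TP :=
  .ite (.comp .lft .lft)
    (.ite (.comp (.comp .lft .lft) .lft)
      (.pair (.pair (.pair (.comp (.comp (.comp .lft .lft) .lft) .rgt) .leaf)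
        (.pair (.pair (.comp (.comp (.comp .lft .lft) .lft) .lft) .leaf)
          (.pair .leaf (.comp .lft .rgt)))) .rgt)
      (.pair (.comp .lft .rgt) (.pair .leaf .rgt)))
    (.pair (.comp .lft .rgt) (.pair (.pair .leaf .leaf) .rgt))

theorem sE (W : BT) (l : List Bool) :
    Lp sBody (.node (.node .leaf W) (tr l)) (.node W (tr (true :: l))) 60 := by
  have h0 : R (.comp .lft .lft) (.node (.node .leaf W) (tr l)) .leaf 3 :=
    (R.lft' _ _).comp (R.lft' _ _)
  have h1 : R (.pair (.comp .lft .rgt) (.pair (.pair .leaf .leaf) .rgt))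
      (.node (.node .leaf W) (tr l)) (.node W (tr (true :: l))) 30 :=
    (((R.lft' _ _).comp (R.rgt' _ _)).pair (((R.leaf _).pair (R.leaf _)).pair (R.rgt' _ _))).mono
      (by omega)
  exact (Lp.step (a := .leaf) (b := W) rfl (R.iteL h0 h1)).mono (by omega)

theorem sL (W : BT) (l : List Bool) :
    Lp sBody (.node (.node (.node .leaf .leaf) W) (tr l)) (.node W (tr (false :: l))) 60 := by
  have h0 : R (.comp .lft .lft) (.node (.node (.node .leaf .leaf) W) (tr l))
      (.node .leaf .leaf) 3 := (R.lft' _ _).comp (R.lft' _ _)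
  have h2 : R (.comp (.comp .lft .lft) .lft) (.node (.node (.node .leaf .leaf) W) (tr l))
      .leaf 5 := h0.comp (R.lft' _ _)
  have h1 : R (.pair (.comp .lft .rgt) (.pair .leaf .rgt))
      (.node (.node (.node .leaf .leaf) W) (tr l)) (.node W (tr (false :: l))) 30 :=
    (((R.lft' _ _).comp (R.rgt' _ _)).pair ((R.leaf _).pair (R.rgt' _ _))).mono (by omega)
  exact (Lp.step (a := .node .leaf .leaf) (b := W) rfl (R.iteN h0 (R.iteL h2 h1))).mono (by omega)

theorem sN (a b W : BT) (l : List Bool) :
    Lp sBody (.node (.node (.node (.node a b) .leaf) W) (tr l))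
      (.node (.node (.node b .leaf) (.node (.node a .leaf) (.node .leaf W))) (tr l)) 60 := by
  have h0 : R (.comp .lft .lft) (.node (.node (.node (.node a b) .leaf) W) (tr l))
      (.node (.node a b) .leaf) 3 := (R.lft' _ _).comp (R.lft' _ _)
  have h2 : R (.comp (.comp .lft .lft) .lft) (.node (.node (.node (.node a b) .leaf) W) (tr l))
      (.node a b) 5 := h0.comp (R.lft' _ _)
  have h3 : R (.comp .lft .rgt) (.node (.node (.node (.node a b) .leaf) W) (tr l)) W 3 :=
    (R.lft' _ _).comp (R.rgt' _ _)
  have h1 := (((h2.comp (R.rgt' _ _)).pair (R.leaf _)).pair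
    (((h2.comp (R.lft' _ _)).pair (R.leaf _)).pair ((R.leaf _).pair h3))).pair
      (R.rgt' (.node (.node (.node a b) .leaf) W) (tr l))
  exact (Lp.step (a := .node (.node a b) .leaf) (b := W) rfl
    (R.iteN h0 (R.iteN h2 h1))).mono (by omega)

theorem sSim (x : BT) : ∀ (W : BT) (l : List Bool),
    Lp sBody (.node (.node (.node x .leaf) W) (tr l)) (.node W (tr (x.ser ++ l)))
      (200 * x.size) := by
  induction x with
  | leaf =>
    intro W l
    exact (sL W l).mono (by rw [BT.size_leaf]; omega)
  | node a b iha ihb =>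
    intro W l
    have h1 := sN a b W l
    have h2 := ihb (.node (.node a .leaf) (.node .leaf W)) l
    have h3 := iha (.node .leaf W) (b.ser ++ l)
    have h4 := sE W (a.ser ++ (b.ser ++ l))
    have e : (BT.node a b).ser ++ l = true :: (a.ser ++ (b.ser ++ l)) := by
      simp [BT.ser]
    rw [e, BT.size_node]
    exact (((h1.trans h2).trans h3).trans h4).mono (by omega)

/-- from `x` to `tr x.ser` -/
def serP : TP := .comp (.pair (.pair (.pair .id .leaf) .leaf) .leaf) (.comp (.loop sBody) .rgt)

theorem serP_spec (x : BT) : R serP x (tr x.ser) (200 * x.size + 20) := by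
  have h1 := (sSim x .leaf []).finish rfl
  rw [List.append_nil] at h1
  have h0 : R (.pair (.pair (.pair .id .leaf) .leaf) .leaf) x
      (.node (.node (.node x .leaf) .leaf) (tr [])) 7 :=
    (((R.id x).pair (R.leaf x)).pair (R.leaf x)).pair (R.leaf x)
  exact (h0.comp (h1.comp (R.rgt' _ _))).mono (by omega)

/-- from `tr x.ser` to `x` -/
def parP : TP := .comp (mkS (.pair .leaf .leaf) .id .leaf) (.comp (.loop pBody) (.comp qS .lft))

theorem parP_spec (x : BT) : R parP (tr x.ser) x (200 * x.size + 40) := by
  have h1 := (pSim x .leaf .leaf []).finish rfl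
  rw [List.append_nil] at h1
  have h0 : R (mkS (.pair .leaf .leaf) .id .leaf) (tr x.ser)
      (stt (.node .leaf .leaf) (tr x.ser) .leaf) 10 :=
    (R.mkS (R.pair (R.leaf _) (R.leaf _)) (R.id _) (R.leaf _)).mono (by omega)
  have h2 : R (.comp qS .lft) (stt .leaf (tr []) (.node x .leaf)) x 7 :=
    ((R.qS _ _ _).comp (R.lft' _ _)).mono (by omega)
  exact (h0.comp (h1.comp h2)).mono (by omega)

end APT

theorem PT.tp {α β : Type} [Enc α] [Enc β] {f : α → β} (hf : PT f) :
    ∃ (P : TP) (Q : Polynomial ℕ), ∀ a, R P (enc a) (enc (f a)) (Q.eval (size a)) := by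
  obtain ⟨K, hF, hD, P, k₀, T, h⟩ := hf
  have hn : ∃ (n : ℕ) (e : K ≃ Fin n), True := ⟨Fintype.card K, Fintype.equivFin K, trivial⟩
  obtain ⟨n, e, -⟩ := hn
  refine ⟨.comp APT.serP (.comp (APT.mkV n (e k₀)) (.comp (APT.tl n e P)
    (.comp (APT.getI (e k₀)) APT.parP))),
    Polynomial.C (4 * n + 100) + Polynomial.C 400 * Polynomial.X +
      Polynomial.C (APT.cc n + 200) * T, fun a => ?_⟩
  obtain ⟨t, ht, hr⟩ := h a
  have h1 := APT.serP_spec (enc a)
  have h2 := APT.mkV_spec n (e k₀) (tr (enc a).ser) (e k₀).2
  have h3 := (APT.sim n e hr).2.1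
  rw [APT.vs_single, APT.vs_single] at h3
  have h4 := APT.getI_spec (e k₀) n (Function.update (fun _ => BT.leaf) (e k₀) (tr (PolyTime.code (f a))))
    (e k₀).2
  rw [Function.update_self] at h4
  have h5 := APT.parP_spec (enc (f a))
  have hs : (enc (f a)).size ≤ (enc a).size + t := by
    have := hr.length_le k₀
    rw [single_self, single_self] at this
    exact this
  have hk := (e k₀).2
  refine (h1.comp (h2.comp (h3.comp (h4.comp h5)))).mono ?_
  have e1 : (APT.cc n + 200) * t ≤ (APT.cc n + 200) * T.eval (size a) :=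
    Nat.mul_le_mul_left _ ht
  have e2 : (APT.cc n + 200) * t = APT.cc n * t + 200 * t := Nat.add_mul _ _ _
  have e3 : size a = (enc a).size := rfl
  simp only [Polynomial.eval_add, Polynomial.eval_mul, Polynomial.eval_C, Polynomial.eval_X]
  rw [e3] at e1 ⊢
  omega

end Pool.Agent.Lib.MP_33f9c4_lc.K
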