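import Pool.Agent.Lib.MP_33f9c4_lc.K.APT
import Pool.Agent.Lib.MP_33f9c4_lc.Univ
import Pool.Agent.Lib.MP_33f9c4_lc.Mpt

set_option autoImplicit false

/-!
MODULE ATM. Languages in P (Turing machines of Mathlib) are decided by tree programs in polynomial time.

`InP A` (Pool/Agent/Lib/MP_33f9c4_lc/Defs.lean) gives a `Machine` (`TM2ComputableAux Bool Bool`) `M` and a polynomial
`p` with `Outputs M x [decide (x ∈ A)] (p |x|)`. `exists_table M` (Pool/Agent/Lib/MP_33f9c4_lc/Univ.lean): a table `T` and `c` with
a halting time `s ≤ c (t + 1)`, `mout (mstep^[s] (minit T x)) = [decide ..]`; a final configuration is fixed by `mstep`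
(`mfin c = true → mstep c = c`), so `s` may be replaced by `c (p |x| + 1)`. So
`decide (x ∈ A) = ((mout (mstep^[c * (p.eval |x| + 1)] (minit T x))).head? == some true)`, and this is `PT`: `pt_mstep`,
`pt_mout`, `pt_minit` (Mpt.lean), `PT.iterate` with the bound `size_mstep_iter`; evaluation of a fixed polynomial at
a unary number is `PT` (induction on the polynomial, or look for an existing lemma: `grep -rn eval Pool/Agent/Lib/PolyTime`,
Pool/Agent/Lib/MP_33f9c4_lc/Proc.lean). Then `PT.tp`, and `size x ≤ 4 |x| + 1` (`size_bools_le` in PolyTime/BinNat).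
-/

namespace Pool.Agent.Lib.MP_33f9c4_lc.K

open Pool.Agent.Lib.PolyTime

theorem atm_pt_eval {α : Type} [Enc α] (q : Polynomial ℕ) {f : α → ℕ} (hf : PT f) :
    PT (fun a => q.eval (f a)) := by
  induction q using Polynomial.induction_on' with
  | add p q hp hq => exact (PT.add hp hq).congr (fun a => by rw [Polynomial.eval_add])
  | monomial n c =>
    have h : PT (fun a => f a ^ n) := by
      induction n with
      | zero => exact (PT.const 1).congr (fun a => (pow_zero _).symm)
      | succ n ih => exact (PT.mul ih hf).congr (fun a => (pow_succ _ _).symm)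
    exact (PT.mulConst h c).congr (fun a => by rw [Polynomial.eval_monomial])

open Classical in
theorem atm_run {A : Set (List Bool)} (h : InP A) : ∃ (T : Tbl) (q : Polynomial ℕ),
    ∀ x : List Bool, mout (mstep^[q.eval x.length] (minit T x)) = [decide (x ∈ A)] := by
  obtain ⟨h⟩ := h
  obtain ⟨T, c, hT⟩ := exists_table h.toTM2ComputableAux
  refine ⟨T, Polynomial.C c * (h.time + 1), fun x => ?_⟩
  have ho : Outputs h.toTM2ComputableAux x [decide (x ∈ A)] (h.time.eval x.length) :=
    ⟨h.outputsFun x⟩
  obtain ⟨s, hs, hfin, -, hout⟩ := hT x _ _ ho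
  have e1 : (Polynomial.C c * (h.time + 1)).eval x.length = c * (h.time.eval x.length + 1) := by
    simp
  obtain ⟨k, hk⟩ : ∃ k, c * (h.time.eval x.length + 1) = k + s := ⟨_, (Nat.sub_add_cancel hs).symm⟩
  rw [e1, hk, Function.iterate_add_apply,
    Function.iterate_fixed (UV.mstep_of_mfin hfin)]
  exact hout

theorem atm_pt_out (T : Tbl) (q : Polynomial ℕ) :
    PT (fun x : List Bool => mout (mstep^[q.eval x.length] (minit T x))) := by
  obtain ⟨q2, hq2⟩ := size_mstep_iter
  have hi : PT (fun x : List Bool => minit T x) :=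
    pt_minit.comp (PT.pair (PT.const T) PT.id)
  obtain ⟨p, hp⟩ := hi.size_le
  have hf : PT (fun x : List Bool => q.eval x.length) := atm_pt_eval q (PT.length PT.id)
  have hit : PT (fun x : List Bool => (mstep)^[q.eval x.length] (minit T x)) := by
    refine PT.iterate (f := fun x : List Bool => q.eval x.length)
      (init := fun x : List Bool => minit T x) (step := fun _ c => mstep c) hf hi
      (pt_mstep.comp PT.snd) (B := fun n => q2.eval (p.eval n + q.eval n))
      (PB.comp q2 ((PB.poly p).add (PB.poly q))) ?_
    intro a i hia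
    refine (hq2 (minit T a) i).trans (eval_mono q2 ?_)
    have h1 := hp a
    have h2 : q.eval a.length ≤ q.eval (size a) := eval_mono q (length_le_size a)
    omega
  exact pt_mout.comp hit

open Classical in
theorem pt_of_inP {A : Set (List Bool)} (h : InP A) : PT (fun x : List Bool => decide (x ∈ A)) := by
  obtain ⟨T, q, hTq⟩ := atm_run h
  refine ((PT.eqConst [true]).comp (atm_pt_out T q)).congr (fun x => ?_)
  simp only [hTq x]
  by_cases hx : x ∈ A
  · simp [hx]
  · simp [hx]

open Classical in
theorem inP_tp {A : Set (List Bool)} (h : InP A) :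
    ∃ (M : TP) (Q : Polynomial ℕ), ∀ x : List Bool,
      R M (enc x) (enc (decide (x ∈ A))) (Q.eval x.length) := by
  obtain ⟨P, Q, hPQ⟩ := PT.tp (pt_of_inP h)
  refine ⟨P, Q.comp (4 * Polynomial.X + 1), fun x => (hPQ x).mono ?_⟩
  have h1 : size x ≤ 4 * x.length + 1 := by
    induction x with
    | nil => simp
    | cons b l ih =>
      have h2 : size b ≤ 3 := by cases b <;> decide
      rw [size_cons, List.length_cons]; omega
  have h2 : (Q.comp (4 * Polynomial.X + 1)).eval x.length = Q.eval (4 * x.length + 1) := by
    simp [Polynomial.eval_comp]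
  rw [h2]
  exact eval_mono Q h1

end Pool.Agent.Lib.MP_33f9c4_lc.K
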