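import Mathlib

/-!
# MODULE AvgG (abstract). From total masses to many good points

`m, μ : ι → ℝ` nonnegative on the finite set `J`; `a = ∑ m`, `b = ∑ μ`; `a ≥ 256 x b` (`x > 0`),
every `m i ≤ c`, `c > 0`. Then at least `a/(2c)` of the `i ∈ J` satisfy `m i ≥ 64 x μ i` and
`m i ≥ a/(4 |J|)`.

PROOF. The `i` with `m i < 64 x μ i` contribute at most `64 x b ≤ a/4` to `a`, those with
`m i < a/(4|J|)` at most `a/4`. The others contribute at least `a/2`, each at most `c`.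
-/

namespace Pool.Agent.Lib.MP_33f9c4_lc.LK

open Finset

theorem avgG {ι : Type*} [DecidableEq ι] (J : Finset ι) (m μ : ι → ℝ) (x c : ℝ) (hx : 0 < x)
    (hc : 0 < c) (hm : ∀ i ∈ J, 0 ≤ m i) (hμ : ∀ i ∈ J, 0 ≤ μ i) (hmc : ∀ i ∈ J, m i ≤ c)
    (h : 256 * x * ∑ i ∈ J, μ i ≤ ∑ i ∈ J, m i) :
    (∑ i ∈ J, m i) / (2 * c) ≤
      #{i ∈ J | 64 * x * μ i ≤ m i ∧ (∑ i ∈ J, m i) / (4 * #J) ≤ m i} := by
  set a := ∑ i ∈ J, m i with ha
  have ha0 : 0 ≤ a := sum_nonneg hm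
  -- every term is at most `c * 1[good] + 64 x μ + a / (4 |J|)`
  have h1 : a ≤ ∑ i ∈ J, ((if 64 * x * μ i ≤ m i ∧ a / (4 * #J) ≤ m i then c else 0)
      + 64 * x * μ i + a / (4 * #J)) := by
    refine sum_le_sum fun i hi => ?_
    have h2 : 0 ≤ 64 * x * μ i := mul_nonneg (by positivity) (hμ i hi)
    have h3 : 0 ≤ a / (4 * #J) := by positivity
    split_ifs with h4
    · have := hmc i hi
      linarith
    · rw [not_and_or, not_le, not_le] at h4
      rcases h4 with h4 | h4 <;> linarith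
  rw [sum_add_distrib, sum_add_distrib, ← sum_filter, sum_const, sum_const, ← mul_sum,
    nsmul_eq_mul, nsmul_eq_mul] at h1
  have h5 : (#J : ℝ) * (a / (4 * #J)) ≤ a / 4 := by
    rcases Nat.eq_zero_or_pos #J with h6 | h6
    · rw [h6]
      simp only [Nat.cast_zero, zero_mul]
      linarith
    · have h7 : (0 : ℝ) < #J := by exact_mod_cast h6
      exact le_of_eq (by field_simp)
  rw [div_le_iff₀ (by positivity)]
  nlinarith

/-- Choice of a portion: nonnegative `H u`, `M u` with sums `H` and `M`, `H > 0`: some `u` has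
`H u ≥ H/(4 M) * M u` and `H u ≥ H/(4 |J|)`. (Form without division.) PROOF. The `u` violating the first
inequality contribute less than or equal to `H/4`, those violating the second at most `H/4`; the sum
of all is `H > H/2`. -/
theorem choosePortion {ι : Type*} (J : Finset ι) (H M : ι → ℕ) (hH : 0 < ∑ u ∈ J, H u) :
    ∃ u ∈ J, (∑ v ∈ J, H v) * M u ≤ 4 * (∑ v ∈ J, M v) * H u ∧
      ∑ v ∈ J, H v ≤ 4 * #J * H u := by
  by_contra hcon
  push Not at hcon
  set S := ∑ v ∈ J, H v with hS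
  set T := ∑ v ∈ J, M v with hT
  set n := #J with hn
  -- `4 T n H u ≤ n S M u + T S` for all `u`
  have h1 : ∀ u ∈ J, 4 * T * n * H u ≤ n * S * M u + T * S := by
    intro u hu
    by_cases h2 : S * M u ≤ 4 * T * H u
    · have h3 := hcon u hu h2
      have h4 : T * (4 * n * H u) ≤ T * S := Nat.mul_le_mul_left _ h3.le
      nlinarith [Nat.zero_le (n * S * M u)]
    · push Not at h2
      have h4 : n * (4 * T * H u) ≤ n * (S * M u) := Nat.mul_le_mul_left _ h2.le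
      nlinarith [Nat.zero_le (T * S)]
  have h5 := sum_le_sum h1
  rw [← mul_sum, sum_add_distrib, ← mul_sum, sum_const, smul_eq_mul, ← hS, ← hT, ← hn] at h5
  -- `4 T n S ≤ n S T + n T S`
  have h6 : T * n * S = 0 := by nlinarith [Nat.zero_le (T * n * S)]
  have hS0 : S ≠ 0 := hH.ne'
  have hne : J.Nonempty := by
    rw [nonempty_iff_ne_empty]
    rintro rfl
    simp [hS] at hS0
  have hn0 : n ≠ 0 := by
    rw [hn]
    exact (card_pos.2 hne).ne'
  have hT0 : T = 0 := by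
    rcases Nat.mul_eq_zero.1 h6 with h7 | h7
    · rcases Nat.mul_eq_zero.1 h7 with h8 | h8
      · exact h8
      · exact absurd h8 hn0
    · exact absurd h7 hS0
  -- all `M u = 0`
  have h8 : ∀ u ∈ J, M u = 0 := by
    intro u hu
    have : M u ≤ T := single_le_sum (fun _ _ => Nat.zero_le _) hu
    omega
  have h9 : ∀ u ∈ J, 4 * n * H u ≤ S := by
    intro u hu
    refine (hcon u hu ?_).le
    rw [h8 u hu]
    simp
  have h10 := sum_le_sum h9
  rw [← mul_sum, sum_const, smul_eq_mul, ← hS, ← hn] at h10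
  have h11 : 0 < n * S := Nat.mul_pos (Nat.pos_of_ne_zero hn0) hH
  nlinarith

/-- Independent choice of two elements (the walk). `F` a finite set, `wt` nonnegative weights;
sum at most `1`; `Ga, Gb ⊆ F` of weight at least `1/2`; `ia, jb : F → C`; for every `c : C` the
`f ∈ F` with `¬ Sa f c` (respectively `¬ Sb f c`) have weight at most `1/8`. Then there are `f ∈ Ga`,
`g ∈ Gb` with `Sa f (jb g)` and `Sb g (ia f)`. PROOF. In `Ga × Gb` (weight at least `1/4`) the pairs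
with `¬ Sa f (jb g)` have weight at most `∑_{g ∈ Gb} wt g / 8 = wt(Gb) / 8`, and
those with `¬ Sb g (ia f)` at most `wt(Ga)/8`; `wt(Ga) wt(Gb) ≥ (1/2) wt(Gb)`, so half of it
`≥ wt(Gb)/4 > wt(Gb)/8`, and likewise for `Ga`; so the bad pairs have weight
`≤ wt(Gb)/8 + wt(Ga)/8 ≤ wt(Ga) wt(Gb)/4 + wt(Ga) wt(Gb)/4 < wt(Ga) wt(Gb)`. -/
theorem twoChoice {F C : Type*} [DecidableEq F] (U : Finset F) (wt : F → ℝ)
    (h0 : ∀ f ∈ U, 0 ≤ wt f) (Ga Gb : Finset F) (hGa : Ga ⊆ U) (hGb : Gb ⊆ U)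
    (ha : 1 / 2 ≤ ∑ f ∈ Ga, wt f) (hb : 1 / 2 ≤ ∑ f ∈ Gb, wt f) (ia jb : F → C)
    (Sa Sb : F → C → Prop) [∀ f c, Decidable (Sa f c)] [∀ f c, Decidable (Sb f c)]
    (hSa : ∀ g ∈ Gb, ∑ f ∈ U with ¬ Sa f (jb g), wt f ≤ 1 / 8)
    (hSb : ∀ f ∈ Ga, ∑ g ∈ U with ¬ Sb g (ia f), wt g ≤ 1 / 8) :
    ∃ f ∈ Ga, ∃ g ∈ Gb, Sa f (jb g) ∧ Sb g (ia f) := by
  by_contra hcon
  push Not at hcon
  set A := ∑ f ∈ Ga, wt f with hA
  set B := ∑ f ∈ Gb, wt f with hB
  -- `A B = ∑_{f, g} wt f wt g ≤ bad1 + bad2`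
  have h1 : A * B ≤ ∑ f ∈ Ga, ∑ g ∈ Gb, ((if ¬ Sa f (jb g) then wt f * wt g else 0)
      + (if ¬ Sb g (ia f) then wt f * wt g else 0)) := by
    rw [hA, hB, sum_mul_sum]
    refine sum_le_sum fun f hf => sum_le_sum fun g hg => ?_
    have h2 : 0 ≤ wt f * wt g := mul_nonneg (h0 f (hGa hf)) (h0 g (hGb hg))
    by_cases h3 : Sa f (jb g)
    · have h4 := hcon f hf g hg h3
      rw [if_pos h4]
      split_ifs <;> linarith
    · rw [if_pos h3]
      split_ifs <;> linarith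
  have h2 : ∑ f ∈ Ga, ∑ g ∈ Gb, (if ¬ Sa f (jb g) then wt f * wt g else 0) ≤ B * (1 / 8) := by
    rw [sum_comm, hB, sum_mul]
    refine sum_le_sum fun g hg => ?_
    have h3 : ∑ f ∈ Ga, (if ¬ Sa f (jb g) then wt f * wt g else 0)
        = wt g * ∑ f ∈ Ga with ¬ Sa f (jb g), wt f := by
      rw [mul_sum, sum_filter]
      refine sum_congr rfl fun f _ => ?_
      split_ifs <;> ring
    rw [h3]
    refine mul_le_mul_of_nonneg_left ?_ (h0 g (hGb hg))
    refine le_trans ?_ (hSa g hg)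
    exact sum_le_sum_of_subset_of_nonneg (filter_subset_filter _ hGa)
      (fun f hf _ => h0 f (mem_of_mem_filter f hf))
  have h3 : ∑ f ∈ Ga, ∑ g ∈ Gb, (if ¬ Sb g (ia f) then wt f * wt g else 0) ≤ A * (1 / 8) := by
    rw [hA, sum_mul]
    refine sum_le_sum fun f hf => ?_
    have h4 : ∑ g ∈ Gb, (if ¬ Sb g (ia f) then wt f * wt g else 0)
        = wt f * ∑ g ∈ Gb with ¬ Sb g (ia f), wt g := by
      rw [mul_sum, sum_filter]
    rw [h4]
    refine mul_le_mul_of_nonneg_left ?_ (h0 f (hGa hf))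
    refine le_trans ?_ (hSb f hf)
    exact sum_le_sum_of_subset_of_nonneg (filter_subset_filter _ hGb)
      (fun g hg _ => h0 g (mem_of_mem_filter g hg))
  simp only [sum_add_distrib] at h1
  nlinarith

end Pool.Agent.Lib.MP_33f9c4_lc.LK
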