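import Pool.Agent.Lib.MP_33f9c4_lc.K.Def

/-!
# MODULE Bl. The set of the bit lists of length `N`

Elementary. `allL N` has no repetitions, its elements are exactly the lists of length `N`. Splitting:
`bl (a + b)` is in bijection with `bl a ×ˢ bl b` by `++` (inverse: take, drop).
-/

namespace Pool.Agent.Lib.MP_33f9c4_lc.LK

open Finset

theorem mem_allL (N : ℕ) (y : List Bool) : y ∈ allL N ↔ y.length = N := by
  induction N generalizing y with
  | zero => simp [allL]
  | succ N ih =>
    simp only [allL, List.mem_append, List.mem_map]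
    constructor
    · rintro (⟨z, hz, rfl⟩ | ⟨z, hz, rfl⟩)
      · simp [(ih z).1 hz]
      · simp [(ih z).1 hz]
    · intro h
      cases y with
      | nil => simp at h
      | cons c y =>
        have hy : y ∈ allL N := (ih y).2 (by simpa using h)
        cases c
        · exact .inl ⟨y, hy, rfl⟩
        · exact .inr ⟨y, hy, rfl⟩

theorem nodup_allL (N : ℕ) : (allL N).Nodup := by
  induction N with
  | zero => simp [allL]
  | succ N ih =>
    simp only [allL]
    refine List.Nodup.append (ih.map (fun x y h => (List.cons.inj h).2))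
      (ih.map (fun x y h => (List.cons.inj h).2)) ?_
    intro x hx hy
    simp only [List.mem_map] at hx hy
    obtain ⟨a, -, rfl⟩ := hx
    obtain ⟨b, -, h⟩ := hy
    exact absurd (List.cons.inj h).1 (by simp)

theorem length_allL (N : ℕ) : (allL N).length = 2 ^ N := by
  induction N with
  | zero => simp [allL]
  | succ N ih => simp only [allL, List.length_append, List.length_map, ih, pow_succ]; ring

/-- the bit lists of length `N` -/
def bl (N : ℕ) : Finset (List Bool) := (allL N).toFinset

theorem mem_bl {N : ℕ} {y : List Bool} : y ∈ bl N ↔ y.length = N := by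
  rw [bl, List.mem_toFinset, mem_allL]

theorem card_bl (N : ℕ) : #(bl N) = 2 ^ N := by
  rw [bl, List.toFinset_card_of_nodup (nodup_allL N), length_allL]

theorem sum_allL (N : ℕ) (f : List Bool → ℕ) : ((allL N).map f).sum = ∑ y ∈ bl N, f y := by
  rw [bl, List.sum_toFinset _ (nodup_allL N)]

theorem countP_allL (N : ℕ) (f : List Bool → Bool) :
    (allL N).countP f = #{y ∈ bl N | f y = true} := by
  have h : ({y ∈ bl N | f y = true} : Finset (List Bool)) = ((allL N).filter f).toFinset := by
    ext y
    simp [bl]
  rw [h, List.toFinset_card_of_nodup ((nodup_allL N).filter _), List.countP_eq_length_filter]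

theorem sum_bl_add {M : Type*} [AddCommMonoid M] (a b : ℕ) (f : List Bool → M) :
    ∑ y ∈ bl (a + b), f y = ∑ u ∈ bl a, ∑ v ∈ bl b, f (u ++ v) := by
  rw [← sum_product' (bl a) (bl b) (fun u v => f (u ++ v))]
  refine (sum_nbij' (fun x : List Bool × List Bool => x.1 ++ x.2)
    (fun y => (y.take a, y.drop a)) ?_ ?_ ?_ ?_ ?_).symm
  · rintro ⟨u, v⟩ h
    rw [mem_product, mem_bl, mem_bl] at h
    rw [mem_bl, List.length_append, h.1, h.2]
  · intro y hy
    rw [mem_bl] at hy
    rw [mem_product, mem_bl, mem_bl, List.length_take, List.length_drop]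
    omega
  · rintro ⟨u, v⟩ h
    rw [mem_product, mem_bl, mem_bl] at h
    have h1 : u.length = a := h.1
    simp only [Prod.mk.injEq]
    exact ⟨by rw [← h1, List.take_left], by rw [← h1, List.drop_left]⟩
  · intro y _
    simp
  · rintro ⟨u, v⟩ _
    rfl

/-- number of lists with a property of the first part and a property of the second part -/
theorem card_bl_add (a b : ℕ) (p q : List Bool → Prop) [DecidablePred p] [DecidablePred q] :
    #{y ∈ bl (a + b) | p (y.take a) ∧ q (y.drop a)} = #{u ∈ bl a | p u} * #{v ∈ bl b | q v} := by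
  rw [card_filter, sum_bl_add, card_filter, card_filter, sum_mul_sum]
  refine sum_congr rfl fun u hu => sum_congr rfl fun v _ => ?_
  rw [mem_bl] at hu
  rw [← hu, List.take_left, List.drop_left]
  by_cases h1 : p u <;> by_cases h2 : q v <;> simp [h1, h2]

/-- the number of lists of length `N` with a given prefix -/
theorem card_prefix (N : ℕ) (v : List Bool) (h : v.length ≤ N) :
    #{y ∈ bl N | v <+: y} = 2 ^ (N - v.length) := by
  obtain ⟨m, rfl⟩ := Nat.exists_eq_add_of_le h
  have h1 : #{y ∈ bl (v.length + m) | v <+: y}
      = #{y ∈ bl (v.length + m) | y.take v.length = v ∧ (fun _ : List Bool => True) (y.drop v.length)} := by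
    congr 1
    refine filter_congr fun y _ => ?_
    constructor
    · rintro ⟨t, rfl⟩
      simp
    · rintro ⟨h2, -⟩
      have h3 := List.take_append_drop v.length y
      rw [h2] at h3
      exact ⟨y.drop v.length, h3⟩
  rw [h1, card_bl_add v.length m (fun u => u = v) (fun _ => True)]
  have h2 : ({u ∈ bl v.length | u = v} : Finset (List Bool)) = {v} := by
    ext u
    rw [mem_filter, mem_bl, mem_singleton]
    constructor
    · exact fun h => h.2
    · rintro rfl
      exact ⟨rfl, rfl⟩
  rw [h2, card_singleton, one_mul, filter_true, card_bl]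
  congr 1
  omega

end Pool.Agent.Lib.MP_33f9c4_lc.LK
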