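import Pool.Agent.Lib.PolyTime
import Pool.Agent.Lib.PolyTime.Lists

/-!
# Part C, generic polynomial time functions

Division, remainder, powers, prefixes, bit lists, values of bit lists, sums.
-/

set_option autoImplicit false
set_option linter.unusedSectionVars false

namespace Pool.Agent.Lib.MP_33f9c4_lc.K

open Pool.Agent.Lib.PolyTime

variable {α β γ σ : Type} [Enc α] [Enc β] [Enc γ] [Enc σ]

/-! ### Bounds -/

/-- A function whose sizes are bounded by a polynomial in the size of the argument. -/
def SB {δ : Type} [Enc δ] (f : α → δ) : Prop := ∃ q : Polynomial ℕ, ∀ a, size (f a) ≤ q.eval (size a)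

/-- A number which is bounded by a polynomial in the size of the argument. -/
def NB (f : α → ℕ) : Prop := ∃ q : Polynomial ℕ, ∀ a, f a ≤ q.eval (size a)

theorem NB.of_pt {f : α → ℕ} (hf : PT f) : NB f := by
  obtain ⟨p, hp⟩ := hf.size_le
  refine ⟨p, fun a => ?_⟩
  have := hp a
  rw [size_nat] at this
  omega

theorem NB.le {f g : α → ℕ} (hg : NB g) (h : ∀ a, f a ≤ g a) : NB f := by
  obtain ⟨p, hp⟩ := hg
  exact ⟨p, fun a => (h a).trans (hp a)⟩

theorem NB.add {f g : α → ℕ} (hf : NB f) (hg : NB g) : NB (fun a => f a + g a) := by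
  obtain ⟨p, hp⟩ := hf
  obtain ⟨q, hq⟩ := hg
  exact ⟨p + q, fun a => by rw [Polynomial.eval_add]; exact Nat.add_le_add (hp a) (hq a)⟩

theorem NB.mul {f g : α → ℕ} (hf : NB f) (hg : NB g) : NB (fun a => f a * g a) := by
  obtain ⟨p, hp⟩ := hf
  obtain ⟨q, hq⟩ := hg
  exact ⟨p * q, fun a => by rw [Polynomial.eval_mul]; exact Nat.mul_le_mul (hp a) (hq a)⟩

theorem NB.const (c : ℕ) : NB (fun _ : α => c) := ⟨Polynomial.C c, fun a => by simp⟩

theorem NB.pow {f : α → ℕ} (hf : NB f) (k : ℕ) : NB (fun a => f a ^ k) := by
  obtain ⟨p, hp⟩ := hf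
  exact ⟨p ^ k, fun a => by rw [Polynomial.eval_pow]; exact Nat.pow_le_pow_left (hp a) k⟩

theorem NB.size : NB (fun a : α => size a) := ⟨Polynomial.X, fun a => by simp⟩

theorem NB.comp {f : β → ℕ} {g : α → β} (hf : NB f) (hg : PT g) : NB (fun a => f (g a)) := by
  obtain ⟨p, hp⟩ := hf
  obtain ⟨q, hq⟩ := hg.size_le
  exact ⟨p.comp q, fun a => by
    rw [Polynomial.eval_comp]; exact (hp _).trans (eval_mono p (hq a))⟩

theorem NB.size_of {f : α → β} (hf : PT f) : NB (fun a => PolyTime.size (f a)) :=
  NB.comp NB.size hf

/-- Recursion on lists with a bound on the intermediate results. -/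
theorem pt_foldl {f : α → List β} {init : α → σ} {step : α → σ → β → σ} (hf : PT f)
    (hi : PT init) (hs : PT (fun x : α × (σ × β) => step x.1 x.2.1 x.2.2))
    {B : α → ℕ} (hBp : NB B)
    (hB : ∀ (a : α) (l' : List β), l' <+: f a → size (l'.foldl (step a) (init a)) ≤ B a) :
    PT (fun a => (f a).foldl (step a) (init a)) := by
  obtain ⟨q, hq⟩ := hBp
  exact PT.foldl hf hi hs (B := fun n => q.eval n) (PB.poly q)
    (fun a l' hl' => (hB a l' hl').trans (hq a))

/-- Iteration with a bound on the intermediate results. -/
theorem pt_iterate {f : α → ℕ} {init : α → σ} {step : α → σ → σ} (hf : PT f) (hi : PT init)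
    (hs : PT (fun x : α × σ => step x.1 x.2)) {B : α → ℕ} (hBp : NB B)
    (hB : ∀ (a : α) (i : ℕ), i ≤ f a → size ((step a)^[i] (init a)) ≤ B a) :
    PT (fun a => (step a)^[f a] (init a)) := by
  obtain ⟨q, hq⟩ := hBp
  exact PT.iterate hf hi hs (B := fun n => q.eval n) (PB.poly q)
    (fun a i hi => (hB a i hi).trans (hq a))

/-- Recursion on lists with an invariant. -/
theorem pt_foldl_inv {f : α → List β} {init : α → σ} {step : α → σ → β → σ} (hf : PT f)
    (hi : PT init) (hs : PT (fun x : α × (σ × β) => step x.1 x.2.1 x.2.2))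
    (I : α → σ → Prop) (h0 : ∀ a, I a (init a))
    (h1 : ∀ a s b, I a s → b ∈ f a → I a (step a s b))
    {B : α → ℕ} (hBp : NB B) (hB : ∀ a s, I a s → size s ≤ B a) :
    PT (fun a => (f a).foldl (step a) (init a)) := by
  refine pt_foldl hf hi hs hBp (fun a l' hl' => hB a _ ?_)
  have key : ∀ (l : List β) (s : σ), I a s → (∀ b ∈ l, b ∈ f a) → I a (l.foldl (step a) s) := by
    intro l
    induction l with
    | nil => intro s hs _; exact hs
    | cons b l ih =>
      intro s hs hl
      rw [List.foldl_cons]
      exact ih _ (h1 a s b hs (hl b List.mem_cons_self))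
        (fun c hc => hl c (List.mem_cons_of_mem _ hc))
  exact key l' _ (h0 a) (fun b hb => hl'.subset hb)

/-! ### Numbers -/

theorem mod_iter (m : ℕ) : ∀ i : ℕ, (fun r => if r + 1 = m then 0 else r + 1)^[i] 0 = i % m := by
  intro i
  induction i with
  | zero => simp
  | succ i ih =>
    rw [Function.iterate_succ_apply', ih]
    rcases Nat.eq_zero_or_pos m with rfl | hm
    · simp
    · have h1 : (i + 1) % m = (i % m + 1) % m := (Nat.mod_add_mod i m 1).symm
      have h2 : i % m < m := Nat.mod_lt _ hm
      by_cases h : i % m + 1 = m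
      · rw [if_pos h, h1, h, Nat.mod_self]
      · rw [if_neg h, h1, Nat.mod_eq_of_lt (by omega : i % m + 1 < m)]

theorem pt_mod {f g : α → ℕ} (hf : PT f) (hg : PT g) : PT (fun a => f a % g a) := by
  have h := pt_iterate (f := f) (init := fun _ => 0)
    (step := fun a r => if r + 1 = g a then 0 else r + 1) hf (PT.const 0)
    (PT.ite (c := fun x : α × ℕ => x.2 + 1 = g x.1) (PT.eq PT.snd.succ (hg.comp PT.fst))
      (PT.const 0) PT.snd.succ) (B := fun a => size (f a)) (NB.size_of hf) (by
      intro a i hi
      rw [mod_iter]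
      rw [size_nat, size_nat]
      have h2 := Nat.mod_le i (g a)
      omega)
  exact h.congr (fun a => mod_iter _ _)

theorem pt_div {f g : α → ℕ} (hf : PT f) (hg : PT g) : PT (fun a => f a / g a) := by
  have h : PT (fun a => ((List.range (f a)).filter
      (fun i => decide (0 < g a ∧ (i + 1) * g a ≤ f a))).length) := by
    refine PT.length (PT.filter (p := fun a i => decide (0 < g a ∧ (i + 1) * g a ≤ f a))
      (PT.range hf) ?_)
    refine ((PT.lt (PT.const 0) (hg.comp PT.fst)).and
      (PT.le (PT.mul PT.snd.succ (hg.comp PT.fst)) (hf.comp PT.fst))).congr (fun x => ?_)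
    simp
  refine h.congr (fun a => ?_)
  rcases Nat.eq_zero_or_pos (g a) with h0 | h0
  · simp [h0]
  · have h1 : ((List.range (f a)).filter (fun i => decide (0 < g a ∧ (i + 1) * g a ≤ f a))) =
        ((List.range (f a)).filter (fun i => decide (i < f a / g a))) := by
      refine List.filter_congr (fun i _ => ?_)
      have : (0 < g a ∧ (i + 1) * g a ≤ f a) ↔ i < f a / g a := by
        rw [← Nat.succ_le_iff (m := i), Nat.le_div_iff_mul_le h0]
        exact ⟨fun h => h.2, fun h => ⟨h0, h⟩⟩
      exact decide_eq_decide.mpr this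
    have h2 : ∀ m n : ℕ, m ≤ n → ((List.range n).filter (fun i => decide (i < m))).length = m := by
      intro m n
      induction n with
      | zero => intro h; simp; omega
      | succ n ih =>
        intro h
        rw [List.range_succ, List.filter_append, List.length_append]
        rcases Nat.lt_or_ge n m with h3 | h3
        · have : m = n + 1 := by omega
          subst this
          have h4 : (List.range n).filter (fun i => decide (i < n + 1)) = List.range n := by
            rw [List.filter_eq_self]
            intro i hi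
            rw [List.mem_range] at hi
            simp; omega
          rw [h4]
          simp
        · rw [ih h3]
          simp; omega
    rw [h1]
    exact h2 _ _ (Nat.div_le_self _ _)

theorem pow_iter (b : ℕ) (i : ℕ) : (fun s => s * b)^[i] 1 = b ^ i := by
  induction i with
  | zero => rfl
  | succ i ih => rw [Function.iterate_succ_apply', ih, pow_succ]

theorem pt_pow {f g : α → ℕ} (hf : PT f) (hg : PT g) (hB : NB (fun a => f a ^ g a)) :
    PT (fun a => f a ^ g a) := by
  have h := pt_iterate (f := g) (init := fun _ => 1) (step := fun a s => s * f a) hg (PT.const 1)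
    (PT.mul PT.snd (hf.comp PT.fst)) (B := fun a => 2 * (f a ^ g a) + 3)
    (((NB.const 2).mul hB).add (NB.const 3)) (by
      intro a i hi
      rw [pow_iter, size_nat]
      rcases Nat.eq_zero_or_pos (f a) with h0 | h0
      · rw [h0]
        rcases Nat.eq_zero_or_pos i with h1 | h1
        · subst h1; simp
        · rw [zero_pow (by omega)]; omega
      · have := Nat.pow_le_pow_right h0 hi
        omega)
  exact h.congr (fun a => pow_iter _ _)

theorem pt_powC {f : α → ℕ} (hf : PT f) (k : ℕ) : PT (fun a => f a ^ k) :=
  pt_pow hf (PT.const k) ((NB.of_pt hf).pow k)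

theorem pt_max {f g : α → ℕ} (hf : PT f) (hg : PT g) : PT (fun a => max (f a) (g a)) :=
  (PT.ite (c := fun a => f a ≤ g a) (PT.le hf hg) hg hf).congr (fun a => by
    rw [max_def])

theorem pt_min {f g : α → ℕ} (hf : PT f) (hg : PT g) : PT (fun a => min (f a) (g a)) :=
  (PT.ite (c := fun a => f a ≤ g a) (PT.le hf hg) hf hg).congr (fun a => by
    rw [min_def])

theorem pt_toNat {f : α → Bool} (hf : PT f) : PT (fun a => (f a).toNat) :=
  (PT.cond hf (PT.const 1) (PT.const 0)).congr (fun a => by cases f a <;> rfl)

/-! ### Lists -/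

theorem pt_take {f : α → ℕ} {g : α → List β} (hf : PT f) (hg : PT g) :
    PT (fun a => (g a).take (f a)) := by
  refine (PT.reverse (PT.drop (f := fun a => (g a).length - f a)
    (PT.sub (PT.length hg) hf) (PT.reverse hg))).congr (fun a => ?_)
  rw [← List.reverse_take, List.reverse_reverse]

theorem pt_replicate {f : α → ℕ} {g : α → β} (hf : PT f) (hg : PT g) :
    PT (fun a => List.replicate (f a) (g a)) :=
  (PT.map (g := fun a (_ : Unit) => g a) hf.replicateUnit (hg.comp PT.fst)).congr
    (fun a => by simp)

theorem pt_isPrefix [DecidableEq β] {f g : α → List β} (hf : PT f) (hg : PT g) :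
    PT (fun a => decide (f a <+: g a)) := by
  refine (PT.eq (pt_take (PT.length hf) hg) hf).congr (fun a => ?_)
  refine decide_eq_decide.mpr ?_
  rw [List.prefix_iff_eq_take]
  exact eq_comm

theorem pt_getD {f : α → List β} {g : α → ℕ} (b : β) (hf : PT f) (hg : PT g) :
    PT (fun a => (f a).getD (g a) b) := by
  refine (PT.optCases (f := fun a => (f a)[g a]?) (g := fun _ => b) (h := fun _ c => c)
    (PT.getElem? hg hf) (PT.const b) PT.snd).congr (fun a => ?_)
  rw [List.getD_eq_getElem?_getD]
  cases (f a)[g a]? <;> rfl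

theorem pt_headD {f : α → List β} {g : α → β} (hf : PT f) (hg : PT g) :
    PT (fun a => (f a).headD (g a)) :=
  (PT.listCases (g := g) (h := fun _ b _ => b) hf hg PT.snd.fst').congr
    (fun a => by cases f a <;> rfl)

theorem pt_sum {f : α → List ℕ} (hf : PT f) : PT (fun a => (f a).sum) := by
  obtain ⟨p, hp⟩ := hf.size_le
  have h := PT.foldl_add (f := f) (init := fun _ => 0) (step := fun _ s b => s + b) hf
    (PT.const 0) (PT.add PT.snd.fst' PT.snd.snd') (C := fun n => p.eval n) (PB.poly p) (by
      intro a s b hb
      have h1 := size_mem_lt hb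
      have h2 := hp a
      rw [size_nat] at h1
      rw [size_nat, size_nat]
      omega)
  refine h.congr (fun a => ?_)
  rw [← List.sum_eq_foldl]

theorem pt_sumMap {f : α → List β} {g : α → β → ℕ} (hf : PT f)
    (hg : PT (fun x : α × β => g x.1 x.2)) : PT (fun a => ((f a).map (g a)).sum) :=
  pt_sum (PT.map hf hg)

theorem pt_filterProp {f : α → List β} {p : α → β → Prop} [∀ a, DecidablePred (p a)] (hf : PT f)
    (hg : PT (fun x : α × β => decide (p x.1 x.2))) :
    PT (fun a => (f a).filter (fun b => decide (p a b))) :=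
  PT.filter (p := fun a b => decide (p a b)) hf hg

theorem pt_find {f : α → List β} {p : α → β → Bool} (hf : PT f)
    (hg : PT (fun x : α × β => p x.1 x.2)) : PT (fun a => (f a).find? (p a)) := by
  refine (PT.head? (PT.filter hf hg)).congr (fun a => ?_)
  rw [List.head?_filter]

theorem pt_beqBool {f g : α → Bool} (hf : PT f) (hg : PT g) : PT (fun a => f a == g a) :=
  (PT.eq hf hg).congr (fun a => by cases f a <;> cases g a <;> rfl)

theorem pt_zip {f : α → List β} {g : α → List γ} (hf : PT f) (hg : PT g) :
    PT (fun a => (f a).zip (g a)) := by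
  have h : PT (fun a => (List.range (min (f a).length (g a).length)).flatMap (fun i =>
      (((f a)[i]?).toList).flatMap (fun b => (((g a)[i]?).toList).map (fun c => (b, c))))) := by
    refine PT.flatMap (g := fun a i => (((f a)[i]?).toList).flatMap
      (fun b => (((g a)[i]?).toList).map (fun c => (b, c))))
      (PT.range (pt_min (PT.length hf) (PT.length hg))) ?_
    refine PT.flatMap (f := fun x : α × ℕ => ((f x.1)[x.2]?).toList)
      (g := fun x b => (((g x.1)[x.2]?).toList).map (fun c => (b, c)))
      (PT.toList (PT.getElem? PT.snd (hf.comp PT.fst))) ?_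
    exact PT.map (f := fun x : (α × ℕ) × β => ((g x.1.1)[x.1.2]?).toList)
      (g := fun x c => (x.2, c))
      (PT.toList (PT.getElem? PT.fst.snd' (hg.comp PT.fst.fst')))
      (PT.pair PT.fst.snd' PT.snd)
  refine h.congr (fun a => ?_)
  have key : ∀ (l : List β) (m : List γ), (List.range (min l.length m.length)).flatMap (fun i =>
      ((l[i]?).toList).flatMap (fun b => ((m[i]?).toList).map (fun c => (b, c)))) = l.zip m := by
    intro l
    induction l with
    | nil => intro m; simp
    | cons b l ih =>
      intro m
      cases m with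
      | nil => simp
      | cons c m =>
        rw [List.length_cons, List.length_cons, Nat.add_min_add_right, List.range_succ_eq_map,
          List.flatMap_cons, List.flatMap_map]
        simp only [List.getElem?_cons_zero, Option.toList_some, List.flatMap_singleton,
          List.map_cons, List.map_nil, List.getElem?_cons_succ, List.zip_cons_cons,
          List.cons_append, List.nil_append, List.cons.injEq, true_and]
        exact ih m
  exact key _ _

theorem pt_zipWith {δ : Type} [Enc δ] {f : α → List β} {g : α → List γ} {h : α → β → γ → δ}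
    (hf : PT f) (hg : PT g) (hh : PT (fun x : α × (β × γ) => h x.1 x.2.1 x.2.2)) :
    PT (fun a => List.zipWith (h a) (f a) (g a)) :=
  (PT.map (g := fun a (x : β × γ) => h a x.1 x.2) (pt_zip hf hg) hh).congr (fun a => by
    rw [List.zip, List.map_zipWith])

end Pool.Agent.Lib.MP_33f9c4_lc.K
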