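import Pool.Agent.Lib.MP_33f9c4_lc.K.C00
import Pool.Agent.Lib.PolyTime.BinNat

/-!
# Part C: bit lists, values of bit lists, Horner evaluation, kernel vectors
-/

set_option autoImplicit false
set_option linter.unusedSectionVars false

namespace Pool.Agent.Lib.MP_33f9c4_lc.K

open Pool.Agent.Lib.PolyTime

variable {α β γ σ : Type} [Enc α] [Enc β] [Enc γ] [Enc σ]

/-! ### Sizes of lists -/

theorem size_list_le' {S : ℕ} (l : List β) (n : ℕ) (hn : l.length ≤ n) (h : ∀ b ∈ l, size b ≤ S) :
    size l ≤ n * (S + 1) + 1 := by
  have h1 := size_list_le l h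
  have h2 := Nat.mul_le_mul_right (S + 1) hn
  omega

/-! ### All bit lists of a given length -/

/-- All bit lists of length `k`. -/
def bl : ℕ → List (List Bool)
  | 0 => [[]]
  | k + 1 => (bl k).flatMap (fun l => [false :: l, true :: l])

theorem length_of_mem_bl {k : ℕ} {l : List Bool} (h : l ∈ bl k) : l.length = k := by
  induction k generalizing l with
  | zero => simp [bl] at h; simp [h]
  | succ k ih =>
    simp only [bl, List.mem_flatMap, List.mem_cons, List.not_mem_nil, or_false] at h
    obtain ⟨m, hm, rfl | rfl⟩ := h <;> simp [ih hm]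

theorem mem_bl {k : ℕ} {l : List Bool} : l ∈ bl k ↔ l.length = k := by
  refine ⟨length_of_mem_bl, ?_⟩
  induction k generalizing l with
  | zero => intro h; simp [bl, List.length_eq_zero_iff.mp h]
  | succ k ih =>
    intro h
    cases l with
    | nil => simp at h
    | cons b l =>
      simp only [List.length_cons, Nat.add_right_cancel_iff] at h
      simp only [bl, List.mem_flatMap, List.mem_cons, List.not_mem_nil, or_false]
      exact ⟨l, ih h, by cases b <;> simp⟩

theorem length_bl (k : ℕ) : (bl k).length = 2 ^ k := by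
  induction k with
  | zero => rfl
  | succ k ih =>
    simp only [bl, List.length_flatMap, List.length_cons, List.length_nil]
    rw [List.map_const', List.sum_replicate, ih, pow_succ]
    rfl

theorem nodup_bl (k : ℕ) : (bl k).Nodup := by
  induction k with
  | zero => simp [bl]
  | succ k ih =>
    simp only [bl]
    rw [List.nodup_flatMap]
    refine ⟨fun l _ => by simp, ?_⟩
    refine ih.imp ?_
    intro l m hlm
    simp only [Function.onFun, List.disjoint_left]
    intro x hx hx'
    simp only [List.mem_cons, List.not_mem_nil, or_false] at hx hx'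
    rcases hx with rfl | rfl <;> rcases hx' with h | h <;> simp_all

theorem size_bl_le (k : ℕ) : size (bl k) ≤ 2 ^ k * (4 * k + 2) + 1 := by
  have := size_list_le' (S := 4 * k + 1) (bl k) (2 ^ k) (length_bl k).le (fun l hl => by
    have h1 := size_bools_le l
    rw [length_of_mem_bl hl] at h1
    exact h1)
  simpa using this

theorem bl_iter (k : ℕ) :
    (fun s : List (List Bool) => s.flatMap (fun l => [false :: l, true :: l]))^[k] [[]] = bl k := by
  induction k with
  | zero => rfl
  | succ k ih => rw [Function.iterate_succ_apply', ih]; rfl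

theorem pt_bl {f : α → ℕ} (hf : PT f) (hB : NB (fun a => 2 ^ f a)) : PT (fun a => bl (f a)) := by
  have h := pt_iterate (f := f) (init := fun _ => [[]])
    (step := fun _ (s : List (List Bool)) => s.flatMap (fun l => [false :: l, true :: l])) hf
    (PT.const _) (PT.flatMap (f := fun x : α × List (List Bool) => x.2)
      (g := fun _ l => [false :: l, true :: l]) PT.snd
      (PT.cons (PT.cons (PT.const false) PT.snd) (PT.list1 (PT.cons (PT.const true) PT.snd))))
    (B := fun a => 2 ^ f a * (4 * f a + 2) + 1)
    ((hB.mul (((NB.const 4).mul (NB.of_pt hf)).add (NB.const 2))).add (NB.const 1)) (by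
      intro a i hi
      rw [bl_iter]
      have h1 := size_bl_le i
      have h2 : 2 ^ i * (4 * i + 2) ≤ 2 ^ f a * (4 * f a + 2) :=
        Nat.mul_le_mul (Nat.pow_le_pow_right (by norm_num) hi) (by omega)
      omega)
  exact h.congr (fun a => bl_iter _)

/-! ### Values of bit lists -/

/-- The value of a bit list, most significant bit first. -/
def bval (l : List Bool) : ℕ := l.foldl (fun s b => 2 * s + b.toNat) 0

theorem bval_acc (l : List Bool) (s : ℕ) :
    l.foldl (fun s b => 2 * s + b.toNat) s = 2 ^ l.length * s + bval l := by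
  induction l generalizing s with
  | nil => simp [bval]
  | cons b l ih =>
    have h1 := ih (2 * s + b.toNat)
    have h2 := ih (2 * 0 + b.toNat)
    rw [List.foldl_cons, h1]
    have h3 : bval (b :: l) = 2 ^ l.length * (2 * 0 + b.toNat) + bval l := by
      rw [← h2]; rfl
    rw [h3, List.length_cons, pow_succ]
    ring

theorem bval_nil : bval [] = 0 := rfl

theorem bval_cons (b : Bool) (l : List Bool) : bval (b :: l) = 2 ^ l.length * b.toNat + bval l := by
  have := bval_acc l (2 * 0 + b.toNat)
  simpa [bval] using this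

theorem bval_append (l m : List Bool) : bval (l ++ m) = 2 ^ m.length * bval l + bval m := by
  have := bval_acc m (bval l)
  rw [← this, bval, List.foldl_append]
  rfl

theorem bval_lt (l : List Bool) : bval l < 2 ^ l.length := by
  induction l with
  | nil => simp [bval]
  | cons b l ih =>
    rw [bval_cons, List.length_cons, pow_succ]
    cases b <;> simp <;> omega

theorem pt_bval {f : α → List Bool} (hf : PT f) (hB : NB (fun a => 2 ^ (f a).length)) :
    PT (fun a => bval (f a)) := by
  refine pt_foldl (f := f) (init := fun _ => 0) (step := fun _ s b => 2 * s + b.toNat) hf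
    (PT.const 0) (PT.add (PT.mulConst PT.snd.fst' 2) (pt_toNat PT.snd.snd'))
    (B := fun a => 2 * 2 ^ (f a).length + 1) (((NB.const 2).mul hB).add (NB.const 1)) ?_
  intro a l' hl'
  have h1 : l'.foldl (fun s b => 2 * s + b.toNat) 0 < 2 ^ l'.length := bval_lt l'
  have h2 := Nat.pow_le_pow_right (show 0 < 2 by norm_num) hl'.length_le
  rw [size_nat]
  omega

/-! ### Evaluation of polynomials, kernels modulo `p` -/

/-- Evaluation modulo `p` of the polynomial with the list `q` of coefficients. -/
def pev (p : ℕ) (q : List ℕ) (x : ℕ) : ℕ := q.foldr (fun c s => (c + x * s) % p) 0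

theorem pt_foldr {f : α → List β} {init : α → σ} {step : α → β → σ → σ} (hf : PT f)
    (hi : PT init) (hs : PT (fun x : α × (β × σ) => step x.1 x.2.1 x.2.2))
    (I : α → σ → Prop) (h0 : ∀ a, I a (init a))
    (h1 : ∀ a s b, I a s → b ∈ f a → I a (step a b s))
    {B : α → ℕ} (hBp : NB B) (hB : ∀ a s, I a s → size s ≤ B a) :
    PT (fun a => (f a).foldr (step a) (init a)) := by
  have h := pt_foldl_inv (f := fun a => (f a).reverse) (init := init)
    (step := fun a s b => step a b s) hf.reverse hi
    (hs.comp (PT.pair PT.fst (PT.pair PT.snd.snd' PT.snd.fst'))) I h0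
    (fun a s b hs hb => h1 a s b hs (List.mem_reverse.mp hb)) hBp hB
  exact h.congr (fun a => by rw [List.foldl_reverse])

theorem pev_le (p : ℕ) (q : List ℕ) (x : ℕ) (hp : 0 < p) : pev p q x < p := by
  cases q with
  | nil => exact hp
  | cons c q => exact Nat.mod_lt _ hp

theorem pt_pev {p x : α → ℕ} {q : α → List ℕ} (hp : PT p) (hq : PT q) (hx : PT x)
    (hpos : ∀ a, 0 < p a) : PT (fun a => pev (p a) (q a) (x a)) := by
  refine pt_foldr (f := q) (init := fun _ => 0) (step := fun a c s => (c + x a * s) % p a) hq
    (PT.const 0) (pt_mod (PT.add PT.snd.fst' (PT.mul (hx.comp PT.fst) PT.snd.snd'))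
      (hp.comp PT.fst)) (fun a s => s < p a) (fun a => hpos a)
    (fun a s b _ _ => Nat.mod_lt _ (hpos a)) (B := fun a => 2 * p a + 1)
    (((NB.const 2).mul (NB.of_pt hp)).add (NB.const 1)) ?_
  intro a s hs
  rw [size_nat]
  omega

/-- The scalar product modulo `p`. -/
def dot (p : ℕ) (u v : List ℕ) : ℕ := (List.zipWith (fun x y => x * y) u v).sum % p

theorem pt_dot {p : α → ℕ} {u v : α → List ℕ} (hp : PT p) (hu : PT u) (hv : PT v) :
    PT (fun a => dot (p a) (u a) (v a)) :=
  pt_mod (pt_sum (pt_zipWith (h := fun _ x y => x * y) hu hv (PT.mul PT.snd.fst' PT.snd.snd'))) hp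

/-- The combination of `w` and the pivot `v` which is orthogonal to `f`. -/
def comb (p : ℕ) (f v w : List ℕ) : List ℕ :=
  List.zipWith (fun x y => (dot p f v * x + (p - dot p f w) * y) % p) w v

/-- One step of the elimination: `st` is a basis of the solutions so far, `f` a new equation. -/
def kstep (p : ℕ) (st : List (List ℕ)) (f : List ℕ) : List (List ℕ) :=
  (st.filter (fun w => dot p f w = 0)) ++
    ((st.filter (fun w => dot p f w ≠ 0)).tail.map
      (comb p f ((st.filter (fun w => dot p f w ≠ 0)).headD [])))

/-- The standard basis of the vectors of length `N`. -/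
def stdBasis (N : ℕ) : List (List ℕ) :=
  (List.range N).map (fun i => (List.range N).map (fun j => if i = j then 1 else 0))

/-- A non-zero vector of length `N` which is orthogonal modulo `p` to all vectors of `S`
(if there are fewer than `N` of them). -/
def kern (p N : ℕ) (S : List (List ℕ)) : List ℕ :=
  ((S.foldl (kstep p) (stdBasis N)).filter (fun v => v.any (fun x => decide (x ≠ 0)))).headD []

theorem pt_comb {p : α → ℕ} {f v w : α → List ℕ} (hp : PT p) (hf : PT f) (hv : PT v)
    (hw : PT w) : PT (fun a => comb (p a) (f a) (v a) (w a)) := by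
  refine pt_zipWith (h := fun a x y => (dot (p a) (f a) (v a) * x +
    (p a - dot (p a) (f a) (w a)) * y) % p a) hw hv ?_
  exact pt_mod (PT.add (PT.mul ((pt_dot hp hf hv).comp PT.fst) PT.snd.fst')
    (PT.mul (PT.sub (hp.comp PT.fst) ((pt_dot hp hf hw).comp PT.fst)) PT.snd.snd'))
    (hp.comp PT.fst)

theorem pt_kstep {p : α → ℕ} {st : α → List (List ℕ)} {f : α → List ℕ} (hp : PT p)
    (hst : PT st) (hf : PT f) : PT (fun a => kstep (p a) (st a) (f a)) := by
  have hd : PT (fun x : α × List ℕ => dot (p x.1) (f x.1) x.2) :=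
    pt_dot (hp.comp PT.fst) (hf.comp PT.fst) PT.snd
  have h1 : PT (fun a => (st a).filter (fun w => dot (p a) (f a) w = 0)) :=
    pt_filterProp (p := fun a w => dot (p a) (f a) w = 0) hst (PT.eq hd (PT.const 0))
  have h2 : PT (fun a => (st a).filter (fun w => dot (p a) (f a) w ≠ 0)) :=
    pt_filterProp (p := fun a w => dot (p a) (f a) w ≠ 0) hst
      (((PT.eq hd (PT.const 0)).not).congr (fun x => by simp))
  refine PT.append h1 (PT.map (g := fun a w => comb (p a) (f a)
    (((st a).filter (fun w => dot (p a) (f a) w ≠ 0)).headD []) w) (PT.tail h2) ?_)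
  exact pt_comb (hp.comp PT.fst) (hf.comp PT.fst) ((pt_headD h2 (PT.const [])).comp PT.fst) PT.snd

/-- The invariant of the elimination. -/
def KInv (p N : ℕ) (st : List (List ℕ)) : Prop :=
  st.length ≤ N ∧ ∀ v ∈ st, v.length = N ∧ ∀ x ∈ v, x < p

theorem kinv_stdBasis {p N : ℕ} (hp : 1 < p) : KInv p N (stdBasis N) := by
  refine ⟨by simp [stdBasis], fun v hv => ?_⟩
  simp only [stdBasis, List.mem_map, List.mem_range] at hv
  obtain ⟨i, hi, rfl⟩ := hv
  refine ⟨by simp, fun x hx => ?_⟩
  simp only [List.mem_map, List.mem_range] at hx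
  obtain ⟨j, hj, rfl⟩ := hx
  split_ifs <;> omega

theorem length_filter_add (st : List (List ℕ)) (P : List ℕ → Prop) [DecidablePred P] :
    (st.filter (fun w => decide (P w))).length + (st.filter (fun w => decide (¬ P w))).length =
      st.length := by
  induction st with
  | nil => rfl
  | cons a st ih =>
    by_cases h : P a
    · simp [h]; simp at ih; omega
    · simp [h]; simp at ih; omega

theorem kinv_kstep {p N : ℕ} (hp : 0 < p) {st : List (List ℕ)} (h : KInv p N st) (f : List ℕ) :
    KInv p N (kstep p st f) := by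
  constructor
  · have h1 := length_filter_add st (fun w => dot p f w = 0)
    have h2 := h.1
    simp only [kstep, List.length_append, List.length_map, List.length_tail, ne_eq]
    omega
  · intro v hv
    simp only [kstep, List.mem_append, List.mem_map] at hv
    rcases hv with hv | ⟨w, hw, rfl⟩
    · exact h.2 v (List.mem_of_mem_filter hv)
    · have hw' : w ∈ st := List.mem_of_mem_filter (List.mem_of_mem_tail hw)
      have hv' : (st.filter (fun w => dot p f w ≠ 0)).headD [] ∈ st := by
        cases hst : st.filter (fun w => dot p f w ≠ 0) with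
        | nil => rw [hst] at hw; simp at hw
        | cons b l =>
          have : b ∈ st.filter (fun w => dot p f w ≠ 0) := by rw [hst]; simp
          simpa using List.mem_of_mem_filter this
      refine ⟨?_, ?_⟩
      · rw [comb, List.length_zipWith, (h.2 w hw').1, (h.2 _ hv').1, min_self]
      · intro x hx
        rw [comb, ← List.map_uncurry_zip_eq_zipWith, List.mem_map] at hx
        obtain ⟨⟨y, z⟩, _, rfl⟩ := hx
        exact Nat.mod_lt _ hp

theorem kinv_size {p N : ℕ} {st : List (List ℕ)} (h : KInv p N st) :
    size st ≤ N * (N * (2 * p + 2) + 2) + 1 := by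
  refine size_list_le' (S := N * (2 * p + 2) + 1) st N h.1 (fun v hv => ?_)
  refine size_list_le' (S := 2 * p + 1) v N (h.2 v hv).1.le (fun x hx => ?_)
  have := (h.2 v hv).2 x hx
  rw [size_nat]
  omega

theorem pt_stdBasis {N : α → ℕ} (hN : PT N) : PT (fun a => stdBasis (N a)) := by
  refine PT.map (g := fun a i => (List.range (N a)).map (fun j => if i = j then 1 else 0))
    (PT.range hN) ?_
  refine PT.map (f := fun x : α × ℕ => List.range (N x.1)) (g := fun x j => if x.2 = j then 1 else 0)
    (PT.range (hN.comp PT.fst)) ?_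
  exact PT.ite (c := fun x : (α × ℕ) × ℕ => x.1.2 = x.2) (PT.eq PT.fst.snd' PT.snd) (PT.const 1)
    (PT.const 0)

theorem pt_kern {p N : α → ℕ} {S : α → List (List ℕ)} (hp : PT p) (hN : PT N) (hS : PT S)
    (h1 : ∀ a, 1 < p a) : PT (fun a => kern (p a) (N a) (S a)) := by
  refine pt_headD (f := fun a => ((S a).foldl (kstep (p a)) (stdBasis (N a))).filter
    (fun v => v.any (fun x => decide (x ≠ 0)))) ?_ (PT.const [])
  refine PT.filter (p := fun _ (v : List ℕ) => v.any (fun x => decide (x ≠ 0))) ?_
    (PT.any (f := fun x : α × List ℕ => x.2) (p := fun _ x => decide (x ≠ 0)) PT.snd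
      (((PT.eq PT.snd (PT.const 0)).not).congr (fun x => by simp)))
  refine pt_foldl_inv (f := S) (init := fun a => stdBasis (N a))
    (step := fun a st f => kstep (p a) st f) hS (pt_stdBasis hN)
    (pt_kstep (hp.comp PT.fst) PT.snd.fst' PT.snd.snd') (fun a st => KInv (p a) (N a) st)
    (fun a => kinv_stdBasis (h1 a))
    (fun a s b hs _ => kinv_kstep (Nat.lt_trans Nat.zero_lt_one (h1 a)) hs b)
    (B := fun a => N a * (N a * (2 * p a + 2) + 2) + 1) ?_ (fun a s hs => kinv_size hs)
  exact (((NB.of_pt hN).mul (((NB.of_pt hN).mul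
    (((NB.const 2).mul (NB.of_pt hp)).add (NB.const 2))).add (NB.const 2))).add (NB.const 1))

end Pool.Agent.Lib.MP_33f9c4_lc.K
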