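import Pool.Agent.Lib.MP_33f9c4_lc.K.C01
import Mathlib.LinearAlgebra.FiniteDimensional.Lemmas
import Mathlib.LinearAlgebra.Dimension.Constructions
import Mathlib.LinearAlgebra.Matrix.ToLin
import Mathlib.Algebra.Field.ZMod

/-!
# Part C: correctness of the kernel vector
-/

set_option autoImplicit false
set_option linter.unusedSectionVars false

namespace Pool.Agent.Lib.MP_33f9c4_lc.K

variable {p : ℕ} [hp : Fact p.Prime] {N : ℕ}

/-- The vector of a list. -/
def toV (p N : ℕ) (v : List ℕ) : Fin N → ZMod p := fun i => ((v.getD i 0 : ℕ) : ZMod p)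

theorem sum_zipWith_eq (u v : List ℕ) (N : ℕ) (hu : u.length = N) (hv : v.length = N) :
    (((List.zipWith (fun x y => x * y) u v).sum : ℕ) : ZMod p) =
      ∑ i : Fin N, toV p N u i * toV p N v i := by
  induction N generalizing u v with
  | zero =>
    rw [List.length_eq_zero_iff] at hu
    subst hu
    simp
  | succ N ih =>
    cases u with
    | nil => simp at hu
    | cons x u =>
      cases v with
      | nil => simp at hv
      | cons y v =>
        rw [List.zipWith_cons_cons, List.sum_cons, Nat.cast_add, Fin.sum_univ_succ]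
        have h := ih u v (by simpa using hu) (by simpa using hv)
        rw [h]
        simp [toV]

theorem dot_cast (u v : List ℕ) (hu : u.length = N) (hv : v.length = N) :
    ((dot p u v : ℕ) : ZMod p) = ∑ i : Fin N, toV p N u i * toV p N v i := by
  rw [dot, ZMod.natCast_mod, sum_zipWith_eq u v N hu hv]

theorem dot_eq_zero_iff (u v : List ℕ) (hu : u.length = N) (hv : v.length = N) :
    dot p u v = 0 ↔ ∑ i : Fin N, toV p N u i * toV p N v i = 0 := by
  rw [← dot_cast u v hu hv, ZMod.natCast_eq_zero_iff]
  constructor
  · intro h; rw [h]; exact dvd_zero _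
  · intro h
    exact Nat.eq_zero_of_dvd_of_lt h (Nat.mod_lt _ hp.out.pos)

theorem toV_comb (f v w : List ℕ) (hf : f.length = N) (hv : v.length = N) (hw : w.length = N) :
    toV p N (comb p f v w) = ((∑ i : Fin N, toV p N f i * toV p N v i)) • toV p N w -
      (∑ i : Fin N, toV p N f i * toV p N w i) • toV p N v := by
  funext i
  have hi : (i : ℕ) < N := i.2
  have h1 : (comb p f v w).getD i 0 = (dot p f v * w.getD i 0 +
      (p - dot p f w) * v.getD i 0) % p := by
    rw [comb, List.getD_eq_getElem?_getD, List.getElem?_zipWith, List.getD_eq_getElem?_getD,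
      List.getD_eq_getElem?_getD, List.getElem?_eq_getElem (by omega : (i : ℕ) < w.length),
      List.getElem?_eq_getElem (by omega : (i : ℕ) < v.length)]
    rfl
  have h2 : dot p f w ≤ p := (Nat.mod_lt _ hp.out.pos).le
  simp only [toV, Pi.sub_apply, Pi.smul_apply, smul_eq_mul, h1]
  rw [ZMod.natCast_mod, Nat.cast_add, Nat.cast_mul, Nat.cast_mul, Nat.cast_sub h2,
    dot_cast f v hf hv, dot_cast f w hf hw, ZMod.natCast_self]
  simp only [toV]
  ring

/-- The linear functional of a list. -/
noncomputable def phi (p N : ℕ) (f : List ℕ) : (Fin N → ZMod p) →ₗ[ZMod p] ZMod p :=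
  Fintype.linearCombination (ZMod p) (toV p N f)

theorem phi_apply (f : List ℕ) (u : Fin N → ZMod p) :
    phi p N f u = ∑ i, toV p N f i * u i := by
  rw [phi, Fintype.linearCombination_apply]
  refine Finset.sum_congr rfl (fun i _ => ?_)
  rw [smul_eq_mul, mul_comm]

/-- The span of the vectors of the state. -/
noncomputable def spn (p N : ℕ) (st : List (List ℕ)) : Submodule (ZMod p) (Fin N → ZMod p) :=
  Submodule.span (ZMod p) {x | ∃ v ∈ st, x = toV p N v}

theorem toV_mem_spn {st : List (List ℕ)} {v : List ℕ} (h : v ∈ st) : toV p N v ∈ spn p N st :=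
  Submodule.subset_span ⟨v, h, rfl⟩

theorem spn_le {st : List (List ℕ)} {W : Submodule (ZMod p) (Fin N → ZMod p)}
    (h : ∀ v ∈ st, toV p N v ∈ W) : spn p N st ≤ W := by
  refine Submodule.span_le.mpr ?_
  rintro x ⟨v, hv, rfl⟩
  exact h v hv

theorem spn_stdBasis : spn p N (stdBasis N) = ⊤ := by
  rw [eq_top_iff]
  intro u _
  have h1 : ∀ i : Fin N, (Pi.single i (1 : ZMod p)) ∈ spn p N (stdBasis N) := by
    intro i
    refine Submodule.subset_span ⟨(List.range N).map (fun j => if (i : ℕ) = j then 1 else 0), ?_, ?_⟩
    · rw [stdBasis, List.mem_map]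
      exact ⟨i, List.mem_range.mpr i.2, rfl⟩
    · funext j
      rw [toV, List.getD_eq_getElem?_getD, List.getElem?_map, List.getElem?_range j.2]
      by_cases h : i = j
      · subst h; simp
      · have h' : (i : ℕ) ≠ j := fun h' => h (Fin.ext h')
        simp [h', Pi.single_eq_of_ne (Ne.symm h)]
  have h2 : u = ∑ i, u i • (Pi.single i (1 : ZMod p) : Fin N → ZMod p) := by
    funext j
    rw [Finset.sum_apply]
    simp [Pi.single_apply]
  rw [h2]
  exact Submodule.sum_mem _ (fun i _ => Submodule.smul_mem _ _ (h1 i))

theorem mem_spn_kstep {st : List (List ℕ)} (hst : ∀ v ∈ st, v.length = N) {f : List ℕ}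
    (hf : f.length = N) {u : Fin N → ZMod p} (hu : u ∈ spn p N st) (hfu : phi p N f u = 0) :
    u ∈ spn p N (kstep p st f) := by
  set W := spn p N (kstep p st f) with hW
  have hgood : ∀ w ∈ st, dot p f w = 0 → toV p N w ∈ W := by
    intro w hw h
    refine toV_mem_spn ?_
    rw [kstep, List.mem_append]
    exact Or.inl (List.mem_filter.mpr ⟨hw, by simp [h]⟩)
  rcases hbad : st.filter (fun w => dot p f w ≠ 0) with _ | ⟨v, rest⟩
  · -- no pivot
    have h1 : spn p N st ≤ W := by
      refine spn_le (fun w hw => hgood w hw ?_)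
      by_contra h
      have : w ∈ st.filter (fun w => dot p f w ≠ 0) := List.mem_filter.mpr ⟨hw, by simp [h]⟩
      rw [hbad] at this
      simp at this
    exact h1 hu
  · have hv : v ∈ st ∧ dot p f v ≠ 0 := by
      have : v ∈ st.filter (fun w => dot p f w ≠ 0) := by rw [hbad]; simp
      rw [List.mem_filter] at this
      exact ⟨this.1, by simpa using this.2⟩
    have hvN := hst v hv.1
    have hφv : phi p N f (toV p N v) ≠ 0 := by
      rw [phi_apply]
      exact fun h => hv.2 ((dot_eq_zero_iff f v hf hvN).mpr h)
    have hkill : ∀ w ∈ kstep p st f, phi p N f (toV p N w) = 0 := by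
      intro w hw
      rw [kstep, List.mem_append] at hw
      rcases hw with hw | hw
      · rw [List.mem_filter] at hw
        have h := hw.2
        rw [decide_eq_true_eq] at h
        rw [phi_apply]
        exact (dot_eq_zero_iff f w hf (hst w hw.1)).mp h
      · rw [hbad, List.mem_map] at hw
        obtain ⟨x, hx, rfl⟩ := hw
        have hx' : x ∈ st := by
          have : x ∈ st.filter (fun w => dot p f w ≠ 0) := by
            rw [hbad]; exact List.mem_cons_of_mem _ hx
          exact List.mem_of_mem_filter this
        rw [List.headD_cons, toV_comb f v x hf hvN (hst x hx'), map_sub, map_smul, map_smul,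
          smul_eq_mul, smul_eq_mul, phi_apply, phi_apply]
        ring
    have hWkill : ∀ w ∈ W, phi p N f w = 0 := by
      intro w hw
      have : W ≤ LinearMap.ker (phi p N f) := spn_le (fun v hv => LinearMap.mem_ker.mpr (hkill v hv))
      exact LinearMap.mem_ker.mp (this hw)
    have hsup : spn p N st ≤ W ⊔ Submodule.span (ZMod p) {toV p N v} := by
      refine spn_le (fun w hw => ?_)
      by_cases h0 : dot p f w = 0
      · exact Submodule.mem_sup_left (hgood w hw h0)
      · have hw2 : w ∈ st.filter (fun w => dot p f w ≠ 0) := List.mem_filter.mpr ⟨hw, by simp [h0]⟩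
        rw [hbad, List.mem_cons] at hw2
        rcases hw2 with rfl | hw2
        · exact Submodule.mem_sup_right (Submodule.mem_span_singleton_self _)
        · have h3 : toV p N (comb p f v w) ∈ W := by
            refine toV_mem_spn ?_
            rw [kstep, List.mem_append]
            refine Or.inr ?_
            rw [hbad, List.mem_map]
            exact ⟨w, hw2, rfl⟩
          rw [toV_comb f v w hf hvN (hst w hw), ← phi_apply, ← phi_apply] at h3
          have h4 : toV p N w = (phi p N f (toV p N v))⁻¹ •
              (phi p N f (toV p N v) • toV p N w - phi p N f (toV p N w) • toV p N v) +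
              ((phi p N f (toV p N v))⁻¹ * phi p N f (toV p N w)) • toV p N v := by
            rw [smul_sub, smul_smul, inv_mul_cancel₀ hφv, one_smul, smul_smul, sub_add_cancel]
          rw [h4]
          exact Submodule.add_mem _ (Submodule.mem_sup_left (Submodule.smul_mem _ _ h3))
            (Submodule.mem_sup_right (Submodule.smul_mem _ _
              (Submodule.mem_span_singleton_self _)))
    obtain ⟨w, hw, y, hy, rfl⟩ := Submodule.mem_sup.mp (hsup hu)
    obtain ⟨c, rfl⟩ := Submodule.mem_span_singleton.mp hy
    rw [map_add, hWkill w hw, zero_add, map_smul, smul_eq_mul] at hfu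
    have hc : c = 0 := by
      rcases mul_eq_zero.mp hfu with h | h
      · exact h
      · exact absurd h hφv
    rw [hc, zero_smul, add_zero]
    exact hw

theorem mem_spn_foldl {S : List (List ℕ)} (hS : ∀ f ∈ S, f.length = N) :
    ∀ (st : List (List ℕ)), KInv p N st → ∀ u : Fin N → ZMod p, u ∈ spn p N st →
      (∀ f ∈ S, phi p N f u = 0) → u ∈ spn p N (S.foldl (kstep p) st) := by
  induction S with
  | nil => intro st _ u hu _; exact hu
  | cons f S ih =>
    intro st hst u hu hfu
    rw [List.foldl_cons]
    exact ih (fun g hg => hS g (List.mem_cons_of_mem _ hg)) _ (kinv_kstep hp.out.pos hst f) u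
      (mem_spn_kstep (fun v hv => (hst.2 v hv).1) (hS f List.mem_cons_self) hu
        (hfu f List.mem_cons_self)) (fun g hg => hfu g (List.mem_cons_of_mem _ hg))

theorem dot_foldl {S : List (List ℕ)} (hS : ∀ f ∈ S, f.length = N) :
    ∀ (st : List (List ℕ)), KInv p N st → ∀ (T : List (List ℕ)), (∀ f ∈ T, f.length = N) →
      (∀ v ∈ st, ∀ f ∈ T, dot p f v = 0) →
      ∀ v ∈ S.foldl (kstep p) st, ∀ f ∈ T ++ S, dot p f v = 0 := by
  induction S with
  | nil => intro st _ T _ h v hv f hf; rw [List.append_nil] at hf; exact h v hv f hf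
  | cons g S ih =>
    intro st hst T hT h v hv f hf
    rw [List.foldl_cons] at hv
    have hg := hS g List.mem_cons_self
    have hlen := kinv_kstep hp.out.pos hst g
    refine ih (fun g hg => hS g (List.mem_cons_of_mem _ hg)) _ hlen
      (T ++ [g]) ?_ ?_ v hv f (by rwa [List.append_assoc, List.singleton_append])
    · intro f hf
      rw [List.mem_append, List.mem_singleton] at hf
      rcases hf with hf | rfl
      · exact hT f hf
      · exact hg
    · intro w hw f hf
      have hwN := (hlen.2 w hw).1
      have hfN : f.length = N := by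
        rw [List.mem_append, List.mem_singleton] at hf
        rcases hf with hf | rfl
        · exact hT f hf
        · exact hg
      rw [dot_eq_zero_iff f w hfN hwN, ← phi_apply]
      rw [kstep, List.mem_append] at hw
      rw [List.mem_append, List.mem_singleton] at hf
      rcases hw with hw | hw
      · rw [List.mem_filter] at hw
        rcases hf with hf | rfl
        · rw [phi_apply, ← dot_eq_zero_iff f w hfN (hst.2 w hw.1).1]
          exact h w hw.1 f hf
        · rw [phi_apply, ← dot_eq_zero_iff f w hfN (hst.2 w hw.1).1]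
          simpa using hw.2
      · rcases hbad : st.filter (fun w => dot p g w ≠ 0) with _ | ⟨x, rest⟩
        · rw [hbad] at hw; simp at hw
        · rw [hbad, List.mem_map] at hw
          obtain ⟨y, hy, rfl⟩ := hw
          have hx' : x ∈ st := by
            have : x ∈ st.filter (fun w => dot p g w ≠ 0) := by rw [hbad]; simp
            exact List.mem_of_mem_filter this
          have hy' : y ∈ st := by
            have : y ∈ st.filter (fun w => dot p g w ≠ 0) := by
              rw [hbad]; exact List.mem_cons_of_mem _ hy
            exact List.mem_of_mem_filter this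
          rw [List.headD_cons, toV_comb g x y hg (hst.2 x hx').1 (hst.2 y hy').1, map_sub,
            map_smul, map_smul, smul_eq_mul, smul_eq_mul, ← phi_apply, ← phi_apply]
          rcases hf with hf | rfl
          · have h1 : phi p N f (toV p N x) = 0 := by
              rw [phi_apply, ← dot_eq_zero_iff f x hfN (hst.2 x hx').1]; exact h x hx' f hf
            have h2 : phi p N f (toV p N y) = 0 := by
              rw [phi_apply, ← dot_eq_zero_iff f y hfN (hst.2 y hy').1]; exact h y hy' f hf
            rw [h1, h2]; ring
          · ring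

theorem exists_sol {S : List (List ℕ)} (hS : S.length < N) :
    ∃ u : Fin N → ZMod p, u ≠ 0 ∧ ∀ f ∈ S, phi p N f u = 0 := by
  let F : (Fin N → ZMod p) →ₗ[ZMod p] (Fin S.length → ZMod p) :=
    LinearMap.pi (fun i => phi p N (S.get i))
  have h : LinearMap.ker F ≠ ⊥ := LinearMap.ker_ne_bot_of_finrank_lt (by
    rw [Module.finrank_fin_fun, Module.finrank_fin_fun]; exact hS)
  obtain ⟨u, hu, hu0⟩ := Submodule.exists_mem_ne_zero_of_ne_bot h
  refine ⟨u, hu0, fun f hf => ?_⟩
  obtain ⟨i, rfl⟩ := List.get_of_mem hf
  have := congrFun (LinearMap.mem_ker.mp hu) i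
  simpa [F] using this

/-- **The kernel vector.** If there are fewer than `N` equations then `kern` is a non-zero vector
that satisfies all of them. -/
theorem kern_spec {S : List (List ℕ)} (hS : ∀ f ∈ S, f.length = N) (hN : S.length < N) :
    (kern p N S).length = N ∧ (∀ x ∈ kern p N S, x < p) ∧ (∃ x ∈ kern p N S, x ≠ 0) ∧
      ∀ f ∈ S, dot p f (kern p N S) = 0 := by
  obtain ⟨u, hu0, hu⟩ := exists_sol (p := p) hN
  have h1 := mem_spn_foldl hS (stdBasis N) (kinv_stdBasis hp.out.one_lt) u
    (by rw [spn_stdBasis]; trivial) hu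
  set st := S.foldl (kstep p) (stdBasis N) with hst
  have hinv : KInv p N st := by
    have : ∀ (L : List (List ℕ)) (s : List (List ℕ)), KInv p N s → KInv p N (L.foldl (kstep p) s) := by
      intro L
      induction L with
      | nil => intro s h; exact h
      | cons f L ih => intro s h; exact ih _ (kinv_kstep hp.out.pos h f)
    exact this S _ (kinv_stdBasis hp.out.one_lt)
  have h2 : ∃ v ∈ st, ∃ x ∈ v, x ≠ 0 := by
    by_contra hcon
    push Not at hcon
    have h3 : spn p N st ≤ ⊥ := by
      refine spn_le (fun v hv => ?_)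
      rw [Submodule.mem_bot]
      funext i
      rw [toV, List.getD_eq_getElem?_getD]
      cases hget : v[(i : ℕ)]? with
      | none => simp
      | some x =>
        have : x = 0 := hcon v hv x (List.mem_of_getElem? hget)
        simp [this]
    exact hu0 ((Submodule.mem_bot _).mp (h3 h1))
  have h4 : kern p N S ∈ st.filter (fun v => v.any (fun x => decide (x ≠ 0))) := by
    rw [kern, ← hst]
    obtain ⟨v, hv, x, hx, hx0⟩ := h2
    have : v ∈ st.filter (fun v => v.any (fun x => decide (x ≠ 0))) :=
      List.mem_filter.mpr ⟨hv, by rw [List.any_eq_true]; exact ⟨x, hx, by simpa using hx0⟩⟩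
    cases hl : st.filter (fun v => v.any (fun x => decide (x ≠ 0))) with
    | nil => rw [hl] at this; simp at this
    | cons a l => simp
  rw [List.mem_filter] at h4
  refine ⟨(hinv.2 _ h4.1).1, (hinv.2 _ h4.1).2, ?_, ?_⟩
  · have h5 := h4.2
    rw [List.any_eq_true] at h5
    obtain ⟨x, hx, hx0⟩ := h5
    exact ⟨x, hx, by simpa using hx0⟩
  · intro f hf
    exact dot_foldl hS (stdBasis N) (kinv_stdBasis hp.out.one_lt) [] (by simp)
      (by simp) _ h4.1 f (by simpa using hf)

end Pool.Agent.Lib.MP_33f9c4_lc.K
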