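import Pool.Agent.Lib.MP_33f9c4_lc.K.Def

/-!
# The view computed from the list of the counted prefixes
-/

set_option autoImplicit false

namespace Pool.Agent.Lib.MP_33f9c4_lc.LK

/-- the number stored with the key `y`, `0` if there is none -/
def look (hist : List (List Bool × ℕ)) (y : List Bool) : ℕ :=
  ((hist.find? (fun x => decide (x.1 = y))).map Prod.snd).getD 0

/-- the view computed from the list of the (reversed) prefixes with their rounded counts -/
def viewOf (P : Par) (hist : List (List Bool × ℕ)) : List (List Bool × ℕ) :=
  (allL P.K).map fun y => (y, min (2 ^ P.c) (look hist y.reverse))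

end Pool.Agent.Lib.MP_33f9c4_lc.LK
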