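import Pool.Agent.Lib.MP_33f9c4_lc.K.C01
import Pool.Agent.Lib.MP_33f9c4_lc.K.VDef

/-!
# Part C: the functions of Def.lean are computed in polynomial time
-/

set_option autoImplicit false
set_option linter.unusedSectionVars false

namespace Pool.Agent.Lib.MP_33f9c4_lc.LK

open Pool.Agent.Lib.PolyTime
open Pool.Agent.Lib.MP_33f9c4_lc.K (NB NB.of_pt NB.add NB.mul NB.const NB.pow NB.size_of NB.le
  pt_foldl_inv pt_foldl pt_iterate pt_mod pt_div pt_pow pt_powC pt_min pt_max pt_take pt_replicate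
  pt_isPrefix pt_getD pt_headD pt_sum pt_sumMap pt_filterProp pt_find pt_zipWith pt_toNat
  pt_beqBool)

variable {α β γ σ : Type} [Enc α] [Enc β] [Enc γ] [Enc σ]

/-! ### General -/

theorem szb (b : Bool) : size b ≤ 3 := by cases b <;> decide

theorem sz_list {S : ℕ} (l : List β) (n : ℕ) (hn : l.length ≤ n) (h : ∀ b ∈ l, size b ≤ S) :
    size l ≤ n * (S + 1) + 1 := by
  have h1 := size_list_le l h
  have h2 := Nat.mul_le_mul_right (S + 1) hn
  omega

theorem pt_foldr {f : α → List β} {init : α → σ} {step : α → β → σ → σ} (hf : PT f)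
    (hi : PT init) (hs : PT (fun x : α × (β × σ) => step x.1 x.2.1 x.2.2))
    (I : α → σ → Prop) (h0 : ∀ a, I a (init a))
    (h1 : ∀ a s b, I a s → b ∈ f a → I a (step a b s))
    {B : α → ℕ} (hBp : NB B) (hB : ∀ a s, I a s → size s ≤ B a) :
    PT (fun a => (f a).foldr (step a) (init a)) := by
  have h := pt_foldl_inv (f := fun a => (f a).reverse) (init := init)
    (step := fun a s b => step a b s) hf.reverse hi
    (hs.comp (PT.pair PT.fst (PT.pair PT.snd.snd' PT.snd.fst'))) I h0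
    (fun a s b hs hb => h1 a s b hs (List.mem_reverse.mp hb)) hBp hB
  exact h.congr (fun a => by rw [List.foldl_reverse])

/-- Iteration with an invariant. -/
theorem pt_iter_inv {f : α → ℕ} {init : α → σ} {step : α → σ → σ} (hf : PT f) (hi : PT init)
    (hs : PT (fun x : α × σ => step x.1 x.2)) (I : α → σ → Prop) (h0 : ∀ a, I a (init a))
    (h1 : ∀ a s, I a s → I a (step a s)) {B : α → ℕ} (hBp : NB B)
    (hB : ∀ a s, I a s → size s ≤ B a) :
    PT (fun a => (step a)^[f a] (init a)) := by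
  have key : ∀ (a : α) (i : ℕ), I a ((step a)^[i] (init a)) := by
    intro a i
    induction i with
    | zero => exact h0 a
    | succ i ih => rw [Function.iterate_succ_apply']; exact h1 a _ ih
  exact pt_iterate hf hi hs hBp (fun a i _ => hB a _ (key a i))

theorem pt_getDopt {f : α → Option β} {g : α → β} (hf : PT f) (hg : PT g) :
    PT (fun a => (f a).getD (g a)) :=
  (PT.optCases (g := g) (h := fun _ b => b) hf hg PT.snd).congr
    (fun a => by cases f a <;> rfl)

theorem pt_optMap {f : α → Option β} {g : α → β → γ} (hf : PT f)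
    (hg : PT (fun x : α × β => g x.1 x.2)) : PT (fun a => (f a).map (g a)) :=
  (PT.optCases (g := fun _ => (none : Option γ)) (h := fun a b => some (g a b)) hf (PT.const _)
    (PT.some hg)).congr (fun a => by cases f a <;> rfl)

theorem pt_ne0 {f : α → ℕ} (hf : PT f) : PT (fun a => f a != 0) :=
  ((PT.eq hf (PT.const 0)).not).congr (fun a => by
    by_cases h : f a = 0 <;> simp [h])

theorem pt_isPrefixOf {f g : α → List Bool} (hf : PT f) (hg : PT g) :
    PT (fun a => (f a).isPrefixOf (g a)) :=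
  (pt_isPrefix hf hg).congr (fun a => by
    by_cases h : f a <+: g a
    · simp [h]
    · have : (f a).isPrefixOf (g a) = false := by
        rw [Bool.eq_false_iff]
        intro h'
        exact h (List.isPrefixOf_iff_prefix.mp h')
      simp [h, this])

/-! ### Powers -/

theorem pw_iter (N e : ℕ) : (fun x => min (2 * x) N)^[e] (min 1 N) = pw N e := by
  induction e with
  | zero => simp [pw]
  | succ e ih =>
    rw [Function.iterate_succ_apply', ih, pw, pw, pow_succ]
    rcases le_total (2 ^ e) N with h | h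
    · rw [min_eq_left h, mul_comm]
    · rw [min_eq_right h, min_eq_right (by omega), min_eq_right (by omega)]

theorem pt_pw {N e : α → ℕ} (hN : PT N) (he : PT e) : PT (fun a => pw (N a) (e a)) := by
  have h := pt_iter_inv (f := e) (init := fun a => min 1 (N a))
    (step := fun a x => min (2 * x) (N a)) he (pt_min (PT.const 1) hN)
    (pt_min (PT.mulConst PT.snd 2) (hN.comp PT.fst)) (fun a s => s ≤ N a)
    (fun a => min_le_right _ _) (fun a s _ => min_le_right _ _) (B := fun a => 2 * N a + 1)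
    (((NB.const 2).mul (NB.of_pt hN)).add (NB.const 1)) (fun a s hs => by rw [size_nat]; omega)
  exact h.congr (fun a => pw_iter _ _)

/-! ### Bit lists -/

theorem length_mem_allL {k : ℕ} {l : List Bool} (h : l ∈ allL k) : l.length = k := by
  induction k generalizing l with
  | zero => simp [allL] at h; simp [h]
  | succ k ih =>
    simp only [allL, List.mem_append, List.mem_map] at h
    rcases h with ⟨m, hm, rfl⟩ | ⟨m, hm, rfl⟩ <;> simp [ih hm]

theorem len_allL (k : ℕ) : (allL k).length = 2 ^ k := by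
  induction k with
  | zero => rfl
  | succ k ih => simp [allL, ih, pow_succ]; omega

theorem size_bl_le (l : List Bool) : size l ≤ 4 * l.length + 1 := by
  induction l with
  | nil => simp
  | cons b l ih => rw [size_cons, List.length_cons]; have := szb b; omega

theorem size_allL_le (k : ℕ) : size (allL k) ≤ 2 ^ k * (4 * k + 2) + 1 := by
  have := sz_list (S := 4 * k + 1) (allL k) (2 ^ k) (len_allL k).le (fun l hl => by
    have h1 := size_bl_le l
    rw [length_mem_allL hl] at h1
    exact h1)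
  simpa using this

theorem allL_iter (k : ℕ) :
    (fun s : List (List Bool) => s.map (false :: ·) ++ s.map (true :: ·))^[k] [[]] = allL k := by
  induction k with
  | zero => rfl
  | succ k ih => rw [Function.iterate_succ_apply', ih]; rfl

theorem pt_allL {f : α → ℕ} (hf : PT f) (hB : NB (fun a => 2 ^ f a)) :
    PT (fun a => allL (f a)) := by
  have h := pt_iterate (f := f) (init := fun _ => [[]])
    (step := fun _ (s : List (List Bool)) => s.map (false :: ·) ++ s.map (true :: ·)) hf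
    (PT.const _) (PT.append
      (PT.map (f := fun x : α × List (List Bool) => x.2) (g := fun _ l => false :: l) PT.snd
        (PT.cons (PT.const false) PT.snd))
      (PT.map (f := fun x : α × List (List Bool) => x.2) (g := fun _ l => true :: l) PT.snd
        (PT.cons (PT.const true) PT.snd)))
    (B := fun a => 2 ^ f a * (4 * f a + 2) + 1)
    ((hB.mul (((NB.const 4).mul (NB.of_pt hf)).add (NB.const 2))).add (NB.const 1)) (by
      intro a i hi
      rw [allL_iter]
      have h1 := size_allL_le i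
      have h2 : 2 ^ i * (4 * i + 2) ≤ 2 ^ f a * (4 * f a + 2) :=
        Nat.mul_le_mul (Nat.pow_le_pow_right (by norm_num) hi) (by omega)
      omega)
  exact h.congr (fun a => allL_iter _)

theorem pt_red {p : α → ℕ} {v : α → List Bool} (hp : PT p) (hv : PT v) (h0 : ∀ a, 0 < p a) :
    PT (fun a => red (p a) (v a)) := by
  refine pt_foldl_inv (f := v) (init := fun _ => 0)
    (step := fun a x b => (2 * x + b.toNat) % p a) hv (PT.const 0)
    (pt_mod (PT.add (PT.mulConst PT.snd.fst' 2) (pt_toNat PT.snd.snd')) (hp.comp PT.fst))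
    (fun a s => s < p a) h0 (fun a s b _ _ => Nat.mod_lt _ (h0 a)) (B := fun a => 2 * p a + 1)
    (((NB.const 2).mul (NB.of_pt hp)).add (NB.const 1)) (fun a s hs => by rw [size_nat]; omega)

/-! ### Parameters -/

/-- All parameters are computed in polynomial time. -/
structure PPT (P : α → Par) : Prop where
  n : PT (fun a => (P a).n)
  l : PT (fun a => (P a).l)
  s : PT (fun a => (P a).s)
  r : PT (fun a => (P a).r)
  R : PT (fun a => (P a).R)
  w : PT (fun a => (P a).w)
  q : PT (fun a => (P a).q)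
  W : PT (fun a => (P a).W)
  p : PT (fun a => (P a).p)
  t : PT (fun a => (P a).t)
  b : PT (fun a => (P a).b)
  K : PT (fun a => (P a).K)
  c : PT (fun a => (P a).c)
  a : PT (fun a => (P a).a)
  B : PT (fun a => (P a).B)
  E : PT (fun a => (P a).E)
  N : PT (fun a => (P a).N)

theorem PPT.comp {P : β → Par} (h : PPT P) {f : α → β} (hf : PT f) : PPT (fun a => P (f a)) where
  n := h.n.comp hf
  l := h.l.comp hf
  s := h.s.comp hf
  r := h.r.comp hf
  R := h.R.comp hf
  w := h.w.comp hf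
  q := h.q.comp hf
  W := h.W.comp hf
  p := h.p.comp hf
  t := h.t.comp hf
  b := h.b.comp hf
  K := h.K.comp hf
  c := h.c.comp hf
  a := h.a.comp hf
  B := h.B.comp hf
  E := h.E.comp hf
  N := h.N.comp hf

theorem PPT.K0 {P : α → Par} (h : PPT P) : PT (fun a => (P a).K0) :=
  PT.mul (h.t.succ) h.b

variable {P : α → Par}

/-! ### The hash -/

theorem pt_alp (h : PPT P) (h0 : ∀ a, 1 < (P a).p) {y : α → List Bool} (hy : PT y) :
    PT (fun a => alp (P a) (y a)) :=
  pt_red h.p (pt_take h.b hy) (fun a => by have := h0 a; omega)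

theorem pt_cf (h : PPT P) (h0 : ∀ a, 1 < (P a).p) {y : α → List Bool} {i : α → ℕ} (hy : PT y)
    (hi : PT i) : PT (fun a => cf (P a) (y a) (i a)) :=
  pt_red h.p (pt_take h.b (PT.drop (PT.mul hi.succ h.b) hy)) (fun a => by have := h0 a; omega)

theorem pt_hsh (h : PPT P) (h0 : ∀ a, 1 < (P a).p) {y : α → List Bool} {z : α → ℕ} (hy : PT y)
    (hz : PT z) : PT (fun a => hsh (P a) (y a) (z a)) := by
  refine PT.fst' (pt_foldl_inv (f := fun a => List.range (P a).t)
    (init := fun _ => ((0, 1) : ℕ × ℕ))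
    (step := fun a x i => ((x.1 + cf (P a) (y a) i * x.2) % (P a).p, x.2 * z a % (P a).p))
    (PT.range h.t) (PT.const _) ?_ (fun a x => x.1 < (P a).p ∧ x.2 < (P a).p) ?_ ?_
    (B := fun a => 4 * (P a).p + 3) (((NB.const 4).mul (NB.of_pt h.p)).add (NB.const 3)) ?_)
  · refine PT.pair (pt_mod (PT.add PT.snd.fst'.fst' (PT.mul ?_ PT.snd.fst'.snd'))
      (h.p.comp PT.fst)) (pt_mod (PT.mul PT.snd.fst'.snd' (hz.comp PT.fst)) (h.p.comp PT.fst))
    exact pt_cf (P := fun x : α × ((ℕ × ℕ) × ℕ) => P x.1) (h.comp PT.fst) (fun x => h0 x.1)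
      (hy.comp PT.fst) PT.snd.snd'
  · intro a; have := h0 a; constructor <;> simp <;> omega
  · intro a s b _ _
    have := h0 a
    exact ⟨Nat.mod_lt _ (by omega), Nat.mod_lt _ (by omega)⟩
  · intro a s hs
    rw [size_prod, size_nat, size_nat]
    omega

theorem pt_thr {p s : α → ℕ} (hp : PT p) (hs : PT s) : PT (fun a => thr (p a) (s a)) := by
  refine pt_iter_inv (f := s) (init := p) (step := fun _ x => (x + 1) / 2) hs hp
    (pt_div PT.snd.succ (PT.const 2)) (fun a x => x ≤ p a + 1) (fun a => by omega)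
    (fun a x hx => by omega) (B := fun a => 2 * p a + 3)
    (((NB.const 2).mul (NB.of_pt hp)).add (NB.const 3)) (fun a x hx => by rw [size_nat]; omega)

theorem pt_inS (h : PPT P) (h0 : ∀ a, 1 < (P a).p) {e y : α → List Bool} {al : α → ℕ}
    (he : PT e) (hal : PT al) (hy : PT y) : PT (fun a => inS (P a) (e a) (al a) (y a)) :=
  (pt_isPrefixOf he hy).and (PT.eq (pt_alp h h0 (PT.drop (PT.length he) hy)) hal)

theorem pt_inZ (h : PPT P) (h0 : ∀ a, 1 < (P a).p) {e y : α → List Bool} {s al z : α → ℕ}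
    (he : PT e) (hs : PT s) (hal : PT al) (hz : PT z) (hy : PT y) :
    PT (fun a => inZ (P a) (e a) (s a) (al a) (z a) (y a)) :=
  (pt_inS h h0 he hal hy).and (PT.lt (pt_hsh h h0 (PT.drop (PT.length he) hy) hz) (pt_thr h.p hs))

theorem pt_msum (h : PPT P) (h0 : ∀ a, 1 < (P a).p) {L : α → List (List Bool × ℕ)}
    {e : α → List Bool} {s al z : α → ℕ} (hL : PT L)
    (he : PT e) (hs : PT s) (hal : PT al) (hz : PT z) :
    PT (fun a => msum (P a) (L a) (e a) (s a) (al a) (z a)) := by
  refine pt_sumMap (f := L) (g := fun a x => if inZ (P a) (e a) (s a) (al a) (z a) x.1 then x.2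
    else 0) hL ?_
  refine (PT.cond (c := fun x : α × (List Bool × ℕ) => inZ (P x.1) (e x.1) (s x.1) (al x.1)
    (z x.1) x.2.1) ?_ PT.snd.snd' (PT.const 0)).congr (fun x => by
      cases inZ (P x.1) (e x.1) (s x.1) (al x.1) (z x.1) x.2.1 <;> rfl)
  exact pt_inZ (P := fun x : α × (List Bool × ℕ) => P x.1) (h.comp PT.fst) (fun x => h0 x.1)
    (he.comp PT.fst) (hs.comp PT.fst) (hal.comp PT.fst) (hz.comp PT.fst) PT.snd.fst'

theorem pt_musum (h : PPT P) (h0 : ∀ a, 1 < (P a).p) {L : α → List (List Bool × ℕ)}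
    {e : α → List Bool} {al : α → ℕ} (hL : PT L)
    (he : PT e) (hal : PT al) :
    PT (fun a => musum (P a) (L a) (e a) (al a)) := by
  refine pt_sumMap (f := L) (g := fun a x => if inS (P a) (e a) (al a) x.1 then x.2
    else 0) hL ?_
  refine (PT.cond (c := fun x : α × (List Bool × ℕ) => inS (P x.1) (e x.1) (al x.1) x.2.1)
    ?_ PT.snd.snd' (PT.const 0)).congr (fun x => by
      cases inS (P x.1) (e x.1) (al x.1) x.2.1 <;> rfl)
  exact pt_inS (P := fun x : α × (List Bool × ℕ) => P x.1) (h.comp PT.fst) (fun x => h0 x.1)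
    (he.comp PT.fst) (hal.comp PT.fst) PT.snd.fst'

theorem pt_okZ (h : PPT P) (h0 : ∀ a, 1 < (P a).p) {L : α → List (List Bool × ℕ)}
    {e : α → List Bool} {s al z : α → ℕ} (hL : PT L)
    (he : PT e) (hs : PT s) (hal : PT al) (hz : PT z) :
    PT (fun a => okZ (P a) (L a) (e a) (s a) (al a) (z a)) :=
  (PT.le (PT.mulConst (pt_musum h h0 hL he hal) 64)
    (PT.mul (pt_pw h.N hs) (pt_msum h h0 hL he hs hal hz))).and
  (PT.le (pt_pw h.N (PT.sub (PT.sub (PT.sub (PT.add h.K h.c) (PT.length he)) hs) h.a))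
    (PT.mul h.p (pt_msum h h0 hL he hs hal hz)))

theorem pt_prs {p : α → ℕ} (hp : PT p) : PT (fun a => prs (p a)) := by
  refine PT.flatMap (g := fun a al => (List.range (p a)).map fun z => (al, z)) (PT.range hp) ?_
  exact PT.map (f := fun x : α × ℕ => List.range (p x.1)) (g := fun x z => (x.2, z))
    (PT.range (hp.comp PT.fst)) (PT.pair PT.fst.snd' PT.snd)

/-- The predicate of `ptsC`. -/
def okC (P : Par) (L : List (List Bool × ℕ)) (ch : Bool) (k : ℕ) (x : ℕ × ℕ) (y : List Bool × ℕ) :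
    Bool := okZ P L (y.1.take (P.R + 1 + k) ++ [ch]) P.s x.1 x.2

/-- The predicate of `ptsF`. -/
def okF (P : Par) (L : List (List Bool × ℕ)) (ch : Bool) (x : ℕ × ℕ) (i : ℕ) :
    Bool := okZ P L [ch] (i + 1 + P.s) x.1 x.2

theorem pt_okC (h : PPT P) (h0 : ∀ a, 1 < (P a).p) {L : α → List (List Bool × ℕ)}
    {ch : α → Bool} {k : α → ℕ} {x : α → ℕ × ℕ} {y : α → List Bool × ℕ} (hL : PT L)
    (hch : PT ch) (hk : PT k) (hx : PT x) (hy : PT y) :
    PT (fun a => okC (P a) (L a) (ch a) (k a) (x a) (y a)) := by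
  have he : PT (fun a => (y a).1.take ((P a).R + 1 + k a) ++ [ch a]) :=
    PT.append (pt_take (PT.add (PT.addConst h.R 1) hk) hy.fst') (PT.list1 hch)
  exact pt_okZ h h0 hL he h.s hx.fst' hx.snd'

theorem pt_okF (h : PPT P) (h0 : ∀ a, 1 < (P a).p) {L : α → List (List Bool × ℕ)}
    {ch : α → Bool} {i : α → ℕ} {x : α → ℕ × ℕ} (hL : PT L)
    (hch : PT ch) (hx : PT x) (hi : PT i) :
    PT (fun a => okF (P a) (L a) (ch a) (x a) (i a)) := by
  have he : PT (fun a => [ch a]) := PT.list1 hch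
  have hs : PT (fun a => i a + 1 + (P a).s) := PT.add hi.succ h.s
  exact pt_okZ h h0 hL he hs hx.fst' hx.snd'

theorem ptsC_eq (P : Par) (L : List (List Bool × ℕ)) (ch : Bool) : ptsC P L ch =
    (prs P.p).filter fun x => (List.range P.q).any fun k => L.any fun y => okC P L ch k x y := rfl

theorem ptsF_eq (P : Par) (L : List (List Bool × ℕ)) (ch : Bool) : ptsF P L ch =
    (prs P.p).filter fun x => (List.range P.R).any fun i => okF P L ch x i := rfl

theorem pt_ptsC (h : PPT P) (h0 : ∀ a, 1 < (P a).p) {L : α → List (List Bool × ℕ)}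
    {ch : α → Bool} (hL : PT L) (hch : PT ch) : PT (fun a => ptsC (P a) (L a) (ch a)) := by
  have hA : PT (fun z : ((α × (ℕ × ℕ)) × ℕ) × (List Bool × ℕ) => z.1.1.1) := PT.fst.fst'.fst'
  have h1 : PT (fun z : ((α × (ℕ × ℕ)) × ℕ) × (List Bool × ℕ) =>
      okC (P z.1.1.1) (L z.1.1.1) (ch z.1.1.1) z.1.2 z.1.1.2 z.2) :=
    pt_okC (P := fun z : ((α × (ℕ × ℕ)) × ℕ) × (List Bool × ℕ) => P z.1.1.1) (h.comp hA)
      (fun z => h0 _) (hL.comp hA) (hch.comp hA) PT.fst.snd' PT.fst.fst'.snd' PT.snd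
  have h2 : PT (fun z : (α × (ℕ × ℕ)) × ℕ => (L z.1.1).any fun y =>
      okC (P z.1.1) (L z.1.1) (ch z.1.1) z.2 z.1.2 y) :=
    PT.any (f := fun z : (α × (ℕ × ℕ)) × ℕ => L z.1.1) (p := fun z y =>
      okC (P z.1.1) (L z.1.1) (ch z.1.1) z.2 z.1.2 y) (hL.comp PT.fst.fst') h1
  have h3 : PT (fun z : α × (ℕ × ℕ) => (List.range (P z.1).q).any fun k => (L z.1).any fun y =>
      okC (P z.1) (L z.1) (ch z.1) k z.2 y) :=
    PT.any (f := fun z : α × (ℕ × ℕ) => List.range (P z.1).q) (p := fun z k =>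
      (L z.1).any fun y => okC (P z.1) (L z.1) (ch z.1) k z.2 y) (PT.range (h.q.comp PT.fst)) h2
  have h4 := PT.filter (f := fun a => prs (P a).p) (p := fun a x =>
    (List.range (P a).q).any fun k => (L a).any fun y => okC (P a) (L a) (ch a) k x y)
    (pt_prs h.p) h3
  exact h4.congr (fun a => (ptsC_eq _ _ _).symm)

theorem pt_ptsF (h : PPT P) (h0 : ∀ a, 1 < (P a).p) {L : α → List (List Bool × ℕ)}
    {ch : α → Bool} (hL : PT L) (hch : PT ch) : PT (fun a => ptsF (P a) (L a) (ch a)) := by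
  have hA : PT (fun z : (α × (ℕ × ℕ)) × ℕ => z.1.1) := PT.fst.fst'
  have h2 : PT (fun z : (α × (ℕ × ℕ)) × ℕ => okF (P z.1.1) (L z.1.1) (ch z.1.1) z.1.2 z.2) :=
    pt_okF (P := fun z : (α × (ℕ × ℕ)) × ℕ => P z.1.1) (h.comp hA)
      (fun z => h0 _) (hL.comp hA) (hch.comp hA) PT.fst.snd' PT.snd
  have h3 : PT (fun z : α × (ℕ × ℕ) => (List.range (P z.1).R).any fun i =>
      okF (P z.1) (L z.1) (ch z.1) z.2 i) :=
    PT.any (f := fun z : α × (ℕ × ℕ) => List.range (P z.1).R) (p := fun z i =>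
      okF (P z.1) (L z.1) (ch z.1) z.2 i) (PT.range (h.R.comp PT.fst)) h2
  have h4 := PT.filter (f := fun a => prs (P a).p) (p := fun a x =>
    (List.range (P a).R).any fun i => okF (P a) (L a) (ch a) x i) (pt_prs h.p) h3
  exact h4.congr (fun a => (ptsF_eq _ _ _).symm)

/-! ### Interpolation -/

theorem pt_pwm {p x i : α → ℕ} (hp : PT p) (hx : PT x) (hi : PT i) (h0 : ∀ a, 1 < p a) :
    PT (fun a => pwm (p a) (x a) (i a)) := by
  refine pt_iter_inv (f := i) (init := fun a => 1 % p a) (step := fun a y => y * x a % p a) hi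
    (pt_mod (PT.const 1) hp) (pt_mod (PT.mul PT.snd (hx.comp PT.fst)) (hp.comp PT.fst))
    (fun a y => y < p a) (fun a => Nat.mod_lt _ (by have := h0 a; omega))
    (fun a y _ => Nat.mod_lt _ (by have := h0 a; omega)) (B := fun a => 2 * p a + 1)
    (((NB.const 2).mul (NB.of_pt hp)).add (NB.const 1)) (fun a s hs => by rw [size_nat]; omega)

theorem pt_evL {p x : α → ℕ} {Y : α → List ℕ} (hp : PT p) (hY : PT Y) (hx : PT x)
    (h0 : ∀ a, 1 < p a) : PT (fun a => evL (p a) (Y a) (x a)) := by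
  refine pt_foldr (f := Y) (init := fun _ => 0) (step := fun a c y => (c + x a * y) % p a) hY
    (PT.const 0) (pt_mod (PT.add PT.snd.fst' (PT.mul (hx.comp PT.fst) PT.snd.snd'))
      (hp.comp PT.fst)) (fun a s => s < p a) (fun a => by have := h0 a; omega)
    (fun a s b _ _ => Nat.mod_lt _ (by have := h0 a; omega)) (B := fun a => 2 * p a + 1)
    (((NB.const 2).mul (NB.of_pt hp)).add (NB.const 1)) (fun a s hs => by rw [size_nat]; omega)

theorem pt_D (h : PPT P) (i : ℕ) : PT (fun a => (P a).D i) := by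
  by_cases hi : i = 0
  · subst hi
    exact (PT.const 2).congr (fun a => by simp [Par.D])
  · refine (pt_pw h.N (PT.mul (PT.const i) h.E)).congr (fun a => by simp [Par.D, hi])

theorem pt_Bd (h : PPT P) (i : ℕ) : PT (fun a => (P a).Bd i) :=
  PT.succ (pt_div (PT.mul h.p (pt_pw h.N h.B.succ)) (pt_D h i))

theorem pt_mon {p Dn Bn : α → ℕ} {x : α → ℕ × ℕ} (hp : PT p) (hD : PT Dn) (hBn : PT Bn)
    (hx : PT x) (h0 : ∀ a, 1 < p a) : PT (fun a => mon (p a) (Dn a) (Bn a) (x a)) := by
  refine PT.flatMap (g := fun a b => (List.range (Dn a)).map fun c =>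
    pwm (p a) (x a).1 c * pwm (p a) (x a).2 b % p a) (PT.range hBn) ?_
  refine PT.map (f := fun y : α × ℕ => List.range (Dn y.1)) (g := fun y c =>
    pwm (p y.1) (x y.1).1 c * pwm (p y.1) (x y.1).2 y.2 % p y.1)
    (PT.range (hD.comp PT.fst)) ?_
  have hA : PT (fun y : (α × ℕ) × ℕ => y.1.1) := PT.fst.fst'
  exact pt_mod (PT.mul
    (pt_pwm (p := fun y : (α × ℕ) × ℕ => p y.1.1) (hp.comp hA) ((hx.comp hA).fst') PT.snd
      (fun y => h0 _))
    (pt_pwm (p := fun y : (α × ℕ) × ℕ => p y.1.1) (hp.comp hA) ((hx.comp hA).snd') PT.fst.snd'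
      (fun y => h0 _))) (hp.comp hA)

theorem pt_kern {p Dn Bn : α → ℕ} {S : α → List (ℕ × ℕ)} (hp : PT p) (hD : PT Dn) (hBn : PT Bn)
    (hS : PT S) (h0 : ∀ a, 1 < p a) : PT (fun a => kern (p a) (Dn a) (Bn a) (S a)) := by
  have h1 : PT (fun z : α × (ℕ × ℕ) => mon (p z.1) (Dn z.1) (Bn z.1) z.2) :=
    pt_mon (p := fun z : α × (ℕ × ℕ) => p z.1) (hp.comp PT.fst)
      (hD.comp PT.fst) (hBn.comp PT.fst) PT.snd (fun x => h0 _)
  have h2 : PT (fun a => (S a).map (mon (p a) (Dn a) (Bn a))) :=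
    PT.map (g := fun a x => mon (p a) (Dn a) (Bn a) x) hS h1
  exact K.pt_kern hp (PT.mul hD hBn) h2 h0

theorem pt_fnz {V : α → List (List ℕ)} (hV : PT V) : PT (fun a => fnz (V a)) := by
  refine pt_getDopt (pt_find (p := fun _ (v : List ℕ) => v.any (· != 0)) hV ?_) (PT.const [])
  exact PT.any (f := fun x : α × List ℕ => x.2) (p := fun _ c => c != 0) PT.snd (pt_ne0 PT.snd)

theorem pt_itp (h : PPT P) (h0 : ∀ a, 1 < (P a).p) (i : ℕ) {S : α → List (ℕ × ℕ)} (hS : PT S) :
    PT (fun a => itp (P a) i (S a)) := by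
  have hD := pt_D h i
  refine pt_fnz (PT.map (g := fun a b => ((kern (P a).p ((P a).D i) ((P a).Bd i) (S a)).drop
    (b * (P a).D i)).take ((P a).D i)) (PT.range (pt_Bd h i)) ?_)
  exact pt_take (hD.comp PT.fst) (PT.drop (PT.mul PT.snd (hD.comp PT.fst))
    ((pt_kern h.p hD (pt_Bd h i) hS h0).comp PT.fst))

/-! ### Contents and tested strings -/

theorem pt_lam (h : PPT P) (h0 : ∀ a, 1 < (P a).p) {L : α → List (List Bool × ℕ)} (hL : PT L) :
    PT (fun a => lam (P a) (L a)) := by
  refine pt_getDopt (pt_find (p := fun a x =>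
    evL (P a).p (itp (P a) 4 (ptsC (P a) (L a) true)) x != 0) (PT.range h.p) ?_) (PT.const 0)
  exact pt_ne0 (pt_evL (p := fun x : α × ℕ => (P x.1).p) (h.p.comp PT.fst)
    ((pt_itp h h0 4 (pt_ptsC h h0 hL (PT.const true))).comp PT.fst) PT.snd (fun x => h0 _))

theorem pt_cont (h : PPT P) (h0 : ∀ a, 1 < (P a).p) {u : α → List Bool}
    {L : α → List (List Bool × ℕ)} (hu : PT u) (hL : PT L) (ch : Bool) :
    PT (fun a => cont (P a) (u a) (L a) ch) := by
  refine PT.ite (c := fun a => (u a).length ≤ (P a).R) (PT.le (PT.length hu) h.R) ?_ ?_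
  · cases ch with
    | true => exact (pt_itp h h0 2 (pt_ptsC h h0 hL (PT.const false))).congr (fun a => rfl)
    | false =>
      exact (PT.cons (PT.sub h.p (pt_lam h h0 hL)) (PT.const [1])).congr (fun a => rfl)
  · cases ch with
    | true => exact (pt_itp h h0 3 (pt_ptsF h h0 hL (PT.const true))).congr (fun a => rfl)
    | false => exact (pt_itp h h0 1 (pt_ptsF h h0 hL (PT.const false))).congr (fun a => rfl)

theorem pt_pre (h : PPT P) {u : α → List Bool} (hu : PT u) (ch : Bool) :
    PT (fun a => pre (P a) (u a) ch) :=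
  PT.ite (c := fun a => (u a).length ≤ (P a).R) (PT.le (PT.length hu) h.R) (PT.const [ch])
    (PT.append hu (PT.const [ch]))

theorem pt_sl (h : PPT P) {u : α → List Bool} (hu : PT u) : PT (fun a => sl (P a) (u a)) :=
  PT.ite (c := fun a => (u a).length ≤ (P a).R) (PT.le (PT.length hu) h.R)
    (PT.add (PT.length hu) h.s) h.s

theorem pt_tst (h : PPT P) (h0 : ∀ a, 1 < (P a).p) {u : α → List Bool}
    {L : α → List (List Bool × ℕ)} (hu : PT u) (hL : PT L) (ch : Bool) :
    PT (fun a => tst (P a) (u a) (L a) ch) := by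
  refine PT.map (f := fun a => (L a).filter fun x => (x.1.drop (P a).K0).all (fun b => !b) &&
      decide (hsh (P a) x.1 (evL (P a).p (cont (P a) (u a) (L a) ch) (alp (P a) x.1)) <
        thr (P a).p (sl (P a) (u a)))) (g := fun a x => pre (P a) (u a) ch ++ x.1.take (P a).K0)
    ?_ ?_
  · refine PT.filter (p := fun a x => (x.1.drop (P a).K0).all (fun b => !b) &&
      decide (hsh (P a) x.1 (evL (P a).p (cont (P a) (u a) (L a) ch) (alp (P a) x.1)) <
        thr (P a).p (sl (P a) (u a)))) hL ?_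
    have hA : PT (fun x : α × (List Bool × ℕ) => x.1) := PT.fst
    have hal : PT (fun x : α × (List Bool × ℕ) => alp (P x.1) x.2.1) :=
      pt_alp (P := fun x : α × (List Bool × ℕ) => P x.1) (h.comp hA) (fun x => h0 _) PT.snd.fst'
    refine PT.and (PT.all (f := fun x : α × (List Bool × ℕ) => x.2.1.drop (P x.1).K0)
      (p := fun _ b => !b) (PT.drop (h.K0.comp hA) PT.snd.fst') (PT.not PT.snd)) ?_
    refine PT.lt (pt_hsh (P := fun x : α × (List Bool × ℕ) => P x.1) (h.comp hA) (fun x => h0 _)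
      PT.snd.fst' ?_) (pt_thr (h.p.comp hA) ((pt_sl h hu).comp hA))
    exact pt_evL (p := fun x : α × (List Bool × ℕ) => (P x.1).p) (h.p.comp hA)
      ((pt_cont h h0 hu hL ch).comp hA) hal (fun x => h0 _)
  · exact PT.append ((pt_pre h hu ch).comp PT.fst) (pt_take (h.K0.comp PT.fst) PT.snd.fst')

/-! ### The view -/

theorem pt_look {H : α → List (List Bool × ℕ)} {y : α → List Bool} (hH : PT H) (hy : PT y) :
    PT (fun a => look (H a) (y a)) := by
  refine pt_getDopt (pt_optMap (g := fun _ x => x.2)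
    (pt_find (p := fun a x => decide (x.1 = y a)) hH ?_) PT.snd.snd') (PT.const 0)
  exact PT.eq PT.snd.fst' (hy.comp PT.fst)

theorem pt_viewOf (h : PPT P) (hK : NB (fun a => 2 ^ (P a).K)) (hc : NB (fun a => 2 ^ (P a).c))
    {H : α → List (List Bool × ℕ)} (hH : PT H) : PT (fun a => viewOf (P a) (H a)) := by
  refine PT.map (g := fun a y => (y, min (2 ^ (P a).c) (look (H a) y.reverse)))
    (pt_allL h.K hK) ?_
  exact PT.pair PT.snd (pt_min ((pt_pow (PT.const 2) h.c hc).comp PT.fst)
    (pt_look (hH.comp PT.fst) (PT.reverse PT.snd)))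

end Pool.Agent.Lib.MP_33f9c4_lc.LK
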