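import Pool.Agent.Lib.MP_33f9c4_lc.K.Bl

/-!
# MODULE Inde. Disjoint blocks of a bit list are independent

`q W ≤ N`, `w k ≤ W` for `k < q`; `blk k e = (e.drop (W k)).take (w k)`, a bit list of length `w k`.
For functions `f k : List Bool → ℝ`, `I ⊆ range q`:
`(∑ e ∈ bl N, ∏ k ∈ I, f k (blk k e)) * ∏ k ∈ I, 2^(w k) = 2^N * ∏ k ∈ I, ∑ w ∈ bl (w k), f k w`.
PROOF. By induction on `q` (general `N`): split `e = e1 ++ e2` with `|e1| = W` (sum_bl_add), the block 0 is a
prefix of `e1`, the other blocks are blocks of `e2` (index shift `k ↦ k + 1`), `∑ e1 ∈ bl W, f (e1.take w0) =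
2^(W-w0) ∑ w ∈ bl w0, f w` (sum_bl_add).
-/

namespace Pool.Agent.Lib.MP_33f9c4_lc.LK

open Finset

theorem sum_take (W w : ℕ) (hw : w ≤ W) (f : List Bool → ℝ) :
    (∑ u ∈ bl W, f (u.take w)) * 2 ^ w = 2 ^ W * ∑ v ∈ bl w, f v := by
  obtain ⟨c, rfl⟩ := Nat.exists_eq_add_of_le hw
  rw [sum_bl_add]
  have h1 : ∀ u ∈ bl w, ∑ v ∈ bl c, f ((u ++ v).take w) = 2 ^ c * f u := by
    intro u hu
    have hl := mem_bl.1 hu
    have h2 : ∀ v ∈ bl c, f ((u ++ v).take w) = f u := by
      intro v _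
      rw [← hl, List.take_left]
    rw [Finset.sum_congr rfl h2, Finset.sum_const, card_bl, nsmul_eq_mul]
    push_cast
    rfl
  rw [Finset.sum_congr rfl h1, ← Finset.mul_sum, pow_add]
  ring

theorem indep_full (W : ℕ) (q : ℕ) : ∀ (N : ℕ) (_ : q * W ≤ N) (w : ℕ → ℕ)
    (_ : ∀ k < q, w k ≤ W) (f : ℕ → List Bool → ℝ),
    (∑ e ∈ bl N, ∏ k ∈ range q, f k ((e.drop (W * k)).take (w k))) *
      ∏ k ∈ range q, (2 : ℝ) ^ w k = 2 ^ N * ∏ k ∈ range q, ∑ v ∈ bl (w k), f k v := by
  induction q with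
  | zero =>
    intro N _ w _ f
    simp [card_bl]
  | succ q ih =>
    intro N hN w hw f
    have hN' : W + q * W ≤ N := by
      have : (q + 1) * W = W + q * W := by ring
      omega
    obtain ⟨N', rfl⟩ := Nat.exists_eq_add_of_le (show W ≤ N by omega)
    rw [sum_bl_add]
    have h1 : ∀ u ∈ bl W, ∀ v ∈ bl N',
        ∏ k ∈ range (q + 1), f k (((u ++ v).drop (W * k)).take (w k)) =
        (∏ k ∈ range q, f (k + 1) ((v.drop (W * k)).take (w (k + 1)))) * f 0 (u.take (w 0)) := by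
      intro u hu v _
      have hl := mem_bl.1 hu
      rw [Finset.prod_range_succ']
      congr 1
      · refine Finset.prod_congr rfl fun k _ => ?_
        have e1 : (u ++ v).drop (W * (k + 1)) = v.drop (W * k) := by
          rw [List.drop_append, List.drop_eq_nil_of_le, List.nil_append, hl]
          · congr 1
            rw [Nat.mul_succ, Nat.add_sub_cancel]
          · rw [hl]
            exact Nat.le_mul_of_pos_right _ (Nat.succ_pos _)
        rw [e1]
      · have h0 := hw 0 (Nat.succ_pos _)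
        rw [Nat.mul_zero, List.drop_zero, List.take_append_of_le_length (by omega)]
    have h2 : ∑ u ∈ bl W, ∑ v ∈ bl N',
        ∏ k ∈ range (q + 1), f k (((u ++ v).drop (W * k)).take (w k)) =
        (∑ v ∈ bl N', ∏ k ∈ range q, f (k + 1) ((v.drop (W * k)).take (w (k + 1)))) *
          ∑ u ∈ bl W, f 0 (u.take (w 0)) := by
      rw [Finset.sum_mul_sum, Finset.sum_comm]
      exact Finset.sum_congr rfl fun v hv => Finset.sum_congr rfl fun u hu => h1 u hu v hv
    have h3 := ih N' (by omega) (fun k => w (k + 1)) (fun k hk => hw (k + 1) (by omega))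
      (fun k => f (k + 1))
    have h4 := sum_take W (w 0) (hw 0 (Nat.succ_pos _)) (f 0)
    rw [h2, Finset.prod_range_succ', Finset.prod_range_succ', pow_add]
    calc _ = ((∑ v ∈ bl N', ∏ k ∈ range q, f (k + 1) ((v.drop (W * k)).take (w (k + 1)))) *
          ∏ k ∈ range q, (2 : ℝ) ^ w (k + 1)) *
          ((∑ u ∈ bl W, f 0 (u.take (w 0))) * 2 ^ w 0) := by ring
      _ = _ := by
        rw [h3, h4]
        ring

theorem indep (W : ℕ) (q N : ℕ) (hN : q * W ≤ N) (w : ℕ → ℕ) (hw : ∀ k < q, w k ≤ W)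
    (I : Finset ℕ) (hI : I ⊆ range q) (f : ℕ → List Bool → ℝ) :
    (∑ e ∈ bl N, ∏ k ∈ I, f k ((e.drop (W * k)).take (w k))) * ∏ k ∈ I, (2 : ℝ) ^ w k =
      2 ^ N * ∏ k ∈ I, ∑ v ∈ bl (w k), f k v := by
  have h := indep_full W q N hN (fun k => if k ∈ I then w k else 0)
    (fun k hk => by
      by_cases hkI : k ∈ I
      · simp only [hkI, if_true]
        exact hw k hk
      · simp only [hkI, if_false]
        exact Nat.zero_le _)
    (fun k v => if k ∈ I then f k v else 1)
  have hr : ∀ g : ℕ → ℝ, ∏ k ∈ I, g k = ∏ k ∈ range q, if k ∈ I then g k else 1 := by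
    intro g
    rw [Finset.prod_ite_mem, Finset.inter_eq_right.2 hI]
  rw [hr, hr, Finset.sum_congr rfl fun e _ => hr _]
  convert h using 2
  · refine Finset.sum_congr rfl fun e _ => Finset.prod_congr rfl fun k _ => ?_
    by_cases hk : k ∈ I <;> simp [hk]
  · refine Finset.prod_congr rfl fun k _ => ?_
    by_cases hk : k ∈ I <;> simp [hk]
  · refine Finset.prod_congr rfl fun k _ => ?_
    by_cases hk : k ∈ I <;> simp [hk, card_bl]

end Pool.Agent.Lib.MP_33f9c4_lc.LK
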