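import Mathlib

/-!
# MODULE Starve (abstract). A set of large density has few starved coordinates

`Ω` a finite set, for `k ∈ I` a function `c k : Ω → X k` into a finite set; hypothesis `hind`
(independence): for all real functions `g k : X k → ℝ`,
`∑ ω, ∏ k ∈ I, g k (c k ω) * ∏ k ∈ I, |X k| = |Ω| * ∏ k ∈ I, ∑ w, g k w`.
`Q ⊆ Ω`; `w ∈ X k` is starved if `2 |X k| |{ω ∈ Q : c k ω = w}| < |Q|`. If for all `k ∈ I` at least
`κ |X k|` elements of `X k` are starved, `0 < κ ≤ 1/8`, then `|Q| exp(0.09 κ |I|) ≤ |Ω|`.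

PROOF. Let `B k` be the set of starved elements, `x = |B k|/|X k| ≥ κ`. `Q(B k) := |{ω ∈ Q : c k ω ∈ B k}|/|Q|
≤ x/2`; in particular `x < 1` (otherwise all of `Q` is in starved cells, `1 ≤ 1/2`), if `Q` is not empty
(if `Q` is empty nothing is to prove). Put `g k w = 1/2` on `B k` and `g k w = 1 + θ` with
`θ = x/(2(1-x))` elsewhere: then `∑ w, g k w = |X k|`, so by `hind`
`∑_{ω ∈ Q} ∏ g k (c k ω) ≤ ∑_ω ∏ g k (c k ω) = |Ω|`. By AM-GM (`Real.inner_le...`, or Jensen for `exp`:
`convexOn_exp.map_sum_le`) the left side is `≥ |Q| exp((1/|Q|) ∑_{ω ∈ Q} ∑_k log g k (c k ω))`, and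
for each `k`: `(1/|Q|) ∑_{ω ∈ Q} log g k (c k ω) = -Q(B k) log 2 + (1 - Q(B k)) log(1+θ)
≥ -(x/2) log 2 + (1 - x/2) log(1+θ)`. Here `θ ≥ x/2`, `log(1+θ) ≥ log(1+x/2)`; it remains
`(1 - x/2) log(1 + θ) - (x/2) log 2 ≥ 0.09 κ`. The function `D(x) = (1-x/2) log((1-x/2)/(1-x)) - (x/2) log 2` is
increasing (it suffices: for `x ≤ 1/8` use `log(1+θ) ≥ θ/(1+θ) = x/(2-x)`, so
`D(x) ≥ (1-x/2) x/(2-x) - (x/2) log 2 = (x/2)(1 - log 2) ≥ 0.153 x`; the same bound
`log(1+θ) ≥ θ/(1+θ) = x/(2-x)` holds for ALL `x < 1`, and `(1-x/2) x/(2-x) = x/2`. So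
`D(x) ≥ (x/2)(1 - log 2) ≥ 0.15 x ≥ 0.09 κ` for all `x` in `[κ, 1)`.) (`Real.log_two_lt_d9`.)
-/

namespace Pool.Agent.Lib.MP_33f9c4_lc.LK

open Finset

/-- The inequality for one coordinate. -/
theorem starve_one (N b M q κ : ℝ) (hN : 0 < N) (hb : b < N) (hM0 : 0 ≤ M) (hMq : M ≤ q)
    (hM : 2 * N * M ≤ b * q) (hκ0 : 0 < κ) (hκ : κ * N ≤ b) (hq : 0 ≤ q) :
    0.09 * κ * q ≤ M * Real.log (1 / 2) + (q - M) * Real.log (1 + b / (2 * (N - b))) := by
  have hb0 : 0 < b := lt_of_lt_of_le (mul_pos hκ0 hN) hκ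
  have hNb : 0 < N - b := by linarith
  have hl2 : Real.log (1 / 2) = -Real.log 2 := by
    rw [one_div, Real.log_inv]
  have hlog2 : Real.log 2 < 0.7 := lt_trans Real.log_two_lt_d9 (by norm_num)
  have hlog20 : 0 < Real.log 2 := Real.log_pos (by norm_num)
  set θ : ℝ := b / (2 * (N - b)) with hθ
  have hθ0 : 0 < θ := by positivity
  have h1θ : 0 < 1 + θ := by linarith
  have hlog : b / (2 * N - b) ≤ Real.log (1 + θ) := by
    have h := Real.one_sub_inv_le_log_of_pos h1θ
    have h2 : 1 - (1 + θ)⁻¹ = b / (2 * N - b) := by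
      have h3 : 1 + θ = (2 * N - b) / (2 * (N - b)) := by
        rw [hθ]
        field_simp
        ring
      have h4 : (2 * N - b) ≠ 0 := by
        have : 0 < 2 * N - b := by linarith
        exact this.ne'
      rw [h3, inv_div]
      field_simp
      ring
    rw [h2] at h
    exact h
  have h2Nb : 0 < 2 * N - b := by linarith
  have hM2 : M ≤ b * q / (2 * N) := by
    rw [le_div_iff₀ (by positivity)]
    linarith
  have hA : M * Real.log 2 ≤ b * q / (2 * N) * Real.log 2 :=
    mul_le_mul_of_nonneg_right hM2 hlog20.le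
  have hB : (q - b * q / (2 * N)) * (b / (2 * N - b)) ≤ (q - M) * Real.log (1 + θ) := by
    apply mul_le_mul (by linarith) hlog (by positivity) (by linarith)
  have hC : (q - b * q / (2 * N)) * (b / (2 * N - b)) = b * q / (2 * N) := by
    field_simp
  have hD : κ * q / 2 ≤ b * q / (2 * N) := by
    rw [div_le_div_iff₀ (by norm_num) (by positivity)]
    nlinarith [mul_le_mul_of_nonneg_right hκ hq]
  have hE : b * q / (2 * N) * 0.3 ≤ b * q / (2 * N) * (1 - Real.log 2) := by
    apply mul_le_mul_of_nonneg_left (by linarith)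
    positivity
  rw [hl2]
  have hκq : 0 ≤ κ * q := by positivity
  nlinarith [hA, hB, hC, hD, hE]

theorem starve {Ω ι : Type*} [DecidableEq Ω] [DecidableEq ι] (U : Finset Ω) (I : Finset ι)
    (X : ι → Type*) [∀ k, Fintype (X k)] [∀ k, DecidableEq (X k)] [∀ k, Nonempty (X k)]
    (c : ∀ k, Ω → X k)
    (hind : ∀ g : ∀ k, X k → ℝ, (∑ ω ∈ U, ∏ k ∈ I, g k (c k ω)) * ∏ k ∈ I, (Fintype.card (X k) : ℝ) =
      #U * ∏ k ∈ I, ∑ w, g k w)
    (Q : Finset Ω) (hQ : Q ⊆ U) (κ : ℝ) (hκ0 : 0 < κ) (hκ1 : κ ≤ 1 / 8)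
    (hst : ∀ k ∈ I, κ * Fintype.card (X k) ≤
      #{w : X k | 2 * Fintype.card (X k) * #{ω ∈ Q | c k ω = w} < #Q}) :
    #Q * Real.exp (0.09 * κ * #I) ≤ #U := by
  rcases Q.eq_empty_or_nonempty with hQe | hQne
  · simp [hQe]
  have hq0 : (0 : ℝ) < #Q := by exact_mod_cast hQne.card_pos
  classical
  set B : ∀ k, Finset (X k) := fun k =>
    {w : X k | 2 * Fintype.card (X k) * #{ω ∈ Q | c k ω = w} < #Q} with hBdef
  have hN : ∀ k, (0 : ℝ) < Fintype.card (X k) := fun k => by exact_mod_cast Fintype.card_pos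
  -- the number of members of `Q` in starved cells
  set M : ι → ℕ := fun k => #{ω ∈ Q | c k ω ∈ B k} with hMdef
  have hMsum : ∀ k, M k = ∑ w ∈ B k, #{ω ∈ Q | c k ω = w} := by
    intro k
    have h := Finset.card_eq_sum_card_fiberwise (s := {ω ∈ Q | c k ω ∈ B k}) (t := B k)
      (f := c k) (fun ω hω => by
        simp only [Finset.coe_filter, Set.mem_ofPred_eq] at hω
        exact hω.2)
    rw [hMdef]
    simp only
    rw [h]
    apply Finset.sum_congr rfl
    intro w hw
    congr 1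
    ext ω
    simp only [Finset.mem_filter]
    constructor
    · rintro ⟨⟨h1, _⟩, h3⟩
      exact ⟨h1, h3⟩
    · rintro ⟨h1, h3⟩
      exact ⟨⟨h1, by rw [h3]; exact hw⟩, h3⟩
  have hMle : ∀ k, 2 * Fintype.card (X k) * M k ≤ #(B k) * #Q := by
    intro k
    rw [hMsum, Finset.mul_sum, ← smul_eq_mul (#(B k)), ← Finset.sum_const]
    apply Finset.sum_le_sum
    intro w hw
    have : 2 * Fintype.card (X k) * #{ω ∈ Q | c k ω = w} < #Q := by
      have := hw
      simp only [hBdef, Finset.mem_filter, Finset.mem_univ, true_and] at this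
      exact this
    exact this.le
  have hMleR : ∀ k, 2 * (Fintype.card (X k) : ℝ) * M k ≤ #(B k) * #Q := by
    intro k
    exact_mod_cast hMle k
  have hMq : ∀ k, M k ≤ #Q := fun k => Finset.card_filter_le _ _
  have hMqR : ∀ k, (M k : ℝ) ≤ #Q := fun k => by exact_mod_cast hMq k
  have hBlt : ∀ k, #(B k) < Fintype.card (X k) := by
    intro k
    rcases lt_or_eq_of_le (Finset.card_le_univ (B k)) with h | h
    · exact h
    · exfalso
      have hU : B k = Finset.univ := Finset.eq_univ_of_card _ h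
      have hM : M k = #Q := by
        rw [hMdef]
        simp only
        rw [hU]
        simp
      have h1 := hMle k
      rw [hM, h] at h1
      have h2 : 0 < Fintype.card (X k) * #Q := Nat.mul_pos Fintype.card_pos hQne.card_pos
      nlinarith
  have hBltR : ∀ k, (#(B k) : ℝ) < Fintype.card (X k) := fun k => by exact_mod_cast hBlt k
  set θ : ι → ℝ := fun k => #(B k) / (2 * ((Fintype.card (X k) : ℝ) - #(B k))) with hθdef
  have hθ0 : ∀ k, 0 ≤ θ k := by
    intro k
    apply div_nonneg (by positivity)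
    have := hBltR k
    linarith
  set g : ∀ k, X k → ℝ := fun k w => if w ∈ B k then 1 / 2 else 1 + θ k with hgdef
  have hg0 : ∀ k w, 0 < g k w := by
    intro k w
    simp only [hgdef]
    split_ifs
    · norm_num
    · have := hθ0 k
      linarith
  have hgsum : ∀ k, ∑ w, g k w = Fintype.card (X k) := by
    intro k
    have h1 : ∑ w, g k w = #(B k) * (1 / 2 : ℝ) + ((Fintype.card (X k) : ℝ) - #(B k)) * (1 + θ k) := by
      simp only [hgdef]
      rw [Finset.sum_ite, Finset.sum_const, Finset.sum_const, nsmul_eq_mul, nsmul_eq_mul]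
      have h2 : Finset.filter (fun w => w ∈ B k) Finset.univ = B k := by
        ext w
        simp
      have h3 : (#(Finset.filter (fun w => w ∉ B k) Finset.univ) : ℝ) =
          (Fintype.card (X k) : ℝ) - #(B k) := by
        have h4 := Finset.card_filter_add_card_filter_not (s := (Finset.univ : Finset (X k)))
          (fun w => w ∈ B k)
        rw [h2, Finset.card_univ] at h4
        have h5 : (#(B k) : ℝ) + #(Finset.filter (fun w => w ∉ B k) Finset.univ) =
            Fintype.card (X k) := by exact_mod_cast h4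
        linarith
      rw [h2, h3]
    rw [h1]
    have h2 : (Fintype.card (X k) : ℝ) - #(B k) ≠ 0 := (sub_pos.mpr (hBltR k)).ne'
    simp only [hθdef]
    field_simp
    ring
  have hUsum : ∑ ω ∈ U, ∏ k ∈ I, g k (c k ω) = #U := by
    have h := hind g
    have h2 : ∏ k ∈ I, ∑ w, g k w = ∏ k ∈ I, (Fintype.card (X k) : ℝ) :=
      Finset.prod_congr rfl fun k _ => hgsum k
    rw [h2] at h
    exact mul_right_cancel₀ (Finset.prod_pos fun k _ => hN k).ne' h
  have hQsum : ∑ ω ∈ Q, ∏ k ∈ I, g k (c k ω) ≤ #U := by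
    rw [← hUsum]
    apply Finset.sum_le_sum_of_subset_of_nonneg hQ
    intro ω _ _
    exact Finset.prod_nonneg fun k _ => (hg0 k _).le
  refine le_trans ?_ hQsum
  set m : ℝ := 0.09 * κ * #I with hm
  set y : Ω → ℝ := fun ω => ∑ k ∈ I, Real.log (g k (c k ω)) with hy
  have hexp : ∀ ω, ∏ k ∈ I, g k (c k ω) = Real.exp (y ω) := by
    intro ω
    simp only [hy]
    rw [Real.exp_sum]
    apply Finset.prod_congr rfl
    intro k _
    rw [Real.exp_log (hg0 k _)]
  have htan : ∀ ω, Real.exp m * (1 + (y ω - m)) ≤ ∏ k ∈ I, g k (c k ω) := by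
    intro ω
    rw [hexp]
    have h1 : Real.exp (y ω) = Real.exp m * Real.exp (y ω - m) := by
      rw [← Real.exp_add]
      congr 1
      ring
    rw [h1]
    apply mul_le_mul_of_nonneg_left _ (Real.exp_pos _).le
    have := Real.add_one_le_exp (y ω - m)
    linarith
  have hysum : #Q * m ≤ ∑ ω ∈ Q, y ω := by
    simp only [hy]
    rw [Finset.sum_comm]
    have h1 : (#Q : ℝ) * m = ∑ k ∈ I, 0.09 * κ * #Q := by
      rw [Finset.sum_const, nsmul_eq_mul, hm]
      ring
    rw [h1]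
    apply Finset.sum_le_sum
    intro k hk
    have h2 : ∑ ω ∈ Q, Real.log (g k (c k ω)) =
        M k * Real.log (1 / 2) + ((#Q : ℝ) - M k) * Real.log (1 + θ k) := by
      have h3 : ∀ ω, Real.log (g k (c k ω)) =
          if c k ω ∈ B k then Real.log (1 / 2) else Real.log (1 + θ k) := by
        intro ω
        simp only [hgdef]
        split_ifs <;> rfl
      rw [Finset.sum_congr rfl fun ω _ => h3 ω, Finset.sum_ite, Finset.sum_const, Finset.sum_const,
        nsmul_eq_mul, nsmul_eq_mul]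
      have h4 : (#(Finset.filter (fun ω => c k ω ∉ B k) Q) : ℝ) = (#Q : ℝ) - M k := by
        have h5 := Finset.card_filter_add_card_filter_not (s := Q) (fun ω => c k ω ∈ B k)
        have h6 : (M k : ℝ) + #(Finset.filter (fun ω => c k ω ∉ B k) Q) = #Q := by
          exact_mod_cast h5
        linarith
      rw [h4]
    rw [h2]
    have h7 : κ * Fintype.card (X k) ≤ #(B k) := by
      have := hst k hk
      exact_mod_cast this
    exact starve_one (Fintype.card (X k)) (#(B k)) (M k) (#Q) κ (hN k) (hBltR k) (by positivity)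
      (hMqR k) (hMleR k) hκ0 h7 hq0.le
  calc (#Q : ℝ) * Real.exp m ≤ Real.exp m * (#Q + (∑ ω ∈ Q, y ω - #Q * m)) := by
        nlinarith [Real.exp_pos m]
    _ = ∑ ω ∈ Q, Real.exp m * (1 + (y ω - m)) := by
        rw [← Finset.mul_sum, Finset.sum_add_distrib, Finset.sum_sub_distrib, Finset.sum_const,
          Finset.sum_const, nsmul_eq_mul, nsmul_eq_mul, mul_one]
    _ ≤ ∑ ω ∈ Q, ∏ k ∈ I, g k (c k ω) := Finset.sum_le_sum fun ω _ => htan ω

end Pool.Agent.Lib.MP_33f9c4_lc.LK
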