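import Pool.Agent.Lib.MP_33f9c4_lc.K.Sees
import Pool.Agent.Lib.MP_33f9c4_lc.K.Starve
import Pool.Agent.Lib.MP_33f9c4_lc.K.Inde

/-!
# MODULE CSeen. Every coarse message is seen by almost all fine programs  (section 4.1)

`Hosted P T`: every tested string is the value of an entry of a table `j`, `l ≤ j ≤ n`.
`u` coarse, `s = sl P u = u.length + P.s ≤ R + P.s`, `|pre| = 1`. `X = tset`, `#X ≥ 2^(n-s-2)` (card_tset_ge).
For each `x ∈ X` choose a host `(j x, e x)`. The tables `j > jM` have at most `2^(n-jM+1) ≤ 2^(n-s-3)` entries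
together, and `x ↦ (j x, e x)` is injective, so at least `2^(n-s-3)` elements are hosted in `j ≤ jM`; there
are `jM - l + 1 ≤ 2R = 2^(r+1)` such tables (h2), so for some `τ`, `l ≤ τ ≤ jM`,
`Q = {e x : x ∈ X, j x = τ} ⊆ bl (n-τ+1)` has at least `2^(n-s-4-r)` elements.
`starve` (module Starve) with `U = bl (n-τ+1)`, `I` = the set of the bad `k < q`, cells
`X k = {bit lists of length R+1+k+w}` (as a subtype or `Fin (R+1+k+w) → Bool`), `c k e = (e.drop (W k)).take (R+1+k+w)`,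
`κ = 2^(-w)/16`: `k` is bad if at least `κ |X k|` cells are starved. Independence of the coordinates
`c k`: module Inde (`hind`). So `#Q exp(0.09 κ #I) ≤ 2^(n-τ+1)`, hence
`0.09 κ #I ≤ log(2^(n-τ+1)/#Q) ≤ (s+5+r-τ) log 2 ≤ s log 2` (`τ ≥ l ≥ r+18`), `#I ≤ s 0.7 * 16 2^w/0.09 ≤ 125 * 2R * 2^w ≤ q/32`
(h2: `s ≤ R + P.s ≤ 2R`; h3).
If `k` is not bad: the number of starved cells is `< κ 2^(R+1+k+w) = 2^(R+1+k)/16`, so for all but `1/16`
of the `v ∈ bl (R+1+k)` the cell `v ++ 0^w` is not starved: `2 * 2^(R+1+k+w) #{e ∈ Q : c k e = v 0^w} ≥ #Q`; these entries are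
read by `v` (mat_fine) so `H = {x ∈ X : j x = τ, c k (e x) = v 0^w}` satisfies the hypotheses of
`sees_of_hosts`: `#H ≥ 2^(n-s-5-r-|v|-w)`, and `nread ≤ length (reads) ≤ 2^(n+2-l-|v|-w)` (h6, h1).
-/

namespace Pool.Agent.Lib.MP_33f9c4_lc.LK

open Finset

/-- every tested string occurs in a table -/
def Hosted (P : Par) (T : Tab) : Prop :=
  ∀ u, Co P u ∨ Fi P u → ∀ ch, ∀ x ∈ tset P T u ch, ∃ j e, P.l ≤ j ∧ j ≤ P.n ∧
    e.length = P.n - j + 1 ∧ T j e = some x

theorem cSeen_geom (m : ℕ) : ∑ i ∈ range m, 2 ^ (i + 1) + 2 = 2 ^ (m + 1) := by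
  induction m with
  | zero => simp
  | succ m ih =>
    rw [sum_range_succ, pow_succ 2 (m + 1), ← ih]
    omega

theorem cSeen_geom2 (n J : ℕ) (hJ : J ≤ n) :
    ∑ j ∈ Ioc J n, 2 ^ (n - j + 1) ≤ 2 ^ (n - J + 1) := by
  have h : ∑ j ∈ Ioc J n, 2 ^ (n - j + 1) = ∑ i ∈ range (n - J), 2 ^ (i + 1) := by
    refine sum_nbij' (fun j => n - j) (fun i => n - i) ?_ ?_ ?_ ?_ ?_
    · intro j hj
      rw [mem_Ioc] at hj
      rw [mem_range]
      omega
    · intro i hi
      rw [mem_range] at hi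
      rw [mem_Ioc]
      omega
    · intro j hj
      rw [mem_Ioc] at hj
      omega
    · intro i hi
      rw [mem_range] at hi
      omega
    · intro j _
      rfl
  rw [h]
  have h2 := cSeen_geom (n - J)
  omega

/-- a set of values of few tables: the number of different values with a host in `j > J` -/
theorem card_hosted_high (P : Par) (T : Tab) (X : Finset (List Bool)) (J : ℕ) (hJ : J ≤ P.n)
    (hX : ∀ x ∈ X, ∃ j e, J < j ∧ j ≤ P.n ∧ e.length = P.n - j + 1 ∧ T j e = some x) :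
    #X ≤ 2 ^ (P.n - J + 1) := by
  classical
  choose! jh eh h1 h2 h3 h4 using hX
  have h5 : #X ≤ #((Ioc J P.n).sigma fun j => bl (P.n - j + 1)) := by
    refine card_le_card_of_injOn (fun x => (⟨jh x, eh x⟩ : Σ _ : ℕ, List Bool)) ?_ ?_
    · intro x hx
      have hx' := mem_coe.mp hx
      exact mem_coe.mpr (mem_sigma.mpr ⟨mem_Ioc.mpr ⟨h1 x hx', h2 x hx'⟩,
        mem_bl.mpr (h3 x hx')⟩)
    · intro x hx y hy hxy
      have e1 : jh x = jh y := congrArg Sigma.fst hxy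
      have e2 : eh x = eh y := by
        have := (Sigma.mk.inj_iff.mp hxy).2
        exact eq_of_heq this
      have h6 := h4 x (mem_coe.mp hx)
      have h7 := h4 y (mem_coe.mp hy)
      rw [e1, e2, h7] at h6
      exact (Option.some.inj h6).symm
  rw [card_sigma] at h5
  refine h5.trans ((sum_le_sum fun j _ => le_of_eq (card_bl _)).trans ?_)
  exact cSeen_geom2 P.n J hJ

/-- the cells -/
def CSeenX (L : ℕ) : Type := {v : List Bool // v ∈ bl L}

instance cSeenXF (L : ℕ) : Fintype (CSeenX L) :=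
  inferInstanceAs (Fintype {v : List Bool // v ∈ bl L})

instance cSeenXD (L : ℕ) : DecidableEq (CSeenX L) :=
  inferInstanceAs (DecidableEq {v : List Bool // v ∈ bl L})

theorem cSeenX_card (L : ℕ) : Fintype.card (CSeenX L) = 2 ^ L :=
  (Fintype.card_coe (bl L)).trans (card_bl L)

/-- the cell of an entry -/
def cSeenc (W k L : ℕ) (e : List Bool) : CSeenX L :=
  ⟨(e.drop (W * k) ++ List.replicate L false).take L, by
    rw [mem_bl, List.length_take, List.length_append, List.length_replicate]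
    omega⟩

theorem cSeenc_val (W k L : ℕ) (e : List Bool) (h : W * k + L ≤ e.length) :
    (cSeenc W k L e).1 = (e.drop (W * k)).take L := by
  unfold cSeenc
  refine List.take_append_of_le_length ?_
  rw [List.length_drop]
  omega

theorem cSeen_ind (W q N : ℕ) (hN : q * W ≤ N) (w : ℕ → ℕ) (hw : ∀ k < q, w k ≤ W)
    (I : Finset ℕ) (hI : I ⊆ range q) (g : ∀ k, CSeenX (w k) → ℝ) :
    (∑ e ∈ bl N, ∏ k ∈ I, g k (cSeenc W k (w k) e)) *
      ∏ k ∈ I, (Fintype.card (CSeenX (w k)) : ℝ) =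
      #(bl N) * ∏ k ∈ I, ∑ v, g k v := by
  classical
  have h := indep W q N hN w hw I hI (fun k v => if h : v ∈ bl (w k) then g k ⟨v, h⟩ else 0)
  have hk : ∀ k < q, W * k + w k ≤ N := by
    intro k hk
    have h1 := hw k hk
    have h2 : (k + 1) * W ≤ q * W := Nat.mul_le_mul_right _ hk
    have h3 : (k + 1) * W = W * k + W := by ring
    omega
  have e1 : ∑ e ∈ bl N, ∏ k ∈ I, g k (cSeenc W k (w k) e) = ∑ e ∈ bl N, ∏ k ∈ I,
      (fun k v => if h : v ∈ bl (w k) then g k ⟨v, h⟩ else 0) k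
        ((e.drop (W * k)).take (w k)) := by
    refine sum_congr rfl fun e he => prod_congr rfl fun k hkI => ?_
    have h1 : W * k + w k ≤ e.length := by
      rw [mem_bl.mp he]
      exact hk k (mem_range.mp (hI hkI))
    have h2 : (e.drop (W * k)).take (w k) ∈ bl (w k) := by
      rw [← cSeenc_val W k (w k) e h1]
      exact (cSeenc W k (w k) e).2
    simp only [dif_pos h2]
    exact congrArg (g k) (Subtype.ext (cSeenc_val W k (w k) e h1))
  have e2 : ∀ k ∈ I, ∑ v ∈ bl (w k),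
      (fun k v => if h : v ∈ bl (w k) then g k ⟨v, h⟩ else 0) k v = ∑ v, g k v := by
    intro k _
    refine (Finset.sum_coe_sort (bl (w k)) _).symm.trans ?_
    refine Fintype.sum_congr _ _ fun v => ?_
    exact dif_pos v.2
  have e3 : ∏ k ∈ I, (Fintype.card (CSeenX (w k)) : ℝ) =
      ∏ k ∈ I, (2 : ℝ) ^ w k := by
    refine prod_congr rfl fun k _ => ?_
    rw [cSeenX_card]
    push_cast
    rfl
  have e4 : (#(bl N) : ℝ) = 2 ^ N := by
    rw [card_bl]
    push_cast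
    rfl
  rw [e1, e3, e4, h]
  exact congrArg _ (prod_congr rfl e2)

theorem cSeen_exp {x : ℝ} {A B s : ℕ} (hA : A ≤ B + s) (h : (2 : ℝ) ^ B * Real.exp x ≤ 2 ^ A) :
    x ≤ 0.7 * s := by
  have h1 : (2 : ℝ) ^ B * Real.exp x ≤ 2 ^ B * 2 ^ s := by
    refine h.trans ?_
    rw [← pow_add]
    exact pow_le_pow_right₀ (by norm_num) hA
  have h2 : Real.exp x ≤ 2 ^ s := le_of_mul_le_mul_left h1 (by positivity)
  have h3 : x ≤ Real.log (2 ^ s) := by
    rw [Real.le_log_iff_exp_le (by positivity)]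
    exact h2
  rw [Real.log_pow] at h3
  have h4 := Real.log_two_lt_d9
  have h5 : (0 : ℝ) ≤ s := by positivity
  nlinarith

/-- few coordinates are starved -/
theorem cSeen_bad {P : Par} (hP : P.Good) {τ sv : ℕ} (hτl : P.l ≤ τ) (hτ : τ ≤ P.jM)
    (hs : sv ≤ P.R + P.s) (Q : Finset (List Bool)) (hQ : Q ⊆ bl (P.n - τ + 1))
    (hcard : 2 ^ P.n ≤ #Q * 2 ^ (sv + 4 + P.r)) (I : Finset ℕ) (hI : I ⊆ range P.q)
    (hst : ∀ k ∈ I, (1 / (16 * 2 ^ P.w) : ℝ) *
      Fintype.card (CSeenX (P.R + 1 + k + P.w)) ≤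
      #{c : CSeenX (P.R + 1 + k + P.w) |
        2 * Fintype.card (CSeenX (P.R + 1 + k + P.w)) *
          #{ω ∈ Q | cSeenc P.W k (P.R + 1 + k + P.w) ω = c} < #Q}) :
    (32 : ℝ) * #I ≤ P.q := by
  have h5 := hP.h5
  have h4 := hP.h4
  have h1 := hP.h1
  have hjn : P.jM ≤ P.n := by
    unfold Par.jM
    omega
  have hN : P.q * P.W ≤ P.n - τ + 1 := by
    unfold Par.jM at hτ
    omega
  have hne : ∀ k, Nonempty (CSeenX (P.R + 1 + k + P.w)) := fun k =>
    ⟨⟨List.replicate (P.R + 1 + k + P.w) false, by rw [mem_bl, List.length_replicate]⟩⟩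
  have hκ : (1 / (16 * 2 ^ P.w) : ℝ) ≤ 1 / 8 := by
    have h6 : (1 : ℝ) ≤ 2 ^ P.w := one_le_pow₀ (by norm_num)
    rw [div_le_div_iff₀ (by positivity) (by norm_num)]
    linarith
  have h := starve (bl (P.n - τ + 1)) I (fun k => CSeenX (P.R + 1 + k + P.w))
    (fun k => cSeenc P.W k (P.R + 1 + k + P.w))
    (fun g => cSeen_ind P.W P.q (P.n - τ + 1) hN (fun k => P.R + 1 + k + P.w)
      (fun k hk => by show P.R + 1 + k + P.w ≤ P.W; omega) I hI g)
    Q hQ (1 / (16 * 2 ^ P.w)) (by positivity) hκ hst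
  rw [card_bl] at h
  have h6 : (2 : ℝ) ^ P.n * Real.exp (0.09 * (1 / (16 * 2 ^ P.w)) * #I) ≤
      2 ^ (P.n - τ + 1 + (sv + 4 + P.r)) := by
    have h7 : (2 : ℝ) ^ P.n ≤ #Q * 2 ^ (sv + 4 + P.r) := by exact_mod_cast hcard
    have h8 : (0 : ℝ) < Real.exp (0.09 * (1 / (16 * 2 ^ P.w)) * #I) := Real.exp_pos _
    have h9 : ((2 ^ (P.n - τ + 1) : ℕ) : ℝ) = 2 ^ (P.n - τ + 1) := by push_cast; rfl
    rw [h9] at h
    calc (2 : ℝ) ^ P.n * Real.exp (0.09 * (1 / (16 * 2 ^ P.w)) * #I)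
        ≤ (#Q * 2 ^ (sv + 4 + P.r)) * Real.exp (0.09 * (1 / (16 * 2 ^ P.w)) * #I) :=
          mul_le_mul_of_nonneg_right h7 h8.le
      _ = (#Q * Real.exp (0.09 * (1 / (16 * 2 ^ P.w)) * #I)) * 2 ^ (sv + 4 + P.r) := by ring
      _ ≤ 2 ^ (P.n - τ + 1) * 2 ^ (sv + 4 + P.r) :=
          mul_le_mul_of_nonneg_right h (by positivity)
      _ = 2 ^ (P.n - τ + 1 + (sv + 4 + P.r)) := by rw [← pow_add]
  have h7 := cSeen_exp (s := sv) (by omega) h6
  have hw : (0 : ℝ) < 2 ^ P.w := by positivity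
  have h8 : (0.09 : ℝ) * #I ≤ 0.7 * sv * (16 * 2 ^ P.w) := by
    have e : 0.09 * (1 / (16 * 2 ^ P.w)) * (#I : ℝ) = (0.09 * #I) / (16 * 2 ^ P.w) := by ring
    rw [e, div_le_iff₀ (by positivity)] at h7
    exact h7
  have h9 : (sv : ℝ) ≤ 2 * P.R := by
    have h10 : sv ≤ 2 * P.R := by
      have := hP.h2
      omega
    exact_mod_cast h10
  have h10 : (8000 : ℝ) * (P.R * 2 ^ P.w) ≤ P.q := by exact_mod_cast hP.h3
  have h11 : (sv : ℝ) * 2 ^ P.w ≤ 2 * P.R * 2 ^ P.w := mul_le_mul_of_nonneg_right h9 hw.le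
  nlinarith

/-- a cell which is not starved gives a program that sees `u` -/
theorem cSeen_sees {P : Par} (hP : P.Good) (T : Tab)
    (hT : ∀ j e x, T j e = some x → x.length = P.n) {u : List Bool} (hu : Co P u) (ch : Bool)
    {τ : ℕ} (hτl : P.l ≤ τ) (hτ : τ ≤ P.jM) {k : ℕ} (hk : k < P.q) {v : List Bool}
    (hv : v ∈ bl (P.R + 1 + k)) (X' : Finset (List Bool)) (eh : List Bool → List Bool)
    (hX : ∀ x ∈ X', x ∈ tset P T u ch ∧ (eh x).length = P.n - τ + 1 ∧ T τ (eh x) = some x)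
    (hcard : 2 ^ P.n ≤ #X' * 2 ^ (sl P u + 4 + P.r))
    (hns : #X' ≤ 2 * 2 ^ (P.R + 1 + k + P.w) * #{x ∈ X' |
      ((eh x).drop (P.W * k)).take (P.R + 1 + k + P.w) = v ++ List.replicate P.w false}) :
    S P T v u ch := by
  have hvl : v.length = P.R + 1 + k := mem_bl.mp hv
  have hvR : P.R < v.length := by omega
  have hvq : v.length ≤ P.R + P.q := by omega
  have hpre : (pre P u ch).length = 1 := by
    unfold pre
    rw [if_pos hu.2]
    rfl
  obtain ⟨H, hHdef⟩ : ∃ H, H = {x ∈ X' |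
      ((eh x).drop (P.W * k)).take (P.R + 1 + k + P.w) = v ++ List.replicate P.w false} :=
    ⟨_, rfl⟩
  rw [← hHdef] at hns
  have hmain : 2 ^ P.n ≤ #H * 2 ^ (P.R + 1 + k + P.w + 1 + (sl P u + 4 + P.r)) := by
    calc 2 ^ P.n ≤ #X' * 2 ^ (sl P u + 4 + P.r) := hcard
      _ ≤ (2 * 2 ^ (P.R + 1 + k + P.w) * #H) * 2 ^ (sl P u + 4 + P.r) :=
          Nat.mul_le_mul_right _ hns
      _ = #H * 2 ^ (P.R + 1 + k + P.w + 1 + (sl P u + 4 + P.r)) := by
          rw [pow_add 2 (P.R + 1 + k + P.w + 1), pow_succ]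
          ring
  have h1 := hP.h1
  have h6 := hP.h6
  refine sees_of_hosts hP T hT (v := v) (u := u) (Or.inr ⟨⟨hvR, hvq⟩, hu⟩) ch H ?_ ?_ ?_
  · intro x hx
    rw [hHdef] at hx
    obtain ⟨hx1, hx2⟩ := mem_filter.mp hx
    obtain ⟨h7, h8, h9⟩ := hX x hx1
    refine ⟨h7, (τ, eh x), ?_, h9⟩
    rw [mem_reads]
    refine ⟨hτl, ?_, h8, ?_⟩
    · unfold jhi
      rw [if_neg (by omega)]
      exact hτ
    · rw [mat_fine hP hvR hvq hτ h8]
      have e1 : v.length - P.R - 1 = k := by omega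
      rw [e1, hvl]
      exact hx2
  · rw [hpre]
    calc 2 ^ (P.n + 5) = 2 ^ P.n * 2 ^ 5 := by rw [pow_add]
      _ ≤ (#H * 2 ^ (P.R + 1 + k + P.w + 1 + (sl P u + 4 + P.r))) * 2 ^ 5 :=
          Nat.mul_le_mul_right _ hmain
      _ = 2 ^ (P.R + 1 + k + P.w + 1 + (sl P u + 4 + P.r) + 5) * #H := by
          rw [pow_add 2 (P.R + 1 + k + P.w + 1 + (sl P u + 4 + P.r))]
          ring
      _ ≤ 2 ^ (1 + sl P u + P.a) * #H := by
          refine Nat.mul_le_mul_right _ (Nat.pow_le_pow_right (by norm_num) ?_)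
          omega
  · have h7 : nread P T v (pre P u ch) ≤ (reads P v).length := List.countP_le_length
    have h8 := length_reads_fine hP hvR hvq
    rw [hvl] at h8
    have h9 : 512 * nread P T v (pre P u ch) * 2 ^ (P.l + (P.R + 1 + k) + P.w) ≤
        2 ^ sl P u * #H * 2 ^ (P.l + (P.R + 1 + k) + P.w) := by
      calc 512 * nread P T v (pre P u ch) * 2 ^ (P.l + (P.R + 1 + k) + P.w)
          ≤ 512 * (reads P v).length * 2 ^ (P.l + (P.R + 1 + k) + P.w) :=
            Nat.mul_le_mul_right _ (Nat.mul_le_mul_left _ h7)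
        _ = 512 * ((reads P v).length * 2 ^ (P.l + (P.R + 1 + k) + P.w)) := by ring
        _ ≤ 512 * 2 ^ (P.n + 2) := Nat.mul_le_mul_left _ h8
        _ = 2048 * 2 ^ P.n := by
            rw [pow_add]
            ring
        _ ≤ 2048 * (#H * 2 ^ (P.R + 1 + k + P.w + 1 + (sl P u + 4 + P.r))) :=
            Nat.mul_le_mul_left _ hmain
        _ = #H * 2 ^ (P.R + 1 + k + P.w + 1 + (sl P u + 4 + P.r) + 11) := by
            rw [pow_add 2 (P.R + 1 + k + P.w + 1 + (sl P u + 4 + P.r))]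
            ring
        _ ≤ #H * 2 ^ (sl P u + (P.l + (P.R + 1 + k) + P.w)) := by
            refine Nat.mul_le_mul_left _ (Nat.pow_le_pow_right (by norm_num) ?_)
            omega
        _ = 2 ^ sl P u * #H * 2 ^ (P.l + (P.R + 1 + k) + P.w) := by
            rw [pow_add 2 (sl P u)]
            ring
    exact Nat.le_of_mul_le_mul_right h9 (by positivity)

/-- many tested strings are hosted in one table -/
theorem cSeen_tau {P : Par} (hP : P.Good) (T : Tab) (hH : Hosted P T) {u : List Bool}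
    (hu : Co P u) (ch : Bool) : ∃ τ, P.l ≤ τ ∧ τ ≤ P.jM ∧ ∃ (X' : Finset (List Bool))
      (eh : List Bool → List Bool), (∀ x ∈ X', x ∈ tset P T u ch ∧
        (eh x).length = P.n - τ + 1 ∧ T τ (eh x) = some x) ∧
      2 ^ P.n ≤ #X' * 2 ^ (sl P u + 4 + P.r) := by
  classical
  have hh := hH u (Or.inl hu) ch
  choose! jh eh h1 h2 h3 h4 using hh
  have hpre : (pre P u ch).length = 1 := by
    unfold pre
    rw [if_pos hu.2]
    rfl
  have hsl : sl P u = u.length + P.s := by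
    unfold sl
    rw [if_pos hu.2]
  have hjM : P.jM = P.R + P.s + 4 := rfl
  have g5 := hP.h5
  have g2 := hP.h2
  have huR := hu.2
  have hge := card_tset_ge hP T (Or.inl hu) ch
  rw [hpre] at hge
  obtain ⟨X, hX⟩ : ∃ X, X = tset P T u ch := ⟨_, rfl⟩
  rw [← hX] at hge h1 h2 h3 h4
  have hhigh : #{x ∈ X | ¬ jh x ≤ P.jM} ≤ 2 ^ (P.n - P.jM + 1) := by
    refine card_hosted_high P T _ P.jM (by omega) fun x hx => ?_
    obtain ⟨hx1, hx2⟩ := mem_filter.mp hx
    exact ⟨jh x, eh x, not_le.mp hx2, h2 x hx1, h3 x hx1, h4 x hx1⟩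
  have hsplit := card_filter_add_card_filter_not (s := X) (fun x => jh x ≤ P.jM)
  have hlow : 2 ^ P.n ≤ #{x ∈ X | jh x ≤ P.jM} * 2 ^ (sl P u + 3) := by
    have h5 : #{x ∈ X | ¬ jh x ≤ P.jM} * 2 ^ (sl P u + 3) ≤ 2 ^ P.n := by
      refine (Nat.mul_le_mul_right _ hhigh).trans ?_
      rw [← pow_add]
      exact Nat.pow_le_pow_right (by norm_num) (by omega)
    have h6 : 2 * 2 ^ P.n ≤ #X * 2 ^ (sl P u + 3) := by
      calc 2 * 2 ^ P.n ≤ 2 * (2 ^ (1 + sl P u + 1) * #X) := Nat.mul_le_mul_left _ hge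
        _ = #X * 2 ^ (sl P u + 3) := by
          have e : sl P u + 3 = (1 + sl P u + 1) + 1 := by ring
          rw [e, pow_succ]
          ring
    rw [← hsplit, add_mul] at h6
    omega
  by_contra hcon
  push Not at hcon
  have h5 : ∀ τ ∈ Icc P.l P.jM, #{x ∈ {x ∈ X | jh x ≤ P.jM} | jh x = τ} *
      2 ^ (sl P u + 4 + P.r) ≤ 2 ^ P.n - 1 := by
    intro τ hτ
    obtain ⟨hτ1, hτ2⟩ := mem_Icc.mp hτ
    have h6 := hcon τ hτ1 hτ2 {x ∈ {x ∈ X | jh x ≤ P.jM} | jh x = τ} eh (by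
      intro x hx
      obtain ⟨hx1, hx2⟩ := mem_filter.mp hx
      obtain ⟨hx3, hx4⟩ := mem_filter.mp hx1
      refine ⟨by rw [← hX]; exact hx3, ?_, ?_⟩
      · rw [h3 x hx3, hx2]
      · rw [← hx2]
        exact h4 x hx3)
    omega
  have h6 : #{x ∈ X | jh x ≤ P.jM} =
      ∑ τ ∈ Icc P.l P.jM, #{x ∈ {x ∈ X | jh x ≤ P.jM} | jh x = τ} := by
    refine card_eq_sum_card_fiberwise fun x hx => ?_
    obtain ⟨hx1, hx2⟩ := mem_filter.mp (mem_coe.mp hx)
    exact mem_coe.mpr (mem_Icc.mpr ⟨h1 x hx1, hx2⟩)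
  have h7 : #{x ∈ X | jh x ≤ P.jM} * 2 ^ (sl P u + 4 + P.r) ≤
      (P.jM + 1 - P.l) * (2 ^ P.n - 1) := by
    rw [h6, sum_mul]
    refine (sum_le_sum h5).trans ?_
    rw [sum_const, smul_eq_mul, Nat.card_Icc]
  have h8 : 2 ^ P.n * (2 * P.R) ≤ #{x ∈ X | jh x ≤ P.jM} * 2 ^ (sl P u + 4 + P.r) := by
    calc 2 ^ P.n * (2 * P.R) ≤ (#{x ∈ X | jh x ≤ P.jM} * 2 ^ (sl P u + 3)) * (2 * P.R) :=
          Nat.mul_le_mul_right _ hlow
      _ = #{x ∈ X | jh x ≤ P.jM} * 2 ^ (sl P u + 4 + P.r) := by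
          have e : sl P u + 4 + P.r = (sl P u + 3) + 1 + P.r := by ring
          rw [hP.hR, e, pow_add 2 (sl P u + 3 + 1), pow_succ 2 (sl P u + 3)]
          ring
  have h9 : (P.jM + 1 - P.l) * (2 ^ P.n - 1) ≤ 2 * P.R * (2 ^ P.n - 1) :=
    Nat.mul_le_mul_right _ (by omega)
  have h10 : 2 ^ P.n * (2 * P.R) ≤ 2 * P.R * (2 ^ P.n - 1) := h8.trans (h7.trans h9)
  have hR : 0 < P.R := by omega
  have hn : 0 < 2 ^ P.n := by positivity
  have h11 : 2 ^ P.n ≤ 2 ^ P.n - 1 := by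
    rw [mul_comm] at h10
    exact Nat.le_of_mul_le_mul_left h10 (by omega)
  omega

open Classical in
theorem coarse_seen {P : Par} (hP : P.Good) (T : Tab)
    (hT : ∀ j e x, T j e = some x → x.length = P.n) (hH : Hosted P T) {u : List Bool}
    (hu : Co P u) (ch : Bool) :
    ∑ k ∈ range P.q, (#{v ∈ bl (P.R + 1 + k) | ¬ S P T v u ch} : ℝ) / 2 ^ (P.R + 1 + k) ≤
      P.q / 8 := by
  obtain ⟨τ, hτl, hτ, X', eh, hX, hcard⟩ := cSeen_tau hP T hH hu ch
  have hsl : sl P u ≤ P.R + P.s := by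
    unfold sl
    rw [if_pos hu.2]
    have := hu.2
    omega
  have hinj : Set.InjOn eh X' := by
    intro x hx y hy hxy
    have h1 := (hX x (mem_coe.mp hx)).2.2
    have h2 := (hX y (mem_coe.mp hy)).2.2
    rw [hxy, h2] at h1
    exact (Option.some.inj h1).symm
  have hQc : #(X'.image eh) = #X' := card_image_of_injOn hinj
  have hQ : X'.image eh ⊆ bl (P.n - τ + 1) := by
    intro e he
    obtain ⟨x, hx, rfl⟩ := mem_image.mp he
    exact mem_bl.mpr (hX x hx).2.1
  have hbad := cSeen_bad hP hτl hτ hsl (X'.image eh) hQ (by rw [hQc]; exact hcard)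
    {k ∈ range P.q | (1 / (16 * 2 ^ P.w) : ℝ) *
      Fintype.card (CSeenX (P.R + 1 + k + P.w)) ≤
      #{c : CSeenX (P.R + 1 + k + P.w) |
        2 * Fintype.card (CSeenX (P.R + 1 + k + P.w)) *
          #{ω ∈ X'.image eh | cSeenc P.W k (P.R + 1 + k + P.w) ω = c} < #(X'.image eh)}}
    (filter_subset _ _) (fun k hk => (mem_filter.mp hk).2)
  obtain ⟨I, hI⟩ : ∃ I, I = {k ∈ range P.q | (1 / (16 * 2 ^ P.w) : ℝ) *
      Fintype.card (CSeenX (P.R + 1 + k + P.w)) ≤
      #{c : CSeenX (P.R + 1 + k + P.w) |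
        2 * Fintype.card (CSeenX (P.R + 1 + k + P.w)) *
          #{ω ∈ X'.image eh | cSeenc P.W k (P.R + 1 + k + P.w) ω = c} < #(X'.image eh)}} :=
    ⟨_, rfl⟩
  rw [← hI] at hbad
  have hterm : ∀ k ∈ range P.q,
      (#{v ∈ bl (P.R + 1 + k) | ¬ S P T v u ch} : ℝ) / 2 ^ (P.R + 1 + k) ≤
        1 / 16 + if k ∈ I then 1 else 0 := by
    intro k hk
    have hpos : (0 : ℝ) < 2 ^ (P.R + 1 + k) := by positivity
    by_cases hkI : k ∈ I
    · rw [if_pos hkI, div_le_iff₀ hpos]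
      have h1 : (#{v ∈ bl (P.R + 1 + k) | ¬ S P T v u ch} : ℝ) ≤ 2 ^ (P.R + 1 + k) := by
        have h2 : #{v ∈ bl (P.R + 1 + k) | ¬ S P T v u ch} ≤ 2 ^ (P.R + 1 + k) := by
          rw [← card_bl]
          exact card_filter_le _ _
        exact_mod_cast h2
      nlinarith
    · rw [if_neg hkI, add_zero, div_le_iff₀ hpos]
      have h1 : ¬ ((1 / (16 * 2 ^ P.w) : ℝ) *
          Fintype.card (CSeenX (P.R + 1 + k + P.w)) ≤
          #{c : CSeenX (P.R + 1 + k + P.w) |
            2 * Fintype.card (CSeenX (P.R + 1 + k + P.w)) *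
              #{ω ∈ X'.image eh | cSeenc P.W k (P.R + 1 + k + P.w) ω = c} <
                #(X'.image eh)}) := by
        intro h2
        apply hkI
        rw [hI]
        exact mem_filter.mpr ⟨hk, h2⟩
      rw [not_le] at h1
      have hcc : Fintype.card (CSeenX (P.R + 1 + k + P.w)) =
          2 ^ (P.R + 1 + k + P.w) := cSeenX_card _
      have h2 : #{v ∈ bl (P.R + 1 + k) | ¬ S P T v u ch} ≤
          #{c : CSeenX (P.R + 1 + k + P.w) |
            2 * Fintype.card (CSeenX (P.R + 1 + k + P.w)) *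
              #{ω ∈ X'.image eh | cSeenc P.W k (P.R + 1 + k + P.w) ω = c} <
                #(X'.image eh)} := by
        have hmem : ∀ v : List Bool, v ∈ bl (P.R + 1 + k) →
            v ++ List.replicate P.w false ∈ bl (P.R + 1 + k + P.w) := by
          intro v hv
          rw [mem_bl, List.length_append, List.length_replicate, mem_bl.mp hv]
        refine card_le_card_of_injOn (fun v => if hv : v ∈ bl (P.R + 1 + k) then
          ⟨v ++ List.replicate P.w false, hmem v hv⟩ else cSeenc 0 0 (P.R + 1 + k + P.w) v) ?_ ?_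
        · intro v hv
          obtain ⟨hv1, hv2⟩ := mem_filter.mp (mem_coe.mp hv)
          refine mem_coe.mpr (mem_filter.mpr ⟨mem_univ _, ?_⟩)
          simp only [dif_pos hv1]
          by_contra h3
          rw [not_lt, hQc] at h3
          apply hv2
          refine cSeen_sees hP T hT hu ch hτl hτ (mem_range.mp hk) hv1 X' eh hX hcard ?_
          refine h3.trans ?_
          rw [hcc]
          refine Nat.mul_le_mul_left _ ?_
          have h4 : {ω ∈ X'.image eh | cSeenc P.W k (P.R + 1 + k + P.w) ω =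
              ⟨v ++ List.replicate P.w false, hmem v hv1⟩} ⊆
              {x ∈ X' | ((eh x).drop (P.W * k)).take (P.R + 1 + k + P.w) =
                v ++ List.replicate P.w false}.image eh := by
            intro ω hω
            obtain ⟨hω1, hω2⟩ := mem_filter.mp hω
            obtain ⟨x, hx, rfl⟩ := mem_image.mp hω1
            refine mem_image.mpr ⟨x, mem_filter.mpr ⟨hx, ?_⟩, rfl⟩
            have h5 : P.W * k + (P.R + 1 + k + P.w) ≤ (eh x).length := by
              rw [(hX x hx).2.1]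
              have g5 := hP.h5
              have g4 := hP.h4
              have h6 : (k + 1) * P.W ≤ P.q * P.W :=
                Nat.mul_le_mul_right _ (mem_range.mp hk)
              have h7 : (k + 1) * P.W = P.W * k + P.W := by ring
              have h8 := mem_range.mp hk
              unfold Par.jM at hτ
              omega
            rw [← cSeenc_val P.W k (P.R + 1 + k + P.w) (eh x) h5, hω2]
          exact (card_le_card h4).trans card_image_le
        · intro v hv v' hv' h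
          have hv1 := (mem_filter.mp (mem_coe.mp hv)).1
          have hv2 := (mem_filter.mp (mem_coe.mp hv')).1
          simp only [dif_pos hv1, dif_pos hv2] at h
          exact List.append_cancel_right (congrArg Subtype.val h)
      have h3 : (#{v ∈ bl (P.R + 1 + k) | ¬ S P T v u ch} : ℝ) ≤
          #{c : CSeenX (P.R + 1 + k + P.w) |
            2 * Fintype.card (CSeenX (P.R + 1 + k + P.w)) *
              #{ω ∈ X'.image eh | cSeenc P.W k (P.R + 1 + k + P.w) ω = c} <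
                #(X'.image eh)} := by exact_mod_cast h2
      refine h3.trans (h1.le.trans (le_of_eq ?_))
      rw [hcc]
      push_cast
      rw [pow_add 2 (P.R + 1 + k) P.w]
      field_simp
  refine (sum_le_sum hterm).trans ?_
  rw [sum_add_distrib, sum_const, card_range, nsmul_eq_mul]
  have h1 : ∑ k ∈ range P.q, (if k ∈ I then (1 : ℝ) else 0) = #I := by
    rw [sum_ite_mem, inter_eq_right.mpr (by rw [hI]; exact filter_subset _ _), sum_const,
      nsmul_eq_mul, mul_one]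
  rw [h1]
  linarith

end Pool.Agent.Lib.MP_33f9c4_lc.LK
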