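import Pool.Agent.Lib.MP_33f9c4_lc.K.Sees

/-!
# MODULE Chain. A closed walk of length 4 is impossible

`λ = lam P (view P T i)`. The content of `i` for the channel `false` is `[p - λ, 1]`, it vanishes at `λ`
(`evL`: `(p - λ + λ (1 + λ 0)) % p = 0`). `itp_zero` four times, with `length_ptsC`, `length_ptsF`, `ptsC_lt`,
`ptsF_lt`, `itp_prop` (the contents are non-zero mod `p` and have length `D i`):
`f` fine sees `i`: `evL p (itp P 1 (ptsF .. false)) λ = 0` = content of `f`, channel `false` (length `D 1`).
`j` coarse sees `f`: `evL p (itp P 2 (ptsC .. false)) λ = 0` = content of `j`, channel `true` (length `D 2`).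
`g` fine sees `j`: `evL p (itp P 3 (ptsF .. true)) λ = 0` = content of `g`, channel `true` (length `D 3`).
`i` coarse sees `g`: `evL p (itp P 4 (ptsC .. true)) λ = 0` for the view of `i`, contradicting `lam_spec`.
-/

namespace Pool.Agent.Lib.MP_33f9c4_lc.LK

open Finset

private theorem chain_ne {P : Par} {Y : List ℕ} (h1 : ∀ c ∈ Y, c < P.p)
    (h2 : ∃ c ∈ Y, c ≠ 0) : ∃ c ∈ Y, c % P.p ≠ 0 := by
  obtain ⟨c, hc, hc0⟩ := h2
  exact ⟨c, hc, by rw [Nat.mod_eq_of_lt (h1 c hc)]; exact hc0⟩

private theorem chain_root {p x : ℕ} (hp : 1 < p) (hx : x < p) : evL p [p - x, 1] x = 0 := by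
  have h1 : (1 : ℕ) % p = 1 := Nat.mod_eq_of_lt hp
  simp only [evL, List.foldr_cons, List.foldr_nil, Nat.mul_zero, Nat.add_zero, h1, Nat.mul_one]
  rw [Nat.sub_add_cancel hx.le, Nat.mod_self]

theorem chain {P : Par} (hP : P.Good) (T : Tab) {f g i j : List Bool} (hf : Fi P f)
    (hg : Fi P g) (hi : Co P i) (hj : Co P j) (h1 : S P T f i false) (h2 : S P T j f false)
    (h3 : S P T g j true) (h4 : S P T i g true) : False := by
  have hp : 1 < P.p := hP.prime.one_lt
  have hf' : ¬ f.length ≤ P.R := Nat.not_le.2 hf.1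
  have hg' : ¬ g.length ≤ P.R := Nat.not_le.2 hg.1
  have hi' : i.length ≤ P.R := hi.2
  have hj' : j.length ≤ P.R := hj.2
  obtain ⟨hl1, hl2⟩ := lam_spec hP (view P T i) (length_ptsC hP T i true)
  set lm := lam P (view P T i) with hlm
  -- first step
  have e1 : evL P.p (itp P 1 (ptsF P (view P T f) false)) lm = 0 := by
    have h1' : P.p ≤ 2 ^ P.a * #{al ∈ range P.p |
        (al, evL P.p [P.p - lm, 1] al) ∈ ptsF P (view P T f) false} := by
      have := h1
      simp only [S, val, cont, pts, if_pos hi', if_neg hf', Bool.false_eq_true, if_false] at this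
      exact this
    refine itp_zero hP (i := 1) le_rfl (by norm_num) (length_ptsF hP T f false)
      (fun x hx => ptsF_lt hx) [P.p - lm, 1] (by simp [Par.D]) ⟨1, by simp, ?_⟩ h1' lm
      (chain_root hp hl1)
    rw [Nat.mod_eq_of_lt hp]
    exact one_ne_zero
  have q1 := itp_prop hP (i := 1) le_rfl (by norm_num) (length_ptsF hP T f false)
  have e2 : evL P.p (itp P 2 (ptsC P (view P T j) false)) lm = 0 := by
    have h2' : P.p ≤ 2 ^ P.a * #{al ∈ range P.p |
        (al, evL P.p (itp P 1 (ptsF P (view P T f) false)) al) ∈ ptsC P (view P T j) false} := by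
      have := h2
      simp only [S, val, cont, pts, if_pos hj', if_neg hf', Bool.false_eq_true, if_false] at this
      exact this
    exact itp_zero hP (i := 2) (by norm_num) (by norm_num) (length_ptsC hP T j false)
      (fun x hx => ptsC_lt hx) _ q1.1.le (chain_ne q1.2.1 q1.2.2) h2' lm e1
  have q2 := itp_prop hP (i := 2) (by norm_num) (by norm_num) (length_ptsC hP T j false)
  have e3 : evL P.p (itp P 3 (ptsF P (view P T g) true)) lm = 0 := by
    have h3' : P.p ≤ 2 ^ P.a * #{al ∈ range P.p |
        (al, evL P.p (itp P 2 (ptsC P (view P T j) false)) al) ∈ ptsF P (view P T g) true} := by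
      have := h3
      simp only [S, val, cont, pts, if_pos hj', if_neg hg', if_true] at this
      exact this
    exact itp_zero hP (i := 3) (by norm_num) (by norm_num) (length_ptsF hP T g true)
      (fun x hx => ptsF_lt hx) _ q2.1.le (chain_ne q2.2.1 q2.2.2) h3' lm e2
  have q3 := itp_prop hP (i := 3) (by norm_num) (by norm_num) (length_ptsF hP T g true)
  have e4 : evL P.p (itp P 4 (ptsC P (view P T i) true)) lm = 0 := by
    have h4' : P.p ≤ 2 ^ P.a * #{al ∈ range P.p |
        (al, evL P.p (itp P 3 (ptsF P (view P T g) true)) al) ∈ ptsC P (view P T i) true} := by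
      have := h4
      simp only [S, val, cont, pts, if_pos hi', if_neg hg', if_true] at this
      exact this
    exact itp_zero hP (i := 4) (by norm_num) (by norm_num) (length_ptsC hP T i true)
      (fun x hx => ptsC_lt hx) _ q3.1.le (chain_ne q3.2.1 q3.2.2) h4' lm e3
  exact hl2 e4

end Pool.Agent.Lib.MP_33f9c4_lc.LK
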