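import Pool.Agent.Lib.MP_33f9c4_lc.K.Walk
import Pool.Agent.Lib.MP_33f9c4_lc.K.Chain

/-!
# Core theorem: some tested string is not in the tables
-/

namespace Pool.Agent.Lib.MP_33f9c4_lc.LK

open Finset

theorem core {P : Par} (hP : P.Good) (T : Tab)
    (hT : ∀ j e x, T j e = some x → x.length = P.n) :
    ∃ u : List Bool, 1 ≤ u.length ∧ u.length ≤ P.R + P.q ∧ ∃ x, Tested P u (view P T u) x ∧
      ∀ j e, P.l ≤ j → j ≤ P.n → e.length = P.n - j + 1 → T j e ≠ some x := by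
  by_contra hcon
  push Not at hcon
  have hH : Hosted P T := by
    intro u hu ch x hx
    obtain ⟨h1, v, hv, h2⟩ := (mem_tset_iff hP T hu ch x).1 hx
    have h3 : 1 ≤ u.length ∧ u.length ≤ P.R + P.q := by
      rcases hu with ⟨h, h'⟩ | ⟨h, h'⟩
      · exact ⟨h, by omega⟩
      · exact ⟨by omega, h'⟩
    obtain ⟨j, e, h4, h5, h6, h7⟩ := hcon u h3.1 h3.2 x ⟨h1, ch, v, hv, h2⟩
    exact ⟨j, e, h4, h5, h6, h7⟩
  obtain ⟨f, g, i, j, hf, hg, hi, hj, h1, h2, h3, h4⟩ := walk hP T hT hH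
  exact chain hP T hf hg hi hj h1 h2 h3 h4

end Pool.Agent.Lib.MP_33f9c4_lc.LK
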