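import Mathlib
import Pool.Agent.Lib.MP_33f9c4_lc.K.C02

/-!
# Parameters, templates, hash, messages

`L : List (List Bool × ℕ)` is always the list of all bit lists `y` of length `P.K` with their
weights (how often a program has seen a value that begins with `y`, rounded and capped).
-/

namespace Pool.Agent.Lib.MP_33f9c4_lc.LK

/-- The parameters. `n`: length of the strings; `l`: the tables `j < l` are not needed;
the program `u` tests about `2 ^ (n - |u| - s)` strings; `R = 2 ^ r` coarse classes; `w` zero
bits of the fine programs; `q` fine classes; `W` width of a block; `p` prime; `t` number of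
coefficients of the hash; `b` bits per coefficient; `K` length of the prefixes which are counted;
`c` rounding exponent; `a` threshold exponent; `B`, `E` exponents for interpolation; `N` a large
number, an upper bound for all powers which occur in the computation of the messages. -/
structure Par where
  n : ℕ
  l : ℕ
  s : ℕ
  r : ℕ
  R : ℕ
  w : ℕ
  q : ℕ
  W : ℕ
  p : ℕ
  t : ℕ
  b : ℕ
  K : ℕ
  c : ℕ
  a : ℕ
  B : ℕ
  E : ℕ
  N : ℕ

namespace Par

/-- the last fast table -/
def jF (P : Par) : ℕ := P.s + 6

/-- the last table which is read -/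
def jM (P : Par) : ℕ := P.R + P.s + 4

/-- the number of bits which are hashed -/
def K0 (P : Par) : ℕ := (P.t + 1) * P.b

/-- the inequalities which are needed for the combinatorial part -/
structure Good (P : Par) : Prop where
  prime : P.p.Prime
  hR : P.R = 2 ^ P.r
  h1 : P.r + 18 ≤ P.l
  h2 : P.s + 5 ≤ P.R
  h3 : 8000 * (P.R * 2 ^ P.w) ≤ P.q
  h4 : P.R + P.q + P.w ≤ P.W
  h5 : P.q * P.W + P.R + P.s + 4 ≤ P.n
  h6 : P.r + P.w + P.R + P.q + 9 ≤ P.a
  h7 : P.a + 8 ≤ P.t
  h8 : 2 ^ (P.R + P.s) ≤ P.p
  h9 : 2 * (P.t + 1) * P.p ≤ 2 ^ P.b
  h10 : 2 ^ (P.R + P.q + 1 + P.s) * P.t ≤ 2 ^ P.B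
  h11 : P.B + P.a + 2 ≤ P.E
  h12 : 2 ^ (4 * P.E + P.a + 2) ≤ P.p
  h13 : P.K0 + P.R + P.q + 1 ≤ P.K
  h14 : P.R + P.q + P.s + P.a + 2 ≤ P.c
  h15 : P.K + P.c ≤ P.n
  h16 : 2 ^ (P.K + P.c + 4 * P.E + P.B + P.R + P.s + 1) ≤ P.N

end Par

/-- `2 ^ e`, capped -/
def pw (N e : ℕ) : ℕ := min (2 ^ e) N

/-! ### Bit lists -/

/-- all bit lists of length `N` -/
def allL : ℕ → List (List Bool)
  | 0 => [[]]
  | N + 1 => (allL N).map (false :: ·) ++ (allL N).map (true :: ·)

/-- the last `k` binary digits of `i`, most significant first -/
def binw : ℕ → ℕ → List Bool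
  | 0, _ => []
  | k + 1, i => binw k (i / 2) ++ [decide (i % 2 = 1)]

/-- the value of a bit list modulo `p`, most significant bit first -/
def red (p : ℕ) (v : List Bool) : ℕ := v.foldl (fun x b => (2 * x + b.toNat) % p) 0

/-! ### Programs and what they read -/

/-- The template of the entries of table `j` which the program `u` reads. -/
def tmpl (P : Par) (u : List Bool) (j : ℕ) : List (Option Bool) :=
  if u.length ≤ P.R then
    (binw P.r (u.length - 1)).map some ++ u.map some ++
      List.replicate (P.n - j + 1 - P.r - u.length) none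
  else
    List.replicate (P.W * (u.length - P.R - 1)) none ++ u.map some ++
      List.replicate P.w (some false) ++
      List.replicate (P.n - j + 1 - P.W * (u.length - P.R - 1) - u.length - P.w) none

/-- the bit list `e` matches the template -/
def mat : List (Option Bool) → List Bool → Bool
  | [], [] => true
  | none :: T, _ :: e => mat T e
  | some c :: T, b :: e => (c == b) && mat T e
  | _, _ => false

/-- the last table which the program `u` reads -/
def jhi (P : Par) (u : List Bool) : ℕ := if u.length ≤ P.R then P.jF else P.jM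

/-- the list of the entries which the program `u` reads -/
def reads (P : Par) (u : List Bool) : List (ℕ × List Bool) :=
  (List.range' P.l (jhi P u + 1 - P.l)).flatMap fun j =>
    ((allL (P.n - j + 1)).filter (mat (tmpl P u j))).map fun e => (j, e)

/-- A table function: the value of the entry `e` of table `j`. -/
abbrev Tab : Type := ℕ → List Bool → Option (List Bool)

/-- how many entries read by `u` have a value which begins with `y` -/
def cnt (P : Par) (T : Tab) (u y : List Bool) : ℕ :=
  (reads P u).countP fun je => ((T je.1 je.2).map (y.isPrefixOf ·)).getD false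

/-- the view of the program `u` -/
def view (P : Par) (T : Tab) (u : List Bool) : List (List Bool × ℕ) :=
  (allL P.K).map fun y => (y, min (2 ^ P.c) (cnt P T u y / 2 ^ (P.n - P.K - P.c)))

/-! ### The hash -/

/-- the block of `y` which determines the evaluation point -/
def alp (P : Par) (y : List Bool) : ℕ := red P.p (y.take P.b)

/-- the `i`-th coefficient -/
def cf (P : Par) (y : List Bool) (i : ℕ) : ℕ := red P.p ((y.drop ((i + 1) * P.b)).take P.b)

/-- the hash of `z`: `∑ i < t, cf y i * z ^ i` modulo `p` -/
def hsh (P : Par) (y : List Bool) (z : ℕ) : ℕ :=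
  ((List.range P.t).foldl (fun (x : ℕ × ℕ) i =>
    ((x.1 + cf P y i * x.2) % P.p, x.2 * z % P.p)) (0, 1)).1

/-- `p / 2 ^ s` rounded up -/
def thr (p s : ℕ) : ℕ := (fun x => (x + 1) / 2)^[s] p

/-- `y` belongs to the slot with prefix `pre` and evaluation point `al` -/
def inS (P : Par) (pre : List Bool) (al : ℕ) (y : List Bool) : Bool :=
  pre.isPrefixOf y && decide (alp P (y.drop pre.length) = al)

/-- `y` belongs to the set of the value `z` at the point `al` -/
def inZ (P : Par) (pre : List Bool) (s al z : ℕ) (y : List Bool) : Bool :=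
  inS P pre al y && decide (hsh P (y.drop pre.length) z < thr P.p s)

/-- total weight of the set of the value `z` at the point `al` -/
def msum (P : Par) (L : List (List Bool × ℕ)) (pre : List Bool) (s al z : ℕ) : ℕ :=
  (L.map fun x => if inZ P pre s al z x.1 then x.2 else 0).sum

/-- total weight of the slot at the point `al` -/
def musum (P : Par) (L : List (List Bool × ℕ)) (pre : List Bool) (al : ℕ) : ℕ :=
  (L.map fun x => if inS P pre al x.1 then x.2 else 0).sum

/-- the pair `(al, z)` is listed for the slot `(pre, s)` -/
def okZ (P : Par) (L : List (List Bool × ℕ)) (pre : List Bool) (s al z : ℕ) : Bool :=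
  decide (64 * musum P L pre al ≤ pw P.N s * msum P L pre s al z) &&
    decide (pw P.N (P.K + P.c - pre.length - s - P.a) ≤ P.p * msum P L pre s al z)

/-- all pairs `(al, z)` with `al, z < p` -/
def prs (p : ℕ) : List (ℕ × ℕ) := (List.range p).flatMap fun al => (List.range p).map fun z => (al, z)

/-- the points listed by a coarse program (which looks at the slots of the fine programs) for the
channel `ch` -/
def ptsC (P : Par) (L : List (List Bool × ℕ)) (ch : Bool) : List (ℕ × ℕ) :=
  (prs P.p).filter fun x => (List.range P.q).any fun k => L.any fun y =>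
    okZ P L (y.1.take (P.R + 1 + k) ++ [ch]) P.s x.1 x.2

/-- the points listed by a fine program (which looks at the slots of the coarse programs) for the
channel `ch` -/
def ptsF (P : Par) (L : List (List Bool × ℕ)) (ch : Bool) : List (ℕ × ℕ) :=
  (prs P.p).filter fun x => (List.range P.R).any fun i => okZ P L [ch] (i + 1 + P.s) x.1 x.2

/-! ### Interpolation -/

/-- `x ^ i` modulo `p` -/
def pwm (p x i : ℕ) : ℕ := (fun y => y * x % p)^[i] (1 % p)

/-- value of the polynomial with coefficient list `Y` at `x`, modulo `p` -/
def evL (p : ℕ) (Y : List ℕ) (x : ℕ) : ℕ := Y.foldr (fun c y => (c + x * y) % p) 0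

/-- the bound for the degree in `x` -/
def Par.D (P : Par) (i : ℕ) : ℕ := if i = 0 then 2 else pw P.N (i * P.E)

/-- the bound for the degree in `y` -/
def Par.Bd (P : Par) (i : ℕ) : ℕ := P.p * pw P.N (P.B + 1) / P.D i + 1

/-- the values of the monomials `x ^ a * y ^ b`, `b < Bn`, `a < Dn`, at the point `x` (ordered by
`b`, then `a`) -/
def mon (p Dn Bn : ℕ) (x : ℕ × ℕ) : List ℕ :=
  (List.range Bn).flatMap fun b => (List.range Dn).map fun a => pwm p x.1 a * pwm p x.2 b % p

/-- a vector which is orthogonal modulo `p` to the vectors of monomials of all the points (not zero if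
there are fewer than `Dn * Bn` points) -/
def kern (p Dn Bn : ℕ) (S : List (ℕ × ℕ)) : List ℕ := K.kern p (Dn * Bn) (S.map (mon p Dn Bn))

/-- the first element which is not zero -/
def fnz (V : List (List ℕ)) : List ℕ := (V.find? fun v => v.any (· != 0)).getD []

/-- the result of the interpolation -/
def itp (P : Par) (i : ℕ) (S : List (ℕ × ℕ)) : List ℕ :=
  fnz ((List.range (P.Bd i)).map fun b =>
    ((kern P.p (P.D i) (P.Bd i) S).drop (b * P.D i)).take (P.D i))

/-! ### Contents and tested strings -/

/-- the label of a coarse program -/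
def lam (P : Par) (L : List (List Bool × ℕ)) : ℕ :=
  ((List.range P.p).find? fun x => evL P.p (itp P 4 (ptsC P L true)) x != 0).getD 0

/-- the content of the slot of the program `u` for the channel `ch` -/
def cont (P : Par) (u : List Bool) (L : List (List Bool × ℕ)) (ch : Bool) : List ℕ :=
  if u.length ≤ P.R then
    (if ch then itp P 2 (ptsC P L false) else [P.p - lam P L, 1])
  else (if ch then itp P 3 (ptsF P L true) else itp P 1 (ptsF P L false))

/-- the prefix of the slot of the program `u` for the channel `ch` -/
def pre (P : Par) (u : List Bool) (ch : Bool) : List Bool :=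
  if u.length ≤ P.R then [ch] else u ++ [ch]

/-- the density exponent of the slots of the program `u` -/
def sl (P : Par) (u : List Bool) : ℕ := if u.length ≤ P.R then u.length + P.s else P.s

/-- the prefixes of the strings tested by the program `u` for the channel `ch` -/
def tst (P : Par) (u : List Bool) (L : List (List Bool × ℕ)) (ch : Bool) : List (List Bool) :=
  (L.filter fun x => (x.1.drop P.K0).all (fun b => !b) &&
    decide (hsh P x.1 (evL P.p (cont P u L ch) (alp P x.1)) < thr P.p (sl P u))).map fun x =>
      pre P u ch ++ x.1.take P.K0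

/-- the string `x` is tested by the program `u` with the view `L` -/
def Tested (P : Par) (u : List Bool) (L : List (List Bool × ℕ)) (x : List Bool) : Prop :=
  x.length = P.n ∧ ∃ ch, ∃ v ∈ tst P u L ch, v <+: x

end Pool.Agent.Lib.MP_33f9c4_lc.LK
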