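import Pool.Agent.Lib.MP_33f9c4_lc.K.CSeen

/-!
# MODULE FSeen. At least half of the fine programs of a class are seen by a coarse program (4.2)

`k < q`, `δ = R + 1 + k`, `f ∈ bl δ`, `pre P f ch = f ++ [ch]`, `sl P f = P.s`. The sets `tset P T f ch`, `f ∈ bl δ`, are
pairwise disjoint (prefix `f`), each has at least `2^(n-δ-P.s-2)` elements.
BAD1: `f` such that more than half of `tset f` has its host in a table `j > jF`. The union of these
strings has, by card_hosted_high, at most `2^(n-jF+1) = 2^(n-P.s-5)` elements, so there are at most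
`2^(n-P.s-5)/2^(n-δ-P.s-3) = 2^(δ-2)` such `f`.
BAD2: `f` such that more than `2^(n-l+4-δ)` fast entries `(j,e)`, `l ≤ j ≤ jF`, `e ∈ bl (n-j+1)`, have a value beginning
with `f`; the number of fast entries is at most `2^(n-l+2)`, so there are at most `2^(δ-2)` such `f`.
All others: `H0` = the set of the `x ∈ tset f` whose (chosen) host is fast, `#H0 ≥ 2^(n-δ-P.s-3)`. Group the
fast entries by the first `r` bits (`2^r = R` portions): for some portion `ρ ∈ bl r` the number `H` of the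
`x ∈ H0` with `(e x).take r = ρ` is at least `#H0/R`; let `i = bv ρ < R`. `M` = number of the fast entries with
`e.take r = ρ` and value beginning with `f`, `M ≤ 2^(n-l+4-δ)`. By `choosePortion` with `J = bl (i+1)`,
`H u' = #{x : own (e x) = u'}`, `M u' = #{entries : own e = u'}` (the sums are `H`, `M`, as `own e ∈ bl (i+1)` for
`e.take r = ρ`): some `u' ∈ bl (i+1)` with `H M(u') ≤ 4 M H(u')` and `H ≤ 4 2^(i+1) H(u')`. Then `v = u'` (coarse, mem_reads_coarse)
satisfies the hypotheses of sees_of_hosts for `u = f` with the set `{x : own (e x) = u'}`: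
`h1`: `#H(u') ≥ 2^(n-δ-P.s-5-r-(i+1))`, h6. `h2`: `nread P T v (f ++ [ch]) ≤ M(u')` (for a coarse reader only fast tables are
read), and `512 M(u') ≤ 2^P.s H(u')` because `4 M/H ≤ 2^(2+n-l+4-δ-n+δ+P.s+3+r) = 2^(P.s+9+r-l) ≤ 2^(P.s-9)` (h1)
(and `P.s` is arbitrary: multiply out instead of dividing).
-/

namespace Pool.Agent.Lib.MP_33f9c4_lc.LK

open Finset

/-- the set of the fast entries -/
private def fSeenFE (P : Par) : Finset (ℕ × List Bool) :=
  (Icc P.l P.jF).biUnion fun j => (bl (P.n - j + 1)).image fun e => (j, e)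

private theorem fSeen_mem_FE {P : Par} {j : ℕ} {e : List Bool} :
    (j, e) ∈ fSeenFE P ↔ P.l ≤ j ∧ j ≤ P.jF ∧ e.length = P.n - j + 1 := by
  simp only [fSeenFE, mem_biUnion, mem_Icc, mem_image, Prod.mk.injEq, mem_bl]
  constructor
  · rintro ⟨j', ⟨h1, h2⟩, e', h3, rfl, rfl⟩
    exact ⟨h1, h2, h3⟩
  · rintro ⟨h1, h2, h3⟩
    exact ⟨j, ⟨h1, h2⟩, e, h3, rfl, rfl⟩

private theorem fSeen_geom (n l J : ℕ) (h : l ≤ J) (hJ : J ≤ n) :
    (∑ j ∈ Icc l J, 2 ^ (n - j + 1)) * 2 ^ l + 2 ^ (n - J + 1) * 2 ^ l ≤ 2 ^ (n + 2) := by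
  induction J, h using Nat.le_induction with
  | base =>
    simp only [Icc_self, sum_singleton]
    have h1 : 2 ^ (n - l + 1) * 2 ^ l = 2 ^ (n + 1) := by
      rw [← pow_add]
      congr 1
      omega
    rw [h1, pow_succ 2 (n + 1)]
    omega
  | succ J hlJ ih =>
    have ih := ih (by omega)
    have h1 : ∑ j ∈ Icc l (J + 1), 2 ^ (n - j + 1) =
        (∑ j ∈ Icc l J, 2 ^ (n - j + 1)) + 2 ^ (n - (J + 1) + 1) :=
      Finset.sum_Icc_succ_top (by omega) _
    have h2 : (2 : ℕ) ^ (n - J + 1) = 2 * 2 ^ (n - (J + 1) + 1) := by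
      rw [show n - J + 1 = (n - (J + 1) + 1) + 1 by omega, pow_succ]
      ring
    rw [h1]
    rw [h2] at ih
    nlinarith

private theorem fSeen_card_FE {P : Par} (h : P.jF ≤ P.n) :
    #(fSeenFE P) * 2 ^ P.l ≤ 2 ^ (P.n + 2) := by
  have h1 : #(fSeenFE P) ≤ ∑ j ∈ Icc P.l P.jF, 2 ^ (P.n - j + 1) := by
    refine card_biUnion_le.trans (sum_le_sum fun j _ => ?_)
    exact card_image_le.trans (card_bl _).le
  rcases Nat.lt_or_ge P.jF P.l with h2 | h2
  · rw [Icc_eq_empty (by omega), sum_empty] at h1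
    have h3 : #(fSeenFE P) = 0 := by omega
    rw [h3]
    simp
  · have h3 := fSeen_geom P.n P.l P.jF h2 h
    have h4 := Nat.mul_le_mul_right (2 ^ P.l) h1
    omega

/-- a list beginning with `f` -/
private theorem fSeen_take {f x : List Bool} {δ : ℕ} (hf : f.length = δ) (h : f <+: x) :
    x.take δ = f := by
  obtain ⟨t, rfl⟩ := h
  simp [← hf]

/-- the sum over `f` of the numbers of the elements of `X` with first part `f` -/
private theorem fSeen_sum_fiber {ι : Type*} [DecidableEq ι] (X : Finset ι) (δ : ℕ)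
    (g : ι → List Bool) (A : List Bool → Finset ι)
    (hA : ∀ f ∈ bl δ, A f ⊆ X ∧ ∀ x ∈ A f, g x = f) : ∑ f ∈ bl δ, #(A f) ≤ #X := by
  calc ∑ f ∈ bl δ, #(A f) ≤ ∑ f ∈ bl δ, #{x ∈ X | g x = f} := by
        refine sum_le_sum fun f hf => card_le_card fun x hx => ?_
        rw [mem_filter]
        exact ⟨(hA f hf).1 hx, (hA f hf).2 x hx⟩
    _ = #{x ∈ X | g x ∈ bl δ} := sum_card_fiberwise_eq_card_filter _ _ _
    _ ≤ #X := card_filter_le _ _

open Classical in
/-- a good fine program is seen by a coarse program -/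
private theorem fSeen_one {P : Par} (hP : P.Good) (T : Tab)
    (hT : ∀ j e x, T j e = some x → x.length = P.n) (ch : Bool) {f : List Bool} {δ : ℕ}
    (hδ1 : P.R + 1 ≤ δ) (hδ2 : δ ≤ P.R + P.q) (hf : f.length = δ)
    (H0 : Finset (List Bool))
    (hH0 : ∀ x ∈ H0, x ∈ tset P T f ch ∧ ∃ j e, P.l ≤ j ∧ j ≤ P.jF ∧ e.length = P.n - j + 1 ∧
      T j e = some x)
    (hA : 2 ^ P.n ≤ 2 ^ (δ + P.s + 3) * #H0)
    (hB : 2 ^ (δ + P.l) * #{je ∈ fSeenFE P | ∃ x, T je.1 je.2 = some x ∧ f <+: x} ≤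
      2 ^ (P.n + 4)) :
    ∃ v, Co P v ∧ S P T v f ch := by
  have hFi : Fi P f := by
    constructor <;> omega
  have hpre : pre P f ch = f ++ [ch] := by
    unfold pre
    rw [if_neg (by omega)]
  have hsl : sl P f = P.s := by
    unfold sl
    rw [if_neg (by omega)]
  choose! hj he h1 h2 h3 h4 using fun x hx => (hH0 x hx).2
  -- sizes
  have hR := hP.hR
  have g1 := hP.h1
  have g2 := hP.h2
  have g5 := hP.h5
  have g6 := hP.h6
  have g4 := hP.h4
  have hq : 1 ≤ P.q := by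
    by_contra hq
    omega
  have hqW : P.W ≤ P.q * P.W := Nat.le_mul_of_pos_left _ (by omega)
  have hjF : P.jF = P.s + 6 := rfl
  have hrR : P.r < P.R := by rw [hR]; exact Nat.lt_two_pow_self
  -- the portion
  have hmaps : ∀ x ∈ H0, (he x).take P.r ∈ bl P.r := by
    intro x hx
    rw [mem_bl, List.length_take, h3 x hx]
    have := h2 x hx
    omega
  have hsum : ∑ ρ ∈ bl P.r, #{x ∈ H0 | (he x).take P.r = ρ} = #H0 :=
    (card_eq_sum_card_fiberwise hmaps).symm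
  obtain ⟨ρ, hρ, hρ'⟩ : ∃ ρ ∈ bl P.r, #H0 ≤ P.R * #{x ∈ H0 | (he x).take P.r = ρ} := by
    refine exists_le_of_sum_le ⟨List.replicate P.r false, by simp [mem_bl]⟩ ?_
    rw [sum_const, card_bl, ← mul_sum, hsum, smul_eq_mul, hR]
  rw [mem_bl] at hρ
  have hi : bv ρ < P.R := by
    have := bv_lt ρ
    rw [hρ, ← hR] at this
    exact this
  set i := bv ρ with hidef
  -- the two counting functions
  set Hs : List Bool → Finset (List Bool) := fun v =>
    {x ∈ H0 | (he x).take P.r = ρ ∧ own P (he x) = v} with hHs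
  set Ms : List Bool → Finset (ℕ × List Bool) := fun v =>
    {je ∈ fSeenFE P | (je.2.take P.r = ρ ∧ own P je.2 = v) ∧
      ∃ x, T je.1 je.2 = some x ∧ f <+: x} with hMs
  have hHsum : ∑ v ∈ bl (i + 1), #(Hs v) = #{x ∈ H0 | (he x).take P.r = ρ} := by
    have hm : ∀ x ∈ ({x ∈ H0 | (he x).take P.r = ρ} : Finset (List Bool)),
        own P (he x) ∈ bl (i + 1) := by
      intro x hx
      rw [mem_filter] at hx
      rw [mem_bl, (own_length hP (h2 x hx.1) (h3 x hx.1)).1, hx.2]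
    rw [card_eq_sum_card_fiberwise hm]
    refine sum_congr rfl fun v _ => ?_
    rw [hHs]
    simp only [filter_filter]
  have hMsum : ∑ v ∈ bl (i + 1), #(Ms v) ≤
      #{je ∈ fSeenFE P | ∃ x, T je.1 je.2 = some x ∧ f <+: x} := by
    refine fSeen_sum_fiber _ _ (fun je => own P je.2) Ms fun v _ => ⟨?_, ?_⟩
    · intro je hje
      rw [hMs, mem_filter] at hje
      rw [mem_filter]
      exact ⟨hje.1, hje.2.2⟩
    · intro je hje
      rw [hMs, mem_filter] at hje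
      exact hje.2.1.2
  have hH0pos : 0 < #H0 := by
    rcases Nat.eq_zero_or_pos #H0 with h | h
    · rw [h, mul_zero] at hA
      have : 0 < 2 ^ P.n := by positivity
      omega
    · exact h
  have hHpos : 0 < ∑ v ∈ bl (i + 1), #(Hs v) := by
    rw [hHsum]
    rcases Nat.eq_zero_or_pos #{x ∈ H0 | (he x).take P.r = ρ} with h | h
    · rw [h, mul_zero] at hρ'
      omega
    · exact h
  obtain ⟨v, hv, hv1, hv2⟩ := choosePortion (bl (i + 1)) (fun v => #(Hs v)) (fun v => #(Ms v)) hHpos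
  rw [card_bl] at hv2
  rw [mem_bl] at hv
  have hCo : Co P v := by
    constructor <;> omega
  refine ⟨v, hCo, ?_⟩
  -- the sizes of the two sums
  have e1 : 2 ^ P.n ≤ 2 ^ (δ + P.s + 3 + P.r) * ∑ v ∈ bl (i + 1), #(Hs v) := by
    rw [hHsum, pow_add 2 (δ + P.s + 3) P.r, ← hR, mul_assoc]
    exact hA.trans (Nat.mul_le_mul_left _ hρ')
  have e2 : 2 ^ 11 * ∑ v ∈ bl (i + 1), #(Ms v) ≤ 2 ^ P.s * ∑ v ∈ bl (i + 1), #(Hs v) := by
    have e3 : 2 ^ (δ + P.l) * ∑ v ∈ bl (i + 1), #(Ms v) ≤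
        2 ^ (δ + P.s + 3 + P.r + 4) * ∑ v ∈ bl (i + 1), #(Hs v) := by
      calc 2 ^ (δ + P.l) * ∑ v ∈ bl (i + 1), #(Ms v) ≤ 2 ^ (P.n + 4) :=
            (Nat.mul_le_mul_left _ hMsum).trans hB
        _ = 2 ^ 4 * 2 ^ P.n := by rw [pow_add, mul_comm]
        _ ≤ 2 ^ 4 * (2 ^ (δ + P.s + 3 + P.r) * ∑ v ∈ bl (i + 1), #(Hs v)) :=
            Nat.mul_le_mul_left _ e1
        _ = 2 ^ (δ + P.s + 3 + P.r + 4) * ∑ v ∈ bl (i + 1), #(Hs v) := by
            rw [pow_add 2 (δ + P.s + 3 + P.r) 4]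
            ring
    have e4 : 2 ^ (δ + P.r + 7) * (2 ^ 11 * ∑ v ∈ bl (i + 1), #(Ms v)) ≤
        2 ^ (δ + P.r + 7) * (2 ^ P.s * ∑ v ∈ bl (i + 1), #(Hs v)) := by
      calc 2 ^ (δ + P.r + 7) * (2 ^ 11 * ∑ v ∈ bl (i + 1), #(Ms v)) =
            2 ^ (δ + (P.r + 18)) * ∑ v ∈ bl (i + 1), #(Ms v) := by
            rw [← mul_assoc, ← pow_add]
            congr 2
        _ ≤ 2 ^ (δ + P.l) * ∑ v ∈ bl (i + 1), #(Ms v) :=
            Nat.mul_le_mul_right _ (Nat.pow_le_pow_right (by norm_num) (by omega))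
        _ ≤ 2 ^ (δ + P.s + 3 + P.r + 4) * ∑ v ∈ bl (i + 1), #(Hs v) := e3
        _ = 2 ^ (δ + P.r + 7) * (2 ^ P.s * ∑ v ∈ bl (i + 1), #(Hs v)) := by
            rw [← mul_assoc, ← pow_add]
            congr 2
            omega
    exact Nat.le_of_mul_le_mul_left e4 (by positivity)
  refine sees_of_hosts hP T hT (Or.inl ⟨hCo, hFi⟩) ch (Hs v) ?_ ?_ ?_
  · intro x hx
    rw [hHs, mem_filter] at hx
    refine ⟨(hH0 x hx.1).1, (hj x, he x), ?_, h4 x hx.1⟩
    exact (mem_reads_coarse hP hCo.1 hCo.2 (h1 x hx.1) (h2 x hx.1) (h3 x hx.1)).2 hx.2.2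
  · rw [hpre, hsl, List.length_append, hf, List.length_singleton]
    have e5 : 2 ^ P.n ≤ 2 ^ (δ + P.s + 3 + P.r + 2 + (i + 1)) * #(Hs v) := by
      calc 2 ^ P.n ≤ 2 ^ (δ + P.s + 3 + P.r) * ∑ v ∈ bl (i + 1), #(Hs v) := e1
        _ ≤ 2 ^ (δ + P.s + 3 + P.r) * (4 * 2 ^ (i + 1) * #(Hs v)) := Nat.mul_le_mul_left _ hv2
        _ = 2 ^ (δ + P.s + 3 + P.r + 2 + (i + 1)) * #(Hs v) := by
            rw [pow_add 2 (δ + P.s + 3 + P.r + 2), pow_add 2 (δ + P.s + 3 + P.r) 2]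
            ring
    calc 2 ^ (P.n + 5) = 2 ^ 5 * 2 ^ P.n := by rw [pow_add, mul_comm]
      _ ≤ 2 ^ 5 * (2 ^ (δ + P.s + 3 + P.r + 2 + (i + 1)) * #(Hs v)) := Nat.mul_le_mul_left _ e5
      _ = 2 ^ (5 + (δ + P.s + 3 + P.r + 2 + (i + 1))) * #(Hs v) := by
          rw [pow_add 2 5, mul_assoc]
      _ ≤ 2 ^ (δ + 1 + P.s + P.a) * #(Hs v) :=
          Nat.mul_le_mul_right _ (Nat.pow_le_pow_right (by norm_num) (by omega))
  · rw [hpre, hsl]
    have e6 : nread P T v (f ++ [ch]) ≤ #(Ms v) := by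
      unfold nread
      rw [List.countP_eq_length_filter,
        ← List.toFinset_card_of_nodup ((nodup_reads P v).filter _)]
      refine card_le_card fun je hje => ?_
      obtain ⟨j, e⟩ := je
      rw [List.mem_toFinset, List.mem_filter] at hje
      obtain ⟨hr, hval⟩ := hje
      have hr' := (mem_reads P v j e).1 hr
      have hjhi : jhi P v = P.jF := by
        unfold jhi
        rw [if_pos hCo.2]
      rw [hjhi] at hr'
      have hown : own P e = v :=
        (mem_reads_coarse hP hCo.1 hCo.2 hr'.1 hr'.2.1 hr'.2.2.1).1 hr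
      have hol := (own_length hP hr'.2.1 hr'.2.2.1).1
      rw [hown, hv] at hol
      have hlen : (e.take P.r).length = P.r := by
        rw [List.length_take, hr'.2.2.1]
        omega
      have htake : e.take P.r = ρ := by
        have b1 := binw_bv (e.take P.r)
        have b2 := binw_bv ρ
        rw [hlen] at b1
        rw [hρ] at b2
        rw [← b1, ← b2]
        congr 1
        omega
      rw [hMs, mem_filter, fSeen_mem_FE]
      refine ⟨⟨hr'.1, hr'.2.1, hr'.2.2.1⟩, ⟨htake, hown⟩, ?_⟩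
      cases hTe : T j e with
      | none => simp [hTe] at hval
      | some x =>
        simp only [hTe, Option.map_some, Option.getD_some, List.isPrefixOf_iff_prefix] at hval
        exact ⟨x, rfl, (List.prefix_append f [ch]).trans hval⟩
    have e7 : (∑ v ∈ bl (i + 1), #(Hs v)) * (512 * nread P T v (f ++ [ch])) ≤
        (∑ v ∈ bl (i + 1), #(Hs v)) * (2 ^ P.s * #(Hs v)) := by
      calc (∑ v ∈ bl (i + 1), #(Hs v)) * (512 * nread P T v (f ++ [ch])) ≤
            (∑ v ∈ bl (i + 1), #(Hs v)) * (512 * #(Ms v)) :=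
            Nat.mul_le_mul_left _ (Nat.mul_le_mul_left _ e6)
        _ = 512 * ((∑ v ∈ bl (i + 1), #(Hs v)) * #(Ms v)) := by ring
        _ ≤ 512 * (4 * (∑ v ∈ bl (i + 1), #(Ms v)) * #(Hs v)) := Nat.mul_le_mul_left _ hv1
        _ = (2 ^ 11 * ∑ v ∈ bl (i + 1), #(Ms v)) * #(Hs v) := by ring
        _ ≤ (2 ^ P.s * ∑ v ∈ bl (i + 1), #(Hs v)) * #(Hs v) := Nat.mul_le_mul_right _ e2
        _ = (∑ v ∈ bl (i + 1), #(Hs v)) * (2 ^ P.s * #(Hs v)) := by ring
    exact Nat.le_of_mul_le_mul_left e7 hHpos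

open Classical in
theorem fine_seen {P : Par} (hP : P.Good) (T : Tab)
    (hT : ∀ j e x, T j e = some x → x.length = P.n) (hH : Hosted P T) {k : ℕ} (hk : k < P.q)
    (ch : Bool) :
    2 ^ (P.R + 1 + k) ≤ 2 * #{f ∈ bl (P.R + 1 + k) | ∃ v, Co P v ∧ S P T v f ch} := by
  have hR := hP.hR
  have g1 := hP.h1
  have g2 := hP.h2
  have g5 := hP.h5
  have g4 := hP.h4
  have hqW : P.W ≤ P.q * P.W := Nat.le_mul_of_pos_left _ (by omega)
  have hjF : P.jF = P.s + 6 := rfl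
  have hjFn : P.jF ≤ P.n := by omega
  set δ := P.R + 1 + k with hδ
  set Fast : List Bool → Prop := fun x => ∃ j e, P.l ≤ j ∧ j ≤ P.jF ∧ e.length = P.n - j + 1 ∧
      T j e = some x with hFast
  set slow : List Bool → Finset (List Bool) := fun f => {x ∈ tset P T f ch | ¬ Fast x} with hslow
  set Me : List Bool → Finset (ℕ × List Bool) := fun f =>
    {je ∈ fSeenFE P | ∃ x, T je.1 je.2 = some x ∧ f <+: x} with hMe
  have hfacts : ∀ f ∈ bl δ, Fi P f ∧ pre P f ch = f ++ [ch] ∧ sl P f = P.s ∧ f.length = δ := by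
    intro f hf
    rw [mem_bl] at hf
    refine ⟨⟨by omega, by omega⟩, ?_, ?_, hf⟩
    · unfold pre
      rw [if_neg (by omega)]
    · unfold sl
      rw [if_neg (by omega)]
  have htake : ∀ f ∈ bl δ, ∀ x ∈ tset P T f ch, x.take δ = f := by
    intro f hf x hx
    unfold tset at hx
    rw [mem_filter, (hfacts f hf).2.1] at hx
    exact fSeen_take (hfacts f hf).2.2.2 ((List.prefix_append f [ch]).trans hx.2.1)
  have hcard : ∀ f ∈ bl δ, 2 ^ P.n ≤ 2 ^ (δ + P.s + 2) * #(tset P T f ch) := by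
    intro f hf
    obtain ⟨a1, a2, a3, a4⟩ := hfacts f hf
    have := card_tset_ge hP T (Or.inr a1) ch
    rw [a2, a3, List.length_append, a4, List.length_singleton] at this
    rwa [show δ + P.s + 2 = δ + 1 + P.s + 1 by omega]
  -- bad programs of the first kind
  have b1 : ∑ f ∈ bl δ, #(slow f) ≤ 2 ^ (P.n - P.jF + 1) := by
    refine (fSeen_sum_fiber ((bl δ).biUnion slow) δ (fun x => x.take δ) slow
      fun f hf => ⟨subset_biUnion_of_mem slow hf, fun x hx => ?_⟩).trans ?_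
    · rw [hslow, mem_filter] at hx
      exact htake f hf x hx.1
    · refine card_hosted_high P T _ P.jF hjFn fun x hx => ?_
      rw [mem_biUnion] at hx
      obtain ⟨f, hf, hx⟩ := hx
      rw [hslow, mem_filter] at hx
      obtain ⟨j, e, c1, c2, c3, c4⟩ := hH f (Or.inr (hfacts f hf).1) ch x hx.1
      refine ⟨j, e, ?_, c2, c3, c4⟩
      by_contra hj
      exact hx.2 ⟨j, e, c1, by omega, c3, c4⟩
  set B1 : Finset (List Bool) := {f ∈ bl δ | #(tset P T f ch) < 2 * #(slow f)} with hB1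
  have b2 : 4 * #B1 ≤ 2 ^ δ := by
    have c1 : ∀ f ∈ B1, 2 ^ P.n ≤ 2 ^ (δ + P.s + 3) * #(slow f) := by
      intro f hf
      rw [hB1, mem_filter] at hf
      calc 2 ^ P.n ≤ 2 ^ (δ + P.s + 2) * #(tset P T f ch) := hcard f hf.1
        _ ≤ 2 ^ (δ + P.s + 2) * (2 * #(slow f)) := Nat.mul_le_mul_left _ hf.2.le
        _ = 2 ^ (δ + P.s + 3) * #(slow f) := by
            rw [show δ + P.s + 3 = δ + P.s + 2 + 1 by omega, pow_succ 2 (δ + P.s + 2)]
            ring
    have c2 : #B1 * 2 ^ P.n ≤ 2 ^ (δ + P.s + 3) * 2 ^ (P.n - P.jF + 1) := by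
      calc #B1 * 2 ^ P.n = ∑ _f ∈ B1, 2 ^ P.n := by rw [sum_const, smul_eq_mul]
        _ ≤ ∑ f ∈ B1, 2 ^ (δ + P.s + 3) * #(slow f) := sum_le_sum c1
        _ = 2 ^ (δ + P.s + 3) * ∑ f ∈ B1, #(slow f) := by rw [mul_sum]
        _ ≤ 2 ^ (δ + P.s + 3) * ∑ f ∈ bl δ, #(slow f) :=
            Nat.mul_le_mul_left _ (sum_le_sum_of_subset (filter_subset _ _))
        _ ≤ 2 ^ (δ + P.s + 3) * 2 ^ (P.n - P.jF + 1) := Nat.mul_le_mul_left _ b1
    have c3 : 2 ^ P.n * (4 * #B1) ≤ 2 ^ P.n * 2 ^ δ := by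
      calc 2 ^ P.n * (4 * #B1) = 2 ^ 2 * (#B1 * 2 ^ P.n) := by ring
        _ ≤ 2 ^ 2 * (2 ^ (δ + P.s + 3) * 2 ^ (P.n - P.jF + 1)) := Nat.mul_le_mul_left _ c2
        _ = 2 ^ P.n * 2 ^ δ := by
            rw [← pow_add, ← pow_add, ← pow_add]
            congr 1
            omega
    exact Nat.le_of_mul_le_mul_left c3 (by positivity)
  -- bad programs of the second kind
  have d1 : ∑ f ∈ bl δ, #(Me f) ≤ #(fSeenFE P) := by
    refine fSeen_sum_fiber _ δ (fun je => ((T je.1 je.2).getD []).take δ) Me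
      fun f hf => ⟨filter_subset _ _, fun je hje => ?_⟩
    rw [hMe, mem_filter] at hje
    obtain ⟨x, hx, hx'⟩ := hje.2
    rw [hx, Option.getD_some]
    exact fSeen_take (hfacts f hf).2.2.2 hx'
  set B2 : Finset (List Bool) := {f ∈ bl δ | 2 ^ (P.n + 4) < 2 ^ (δ + P.l) * #(Me f)} with hB2
  have d2 : 4 * #B2 ≤ 2 ^ δ := by
    have c2 : #B2 * 2 ^ (P.n + 4) ≤ 2 ^ δ * 2 ^ (P.n + 2) := by
      calc #B2 * 2 ^ (P.n + 4) = ∑ _f ∈ B2, 2 ^ (P.n + 4) := by rw [sum_const, smul_eq_mul]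
        _ ≤ ∑ f ∈ B2, 2 ^ (δ + P.l) * #(Me f) := by
            refine sum_le_sum fun f hf => ?_
            rw [hB2, mem_filter] at hf
            exact hf.2.le
        _ = 2 ^ (δ + P.l) * ∑ f ∈ B2, #(Me f) := by rw [mul_sum]
        _ ≤ 2 ^ (δ + P.l) * ∑ f ∈ bl δ, #(Me f) :=
            Nat.mul_le_mul_left _ (sum_le_sum_of_subset (filter_subset _ _))
        _ ≤ 2 ^ (δ + P.l) * #(fSeenFE P) := Nat.mul_le_mul_left _ d1
        _ = 2 ^ δ * (#(fSeenFE P) * 2 ^ P.l) := by rw [pow_add]; ring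
        _ ≤ 2 ^ δ * 2 ^ (P.n + 2) := Nat.mul_le_mul_left _ (fSeen_card_FE hjFn)
    have c3 : 2 ^ (P.n + 2) * (4 * #B2) ≤ 2 ^ (P.n + 2) * 2 ^ δ := by
      calc 2 ^ (P.n + 2) * (4 * #B2) = #B2 * 2 ^ (P.n + 4) := by
            rw [show P.n + 4 = P.n + 2 + 2 by omega, pow_add 2 (P.n + 2) 2]
            ring
        _ ≤ 2 ^ δ * 2 ^ (P.n + 2) := c2
        _ = 2 ^ (P.n + 2) * 2 ^ δ := mul_comm _ _
    exact Nat.le_of_mul_le_mul_left c3 (by positivity)
  -- the others are seen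
  have hsub : bl δ ⊆ {f ∈ bl δ | ∃ v, Co P v ∧ S P T v f ch} ∪ (B1 ∪ B2) := by
    intro f hf
    by_cases hf1 : f ∈ B1
    · exact mem_union_right _ (mem_union_left _ hf1)
    by_cases hf2 : f ∈ B2
    · exact mem_union_right _ (mem_union_right _ hf2)
    refine mem_union_left _ ?_
    rw [mem_filter]
    refine ⟨hf, ?_⟩
    have hf1' : 2 * #(slow f) ≤ #(tset P T f ch) := by
      by_contra h
      exact hf1 (by rw [hB1, mem_filter]; exact ⟨hf, by omega⟩)
    have hf2' : 2 ^ (δ + P.l) * #(Me f) ≤ 2 ^ (P.n + 4) := by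
      by_contra h
      exact hf2 (by rw [hB2, mem_filter]; exact ⟨hf, by omega⟩)
    refine fSeen_one hP T hT ch (δ := δ) (by omega) (by omega) (hfacts f hf).2.2.2
      {x ∈ tset P T f ch | Fast x} (fun x hx => ?_) ?_ hf2'
    · rw [mem_filter] at hx
      exact hx
    · have c1 : #{x ∈ tset P T f ch | Fast x} + #(slow f) = #(tset P T f ch) :=
        card_filter_add_card_filter_not _
      calc 2 ^ P.n ≤ 2 ^ (δ + P.s + 2) * #(tset P T f ch) := hcard f hf
        _ ≤ 2 ^ (δ + P.s + 2) * (2 * #{x ∈ tset P T f ch | Fast x}) :=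
            Nat.mul_le_mul_left _ (by omega)
        _ = 2 ^ (δ + P.s + 3) * #{x ∈ tset P T f ch | Fast x} := by
            rw [show δ + P.s + 3 = δ + P.s + 2 + 1 by omega, pow_succ 2 (δ + P.s + 2)]
            ring
  have hfin := card_le_card hsub
  have h5 := card_union_le ({f ∈ bl δ | ∃ v, Co P v ∧ S P T v f ch} : Finset (List Bool)) (B1 ∪ B2)
  have h6 := card_union_le B1 B2
  rw [card_bl] at hfin
  omega

end Pool.Agent.Lib.MP_33f9c4_lc.LK
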