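import Pool.Agent.Lib.MP_33f9c4_lc.K.Red

/-!
# MODULE HashN. The functions `hsh`, `evL`, `pwm` as formulas modulo `p`

All by induction over the lists (for `hsh`: over `List.range m`, invariant: after `m` steps the pair
is `((∑ i < m, cf y i * z ^ i) % p, z ^ m % p)` (for `p > 1`; `List.range_succ`, `foldl_append`)).
-/

namespace Pool.Agent.Lib.MP_33f9c4_lc.LK

open Finset

theorem hsh_fold (P : Par) (hp : 1 < P.p) (y : List Bool) (z m : ℕ) :
    (List.range m).foldl (fun (x : ℕ × ℕ) i =>
      ((x.1 + cf P y i * x.2) % P.p, x.2 * z % P.p)) (0, 1) =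
      ((∑ i ∈ range m, cf P y i * z ^ i) % P.p, z ^ m % P.p) := by
  induction m with
  | zero => simp [Nat.mod_eq_of_lt hp]
  | succ m ih =>
    rw [List.range_succ, List.foldl_append, ih]
    simp only [List.foldl_cons, List.foldl_nil]
    rw [Finset.sum_range_succ, pow_succ]
    refine Prod.ext ?_ ?_
    · simp only
      conv_rhs => rw [Nat.add_mod, Nat.mul_mod]
      conv_lhs => rw [Nat.add_mod, Nat.mod_mod, Nat.mul_mod, Nat.mod_mod]
    · simp only
      rw [Nat.mod_mul_mod]

theorem hsh_eq (P : Par) (hp : 1 < P.p) (y : List Bool) (z : ℕ) :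
    hsh P y z = (∑ i ∈ range P.t, cf P y i * z ^ i) % P.p := by
  rw [hsh, hsh_fold P hp]

theorem hsh_lt (P : Par) (hp : 1 < P.p) (y : List Bool) (z : ℕ) : hsh P y z < P.p := by
  rw [hsh_eq P hp]
  exact Nat.mod_lt _ (by omega)

theorem pwm_eq (p x i : ℕ) : pwm p x i = x ^ i % p := by
  unfold pwm
  induction i with
  | zero => simp
  | succ i ih =>
    rw [Function.iterate_succ_apply', ih, pow_succ, Nat.mod_mul_mod]

/-- the polynomial over `ZMod p` with coefficient list `Y` -/
noncomputable def pol (p : ℕ) (Y : List ℕ) : Polynomial (ZMod p) :=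
  ∑ i ∈ range Y.length, Polynomial.C ((Y.getD i 0 : ℕ) : ZMod p) * Polynomial.X ^ i

theorem evL_lt {p : ℕ} (hp : 0 < p) (Y : List ℕ) (x : ℕ) : evL p Y x < p := by
  cases Y with
  | nil => exact hp
  | cons c Y => exact Nat.mod_lt _ hp

theorem pol_cons (p c : ℕ) (Y : List ℕ) :
    pol p (c :: Y) = Polynomial.C (c : ZMod p) + Polynomial.X * pol p Y := by
  unfold pol
  rw [List.length_cons, Finset.sum_range_succ', Finset.mul_sum, add_comm]
  congr 1
  · simp
  · refine Finset.sum_congr rfl fun i _ => ?_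
    rw [List.getD_cons_succ, pow_succ]
    ring

theorem evL_eq (p : ℕ) (Y : List ℕ) (x : ℕ) :
    ((evL p Y x : ℕ) : ZMod p) = (pol p Y).eval (x : ZMod p) := by
  induction Y with
  | nil => simp [evL, pol]
  | cons c Y ih =>
    have h : evL p (c :: Y) x = (c + x * evL p Y x) % p := rfl
    rw [h, pol_cons, ZMod.natCast_mod, Nat.cast_add, Nat.cast_mul, ih]
    simp

theorem cf_append (P : Par) (y w : List Bool) (h : P.K0 ≤ y.length) {i : ℕ} (hi : i < P.t) :
    cf P (y ++ w) i = cf P y i := by
  unfold cf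
  have h1 : (i + 2) * P.b ≤ P.K0 := Nat.mul_le_mul_right _ (by omega)
  have h2 : (i + 2) * P.b = (i + 1) * P.b + P.b := by ring
  rw [List.drop_append_of_le_length (by omega), List.take_append_of_le_length]
  rw [List.length_drop]
  omega

theorem cf_take (P : Par) (y : List Bool) {i : ℕ} (hi : i < P.t) :
    cf P (y.take P.K0) i = cf P y i := by
  unfold cf
  have h1 : (i + 2) * P.b ≤ P.K0 := Nat.mul_le_mul_right _ (by omega)
  have h2 : (i + 2) * P.b = (i + 1) * P.b + P.b := by ring
  rw [List.drop_take, List.take_take, Nat.min_eq_left (by omega)]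

theorem hsh_congr (P : Par) (y y' : List Bool) (z : ℕ) (h : ∀ i < P.t, cf P y i = cf P y' i) :
    hsh P y z = hsh P y' z := by
  unfold hsh
  congr 1
  refine List.foldl_ext _ _ _ fun x i hi => ?_
  rw [h i (List.mem_range.1 hi)]

/-- `hsh` and `alp` only depend on the first `K0` bits -/
theorem hsh_append (P : Par) (y w : List Bool) (h : P.K0 ≤ y.length) (z : ℕ) :
    hsh P (y ++ w) z = hsh P y z :=
  hsh_congr P _ _ z fun _ hi => cf_append P y w h hi

theorem b_le_K0 (P : Par) : P.b ≤ P.K0 := by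
  have : 1 * P.b ≤ P.K0 := Nat.mul_le_mul_right _ (by omega)
  omega

theorem alp_append (P : Par) (y w : List Bool) (h : P.K0 ≤ y.length) :
    alp P (y ++ w) = alp P y := by
  unfold alp
  have := b_le_K0 P
  rw [List.take_append_of_le_length (by omega)]

theorem hsh_take (P : Par) (y : List Bool) (z : ℕ) : hsh P (y.take P.K0) z = hsh P y z :=
  hsh_congr P _ _ z fun _ hi => cf_take P y hi

theorem alp_take (P : Par) (y : List Bool) : alp P (y.take P.K0) = alp P y := by
  unfold alp
  rw [List.take_take, Nat.min_eq_left (b_le_K0 P)]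

end Pool.Agent.Lib.MP_33f9c4_lc.LK
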