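import Pool.Agent.Lib.MP_33f9c4_lc.K.HashN

/-!
# MODULE HashT. Counting hash values

(1) Splitting a bit list of length `K0 = (t+1) b` into `t + 1` blocks of `b` bits, the map
`y ↦ (alp y, cf y 0, ..., cf y (t-1)) ∈ {0..p-1}^{t+1}` has fibres of size at most `(2^b/p + 1)^{t+1}` and
at least `(2^b/p)^{t+1}` (Red.card_red_le, card_red_ge, Bl.sum_bl_add / card_bl_add, induction on the
number of blocks). `blocks_le`, `blocks_ge`: for every set `F` of vectors in `{0..p-1}^{t+1}`.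
(2) `(2^b/p + 1)^{t+1} <= 2 (2^b)^{t+1} / p^{t+1}` in the form `(2^b + p)^{t+1} <= 2 (2^b)^{t+1}`, because
`(1 + x)^m <= 1/(1 - m x) <= 2` for `m x <= 1/2` (here `x = p/2^b`, `m = t+1`, hypothesis `h9`), and
`(2^b/p)^{t+1} >= (2^b - p)^{t+1}/p^{t+1} >= (1/2) (2^b)^{t+1}/p^{t+1}` by Bernoulli.
(3) `t`-wise independence: for distinct `z_0..z_{t-1} < p` the map
`(x_0..x_{t-1}) ↦ (∑ x_i z_k^i mod p)_k` is a bijection of `(ZMod p)^t` (Vandermonde matrix is invertible: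
`Matrix.det_vandermonde_ne_zero_iff`), so exactly `θ^t` vectors have all values `< θ` (`θ ≤ p`).
For a single `z`: the number of vectors with value `< θ` is `θ p^{t-1}`, because `x_0` is determined
(`t >= 1`).
-/

namespace Pool.Agent.Lib.MP_33f9c4_lc.LK

open Finset

/-- the residues of the blocks -/
def hashTvec (p b m : ℕ) (y : List Bool) : Fin m → ZMod p :=
  fun i => ((red p ((y.drop ((i : ℕ) * b)).take b) : ℕ) : ZMod p)

theorem hashT_vec_succ (p b m : ℕ) (y : List Bool) (v : Fin (m + 1) → ZMod p) :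
    hashTvec p b (m + 1) y = v ↔ ((red p (y.take b) : ℕ) : ZMod p) = v 0 ∧
      hashTvec p b m (y.drop b) = fun i => v i.succ := by
  rw [funext_iff, funext_iff, Fin.forall_fin_succ]
  refine and_congr ?_ (forall_congr' fun i => ?_)
  · unfold hashTvec
    rw [Fin.val_zero, zero_mul, List.drop_zero]
  · unfold hashTvec
    rw [Fin.val_succ, List.drop_drop]
    have e : ((i : ℕ) + 1) * b = b + (i : ℕ) * b := by ring
    rw [e]

theorem hashT_fib (p b : ℕ) (m : ℕ) : ∀ v : Fin m → ZMod p,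
    #{y ∈ bl (m * b) | hashTvec p b m y = v} =
      ∏ i, #{w ∈ bl b | ((red p w : ℕ) : ZMod p) = v i} := by
  induction m with
  | zero =>
    intro v
    rw [Fintype.prod_empty, filter_true_of_mem (fun y _ => funext fun i => i.elim0), card_bl]
    simp
  | succ m ih =>
    intro v
    have e : (m + 1) * b = b + m * b := by ring
    rw [e, Fin.prod_univ_succ, ← ih, ← card_bl_add]
    refine congrArg card (filter_congr fun y _ => ?_)
    exact hashT_vec_succ p b m y v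

theorem hashT_one (p b : ℕ) (hp : 0 < p) (c : ZMod p) :
    #{w ∈ bl b | ((red p w : ℕ) : ZMod p) = c} = #{w ∈ bl b | red p w = c.val} := by
  have : NeZero p := ⟨hp.ne'⟩
  refine congrArg card (filter_congr fun w _ => ?_)
  constructor
  · intro h
    rw [← h, ZMod.val_natCast, Nat.mod_eq_of_lt (red_lt hp w)]
  · intro h
    rw [h, ZMod.natCast_zmod_val]

theorem hashT_fib_le (p b m : ℕ) (hp : 0 < p) (v : Fin m → ZMod p) :
    #{y ∈ bl (m * b) | hashTvec p b m y = v} ≤ (2 ^ b / p + 1) ^ m := by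
  have : NeZero p := ⟨hp.ne'⟩
  rw [hashT_fib]
  have e : ∏ _i : Fin m, (2 ^ b / p + 1) = (2 ^ b / p + 1) ^ m := by
    rw [prod_const, card_univ, Fintype.card_fin]
  rw [← e]
  refine prod_le_prod (fun _ _ => Nat.zero_le _) fun i _ => ?_
  rw [hashT_one p b hp]
  exact card_red_le hp (ZMod.val_lt _)

theorem hashT_fib_ge (p b m : ℕ) (hp : 0 < p) (v : Fin m → ZMod p) :
    (2 ^ b / p) ^ m ≤ #{y ∈ bl (m * b) | hashTvec p b m y = v} := by
  have : NeZero p := ⟨hp.ne'⟩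
  rw [hashT_fib]
  have e : ∏ _i : Fin m, (2 ^ b / p) = (2 ^ b / p) ^ m := by
    rw [prod_const, card_univ, Fintype.card_fin]
  rw [← e]
  refine prod_le_prod (fun _ _ => Nat.zero_le _) fun i _ => ?_
  rw [hashT_one p b hp]
  exact card_red_ge hp (ZMod.val_lt _)

theorem hashT_sum (p b m : ℕ) [NeZero p] (Φ : (Fin m → ZMod p) → Prop) [DecidablePred Φ] :
    #{y ∈ bl (m * b) | Φ (hashTvec p b m y)} =
      ∑ v with Φ v, #{y ∈ bl (m * b) | hashTvec p b m y = v} := by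
  rw [card_eq_sum_card_fiberwise (f := hashTvec p b m) (t := {v | Φ v})]
  · refine sum_congr rfl fun v hv => congrArg card ?_
    ext y
    simp only [mem_filter]
    constructor
    · rintro ⟨⟨h1, h2⟩, h3⟩
      exact ⟨h1, h3⟩
    · rintro ⟨h1, h3⟩
      exact ⟨⟨h1, by rw [h3]; exact (mem_filter.mp hv).2⟩, h3⟩
  · intro y hy
    have h1 := mem_filter.mp (mem_coe.mp hy)
    exact mem_coe.mpr (mem_filter.mpr ⟨mem_univ _, h1.2⟩)

theorem hashT_exp : Real.exp (1 / 2) ≤ 2 := by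
  have h := Real.exp_one_lt_d9
  have h1 : Real.exp (1 / 2) * Real.exp (1 / 2) = Real.exp 1 := by
    rw [← Real.exp_add]
    norm_num
  nlinarith [Real.exp_pos (1 / 2)]

theorem hashT_pow (X p m : ℕ) (hX : 0 < X) (h : 2 * m * p ≤ X) : (X + p) ^ m ≤ 2 * X ^ m := by
  have hX' : (0 : ℝ) < X := by exact_mod_cast hX
  have h1 : ((X : ℝ) + p) ^ m ≤ 2 * (X : ℝ) ^ m := by
    have e : ((X : ℝ) + p) = X * (p / X + 1) := by field_simp; ring
    have h2 : (m : ℝ) * ((p : ℝ) / X) ≤ 1 / 2 := by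
      rw [← mul_div_assoc, div_le_iff₀ hX']
      have h3 : ((2 * m * p : ℕ) : ℝ) ≤ X := by exact_mod_cast h
      push_cast at h3
      linarith
    calc ((X : ℝ) + p) ^ m = (X : ℝ) ^ m * (p / X + 1) ^ m := by rw [e, mul_pow]
      _ ≤ (X : ℝ) ^ m * Real.exp (p / X) ^ m := by
          refine mul_le_mul_of_nonneg_left ?_ (by positivity)
          exact pow_le_pow_left₀ (by positivity) (Real.add_one_le_exp _) m
      _ = (X : ℝ) ^ m * Real.exp (m * (p / X)) := by rw [← Real.exp_nat_mul]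
      _ ≤ (X : ℝ) ^ m * Real.exp (1 / 2) := by
          refine mul_le_mul_of_nonneg_left (Real.exp_le_exp.mpr h2) (by positivity)
      _ ≤ (X : ℝ) ^ m * 2 := mul_le_mul_of_nonneg_left hashT_exp (by positivity)
      _ = 2 * (X : ℝ) ^ m := by ring
  exact_mod_cast h1

theorem hashT_pow_ge (X p m : ℕ) (hp : 0 < p) (hX : 0 < X) (h : 2 * m * p ≤ X) :
    X ^ m ≤ 2 * (p * (X / p)) ^ m := by
  rcases Nat.eq_zero_or_pos m with rfl | hm
  · simp
  have hX' : (0 : ℝ) < X := by exact_mod_cast hX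
  have h3 : 2 * (m : ℝ) * p ≤ X := by exact_mod_cast h
  have hm' : (1 : ℝ) ≤ m := by exact_mod_cast hm
  have hp' : (0 : ℝ) ≤ p := by positivity
  have h4 : (X : ℝ) - p ≤ ((p * (X / p) : ℕ) : ℝ) := by
    have h5 := Nat.div_add_mod X p
    have h6 := Nat.mod_lt X hp
    have h7 : X ≤ p * (X / p) + p := by omega
    have h8 : (X : ℝ) ≤ ((p * (X / p) : ℕ) : ℝ) + p := by exact_mod_cast h7
    linarith
  have hpX : (p : ℝ) ≤ X / 2 := by nlinarith
  have h1 : (X : ℝ) ^ m ≤ 2 * ((p * (X / p) : ℕ) : ℝ) ^ m := by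
    have h2 : (m : ℝ) * ((p : ℝ) / X) ≤ 1 / 2 := by
      rw [← mul_div_assoc, div_le_iff₀ hX']
      linarith
    have hb := one_add_mul_le_pow (a := -((p : ℝ) / X)) (by
      have : (p : ℝ) / X ≤ 1 := by
        rw [div_le_one hX']
        linarith
      linarith) m
    have h9 : (1 : ℝ) / 2 ≤ (1 + -((p : ℝ) / X)) ^ m := by linarith
    have e : (X : ℝ) - p = X * (1 + -((p : ℝ) / X)) := by field_simp; ring
    calc (X : ℝ) ^ m = 2 * ((X : ℝ) ^ m * (1 / 2)) := by ring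
      _ ≤ 2 * ((X : ℝ) ^ m * (1 + -((p : ℝ) / X)) ^ m) := by
          refine mul_le_mul_of_nonneg_left ?_ (by norm_num)
          exact mul_le_mul_of_nonneg_left h9 (by positivity)
      _ = 2 * ((X : ℝ) - p) ^ m := by rw [e, mul_pow]
      _ ≤ 2 * ((p * (X / p) : ℕ) : ℝ) ^ m := by
          refine mul_le_mul_of_nonneg_left ?_ (by norm_num)
          exact pow_le_pow_left₀ (by linarith) h4 m
  exact_mod_cast h1

theorem hashT_le (p b m : ℕ) [NeZero p] (h : 2 * m * p ≤ 2 ^ b) (Φ : (Fin m → ZMod p) → Prop)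
    [DecidablePred Φ] : #{y ∈ bl (m * b) | Φ (hashTvec p b m y)} * p ^ m ≤
      2 * 2 ^ (m * b) * #{v | Φ v} := by
  have hp : 0 < p := NeZero.pos p
  rw [hashT_sum]
  have h1 : ∑ v with Φ v, #{y ∈ bl (m * b) | hashTvec p b m y = v} ≤
      #{v | Φ v} * (2 ^ b / p + 1) ^ m := by
    refine (sum_le_sum fun v _ => hashT_fib_le p b m hp v).trans (le_of_eq ?_)
    rw [sum_const, smul_eq_mul]
  have h2 : (2 ^ b / p + 1) ^ m * p ^ m ≤ 2 * 2 ^ (m * b) := by
    rw [← mul_pow]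
    have h3 : (2 ^ b / p + 1) * p ≤ 2 ^ b + p := by
      rw [add_mul, one_mul]
      exact Nat.add_le_add_right (Nat.div_mul_le_self _ _) _
    refine (Nat.pow_le_pow_left h3 m).trans ((hashT_pow (2 ^ b) p m (by positivity) h).trans ?_)
    rw [← pow_mul, mul_comm b m]
  calc _ ≤ #{v | Φ v} * (2 ^ b / p + 1) ^ m * p ^ m := Nat.mul_le_mul_right _ h1
    _ = #{v | Φ v} * ((2 ^ b / p + 1) ^ m * p ^ m) := by ring
    _ ≤ #{v | Φ v} * (2 * 2 ^ (m * b)) := Nat.mul_le_mul_left _ h2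
    _ = _ := by ring

theorem hashT_ge (p b m : ℕ) [NeZero p] (h : 2 * m * p ≤ 2 ^ b) (Φ : (Fin m → ZMod p) → Prop)
    [DecidablePred Φ] : 2 ^ (m * b) * #{v | Φ v} ≤
      2 * p ^ m * #{y ∈ bl (m * b) | Φ (hashTvec p b m y)} := by
  have hp : 0 < p := NeZero.pos p
  rw [hashT_sum]
  have h1 : #{v | Φ v} * (2 ^ b / p) ^ m ≤
      ∑ v with Φ v, #{y ∈ bl (m * b) | hashTvec p b m y = v} := by
    refine (le_of_eq ?_).trans (sum_le_sum fun v _ => hashT_fib_ge p b m hp v)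
    rw [sum_const, smul_eq_mul]
  have h2 : 2 ^ (m * b) ≤ 2 * (p ^ m * (2 ^ b / p) ^ m) := by
    rw [← mul_pow, mul_comm m b, pow_mul]
    exact hashT_pow_ge (2 ^ b) p m hp (by positivity) h
  calc 2 ^ (m * b) * #{v | Φ v} ≤ 2 * (p ^ m * (2 ^ b / p) ^ m) * #{v | Φ v} :=
        Nat.mul_le_mul_right _ h2
    _ = 2 * p ^ m * (#{v | Φ v} * (2 ^ b / p) ^ m) := by ring
    _ ≤ _ := Nat.mul_le_mul_left _ h1

/-- the small residues -/
def hashTT (p θ : ℕ) [NeZero p] : Finset (ZMod p) := {c | c.val < θ}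

theorem hashT_cardT (p θ : ℕ) [NeZero p] (hθ : θ ≤ p) : #(hashTT p θ) = θ := by
  have h : #(hashTT p θ) = #(range θ) := by
    refine card_nbij' (fun c => c.val) (fun n => (n : ZMod p)) ?_ ?_ ?_ ?_
    · intro c hc
      have h1 := (mem_filter.mp (mem_coe.mp hc)).2
      exact mem_coe.mpr (mem_range.mpr h1)
    · intro n hn
      have h1 := mem_range.mp (mem_coe.mp hn)
      refine mem_coe.mpr (mem_filter.mpr ⟨mem_univ _, ?_⟩)
      rw [ZMod.val_natCast, Nat.mod_eq_of_lt (h1.trans_le hθ)]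
      exact h1
    · intro c _
      exact ZMod.natCast_zmod_val c
    · intro n hn
      have h1 := mem_range.mp (mem_coe.mp hn)
      change (n : ZMod p).val = n
      rw [ZMod.val_natCast, Nat.mod_eq_of_lt (h1.trans_le hθ)]
  rw [h, card_range]

/-- the hash as a function of the residues -/
def hashTh {p t : ℕ} (v : Fin (t + 1) → ZMod p) (z : ZMod p) : ZMod p :=
  ∑ k : Fin t, z ^ (k : ℕ) * v k.succ

theorem hashT_hsh (P : Par) (hp : 1 < P.p) (y : List Bool) (z : ℕ) :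
    hsh P y z = (hashTh (hashTvec P.p P.b (P.t + 1) y) (z : ZMod P.p)).val := by
  rw [hsh_eq P hp, ← ZMod.val_natCast]
  refine congrArg ZMod.val ?_
  have e : hashTh (hashTvec P.p P.b (P.t + 1) y) (z : ZMod P.p) =
      ∑ k ∈ range P.t, (z : ZMod P.p) ^ k *
        ((red P.p ((y.drop ((k + 1) * P.b)).take P.b) : ℕ) : ZMod P.p) :=
    Fin.sum_univ_eq_sum_range (fun k => (z : ZMod P.p) ^ k *
      ((red P.p ((y.drop ((k + 1) * P.b)).take P.b) : ℕ) : ZMod P.p)) P.t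
  rw [e, Nat.cast_sum]
  refine sum_congr rfl fun k _ => ?_
  rw [Nat.cast_mul, Nat.cast_pow, mul_comm]
  rfl

theorem hashT_alp (P : Par) (hp : 0 < P.p) (y : List Bool) (al : ℕ) (hal : al < P.p) :
    alp P y = al ↔ hashTvec P.p P.b (P.t + 1) y 0 = (al : ZMod P.p) := by
  have e : hashTvec P.p P.b (P.t + 1) y 0 = ((alp P y : ℕ) : ZMod P.p) := by
    unfold hashTvec alp
    rw [Fin.val_zero, zero_mul, List.drop_zero]
  rw [e, ZMod.natCast_eq_natCast_iff']
  unfold alp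
  rw [Nat.mod_eq_of_lt (red_lt hp _), Nat.mod_eq_of_lt hal]

theorem hashT_succ {p t : ℕ} (v : Fin (t + 1 + 1) → ZMod p) (z : ZMod p) :
    hashTh v z = v 1 + ∑ k : Fin t, z ^ ((k : ℕ) + 1) * v k.succ.succ := by
  unfold hashTh
  rw [Fin.sum_univ_succ]
  simp

theorem hashT_vander (p t : ℕ) [Fact p.Prime] (al : ZMod p) (z : Fin t → ZMod p)
    (hz : Function.Injective z) (T : Finset (ZMod p)) :
    #{v : Fin (t + 1) → ZMod p | v 0 = al ∧ ∀ i, hashTh v (z i) ∈ T} ≤ #T ^ t := by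
  rw [← Fintype.card_piFinset_const]
  refine card_le_card_of_injOn (fun v i => hashTh v (z i)) ?_ ?_
  · intro v hv
    have h1 := (mem_filter.mp (mem_coe.mp hv)).2
    exact mem_coe.mpr (Fintype.mem_piFinset.mpr h1.2)
  · intro v hv v' hv' h
    have h1 := (mem_filter.mp (mem_coe.mp hv)).2
    have h2 := (mem_filter.mp (mem_coe.mp hv')).2
    have h3 : (fun k : Fin t => v k.succ - v' k.succ) = 0 := by
      refine Matrix.eq_zero_of_forall_index_sum_pow_mul_eq_zero hz fun j => ?_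
      have h4 : hashTh v (z j) = hashTh v' (z j) := congrFun h j
      unfold hashTh at h4
      simp only [mul_sub, sum_sub_distrib]
      exact sub_eq_zero.mpr h4
    funext k
    refine Fin.cases ?_ (fun k => ?_) k
    · rw [h1.1, h2.1]
    · exact sub_eq_zero.mp (congrFun h3 k)

theorem hashT_single (p t : ℕ) [NeZero p] (al z : ZMod p) (T : Finset (ZMod p)) :
    #{v : Fin (t + 1 + 1) → ZMod p | v 0 = al ∧ hashTh v z ∈ T} ≤ #T * p ^ t := by
  have hc : #(T ×ˢ (univ : Finset (Fin t → ZMod p))) = #T * p ^ t := by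
    rw [card_product, card_univ, Fintype.card_fun, ZMod.card, Fintype.card_fin]
  rw [← hc]
  refine card_le_card_of_injOn (fun v => (hashTh v z, fun k : Fin t => v k.succ.succ)) ?_ ?_
  · intro v hv
    have h1 := (mem_filter.mp (mem_coe.mp hv)).2
    exact mem_coe.mpr (mem_product.mpr ⟨h1.2, mem_univ _⟩)
  · intro v hv v' hv' h
    have h1 := (mem_filter.mp (mem_coe.mp hv)).2
    have h2 := (mem_filter.mp (mem_coe.mp hv')).2
    have h3 : hashTh v z = hashTh v' z := congrArg Prod.fst h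
    have h4 : (fun k : Fin t => v k.succ.succ) = fun k : Fin t => v' k.succ.succ :=
      congrArg Prod.snd h
    have h5 : v 1 = v' 1 := by
      rw [hashT_succ, hashT_succ] at h3
      have h6 : ∑ k : Fin t, z ^ ((k : ℕ) + 1) * v k.succ.succ =
          ∑ k : Fin t, z ^ ((k : ℕ) + 1) * v' k.succ.succ :=
        sum_congr rfl fun k _ => by rw [congrFun h4 k]
      rw [h6] at h3
      exact add_right_cancel h3
    funext k
    refine Fin.cases ?_ (fun k => Fin.cases ?_ (fun k => ?_) k) k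
    · rw [h1.1, h2.1]
    · exact h5
    · exact congrFun h4 k

theorem hashT_free (p t : ℕ) [NeZero p] (al : ZMod p) :
    #{v : Fin (t + 1) → ZMod p | v 0 = al} ≤ p ^ t := by
  have hc : #(univ : Finset (Fin t → ZMod p)) = p ^ t := by
    rw [card_univ, Fintype.card_fun, ZMod.card, Fintype.card_fin]
  rw [← hc]
  refine card_le_card_of_injOn (fun v => fun k : Fin t => v k.succ) ?_ ?_
  · intro v _
    exact mem_coe.mpr (mem_univ _)
  · intro v hv v' hv' h
    have h1 := (mem_filter.mp (mem_coe.mp hv)).2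
    have h2 := (mem_filter.mp (mem_coe.mp hv')).2
    funext k
    refine Fin.cases ?_ (fun k => ?_) k
    · rw [h1, h2]
    · exact congrFun h k

theorem hashT_lower (p t : ℕ) [NeZero p] (Y : ZMod p → ZMod p) (T : Finset (ZMod p)) :
    p ^ (t + 1) * #T ≤ #{v : Fin (t + 1 + 1) → ZMod p | hashTh v (Y (v 0)) ∈ T} := by
  have hc : #((univ : Finset (ZMod p)) ×ˢ ((univ : Finset (Fin t → ZMod p)) ×ˢ T)) =
      p ^ (t + 1) * #T := by
    rw [card_product, card_product, card_univ, card_univ, Fintype.card_fun, ZMod.card,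
      Fintype.card_fin, pow_succ]
    ring
  rw [← hc]
  refine card_le_card_of_injOn (fun x => (Fin.cons x.1 (Fin.cons
    (x.2.2 - ∑ k : Fin t, Y x.1 ^ ((k : ℕ) + 1) * x.2.1 k) x.2.1) :
      Fin (t + 1 + 1) → ZMod p)) ?_ ?_
  · rintro ⟨a, w, c⟩ hx
    have h1 := (mem_product.mp (mem_product.mp (mem_coe.mp hx)).2).2
    refine mem_coe.mpr (mem_filter.mpr ⟨mem_univ _, ?_⟩)
    have h2 : hashTh (Fin.cons a (Fin.cons
        (c - ∑ k : Fin t, Y a ^ ((k : ℕ) + 1) * w k) w) : Fin (t + 1 + 1) → ZMod p) (Y a) = c := by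
      rw [hashT_succ]
      have e1 : (Fin.cons a (Fin.cons (c - ∑ k : Fin t, Y a ^ ((k : ℕ) + 1) * w k) w) :
          Fin (t + 1 + 1) → ZMod p) 1 = c - ∑ k : Fin t, Y a ^ ((k : ℕ) + 1) * w k := rfl
      rw [e1]
      simp only [Fin.cons_succ]
      ring
    simp only [Fin.cons_zero]
    rw [h2]
    exact h1
  · rintro ⟨a, w, c⟩ _ ⟨a', w', c'⟩ _ h
    have h1 : a = a' := congrFun h 0
    have h2 : w = w' := by
      funext k
      exact congrFun h k.succ.succ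
    subst h1 h2
    have h3 : c - ∑ k : Fin t, Y a ^ ((k : ℕ) + 1) * w k =
        c' - ∑ k : Fin t, Y a ^ ((k : ℕ) + 1) * w k := congrFun h 1
    rw [sub_left_inj] at h3
    rw [h3]

/-- `t`-wise independence: upper bound -/
theorem card_hash_le (P : Par) (hp : P.p.Prime) (h9 : 2 * (P.t + 1) * P.p ≤ 2 ^ P.b) (al : ℕ)
    (hal : al < P.p) (z : Fin P.t → ℕ) (hz : Function.Injective z) (hz' : ∀ i, z i < P.p) (θ : ℕ)
    (hθ : θ ≤ P.p) :
    #{y ∈ bl P.K0 | alp P y = al ∧ ∀ i, hsh P y (z i) < θ} * P.p ^ (P.t + 1) ≤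
      2 * 2 ^ P.K0 * θ ^ P.t := by
  have : Fact P.p.Prime := ⟨hp⟩
  have h1 := hashT_le P.p P.b (P.t + 1) h9 (fun v => v 0 = (al : ZMod P.p) ∧
    ∀ i, hashTh v (z i : ZMod P.p) ∈ hashTT P.p θ)
  have h2 := hashT_vander P.p P.t (al : ZMod P.p) (fun i => (z i : ZMod P.p)) (by
    intro i j hij
    have h3 : (z i : ZMod P.p) = (z j : ZMod P.p) := hij
    rw [ZMod.natCast_eq_natCast_iff', Nat.mod_eq_of_lt (hz' i), Nat.mod_eq_of_lt (hz' j)] at h3
    exact hz h3) (hashTT P.p θ)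
  rw [hashT_cardT P.p θ hθ] at h2
  have h3 : #{y ∈ bl P.K0 | alp P y = al ∧ ∀ i, hsh P y (z i) < θ} ≤
      #{y ∈ bl ((P.t + 1) * P.b) | (fun v : Fin (P.t + 1) → ZMod P.p => v 0 = (al : ZMod P.p) ∧
        ∀ i, hashTh v (z i : ZMod P.p) ∈ hashTT P.p θ) (hashTvec P.p P.b (P.t + 1) y)} := by
    refine card_le_card fun y hy => ?_
    have h4 := mem_filter.mp hy
    refine mem_filter.mpr ⟨h4.1, (hashT_alp P hp.pos y al hal).mp h4.2.1, fun i => ?_⟩
    refine mem_filter.mpr ⟨mem_univ _, ?_⟩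
    rw [← hashT_hsh P hp.one_lt]
    exact h4.2.2 i
  exact (Nat.mul_le_mul_right _ h3).trans (h1.trans (Nat.mul_le_mul_left _ h2))

/-- one value: upper bound -/
theorem card_hash_one_le (P : Par) (hp : P.p.Prime) (ht : 1 ≤ P.t)
    (h9 : 2 * (P.t + 1) * P.p ≤ 2 ^ P.b) (al : ℕ) (hal : al < P.p) (z θ : ℕ) (hθ : θ ≤ P.p) :
    #{y ∈ bl P.K0 | alp P y = al ∧ hsh P y z < θ} * P.p ^ 2 ≤ 2 * 2 ^ P.K0 * θ := by
  have : Fact P.p.Prime := ⟨hp⟩
  obtain ⟨t, ht'⟩ : ∃ t, P.t = t + 1 := ⟨P.t - 1, by omega⟩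
  have h1 := hashT_le P.p P.b (P.t + 1) h9 (fun v => v 0 = (al : ZMod P.p) ∧
    hashTh v (z : ZMod P.p) ∈ hashTT P.p θ)
  have h2 : #{v : Fin (P.t + 1) → ZMod P.p | v 0 = (al : ZMod P.p) ∧
      hashTh v (z : ZMod P.p) ∈ hashTT P.p θ} ≤ θ * P.p ^ t := by
    have h := fun p' => hashT_single P.p t (al : ZMod P.p) (z : ZMod P.p) (hashTT P.p p')
    have h' := h θ
    rw [hashT_cardT P.p θ hθ] at h'
    rw [ht']
    exact h'
  have h3 : #{y ∈ bl P.K0 | alp P y = al ∧ hsh P y z < θ} ≤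
      #{y ∈ bl ((P.t + 1) * P.b) | (fun v : Fin (P.t + 1) → ZMod P.p => v 0 = (al : ZMod P.p) ∧
        hashTh v (z : ZMod P.p) ∈ hashTT P.p θ) (hashTvec P.p P.b (P.t + 1) y)} := by
    refine card_le_card fun y hy => ?_
    have h4 := mem_filter.mp hy
    refine mem_filter.mpr ⟨h4.1, (hashT_alp P hp.pos y al hal).mp h4.2.1, ?_⟩
    refine mem_filter.mpr ⟨mem_univ _, ?_⟩
    rw [← hashT_hsh P hp.one_lt]
    exact h4.2.2
  have h4 : #{y ∈ bl P.K0 | alp P y = al ∧ hsh P y z < θ} * P.p ^ (P.t + 1) ≤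
      2 * 2 ^ P.K0 * (θ * P.p ^ t) :=
    (Nat.mul_le_mul_right _ h3).trans (h1.trans (Nat.mul_le_mul_left _ h2))
  have h5 : P.p ^ (P.t + 1) = P.p ^ 2 * P.p ^ t := by
    rw [ht', ← pow_add]
    congr 1
    ring
  rw [h5, ← mul_assoc, ← mul_assoc] at h4
  exact Nat.le_of_mul_le_mul_right h4 (pow_pos hp.pos t)

/-- the point alone: upper bound -/
theorem card_alp_le (P : Par) (hp : P.p.Prime) (h9 : 2 * (P.t + 1) * P.p ≤ 2 ^ P.b) (al : ℕ)
    (hal : al < P.p) : #{y ∈ bl P.K0 | alp P y = al} * P.p ≤ 2 * 2 ^ P.K0 := by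
  have : Fact P.p.Prime := ⟨hp⟩
  have h1 := hashT_le P.p P.b (P.t + 1) h9 (fun v => v 0 = (al : ZMod P.p))
  have h2 := hashT_free P.p P.t (al : ZMod P.p)
  have h3 : #{y ∈ bl P.K0 | alp P y = al} ≤
      #{y ∈ bl ((P.t + 1) * P.b) | (fun v : Fin (P.t + 1) → ZMod P.p => v 0 = (al : ZMod P.p))
        (hashTvec P.p P.b (P.t + 1) y)} := by
    refine card_le_card fun y hy => ?_
    have h4 := mem_filter.mp hy
    exact mem_filter.mpr ⟨h4.1, (hashT_alp P hp.pos y al hal).mp h4.2⟩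
  have h4 : #{y ∈ bl P.K0 | alp P y = al} * P.p ^ (P.t + 1) ≤
      2 * 2 ^ P.K0 * P.p ^ P.t :=
    (Nat.mul_le_mul_right _ h3).trans (h1.trans (Nat.mul_le_mul_left _ h2))
  rw [pow_succ, mul_comm (P.p ^ P.t) P.p, ← mul_assoc] at h4
  exact Nat.le_of_mul_le_mul_right h4 (pow_pos hp.pos _)

/-- a function of the point: lower bound -/
theorem card_hash_ge (P : Par) (hp : P.p.Prime) (ht : 1 ≤ P.t)
    (h9 : 2 * (P.t + 1) * P.p ≤ 2 ^ P.b) (Y : ℕ → ℕ) (θ : ℕ) (hθ : θ ≤ P.p) :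
    2 ^ P.K0 * θ ≤ 2 * P.p * #{y ∈ bl P.K0 | hsh P y (Y (alp P y)) < θ} := by
  have : Fact P.p.Prime := ⟨hp⟩
  obtain ⟨t, ht'⟩ : ∃ t, P.t = t + 1 := ⟨P.t - 1, by omega⟩
  have h1 := hashT_ge P.p P.b (P.t + 1) h9 (fun v =>
    hashTh v ((Y (v 0).val : ℕ) : ZMod P.p) ∈ hashTT P.p θ)
  have h2 : P.p ^ P.t * θ ≤ #{v : Fin (P.t + 1) → ZMod P.p |
      hashTh v ((Y (v 0).val : ℕ) : ZMod P.p) ∈ hashTT P.p θ} := by
    have h := hashT_lower P.p t (fun a => ((Y a.val : ℕ) : ZMod P.p)) (hashTT P.p θ)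
    rw [hashT_cardT P.p θ hθ] at h
    rw [ht']
    exact h
  have h3 : #{y ∈ bl ((P.t + 1) * P.b) | (fun v : Fin (P.t + 1) → ZMod P.p =>
      hashTh v ((Y (v 0).val : ℕ) : ZMod P.p) ∈ hashTT P.p θ) (hashTvec P.p P.b (P.t + 1) y)} ≤
      #{y ∈ bl P.K0 | hsh P y (Y (alp P y)) < θ} := by
    refine card_le_card fun y hy => ?_
    have h4 := mem_filter.mp hy
    refine mem_filter.mpr ⟨h4.1, ?_⟩
    have h5 := (mem_filter.mp h4.2).2
    rw [hashT_hsh P hp.one_lt]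
    have e : (hashTvec P.p P.b (P.t + 1) y 0).val = alp P y := by
      have h6 := (hashT_alp P hp.pos y (alp P y) (red_lt hp.pos _)).mp rfl
      rw [h6, ZMod.val_natCast]
      exact Nat.mod_eq_of_lt (red_lt hp.pos _)
    rw [e] at h5
    exact h5
  have h4 : 2 ^ P.K0 * (P.p ^ P.t * θ) ≤ 2 * P.p ^ (P.t + 1) *
      #{y ∈ bl P.K0 | hsh P y (Y (alp P y)) < θ} :=
    (Nat.mul_le_mul_left _ h2).trans (h1.trans (Nat.mul_le_mul_left _ h3))
  have h5 : P.p ^ P.t * (2 ^ P.K0 * θ) ≤ P.p ^ P.t * (2 * P.p *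
      #{y ∈ bl P.K0 | hsh P y (Y (alp P y)) < θ}) := by
    calc P.p ^ P.t * (2 ^ P.K0 * θ) = 2 ^ P.K0 * (P.p ^ P.t * θ) := by ring
      _ ≤ _ := h4
      _ = _ := by
        rw [pow_succ]
        ring
  exact Nat.le_of_mul_le_mul_left h5 (pow_pos hp.pos _)

end Pool.Agent.Lib.MP_33f9c4_lc.LK
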