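import Pool.Agent.Lib.MP_33f9c4_lc.K.Kern
import Pool.Agent.Lib.MP_33f9c4_lc.K.HashN

/-!
# MODULE Itp. The interpolation: roots are transmitted

`Q := kern p D B S`, `D = P.D i`, `B = P.Bd i`: a list of length `D * B` with entries `< p`, not all
zero (kern_spec, as `S.length < D * B`), the coefficients of
`Q(x,y) = ∑_{b<B} (∑_{a<D} Q[b D + a] x^a) y^b`, vanishing at the points of `S`. `itp` = the first non-zero chunk
`q_β = Q[β D .. (β+1) D)`. (Chunks cover `Q`, so a non-zero chunk exists.)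
`itp_zero`: `Y ≠ 0` mod `p`, `Y.length ≤ P.D (i-1)`, and `(al, evL p Y al) ∈ S` for at least `p / 2^a` of the
`al < p`. The polynomial `F(x) = Q(x, Y(x)) ∈ ZMod p [x]` has degree `≤ (D-1) + (B-1) (P.D (i-1) - 1) <
p / 2^a` (h11, h12, and `pw P.N e = 2^e` for the exponents which occur, by h16) and vanishes at
these points, so `F = 0`. `Q(x,y) = y^β Q'(x,y)` with `Q'(x,0) = q_β`; `F = Y^β Q'(x,Y(x)) = 0` and `Y ≠ 0`, so
`Q'(x,Y(x)) = 0`. If `Y(x0) = 0` then `q_β(x0) = Q'(x0,0) = Q'(x0, Y(x0)) = 0`.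
-/

namespace Pool.Agent.Lib.MP_33f9c4_lc.LK

open Finset

theorem pw_eq {P : Par} (hP : P.Good) {e : ℕ}
    (he : e ≤ P.K + P.c + 4 * P.E + P.B + P.R + P.s + 1) : pw P.N e = 2 ^ e :=
  Nat.min_eq_left (le_trans (Nat.pow_le_pow_right (by norm_num) he) hP.h16)

theorem D_eq {P : Par} (hP : P.Good) {i : ℕ} (hi : 1 ≤ i) (hi4 : i ≤ 4) :
    P.D i = 2 ^ (i * P.E) := by
  unfold Par.D
  rw [if_neg (by omega), pw_eq hP]
  have : i * P.E ≤ 4 * P.E := Nat.mul_le_mul_right _ hi4
  omega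

theorem Bd_eq {P : Par} (hP : P.Good) {i : ℕ} (hi : 1 ≤ i) (hi4 : i ≤ 4) :
    P.Bd i = P.p * 2 ^ (P.B + 1) / 2 ^ (i * P.E) + 1 := by
  unfold Par.Bd
  rw [D_eq hP hi hi4, pw_eq hP (by omega)]

theorem D_pos {P : Par} (hP : P.Good) {i : ℕ} (hi : 1 ≤ i) (hi4 : i ≤ 4) : 0 < P.D i := by
  rw [D_eq hP hi hi4]
  positivity

/-! ### first non-zero element -/

theorem any_iff (v : List ℕ) : (v.any (· != 0)) = true ↔ ∃ c ∈ v, c ≠ 0 := by
  simp

theorem fnz_range (n : ℕ) (f : ℕ → List ℕ) (h : ∃ b < n, ∃ c ∈ f b, c ≠ 0) :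
    ∃ β < n, fnz ((List.range n).map f) = f β ∧ (∃ c ∈ f β, c ≠ 0) ∧
      ∀ b < β, ∀ c ∈ f b, c = 0 := by
  classical
  have h' : ∃ b, b < n ∧ ∃ c ∈ f b, c ≠ 0 := h
  refine ⟨Nat.find h', (Nat.find_spec h').1, ?_, (Nat.find_spec h').2, ?_⟩
  · unfold fnz
    rw [List.find?_map]
    have h1 : (List.range n).find? ((fun v : List ℕ => v.any (· != 0)) ∘ f) =
        some (Nat.find h') := by
      rw [List.find?_range_eq_some]
      refine ⟨(any_iff _).2 (Nat.find_spec h').2, List.mem_range.2 (Nat.find_spec h').1, ?_⟩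
      intro j hj
      have h2 := Nat.find_min h' hj
      have h3 := (Nat.find_spec h').1
      simp only [Function.comp_apply, Bool.not_eq_true', Bool.eq_false_iff, ne_eq]
      intro h4
      exact h2 ⟨by omega, (any_iff _).1 h4⟩
    rw [h1]
    rfl
  · intro b hb c hc
    by_contra h0
    have h3 := (Nat.find_spec h').1
    exact Nat.find_min h' hb ⟨by omega, c, hc, h0⟩

/-! ### the polynomial of a list -/

theorem coeff_pol (p : ℕ) (Y : List ℕ) (i : ℕ) :
    (pol p Y).coeff i = ((Y.getD i 0 : ℕ) : ZMod p) := by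
  unfold pol
  rw [Polynomial.finset_sum_coeff]
  simp only [Polynomial.coeff_C_mul, Polynomial.coeff_X_pow, mul_ite, mul_one, mul_zero]
  rw [Finset.sum_ite_eq]
  split_ifs with h
  · rfl
  · rw [List.getD_eq_default _ _ (by simpa using h)]
    simp

theorem natDegree_pol (p : ℕ) (Y : List ℕ) : (pol p Y).natDegree ≤ Y.length - 1 := by
  rw [Polynomial.natDegree_le_iff_coeff_eq_zero]
  intro N hN
  rw [coeff_pol, List.getD_eq_default _ _ (by omega)]
  simp

theorem pol_ne_zero (p : ℕ) (Y : List ℕ) (h : ∃ c ∈ Y, c % p ≠ 0) : pol p Y ≠ 0 := by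
  obtain ⟨c, hc, h0⟩ := h
  obtain ⟨i, hi, hic⟩ := List.getElem_of_mem hc
  intro hz
  have h1 := coeff_pol p Y i
  rw [hz, Polynomial.coeff_zero, List.getD_eq_getElem _ _ hi, hic] at h1
  have h2 := (ZMod.natCast_eq_zero_iff c p).1 h1.symm
  exact h0 (Nat.mod_eq_zero_of_dvd h2)

theorem pol_zero (p : ℕ) (Y : List ℕ) (h : ∀ c ∈ Y, c = 0) : pol p Y = 0 := by
  ext i
  rw [coeff_pol, Polynomial.coeff_zero]
  rcases Nat.lt_or_ge i Y.length with hi | hi
  · rw [List.getD_eq_getElem _ _ hi, h _ (List.getElem_mem hi)]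
    simp
  · rw [List.getD_eq_default _ _ hi]
    simp

/-! ### chunks -/

theorem zip_chunks {M : Type*} [AddCommMonoid M] (f : ℕ → ℕ → M) (D : ℕ) (g : ℕ → List ℕ)
    (hg : ∀ b, (g b).length = D) (B : ℕ) (v : List ℕ) (hv : v.length = D * B) :
    (List.zipWith f v ((List.range B).flatMap g)).sum =
      ∑ b ∈ range B, (List.zipWith f ((v.drop (b * D)).take D) (g b)).sum := by
  induction B generalizing v with
  | zero => simp
  | succ B ih =>
    have hl : ((List.range B).flatMap g).length = D * B := by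
      rw [List.length_flatMap]
      simp [hg, mul_comm]
    have hD : D * (B + 1) = D * B + D := by ring
    have hv1 : (v.take (D * B)).length = D * B := by
      rw [List.length_take]
      omega
    rw [List.range_succ, List.flatMap_append, Finset.sum_range_succ]
    conv_lhs => rw [← List.take_append_drop (D * B) v]
    rw [List.zipWith_append (by rw [hv1, hl]), List.sum_append, ih _ hv1]
    congr 1
    · refine Finset.sum_congr rfl fun b hb => ?_
      have hb' := Finset.mem_range.1 hb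
      have h1 : (b + 1) * D ≤ D * B := by
        rw [mul_comm]
        exact Nat.mul_le_mul_left _ hb'
      have h2 : (b + 1) * D = b * D + D := by ring
      rw [List.drop_take, List.take_take, Nat.min_eq_left (by omega)]
    · simp only [List.flatMap_cons, List.flatMap_nil, List.append_nil]
      rw [mul_comm B D, List.take_of_length_le]
      rw [List.length_drop]
      omega

theorem zip_range {M : Type*} [AddCommMonoid M] (f : ℕ → ℕ → M) (g : ℕ → ℕ) (Y : List ℕ) :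
    (List.zipWith f Y ((List.range Y.length).map g)).sum =
      ∑ a ∈ range Y.length, f (Y.getD a 0) (g a) := by
  induction Y generalizing g with
  | nil => simp
  | cons c Y ih =>
    rw [List.length_cons, List.range_succ_eq_map, List.map_cons, List.zipWith_cons_cons,
      List.sum_cons, List.map_map, ih, Finset.sum_range_succ', add_comm]
    rfl

theorem dot_cast (p : ℕ) (u v : List ℕ) :
    ((K.dot p u v : ℕ) : ZMod p) =
      (List.zipWith (fun x y : ℕ => (x : ZMod p) * (y : ZMod p)) v u).sum := by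
  unfold K.dot
  rw [ZMod.natCast_mod]
  induction u generalizing v with
  | nil => simp
  | cons a u ih =>
    cases v with
    | nil => simp
    | cons b v =>
      simp only [List.zipWith_cons_cons, List.sum_cons]
      rw [Nat.cast_add, ih, Nat.cast_mul, mul_comm]

/-- the value of the interpolation polynomial -/
theorem dot_mon (p Dn Bn : ℕ) (v : List ℕ) (hv : v.length = Dn * Bn) (x : ℕ × ℕ) :
    ((K.dot p (mon p Dn Bn x) v : ℕ) : ZMod p) =
      ∑ b ∈ range Bn, (pol p ((v.drop (b * Dn)).take Dn)).eval (x.1 : ZMod p) *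
        (x.2 : ZMod p) ^ b := by
  rw [dot_cast, mon, zip_chunks _ Dn _ (by intro b; simp) Bn v hv]
  refine Finset.sum_congr rfl fun b hb => ?_
  have hl : ((v.drop (b * Dn)).take Dn).length = Dn := by
    have h1 : (b + 1) * Dn ≤ Dn * Bn := by
      rw [mul_comm]
      exact Nat.mul_le_mul_left _ (Finset.mem_range.1 hb)
    have h2 : (b + 1) * Dn = b * Dn + Dn := by ring
    rw [List.length_take, List.length_drop]
    omega
  have h3 := zip_range (fun x y : ℕ => (x : ZMod p) * (y : ZMod p))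
    (fun a => pwm p x.1 a * pwm p x.2 b % p) ((v.drop (b * Dn)).take Dn)
  rw [hl] at h3
  rw [h3]
  unfold pol
  rw [Polynomial.eval_finset_sum, Finset.sum_mul, hl]
  refine Finset.sum_congr rfl fun a _ => ?_
  rw [pwm_eq, pwm_eq]
  simp only [Polynomial.eval_mul, Polynomial.eval_C, Polynomial.eval_pow, Polynomial.eval_X,
    ZMod.natCast_mod, Nat.cast_mul, Nat.cast_pow]
  ring

/-! ### the interpolation -/

/-- the coefficients of the interpolation polynomial -/
def itpQ (P : Par) (i : ℕ) (S : List (ℕ × ℕ)) : List ℕ := kern P.p (P.D i) (P.Bd i) S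

theorem len_lt {P : Par} (hP : P.Good) {i : ℕ} (hi : 1 ≤ i) (hi4 : i ≤ 4) {S : List (ℕ × ℕ)}
    (hS : S.length ≤ P.p * 2 ^ P.B) : S.length < P.D i * P.Bd i := by
  have hp := hP.prime.pos
  rw [D_eq hP hi hi4, Bd_eq hP hi hi4]
  have h1 : P.p * 2 ^ (P.B + 1) < 2 ^ (i * P.E) * (P.p * 2 ^ (P.B + 1) / 2 ^ (i * P.E) + 1) :=
    Nat.lt_mul_div_succ _ (by positivity)
  refine lt_of_le_of_lt (le_trans hS ?_) h1
  exact Nat.mul_le_mul_left _ (Nat.pow_le_pow_right (by norm_num) (by omega))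

theorem itpQ_prop {P : Par} (hP : P.Good) {i : ℕ} (hi : 1 ≤ i) (hi4 : i ≤ 4) {S : List (ℕ × ℕ)}
    (hS : S.length ≤ P.p * 2 ^ P.B) :
    (itpQ P i S).length = P.D i * P.Bd i ∧ (∀ c ∈ itpQ P i S, c < P.p) ∧
      (∀ x ∈ S, K.dot P.p (mon P.p (P.D i) (P.Bd i) x) (itpQ P i S) = 0) ∧
      ∃ c ∈ itpQ P i S, c ≠ 0 := by
  obtain ⟨h1, h2, h3, h4⟩ := kern_spec hP.prime (P.D i) (P.Bd i) S (len_lt hP hi hi4 hS)
  exact ⟨h1, h2, h4, h3⟩

/-- the chunks of the interpolation polynomial -/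
def chk (P : Par) (i : ℕ) (S : List (ℕ × ℕ)) (b : ℕ) : List ℕ :=
  ((itpQ P i S).drop (b * P.D i)).take (P.D i)

theorem itp_chunk {P : Par} (hP : P.Good) {i : ℕ} (hi : 1 ≤ i) (hi4 : i ≤ 4) {S : List (ℕ × ℕ)}
    (hS : S.length ≤ P.p * 2 ^ P.B) :
    ∃ β < P.Bd i, itp P i S = chk P i S β ∧ (∃ c ∈ chk P i S β, c ≠ 0) ∧
      ∀ b < β, ∀ c ∈ chk P i S b, c = 0 := by
  refine fnz_range (P.Bd i) (chk P i S) ?_
  obtain ⟨h1, -, -, c, hc, h0⟩ := itpQ_prop hP hi hi4 hS
  obtain ⟨j, hj, hjc⟩ := List.getElem_of_mem hc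
  have hD := D_pos hP hi hi4
  rw [h1] at hj
  refine ⟨j / P.D i, ?_, c, ?_, h0⟩
  · exact Nat.div_lt_of_lt_mul hj
  · unfold chk
    rw [List.mem_iff_getElem]
    have hm := Nat.mod_lt j hD
    have hd := Nat.div_add_mod j (P.D i)
    have e1 : j / P.D i * P.D i + j % P.D i = j := by
      rw [mul_comm]
      exact hd
    refine ⟨j % P.D i, ?_, ?_⟩
    · rw [List.length_take, List.length_drop, h1]
      omega
    · rw [List.getElem_take, List.getElem_drop, ← hjc]
      congr 1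

theorem len_chk {P : Par} (hP : P.Good) {i : ℕ} (hi : 1 ≤ i) (hi4 : i ≤ 4) {S : List (ℕ × ℕ)}
    (hS : S.length ≤ P.p * 2 ^ P.B) {b : ℕ} (hb : b < P.Bd i) :
    (chk P i S b).length = P.D i := by
  obtain ⟨h1, -⟩ := itpQ_prop hP hi hi4 hS
  unfold chk
  have h2 : (b + 1) * P.D i ≤ P.D i * P.Bd i := by
    rw [mul_comm]
    exact Nat.mul_le_mul_left _ hb
  have h3 : (b + 1) * P.D i = b * P.D i + P.D i := by ring
  rw [List.length_take, List.length_drop, h1]
  omega

theorem chk_lt {P : Par} (hP : P.Good) {i : ℕ} (hi : 1 ≤ i) (hi4 : i ≤ 4) {S : List (ℕ × ℕ)}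
    (hS : S.length ≤ P.p * 2 ^ P.B) {b : ℕ} : ∀ c ∈ chk P i S b, c < P.p := by
  obtain ⟨-, h1, -⟩ := itpQ_prop hP hi hi4 hS
  intro c hc
  exact h1 c (List.mem_of_mem_drop (List.mem_of_mem_take hc))

theorem itp_prop {P : Par} (hP : P.Good) {i : ℕ} (hi : 1 ≤ i) (hi4 : i ≤ 4) {S : List (ℕ × ℕ)}
    (hS : S.length ≤ P.p * 2 ^ P.B) :
    (itp P i S).length = P.D i ∧ (∀ c ∈ itp P i S, c < P.p) ∧ ∃ c ∈ itp P i S, c ≠ 0 := by
  obtain ⟨β, hβ, h1, h2, -⟩ := itp_chunk hP hi hi4 hS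
  rw [h1]
  exact ⟨len_chk hP hi hi4 hS hβ, chk_lt hP hi hi4 hS, h2⟩

/-- the degrees -/
theorem deg_bound {P : Par} (hP : P.Good) {i : ℕ} (hi : 1 ≤ i) (hi4 : i ≤ 4) (d : ℕ)
    (hd : d ≤ P.D (i - 1)) (n : ℕ) (hn : P.p ≤ 2 ^ P.a * n) :
    P.D i - 1 + (P.Bd i - 1) * (d - 1) < n := by
  have hp := hP.prime.pos
  have h1 : d - 1 ≤ 2 ^ ((i - 1) * P.E) := by
    rcases Nat.eq_or_lt_of_le hi with h | h
    · subst h
      have : P.D (1 - 1) = 2 := rfl
      rw [this] at hd
      simp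
      omega
    · rw [D_eq hP (by omega) (by omega)] at hd
      omega
  have h2 : P.Bd i - 1 = P.p * 2 ^ (P.B + 1) / 2 ^ (i * P.E) := by
    rw [Bd_eq hP hi hi4]
    rfl
  set m := P.p * 2 ^ (P.B + 1) / 2 ^ (i * P.E) with hm
  have h3 : m * 2 ^ (i * P.E) ≤ P.p * 2 ^ (P.B + 1) := Nat.div_mul_le_self _ _
  have h4 : P.D i = 2 ^ (i * P.E) := D_eq hP hi hi4
  -- multiply by `2 ^ a`
  have h5 : 2 ^ P.a * (m * 2 ^ ((i - 1) * P.E)) * 2 ≤ P.p := by
    have hE : 0 < 2 ^ P.E := by positivity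
    refine Nat.le_of_mul_le_mul_right ?_ hE
    have e1 : 2 ^ ((i - 1) * P.E) * 2 ^ P.E = 2 ^ (i * P.E) := by
      rw [← pow_add]
      congr 1
      obtain ⟨j, rfl⟩ := Nat.exists_eq_add_of_le hi
      have : 1 + j - 1 = j := by omega
      rw [this]
      ring
    calc 2 ^ P.a * (m * 2 ^ ((i - 1) * P.E)) * 2 * 2 ^ P.E
        = 2 ^ P.a * 2 * (m * (2 ^ ((i - 1) * P.E) * 2 ^ P.E)) := by ring
      _ = 2 ^ P.a * 2 * (m * 2 ^ (i * P.E)) := by rw [e1]
      _ ≤ 2 ^ P.a * 2 * (P.p * 2 ^ (P.B + 1)) := Nat.mul_le_mul_left _ h3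
      _ = P.p * 2 ^ (P.B + P.a + 2) := by ring
      _ ≤ P.p * 2 ^ P.E := Nat.mul_le_mul_left _ (Nat.pow_le_pow_right (by norm_num) hP.h11)
  have h6 : 2 ^ P.a * 2 ^ (i * P.E) * 4 ≤ P.p := by
    refine le_trans ?_ hP.h12
    have e2 : 2 ^ P.a * 2 ^ (i * P.E) * 4 = 2 ^ (i * P.E + P.a + 2) := by ring
    rw [e2]
    refine Nat.pow_le_pow_right (by norm_num) ?_
    have := Nat.mul_le_mul_right P.E hi4
    omega
  have h7 : (P.Bd i - 1) * (d - 1) ≤ m * 2 ^ ((i - 1) * P.E) := by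
    rw [h2]
    exact Nat.mul_le_mul_left _ h1
  have h8 : 2 ^ P.a * (P.D i - 1 + (P.Bd i - 1) * (d - 1)) < 2 ^ P.a * n := by
    have h9 : P.D i - 1 ≤ 2 ^ (i * P.E) := by omega
    have h10 : 2 ^ P.a * (P.D i - 1 + (P.Bd i - 1) * (d - 1)) ≤
        2 ^ P.a * 2 ^ (i * P.E) + 2 ^ P.a * (m * 2 ^ ((i - 1) * P.E)) := by
      rw [← Nat.mul_add]
      exact Nat.mul_le_mul_left _ (Nat.add_le_add h9 h7)
    omega
  exact Nat.lt_of_mul_lt_mul_left h8

theorem itp_zero {P : Par} (hP : P.Good) {i : ℕ} (hi : 1 ≤ i) (hi4 : i ≤ 4) {S : List (ℕ × ℕ)}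
    (hS : S.length ≤ P.p * 2 ^ P.B) (hS' : ∀ x ∈ S, x.1 < P.p ∧ x.2 < P.p) (Y : List ℕ)
    (hY : Y.length ≤ P.D (i - 1)) (hY0 : ∃ c ∈ Y, c % P.p ≠ 0)
    (hsee : P.p ≤ 2 ^ P.a * #{al ∈ range P.p | (al, evL P.p Y al) ∈ S}) (x : ℕ)
    (hx : evL P.p Y x = 0) : evL P.p (itp P i S) x = 0 := by
  haveI : Fact P.p.Prime := ⟨hP.prime⟩
  have hp := hP.prime.pos
  obtain ⟨β, hβ, h1, h2, h3⟩ := itp_chunk hP hi hi4 hS
  obtain ⟨hl, -, hS0, -⟩ := itpQ_prop hP hi hi4 hS
  -- the polynomial `F`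
  set q : ℕ → Polynomial (ZMod P.p) := fun b => pol P.p (chk P i S b) with hq
  set y : Polynomial (ZMod P.p) := pol P.p Y with hy
  have hy0 : y ≠ 0 := pol_ne_zero _ _ hY0
  set G : Polynomial (ZMod P.p) := ∑ b ∈ range (P.Bd i), q b * y ^ b with hG
  have hdeg : G.natDegree ≤ P.D i - 1 + (P.Bd i - 1) * (Y.length - 1) := by
    refine Polynomial.natDegree_sum_le_of_forall_le _ _ fun b hb => ?_
    have hb' := Finset.mem_range.1 hb
    refine le_trans Polynomial.natDegree_mul_le (Nat.add_le_add ?_ ?_)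
    · refine le_trans (natDegree_pol _ _) ?_
      rw [len_chk hP hi hi4 hS hb']
    · refine le_trans Polynomial.natDegree_pow_le ?_
      exact Nat.mul_le_mul (by omega) (natDegree_pol _ _)
  have hG0 : G = 0 := by
    refine Polynomial.eq_zero_of_natDegree_lt_card_of_eval_eq_zero' G
      ((range P.p).filter (fun al => (al, evL P.p Y al) ∈ S) |>.image
        (fun al : ℕ => (al : ZMod P.p))) ?_ ?_
    · intro z hz
      obtain ⟨al, hal, rfl⟩ := Finset.mem_image.1 hz
      have h4 := (Finset.mem_filter.1 hal).2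
      have h5 := hS0 _ h4
      have h6 := dot_mon P.p (P.D i) (P.Bd i) (itpQ P i S) hl (al, evL P.p Y al)
      rw [h5] at h6
      rw [hG, Polynomial.eval_finset_sum]
      simp only [Polynomial.eval_mul, Polynomial.eval_pow]
      rw [hy, ← evL_eq]
      simp only [Nat.cast_zero] at h6
      exact h6.symm
    · rw [Finset.card_image_of_injOn]
      · refine lt_of_le_of_lt hdeg ?_
        exact deg_bound hP hi hi4 Y.length hY _ hsee
      · intro a ha b hb hab
        have ha' := Finset.mem_range.1 (Finset.mem_filter.1 (Finset.mem_coe.1 ha)).1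
        have hb' := Finset.mem_range.1 (Finset.mem_filter.1 (Finset.mem_coe.1 hb)).1
        have h7 := (ZMod.natCast_eq_natCast_iff' a b P.p).1 hab
        rwa [Nat.mod_eq_of_lt ha', Nat.mod_eq_of_lt hb'] at h7
  -- divide by `y ^ β`
  have hG1 : y ^ β * ∑ b ∈ range (P.Bd i - β), q (β + b) * y ^ b = 0 := by
    rw [← hG0, hG]
    have e1 : P.Bd i = β + (P.Bd i - β) := by omega
    conv_rhs => rw [e1, Finset.sum_range_add]
    have e2 : ∑ b ∈ range β, q b * y ^ b = 0 := by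
      refine Finset.sum_eq_zero fun b hb => ?_
      rw [hq]
      simp only
      rw [pol_zero _ _ (h3 b (Finset.mem_range.1 hb)), zero_mul]
    rw [e2, zero_add, Finset.mul_sum]
    refine Finset.sum_congr rfl fun b _ => ?_
    rw [pow_add]
    ring
  have hG2 : ∑ b ∈ range (P.Bd i - β), q (β + b) * y ^ b = 0 := by
    rcases mul_eq_zero.1 hG1 with h | h
    · exact absurd h (pow_ne_zero _ hy0)
    · exact h
  have hyx : y.eval (x : ZMod P.p) = 0 := by
    rw [hy, ← evL_eq, hx]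
    simp
  have h8 : (q β).eval (x : ZMod P.p) = 0 := by
    have e1 : P.Bd i - β = (P.Bd i - β - 1) + 1 := by omega
    have h9 := congrArg (Polynomial.eval (x : ZMod P.p)) hG2
    rw [e1, Finset.sum_range_succ', Polynomial.eval_add, Polynomial.eval_finset_sum] at h9
    simp only [Polynomial.eval_mul, Polynomial.eval_pow, hyx, Polynomial.eval_zero, add_zero,
      pow_zero, mul_one] at h9
    rw [Finset.sum_eq_zero, zero_add] at h9
    · exact h9
    · intro b _
      rw [zero_pow (by omega), mul_zero]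
  have h10 : ((evL P.p (itp P i S) x : ℕ) : ZMod P.p) = 0 := by
    rw [evL_eq, h1]
    exact h8
  have h11 := (ZMod.natCast_eq_zero_iff _ _).1 h10
  exact Nat.eq_zero_of_dvd_of_lt h11 (evL_lt hp _ _)

/-- the label exists -/
theorem lam_spec {P : Par} (hP : P.Good) (L : List (List Bool × ℕ))
    (hS : (ptsC P L true).length ≤ P.p * 2 ^ P.B) :
    lam P L < P.p ∧ evL P.p (itp P 4 (ptsC P L true)) (lam P L) ≠ 0 := by
  haveI : Fact P.p.Prime := ⟨hP.prime⟩
  have hp := hP.prime.pos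
  obtain ⟨h1, h2, c, hc, h0⟩ := itp_prop hP (i := 4) (by norm_num) (by norm_num) hS
  set V := itp P 4 (ptsC P L true) with hV
  have h3 : pol P.p V ≠ 0 := by
    refine pol_ne_zero _ _ ⟨c, hc, ?_⟩
    rw [Nat.mod_eq_of_lt (h2 c hc)]
    exact h0
  have h4 : ∃ x ∈ List.range P.p, (evL P.p V x != 0) = true := by
    by_contra hcon
    push_neg at hcon
    apply h3
    refine Polynomial.eq_zero_of_natDegree_lt_card_of_eval_eq_zero' _
      ((range P.p).image (fun al : ℕ => (al : ZMod P.p))) ?_ ?_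
    · intro z hz
      obtain ⟨al, hal, rfl⟩ := Finset.mem_image.1 hz
      have h5 := hcon al (List.mem_range.2 (Finset.mem_range.1 hal))
      rw [← evL_eq]
      have h6 : evL P.p V al = 0 := by simpa using h5
      rw [h6]
      simp
    · rw [Finset.card_image_of_injOn, Finset.card_range]
      · refine lt_of_le_of_lt (natDegree_pol _ _) ?_
        have h12 := hP.h12
        rw [h1, D_eq hP (by norm_num) (by norm_num)]
        have h13 : 2 ^ (4 * P.E) ≤ 2 ^ (4 * P.E + P.a + 2) :=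
          Nat.pow_le_pow_right (by norm_num) (by omega)
        have h14 : 0 < 2 ^ (4 * P.E) := by positivity
        omega
      · intro a ha b hb hab
        have ha' := Finset.mem_range.1 (Finset.mem_coe.1 ha)
        have hb' := Finset.mem_range.1 (Finset.mem_coe.1 hb)
        have h7 := (ZMod.natCast_eq_natCast_iff' a b P.p).1 hab
        rwa [Nat.mod_eq_of_lt ha', Nat.mod_eq_of_lt hb'] at h7
  unfold lam
  rw [← hV]
  cases hf : (List.range P.p).find? fun x => evL P.p V x != 0 with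
  | none =>
    obtain ⟨x, hx, hx'⟩ := h4
    rw [List.find?_eq_none] at hf
    exact absurd hx' (hf x hx)
  | some x =>
    have h5 := List.mem_of_find?_eq_some hf
    have h6 := List.find?_some hf
    refine ⟨List.mem_range.1 h5, ?_⟩
    simpa using h6

end Pool.Agent.Lib.MP_33f9c4_lc.LK
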