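import Pool.Agent.Lib.MP_33f9c4_lc.K.Def

/-!
# Kernel vectors: the interface to `K.kern_spec` (module C02)
-/

namespace Pool.Agent.Lib.MP_33f9c4_lc.LK

theorem length_mon (p Dn Bn : ℕ) (x : ℕ × ℕ) : (mon p Dn Bn x).length = Dn * Bn := by
  simp [mon, List.length_flatMap, List.map_const', List.sum_replicate, Nat.mul_comm]

theorem kern_spec {p : ℕ} (hp : p.Prime) (Dn Bn : ℕ) (S : List (ℕ × ℕ))
    (h : S.length < Dn * Bn) : (kern p Dn Bn S).length = Dn * Bn ∧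
      (∀ c ∈ kern p Dn Bn S, c < p) ∧ (∃ c ∈ kern p Dn Bn S, c ≠ 0) ∧
      ∀ x ∈ S, K.dot p (mon p Dn Bn x) (kern p Dn Bn S) = 0 := by
  have := Fact.mk hp
  have h1 := K.kern_spec (p := p) (N := Dn * Bn) (S := S.map (mon p Dn Bn)) (by
    intro f hf
    obtain ⟨x, _, rfl⟩ := List.mem_map.1 hf
    exact length_mon p Dn Bn x) (by simpa using h)
  exact ⟨h1.1, h1.2.1, h1.2.2.1, fun x hx => h1.2.2.2 _ (List.mem_map_of_mem hx)⟩

end Pool.Agent.Lib.MP_33f9c4_lc.LK
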