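import Mathlib

/-!
# MODULE LSize (abstract). Few sets of a `t`-wise independent family are heavy

`Ω` finite, weights `W : Ω → ℝ`, `0 ≤ W ≤ C`; sets `A i`, `i ∈ J`, all contained in `S`; `t ≥ 1`;
`θ` a natural number with `t ≤ θ`; for every `t`-element subset `I` of `J` the intersection of the
`A i`, `i ∈ I`, has at most `M` elements. Then
`∑_{i ∈ J} W(A i) ≤ θ W(S) + θ C M (|J| choose t)/(θ choose t)`.

PROOF. `N(ω) = |{i ∈ J : ω ∈ A i}|`. For every natural number `N`: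
`N ≤ θ + θ (N choose t)/(θ choose t)`: clear for `N ≤ θ`; for `N > θ ≥ t`: `(N choose t)/(θ choose t) =
∏_{j<t} (N-j)/(θ-j) ≥ (N/θ)^t ≥ N/θ` as each factor is `≥ N/θ` (or: `Nat.choose` monotone and
`N (θ choose t) ≤ θ (N choose t)` by induction on `N`, `N → N+1`: use
`(N+1 choose t) (N+1-t) = (N+1) (N choose t)`). Then
`∑_i W(A i) = ∑_{ω ∈ S} W N ≤ θ W(S) + (θ/(θ choose t)) ∑_{ω ∈ S} W(ω) (N(ω) choose t)`, and
`∑_ω (N(ω) choose t) = ∑_{I ⊆ J, |I| = t} |⋂_{i ∈ I} A i| ≤ (|J| choose t) M` (double counting,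
`card_powersetCard`).
-/

namespace Pool.Agent.Lib.MP_33f9c4_lc.LK

open Finset

theorem choose_grow (t θ : ℕ) (ht : 1 ≤ t) (htθ : t ≤ θ) (k : ℕ) :
    (θ + k) * θ.choose t ≤ θ * (θ + k).choose t := by
  induction k with
  | zero => exact le_refl _
  | succ k ih =>
    have h1 : (θ + k).choose t * (θ + k + 1) = (θ + k + 1).choose t * (θ + k + 1 - t) :=
      Nat.choose_mul_succ_eq (θ + k) t
    have h2 : 0 < θ + k + 1 - t := by omega
    refine Nat.le_of_mul_le_mul_right ?_ h2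
    show (θ + k + 1) * θ.choose t * (θ + k + 1 - t) ≤
      θ * (θ + k + 1).choose t * (θ + k + 1 - t)
    calc (θ + k + 1) * θ.choose t * (θ + k + 1 - t)
        = (θ + k + 1) * ((θ + k + 1 - t) * θ.choose t) := by ring
      _ ≤ (θ + k + 1) * ((θ + k) * θ.choose t) :=
          Nat.mul_le_mul_left _ (Nat.mul_le_mul_right _ (by omega))
      _ ≤ (θ + k + 1) * (θ * (θ + k).choose t) := Nat.mul_le_mul_left _ ih
      _ = θ * ((θ + k).choose t * (θ + k + 1)) := by ring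
      _ = θ * ((θ + k + 1).choose t * (θ + k + 1 - t)) := by rw [h1]
      _ = θ * (θ + k + 1).choose t * (θ + k + 1 - t) := by ring

theorem le_choose (t θ : ℕ) (ht : 1 ≤ t) (htθ : t ≤ θ) (N : ℕ) :
    (N : ℝ) ≤ θ + θ / (θ.choose t : ℝ) * (N.choose t : ℝ) := by
  have hc : (0 : ℝ) < (θ.choose t : ℝ) := by exact_mod_cast Nat.choose_pos htθ
  rcases Nat.le_total N θ with h | h
  · have h1 : (N : ℝ) ≤ θ := by exact_mod_cast h
    have h2 : (0 : ℝ) ≤ θ / (θ.choose t : ℝ) * (N.choose t : ℝ) := by positivity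
    linarith
  · obtain ⟨k, rfl⟩ := Nat.exists_eq_add_of_le h
    have h1 : (((θ + k) * θ.choose t : ℕ) : ℝ) ≤ ((θ * (θ + k).choose t : ℕ) : ℝ) := by
      exact_mod_cast choose_grow t θ ht htθ k
    rw [Nat.cast_mul, Nat.cast_mul] at h1
    have h2 : ((θ + k : ℕ) : ℝ) ≤ θ / (θ.choose t : ℝ) * ((θ + k).choose t : ℝ) := by
      rw [div_mul_eq_mul_div, le_div_iff₀ hc]
      exact h1
    have h3 : (0 : ℝ) ≤ θ := by positivity
    linarith

theorem sum_choose {Ω ι : Type*} [DecidableEq Ω] [DecidableEq ι] (S : Finset Ω)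
    (J : Finset ι) (A : ι → Finset Ω) (t : ℕ) :
    ∑ ω ∈ S, (#{i ∈ J | ω ∈ A i}).choose t =
      ∑ I ∈ J.powersetCard t, #{ω ∈ S | ∀ i ∈ I, ω ∈ A i} := by
  have h1 : ∀ ω, (#{i ∈ J | ω ∈ A i}).choose t =
      ∑ I ∈ J.powersetCard t, if ∀ i ∈ I, ω ∈ A i then 1 else 0 := by
    intro ω
    rw [← Finset.card_filter, ← Finset.card_powersetCard]
    congr 1
    ext I
    simp only [Finset.mem_powersetCard, Finset.mem_filter, Finset.subset_iff]
    constructor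
    · rintro ⟨h, hc⟩
      exact ⟨⟨fun x hx => (h hx).1, hc⟩, fun x hx => (h hx).2⟩
    · rintro ⟨⟨h, hc⟩, h'⟩
      exact ⟨fun x hx => ⟨h hx, h' x hx⟩, hc⟩
  rw [Finset.sum_congr rfl fun ω _ => h1 ω, Finset.sum_comm]
  exact Finset.sum_congr rfl fun I _ => (Finset.card_filter _ _).symm

theorem lsize {Ω ι : Type*} [DecidableEq Ω] [DecidableEq ι] (S : Finset Ω) (W : Ω → ℝ) (C : ℝ)
    (h0 : ∀ ω ∈ S, 0 ≤ W ω) (hC : ∀ ω ∈ S, W ω ≤ C) (hC0 : 0 ≤ C) (J : Finset ι)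
    (A : ι → Finset Ω)
    (hA : ∀ i ∈ J, A i ⊆ S) (t θ : ℕ) (ht : 1 ≤ t) (htθ : t ≤ θ) (M : ℝ)
    (hM : ∀ I ⊆ J, #I = t → (#{ω ∈ S | ∀ i ∈ I, ω ∈ A i} : ℝ) ≤ M) :
    ∑ i ∈ J, ∑ ω ∈ A i, W ω ≤
      θ * ∑ ω ∈ S, W ω + θ * C * M * ((#J).choose t : ℝ) / (θ.choose t : ℝ) := by
  have hc : (0 : ℝ) < (θ.choose t : ℝ) := by exact_mod_cast Nat.choose_pos htθ
  -- the sum as a sum over `S`
  have e1 : ∑ i ∈ J, ∑ ω ∈ A i, W ω = ∑ ω ∈ S, W ω * (#{i ∈ J | ω ∈ A i} : ℝ) := by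
    have h1 : ∀ i ∈ J, ∑ ω ∈ A i, W ω = ∑ ω ∈ S, if ω ∈ A i then W ω else 0 := by
      intro i hi
      rw [← Finset.sum_filter]
      congr 1
      ext ω
      simp only [Finset.mem_filter]
      exact ⟨fun h => ⟨hA i hi h, h⟩, fun h => h.2⟩
    rw [Finset.sum_congr rfl h1, Finset.sum_comm]
    refine Finset.sum_congr rfl fun ω _ => ?_
    rw [← Finset.sum_filter, Finset.sum_const, nsmul_eq_mul, mul_comm]
  have e2 : ∑ ω ∈ S, W ω * (#{i ∈ J | ω ∈ A i} : ℝ) ≤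
      ∑ ω ∈ S, (θ * W ω + θ / (θ.choose t : ℝ) * C * ((#{i ∈ J | ω ∈ A i}).choose t : ℝ)) := by
    refine Finset.sum_le_sum fun ω hω => ?_
    have h1 := le_choose t θ ht htθ #{i ∈ J | ω ∈ A i}
    have h2 := h0 ω hω
    have h3 := hC ω hω
    have h4 : (0 : ℝ) ≤ θ / (θ.choose t : ℝ) * ((#{i ∈ J | ω ∈ A i}).choose t : ℝ) := by
      positivity
    calc W ω * (#{i ∈ J | ω ∈ A i} : ℝ)
        ≤ W ω * (θ + θ / (θ.choose t : ℝ) * ((#{i ∈ J | ω ∈ A i}).choose t : ℝ)) :=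
          mul_le_mul_of_nonneg_left h1 h2
      _ = θ * W ω + W ω * (θ / (θ.choose t : ℝ) * ((#{i ∈ J | ω ∈ A i}).choose t : ℝ)) := by
          ring
      _ ≤ θ * W ω + C * (θ / (θ.choose t : ℝ) * ((#{i ∈ J | ω ∈ A i}).choose t : ℝ)) := by
          have := mul_le_mul_of_nonneg_right h3 h4
          linarith
      _ = _ := by ring
  have e3 : (∑ ω ∈ S, ((#{i ∈ J | ω ∈ A i}).choose t : ℝ)) ≤ ((#J).choose t : ℝ) * M := by
    have h1 : (∑ ω ∈ S, ((#{i ∈ J | ω ∈ A i}).choose t : ℝ)) =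
        ∑ I ∈ J.powersetCard t, (#{ω ∈ S | ∀ i ∈ I, ω ∈ A i} : ℝ) := by
      have := sum_choose S J A t
      exact_mod_cast this
    rw [h1]
    calc _ ≤ ∑ _I ∈ J.powersetCard t, M := by
          refine Finset.sum_le_sum fun I hI => ?_
          rw [Finset.mem_powersetCard] at hI
          exact hM I hI.1 hI.2
      _ = _ := by
        rw [Finset.sum_const, Finset.card_powersetCard, nsmul_eq_mul]
  rw [e1]
  refine le_trans e2 ?_
  rw [Finset.sum_add_distrib, ← Finset.mul_sum, ← Finset.mul_sum]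
  have h5 : (0 : ℝ) ≤ θ / (θ.choose t : ℝ) * C := by positivity
  have h6 := mul_le_mul_of_nonneg_left e3 h5
  have h7 : θ / (θ.choose t : ℝ) * C * (((#J).choose t : ℝ) * M) =
      θ * C * M * ((#J).choose t : ℝ) / (θ.choose t : ℝ) := by ring
  linarith

/-- the quotient of binomial coefficients: `(8t choose t) (2/7)^t ... ` -/
theorem choose_quot (t L : ℕ) (ht : 1 ≤ t) :
    (L.choose t : ℝ) / ((8 * t).choose t : ℝ) ≤ (L / (7 * t) : ℝ) ^ t := by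
  have hf : (0 : ℝ) < (t.factorial : ℝ) := by exact_mod_cast Nat.factorial_pos t
  have h1 : (L.choose t : ℝ) ≤ (L : ℝ) ^ t / (t.factorial : ℝ) := Nat.choose_le_pow_div t L
  have h2 : (((8 * t + 1 - t : ℕ) : ℝ)) ^ t / (t.factorial : ℝ) ≤ ((8 * t).choose t : ℝ) :=
    Nat.pow_le_choose t (8 * t)
  have ht0 : (0 : ℝ) < t := by exact_mod_cast ht
  have h3 : ((7 : ℝ) * t) ^ t / (t.factorial : ℝ) ≤ ((8 * t).choose t : ℝ) := by
    refine le_trans ?_ h2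
    gcongr
    have : 7 * t ≤ 8 * t + 1 - t := by omega
    exact_mod_cast this
  have h4 : (0 : ℝ) < ((8 * t).choose t : ℝ) := by
    exact_mod_cast Nat.choose_pos (by omega)
  have h5 : (0 : ℝ) < ((7 : ℝ) * t) ^ t := by positivity
  rw [div_pow, div_le_div_iff₀ h4 h5]
  rw [div_le_iff₀ hf] at h3
  rw [le_div_iff₀ hf] at h1
  have h6 : (0 : ℝ) ≤ (L : ℝ) ^ t := by positivity
  have h7 : (0 : ℝ) ≤ (L.choose t : ℝ) := by positivity
  calc (L.choose t : ℝ) * ((7 : ℝ) * t) ^ t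
      ≤ (L.choose t : ℝ) * (((8 * t).choose t : ℝ) * (t.factorial : ℝ)) :=
        mul_le_mul_of_nonneg_left h3 h7
    _ = ((L.choose t : ℝ) * (t.factorial : ℝ)) * ((8 * t).choose t : ℝ) := by ring
    _ ≤ (L : ℝ) ^ t * ((8 * t).choose t : ℝ) := mul_le_mul_of_nonneg_right h1 h4.le

end Pool.Agent.Lib.MP_33f9c4_lc.LK
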