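import Pool.Agent.Lib.PolyTime
import Mathlib.Analysis.SpecialFunctions.Log.Base

/-!
# Programs on binary trees, their running time, Levin's complexity

The machines are while-programs on binary trees with one variable (pure LISP machines, the
language `I` of N. D. Jones). The time is the number of elementary operations; printing an output
of `n` bits costs `n` further steps.
-/

namespace Pool.Agent.Lib.MP_33f9c4_lc.K

open Pool.Agent.Lib.PolyTime (BT)

/-- The left part of a tree (the leaf has the parts leaf and leaf). -/
def lft : BT → BT
  | .leaf => .leaf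
  | .node a _ => a

/-- The right part of a tree. -/
def rgt : BT → BT
  | .leaf => .leaf
  | .node _ b => b

/-- Programs. The variable is called `X`. -/
inductive TP : Type
  /-- `X := X` -/
  | id : TP
  /-- `X := leaf` -/
  | leaf : TP
  /-- `X := left part of X` -/
  | lft : TP
  /-- `X := right part of X` -/
  | rgt : TP
  /-- `X := node (f X) (g X)` -/
  | pair (f g : TP) : TP
  /-- first `f`, then `g` -/
  | comp (f g : TP) : TP
  /-- if `c X` is a node then `f`, else `g` -/
  | ite (c f g : TP) : TP
  /-- while the left part of `X` is a node do `f` -/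
  | loop (f : TP) : TP

/-- `Ev f x y t`: the program `f`, started with `X = x`, stops with `X = y` after exactly `t`
elementary operations. -/
inductive Ev : TP → BT → BT → ℕ → Prop
  | id (x : BT) : Ev .id x x 1
  | leaf (x : BT) : Ev .leaf x .leaf 1
  | lft (x : BT) : Ev .lft x (lft x) 1
  | rgt (x : BT) : Ev .rgt x (rgt x) 1
  | pair {f g : TP} {x a b : BT} {s t : ℕ} (hf : Ev f x a s) (hg : Ev g x b t) :
      Ev (.pair f g) x (.node a b) (s + t + 1)
  | comp {f g : TP} {x y z : BT} {s t : ℕ} (hf : Ev f x y s) (hg : Ev g y z t) :
      Ev (.comp f g) x z (s + t + 1)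
  | iteN {c f g : TP} {x a b y : BT} {r s : ℕ} (hc : Ev c x (.node a b) r) (hf : Ev f x y s) :
      Ev (.ite c f g) x y (r + s + 1)
  | iteL {c f g : TP} {x y : BT} {r s : ℕ} (hc : Ev c x .leaf r) (hg : Ev g x y s) :
      Ev (.ite c f g) x y (r + s + 1)
  | loopN {f : TP} {x a b y z : BT} {s t : ℕ} (hx : K.lft x = .node a b) (hf : Ev f x y s)
      (h : Ev (.loop f) y z t) : Ev (.loop f) x z (s + t + 1)
  | loopL {f : TP} {x : BT} (hx : K.lft x = .leaf) : Ev (.loop f) x x 1

/-- The tree of a bit string: the list of its bits, `false` is the leaf, `true` is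
`node leaf leaf`. -/
def tr : List Bool → BT
  | [] => .leaf
  | b :: l => .node (if b then .node .leaf .leaf else .leaf) (tr l)

/-- The machine `M` outputs the string `x` on the input `d` within `t` steps (one step for every
elementary operation and for every printed bit). -/
def Out (M : TP) (d x : List Bool) (t : ℕ) : Prop :=
  ∃ r, Ev M (tr d) (tr x) r ∧ r + x.length ≤ t

/-- Levin's time-bounded Kolmogorov complexity with respect to the machine `U`. -/
noncomputable def Kt (U : TP) (x : List Bool) : ℝ :=
  sInf {v : ℝ | ∃ (d : List Bool) (t : ℕ), Out U d x t ∧ v = d.length + Real.logb 2 t}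

/-- The set of Levin-random strings with respect to the machine `U`. -/
def RKt (U : TP) : Set (List Bool) := {x | (x.length : ℝ) ≤ Kt U x}

/-- `U` is universal with linear-time simulation: for every machine `M` there is a constant `c`
such that every output of `M` is an output of `U`, with a description which is longer by at most
`c` and in at most `c` times the number of steps. -/
def LinUniv (U : TP) : Prop :=
  ∀ M : TP, ∃ c : ℕ, ∀ (d x : List Bool) (t : ℕ), Out M d x t →
    ∃ d' : List Bool, d'.length ≤ d.length + c ∧ Out U d' x (c * t)

/-- `U` is optimal up to `log |x| / 50`: every output `x` of a machine `M` on an input `d` after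
`t` steps is an output of `U` and
`Kt U x ≤ |d| + log t + log |x| / 50 + O(1)`. -/
def Optimal (U : TP) : Prop :=
  ∀ M : TP, ∃ c : ℝ, ∀ (d x : List Bool) (t : ℕ), Out M d x t →
    (∃ (d' : List Bool) (t' : ℕ), Out U d' x t') ∧
    Kt U x ≤ d.length + Real.logb 2 t + Real.logb 2 (x.length + 1) / 50 + c

end Pool.Agent.Lib.MP_33f9c4_lc.K
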