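import Pool.Agent.Lib.MP_33f9c4_lc.K.Def

/-!
# MODULE ParG. The parameters as functions of `g`, and the inequalities

`h = 2^(2g)`, `n = h^20 = 2^(40 g)`, `s = 2h`, `r = 4g`, `R = h^2`, `w = 6g`, `q = h^7`, `W = 3h^7`, `p` the least prime
`> 2^(h^8)` (Bertrand: `p ≤ 2^(h^8+1)`, `Nat.exists_prime_lt_and_le_two_mul`), `t = h^8`, `b = 4h^8`,
`K = (t+1) b + 3h^7`, `c = h^9`, `a = B = 4h^7`, `E = 10h^7`, `N = 2^(8h^16)`. All inequalities are polynomial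
inequalities in `h ≥ 2^10` (for `g ≥ 5`: `h ≥ 1024`), and `g ≤ h`.
-/

namespace Pool.Agent.Lib.MP_33f9c4_lc.LK

/-- the least prime greater than `m` -/
def npr (m : ℕ) : ℕ := Nat.find (Nat.exists_infinite_primes (m + 1))

/-- `h = 2 ^ (2 g)` -/
def hh (g : ℕ) : ℕ := 2 ^ (2 * g)

/-- the parameters -/
def par (g : ℕ) : Par where
  n := 2 ^ (40 * g)
  l := 40 * g
  s := 2 * hh g
  r := 4 * g
  R := 2 ^ (4 * g)
  w := 6 * g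
  q := hh g ^ 7
  W := 3 * hh g ^ 7
  p := npr (2 ^ (hh g ^ 8))
  t := hh g ^ 8
  b := 4 * hh g ^ 8
  K := (hh g ^ 8 + 1) * (4 * hh g ^ 8) + 3 * hh g ^ 7
  c := hh g ^ 9
  a := 4 * hh g ^ 7
  B := 4 * hh g ^ 7
  E := 10 * hh g ^ 7
  N := 2 ^ (8 * hh g ^ 16)

theorem npr_prime (m : ℕ) : (npr m).Prime :=
  (Nat.find_spec (Nat.exists_infinite_primes (m + 1))).2

theorem lt_npr (m : ℕ) : m < npr m :=
  (Nat.find_spec (Nat.exists_infinite_primes (m + 1))).1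

theorem npr_le (m : ℕ) (hm : 1 ≤ m) : npr m ≤ 2 * m := by
  obtain ⟨p, hp, h1, h2⟩ := Nat.exists_prime_lt_and_le_two_mul m (by omega)
  exact (Nat.find_min' (Nat.exists_infinite_primes (m + 1)) ⟨h1, hp⟩).trans h2

private theorem pstep (h k : ℕ) (hh : 1024 ≤ h) : 1024 * h ^ k ≤ h ^ (k + 1) := by
  rw [pow_succ, mul_comm]
  exact Nat.mul_le_mul_left _ hh

theorem par_good {g : ℕ} (hg : 5 ≤ g) : (par g).Good := by
  have hgt : g < 2 ^ g := Nat.lt_two_pow_self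
  have hh1 : 1024 ≤ hh g := by
    unfold hh
    calc 1024 = 2 ^ 10 := by norm_num
      _ ≤ 2 ^ (2 * g) := Nat.pow_le_pow_right (by norm_num) (by omega)
  have hgh : g ≤ hh g := by
    unfold hh
    calc g ≤ 2 ^ g := hgt.le
      _ ≤ 2 ^ (2 * g) := Nat.pow_le_pow_right (by norm_num) (by omega)
  have hgh16 : 16 * g ≤ hh g := by
    unfold hh
    have h1 : 2 ^ (2 * g) = 2 ^ g * 2 ^ g := by rw [two_mul, pow_add]
    have h2 : 32 ≤ 2 ^ g := by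
      calc 32 = 2 ^ 5 := by norm_num
        _ ≤ 2 ^ g := Nat.pow_le_pow_right (by norm_num) hg
    rw [h1]; nlinarith
  have hR : 2 ^ (4 * g) = hh g ^ 2 := by unfold hh; rw [← pow_mul]; congr 1; ring
  have hn : 2 ^ (40 * g) = hh g ^ 20 := by unfold hh; rw [← pow_mul]; congr 1; ring
  have h10g : 2 ^ (4 * g) * 2 ^ (6 * g) = hh g ^ 5 := by
    unfold hh; rw [← pow_mul, ← pow_add]; congr 1; ring
  have ht : hh g ^ 8 = 2 ^ (16 * g) := by unfold hh; rw [← pow_mul]; congr 1; ring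
  have hpl : 2 ^ (hh g ^ 8) < npr (2 ^ (hh g ^ 8)) := lt_npr _
  have hpu : npr (2 ^ (hh g ^ 8)) ≤ 2 * 2 ^ (hh g ^ 8) := npr_le _ Nat.one_le_two_pow
  have ht' : ∀ B X : ℕ, X + 16 * g ≤ B → 2 ^ X * hh g ^ 8 ≤ 2 ^ B := by
    intro B X hXB
    rw [ht, ← pow_add]
    exact Nat.pow_le_pow_right (by norm_num) hXB
  have e2 := pstep (hh g) 1 hh1
  have e3 := pstep (hh g) 2 hh1
  have e4 := pstep (hh g) 3 hh1
  have e5 := pstep (hh g) 4 hh1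
  have e6 := pstep (hh g) 5 hh1
  have e7 := pstep (hh g) 6 hh1
  have e8 := pstep (hh g) 7 hh1
  have e9 := pstep (hh g) 8 hh1
  have e10 := pstep (hh g) 9 hh1
  have e11 := pstep (hh g) 10 hh1
  have e12 := pstep (hh g) 11 hh1
  have e13 := pstep (hh g) 12 hh1
  have e14 := pstep (hh g) 13 hh1
  have e15 := pstep (hh g) 14 hh1
  have e16 := pstep (hh g) 15 hh1
  have e17 := pstep (hh g) 16 hh1
  have e18 := pstep (hh g) 17 hh1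
  have e19 := pstep (hh g) 18 hh1
  have e20 := pstep (hh g) 19 hh1
  simp only [Nat.reduceAdd, pow_one] at e2 e3 e4 e5 e6 e7 e8 e9 e10 e11 e12 e13 e14 e15 e16 e17 e18 e19 e20
  have m1 : hh g ^ 7 * (3 * hh g ^ 7) = 3 * hh g ^ 14 := by ring
  have m2 : (hh g ^ 8 + 1) * (4 * hh g ^ 8) = 4 * hh g ^ 16 + 4 * hh g ^ 8 := by ring
  refine ⟨npr_prime _, rfl, ?_, ?_, ?_, ?_, ?_, ?_, ?_, ?_, ?_, ?_, ?_, ?_, ?_, ?_, ?_, ?_⟩
  · show 4 * g + 18 ≤ 40 * g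
    omega
  · show 2 * hh g + 5 ≤ 2 ^ (4 * g)
    rw [hR]; omega
  · show 8000 * (2 ^ (4 * g) * 2 ^ (6 * g)) ≤ hh g ^ 7
    rw [h10g]; omega
  · show 2 ^ (4 * g) + hh g ^ 7 + 6 * g ≤ 3 * hh g ^ 7
    rw [hR]; omega
  · show hh g ^ 7 * (3 * hh g ^ 7) + 2 ^ (4 * g) + 2 * hh g + 4 ≤ 2 ^ (40 * g)
    rw [hR, hn, m1]; omega
  · show 4 * g + 6 * g + 2 ^ (4 * g) + hh g ^ 7 + 9 ≤ 4 * hh g ^ 7
    rw [hR]; omega
  · show 4 * hh g ^ 7 + 8 ≤ hh g ^ 8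
    omega
  · show 2 ^ (2 ^ (4 * g) + 2 * hh g) ≤ npr (2 ^ (hh g ^ 8))
    rw [hR]
    exact (Nat.pow_le_pow_right (by norm_num) (by omega)).trans hpl.le
  · show 2 * (hh g ^ 8 + 1) * npr (2 ^ (hh g ^ 8)) ≤ 2 ^ (4 * hh g ^ 8)
    have h1 : hh g ^ 8 + 1 ≤ 2 ^ (hh g ^ 8) := Nat.lt_two_pow_self
    calc 2 * (hh g ^ 8 + 1) * npr (2 ^ (hh g ^ 8))
        ≤ 2 * 2 ^ (hh g ^ 8) * (2 * 2 ^ (hh g ^ 8)) :=
          Nat.mul_le_mul (Nat.mul_le_mul_left _ h1) hpu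
      _ = 2 ^ (2 * hh g ^ 8 + 2) := by ring
      _ ≤ 2 ^ (4 * hh g ^ 8) := Nat.pow_le_pow_right (by norm_num) (by omega)
  · show 2 ^ (2 ^ (4 * g) + hh g ^ 7 + 1 + 2 * hh g) * hh g ^ 8 ≤ 2 ^ (4 * hh g ^ 7)
    rw [hR]
    exact ht' _ _ (by omega)
  · show 4 * hh g ^ 7 + 4 * hh g ^ 7 + 2 ≤ 10 * hh g ^ 7
    omega
  · show 2 ^ (4 * (10 * hh g ^ 7) + 4 * hh g ^ 7 + 2) ≤ npr (2 ^ (hh g ^ 8))
    exact (Nat.pow_le_pow_right (by norm_num) (by omega)).trans hpl.le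
  · show (hh g ^ 8 + 1) * (4 * hh g ^ 8) + 2 ^ (4 * g) + hh g ^ 7 + 1 ≤
      (hh g ^ 8 + 1) * (4 * hh g ^ 8) + 3 * hh g ^ 7
    rw [hR]; omega
  · show 2 ^ (4 * g) + hh g ^ 7 + 2 * hh g + 4 * hh g ^ 7 + 2 ≤ hh g ^ 9
    rw [hR]; omega
  · show (hh g ^ 8 + 1) * (4 * hh g ^ 8) + 3 * hh g ^ 7 + hh g ^ 9 ≤ 2 ^ (40 * g)
    rw [hn, m2]; omega
  · show 2 ^ ((hh g ^ 8 + 1) * (4 * hh g ^ 8) + 3 * hh g ^ 7 + hh g ^ 9 + 4 * (10 * hh g ^ 7) +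
      4 * hh g ^ 7 + 2 ^ (4 * g) + 2 * hh g + 1) ≤ 2 ^ (8 * hh g ^ 16)
    rw [hR, m2]
    exact Nat.pow_le_pow_right (by norm_num) (by omega)

end Pool.Agent.Lib.MP_33f9c4_lc.LK
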