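import Pool.Agent.Lib.MP_33f9c4_lc.K.C03
import Pool.Agent.Lib.MP_33f9c4_lc.K.ParG

/-!
# Part C: the parameter functions and the message function of the machine D

The input is `w = 1 ^ g 0 u`.
-/

set_option autoImplicit false
set_option linter.unusedSectionVars false

namespace Pool.Agent.Lib.MP_33f9c4_lc.LK

open Pool.Agent.Lib.PolyTime
open Pool.Agent.Lib.MP_33f9c4_lc.K (NB NB.of_pt NB.add NB.mul NB.const NB.pow NB.size_of NB.le
  pt_foldl_inv pt_foldl pt_iterate pt_mod pt_div pt_pow pt_powC pt_min pt_max pt_take pt_replicate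
  pt_isPrefix pt_getD pt_headD pt_sum pt_sumMap pt_filterProp pt_find pt_zipWith pt_toNat
  pt_beqBool)

variable {α β γ σ : Type} [Enc α] [Enc β] [Enc γ] [Enc σ]

/-! ### Splitting the input -/

/-- the number of leading ones -/
def gOf (w : List Bool) : ℕ :=
  ((List.range w.length).filter (fun i => (w.take (i + 1)).all (fun b => b))).length

/-- the rest after the first zero -/
def uOf (w : List Bool) : List Bool := w.drop (gOf w + 1)

theorem filter_lt_length (m n : ℕ) (h : m ≤ n) :
    ((List.range n).filter (fun i => decide (i < m))).length = m := by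
  induction n with
  | zero => simp; omega
  | succ n ih =>
    rw [List.range_succ, List.filter_append, List.length_append]
    rcases Nat.lt_or_ge n m with h3 | h3
    · have : m = n + 1 := by omega
      subst this
      have h4 : (List.range n).filter (fun i => decide (i < n + 1)) = List.range n := by
        rw [List.filter_eq_self]
        intro i hi
        rw [List.mem_range] at hi
        simp; omega
      rw [h4]
      simp
    · rw [ih h3]
      simp; omega

theorem gOf_mk (g : ℕ) (u : List Bool) : gOf (List.replicate g true ++ false :: u) = g := by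
  rw [gOf]
  have h1 : (List.range (List.replicate g true ++ false :: u).length).filter
      (fun i => ((List.replicate g true ++ false :: u).take (i + 1)).all (fun b => b)) =
      (List.range (List.replicate g true ++ false :: u).length).filter
      (fun i => decide (i < g)) := by
    refine List.filter_congr (fun i _ => ?_)
    by_cases h : i < g
    · have : (List.replicate g true ++ false :: u).take (i + 1) = List.replicate (i + 1) true := by
        rw [List.take_append_of_le_length (by rw [List.length_replicate]; omega),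
          List.take_replicate, min_eq_left (by omega)]
      rw [this]
      simp [h]
    · have h2 : false ∈ (List.replicate g true ++ false :: u).take (i + 1) := by
        rw [List.take_append, List.mem_append]
        refine Or.inr ?_
        rw [List.length_replicate]
        obtain ⟨k, hk⟩ : ∃ k, i + 1 - g = k + 1 := ⟨i - g, by omega⟩
        rw [hk, List.take_succ_cons]
        exact List.mem_cons_self
      have h3 : ((List.replicate g true ++ false :: u).take (i + 1)).all (fun b => b) = false := by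
        rw [Bool.eq_false_iff]
        intro h4
        rw [List.all_eq_true] at h4
        exact Bool.false_ne_true (h4 false h2)
      rw [h3]
      simp [h]
  rw [h1, filter_lt_length _ _ (by simp)]

theorem uOf_mk (g : ℕ) (u : List Bool) : uOf (List.replicate g true ++ false :: u) = u := by
  rw [uOf, gOf_mk, List.drop_append, List.length_replicate]
  simp

theorem pt_gOf {w : α → List Bool} (hw : PT w) : PT (fun a => gOf (w a)) := by
  refine PT.length (PT.filter (f := fun a => List.range (w a).length)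
    (p := fun a i => ((w a).take (i + 1)).all (fun b => b)) (PT.range (PT.length hw)) ?_)
  exact PT.all (f := fun x : α × ℕ => (w x.1).take (x.2 + 1)) (p := fun _ b => b)
    (pt_take PT.snd.succ (hw.comp PT.fst)) PT.snd

theorem pt_uOf {w : α → List Bool} (hw : PT w) : PT (fun a => uOf (w a)) :=
  PT.drop (pt_gOf hw).succ hw

/-! ### The prime -/

/-- `x` is prime -/
def isP (x : ℕ) : Bool := decide (2 ≤ x) && (List.range x).all (fun d => decide (d < 2) ||
  decide (x % d ≠ 0))

theorem isP_iff (x : ℕ) : isP x = true ↔ x.Prime := by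
  rw [Nat.prime_def, isP, Bool.and_eq_true, decide_eq_true_eq, List.all_eq_true]
  refine and_congr_right (fun h2 => ⟨fun h d hd => ?_, fun h d hd => ?_⟩)
  · rcases Nat.lt_or_ge d x with h1 | h1
    · have h3 := h d (List.mem_range.mpr h1)
      rw [Bool.or_eq_true, decide_eq_true_eq, decide_eq_true_eq] at h3
      rcases h3 with h3 | h3
      · rcases Nat.lt_or_ge d 1 with h4 | h4
        · have : d = 0 := by omega
          subst this
          rw [zero_dvd_iff] at hd
          omega
        · exact Or.inl (by omega)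
      · exact absurd (Nat.mod_eq_zero_of_dvd hd) h3
    · exact Or.inr (le_antisymm (Nat.le_of_dvd (by omega) hd) h1)
  · rw [List.mem_range] at hd
    rw [Bool.or_eq_true, decide_eq_true_eq, decide_eq_true_eq]
    by_cases h3 : d < 2
    · exact Or.inl h3
    · refine Or.inr (fun h4 => ?_)
      rcases h d (Nat.dvd_of_mod_eq_zero h4) with h5 | h5 <;> omega

theorem pt_isP {x : α → ℕ} (hx : PT x) : PT (fun a => isP (x a)) := by
  refine PT.and (PT.le (PT.const 2) hx) (PT.all (f := fun a => List.range (x a))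
    (p := fun a d => decide (d < 2) || decide (x a % d ≠ 0)) (PT.range hx) ?_)
  refine PT.or (PT.lt PT.snd (PT.const 2)) ?_
  exact ((PT.eq (pt_mod (hx.comp PT.fst) PT.snd) (PT.const 0)).not).congr (fun z => by simp)

/-- the least prime between `m` and `N` -/
def nprC (N m : ℕ) : ℕ :=
  ((List.range (N + 1)).find? (fun x => decide (m < x) && isP x)).getD 0

theorem nprC_eq {N m : ℕ} (h : npr m ≤ N) : nprC N m = npr m := by
  have h1 : (List.range (N + 1)).find? (fun x => decide (m < x) && isP x) = some (npr m) := by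
    rw [List.find?_range_eq_some]
    refine ⟨?_, List.mem_range.mpr (by omega), fun j hj => ?_⟩
    · rw [Bool.and_eq_true, decide_eq_true_eq]
      exact ⟨lt_npr m, (isP_iff _).mpr (npr_prime m)⟩
    · have h2 := Nat.find_min (Nat.exists_infinite_primes (m + 1)) hj
      rw [Bool.not_eq_true', Bool.eq_false_iff]
      intro h3
      rw [Bool.and_eq_true, decide_eq_true_eq] at h3
      exact h2 ⟨h3.1, (isP_iff _).mp h3.2⟩
  rw [nprC, h1]
  rfl

theorem pt_nprC {N m : α → ℕ} (hN : PT N) (hm : PT m) : PT (fun a => nprC (N a) (m a)) := by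
  refine pt_getDopt (pt_find (f := fun a => List.range (N a + 1))
    (p := fun a x => decide (m a < x) && isP x) (PT.range hN.succ) ?_) (PT.const 0)
  exact PT.and (PT.lt (hm.comp PT.fst) PT.snd) (pt_isP PT.snd)

/-! ### The parameters -/

/-- the parameters as functions of `g`, `H = hh g` and the large number `N` -/
def parOf (g H N : ℕ) : Par where
  n := H ^ 20
  l := 40 * g
  s := 2 * H
  r := 4 * g
  R := H ^ 2
  w := 6 * g
  q := H ^ 7
  W := 3 * H ^ 7
  p := nprC N (pw N (H ^ 8))
  t := H ^ 8
  b := 4 * H ^ 8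
  K := (H ^ 8 + 1) * (4 * H ^ 8) + 3 * H ^ 7
  c := H ^ 9
  a := 4 * H ^ 7
  B := 4 * H ^ 7
  E := 10 * H ^ 7
  N := N

theorem hh_pos (g : ℕ) : 1 ≤ hh g := Nat.one_le_two_pow

theorem hh_pow (g k : ℕ) : hh g ^ k = 2 ^ (2 * g * k) := by rw [hh, ← pow_mul]

theorem parOf_n (g N : ℕ) : (parOf g (hh g) N).n = (par g).n := by
  show hh g ^ 20 = 2 ^ (40 * g)
  rw [hh_pow]; congr 1; ring

theorem parOf_R (g N : ℕ) : (parOf g (hh g) N).R = (par g).R := by
  show hh g ^ 2 = 2 ^ (4 * g)
  rw [hh_pow]; congr 1; ring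

theorem parOf_eq (g : ℕ) : parOf g (hh g) (2 ^ (8 * hh g ^ 16)) = par g := by
  have h1 := hh_pos g
  have h2 : hh g ^ 8 ≤ hh g ^ 16 := Nat.pow_le_pow_right h1 (by norm_num)
  have h3 : 1 ≤ hh g ^ 8 := Nat.one_le_pow _ _ h1
  have hN : 2 ^ (hh g ^ 8) ≤ 2 ^ (8 * hh g ^ 16) := Nat.pow_le_pow_right (by norm_num) (by omega)
  have hN' : 2 * 2 ^ (hh g ^ 8) ≤ 2 ^ (8 * hh g ^ 16) := by
    rw [← pow_succ']
    exact Nat.pow_le_pow_right (by norm_num) (by omega)
  have hpw : pw (2 ^ (8 * hh g ^ 16)) (hh g ^ 8) = 2 ^ (hh g ^ 8) := min_eq_left hN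
  have hp : nprC (2 ^ (8 * hh g ^ 16)) (pw (2 ^ (8 * hh g ^ 16)) (hh g ^ 8)) =
      npr (2 ^ (hh g ^ 8)) := by
    rw [hpw]
    exact nprC_eq ((npr_le _ Nat.one_le_two_pow).trans hN')
  have hn := parOf_n g (2 ^ (8 * hh g ^ 16))
  have hR := parOf_R g (2 ^ (8 * hh g ^ 16))
  simp only [parOf, par] at hn hR ⊢
  rw [hn, hR, hp]

theorem ppt_parOf {g H N : α → ℕ} (hg : PT g) (hH : PT H) (hN : PT N) :
    PPT (fun a => parOf (g a) (H a) (N a)) where
  n := pt_powC hH 20
  l := PT.mulConst hg 40
  s := PT.mulConst hH 2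
  r := PT.mulConst hg 4
  R := pt_powC hH 2
  w := PT.mulConst hg 6
  q := pt_powC hH 7
  W := PT.mulConst (pt_powC hH 7) 3
  p := pt_nprC hN (pt_pw hN (pt_powC hH 8))
  t := pt_powC hH 8
  b := PT.mulConst (pt_powC hH 8) 4
  K := PT.add (PT.mul (PT.succ (pt_powC hH 8)) (PT.mulConst (pt_powC hH 8) 4))
    (PT.mulConst (pt_powC hH 7) 3)
  c := pt_powC hH 9
  a := PT.mulConst (pt_powC hH 7) 4
  B := PT.mulConst (pt_powC hH 7) 4
  E := PT.mulConst (pt_powC hH 7) 10
  N := hN

/-! ### Templates -/

theorem binw_iter (k : ℕ) : ∀ (i : ℕ) (acc : List Bool),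
    ((fun s : ℕ × List Bool => (s.1 / 2, decide (s.1 % 2 = 1) :: s.2))^[k] (i, acc)).2 =
      binw k i ++ acc := by
  induction k with
  | zero => intro i acc; rfl
  | succ k ih =>
    intro i acc
    rw [Function.iterate_succ_apply, ih, binw, List.append_assoc]
    rfl

theorem pt_binw {k i : α → ℕ} (hk : PT k) (hi : PT i) : PT (fun a => binw (k a) (i a)) := by
  have h := PT.snd' (pt_iterate (f := k) (init := fun a => (i a, ([] : List Bool)))
    (step := fun _ (s : ℕ × List Bool) => (s.1 / 2, decide (s.1 % 2 = 1) :: s.2)) hk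
    (PT.pair hi (PT.const []))
    (PT.pair (pt_div PT.snd.fst' (PT.const 2)) (PT.cons (PT.eq (pt_mod PT.snd.fst' (PT.const 2))
      (PT.const 1)) PT.snd.snd')) (B := fun a => 2 * i a + 4 * k a + 3)
    ((((NB.const 2).mul (NB.of_pt hi)).add ((NB.const 4).mul (NB.of_pt hk))).add (NB.const 3)) (by
      intro a j hj
      have key : ∀ (j : ℕ) (i : ℕ) (acc : List Bool), ((fun s : ℕ × List Bool =>
          (s.1 / 2, decide (s.1 % 2 = 1) :: s.2))^[j] (i, acc)).1 ≤ i ∧
          ((fun s : ℕ × List Bool =>
          (s.1 / 2, decide (s.1 % 2 = 1) :: s.2))^[j] (i, acc)).2.length = j + acc.length := by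
        intro j
        induction j with
        | zero => intro i acc; simp
        | succ j ih =>
          intro i acc
          rw [Function.iterate_succ_apply]
          obtain ⟨h1, h2⟩ := ih (i / 2) (decide (i % 2 = 1) :: acc)
          refine ⟨h1.trans (Nat.div_le_self _ _), ?_⟩
          rw [h2, List.length_cons]; omega
      obtain ⟨h1, h2⟩ := key j (i a) []
      have h3 := size_bl_le ((fun s : ℕ × List Bool =>
          (s.1 / 2, decide (s.1 % 2 = 1) :: s.2))^[j] (i a, [])).2
      rw [h2] at h3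
      rw [size_prod, size_nat]
      simp only [List.length_nil] at h3
      omega))
  exact h.congr (fun a => by rw [binw_iter, List.append_nil])

theorem pt_mapSome {f : α → List Bool} (hf : PT f) : PT (fun a => (f a).map some) :=
  PT.map (g := fun _ b => some b) hf (PT.some PT.snd)

theorem pt_tmpl {P : α → Par} (h : PPT P) {u : α → List Bool} {j : α → ℕ} (hu : PT u)
    (hj : PT j) : PT (fun a => tmpl (P a) (u a) (j a)) := by
  have hU : PT (fun a => (u a).length) := PT.length hu
  have hX : PT (fun a => (P a).n - j a + 1) := (PT.sub h.n hj).succ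
  have hY : PT (fun a => (P a).W * ((u a).length - (P a).R - 1)) :=
    PT.mul h.W (PT.pred (PT.sub hU h.R))
  have h1 : PT (fun a => (binw (P a).r ((u a).length - 1)).map some ++ (u a).map some ++
      List.replicate ((P a).n - j a + 1 - (P a).r - (u a).length) (none : Option Bool)) :=
    PT.append (PT.append (pt_mapSome (pt_binw h.r (PT.pred hU))) (pt_mapSome hu))
      (pt_replicate (PT.sub (PT.sub hX h.r) hU) (PT.const none))
  have h2 : PT (fun a => List.replicate ((P a).W * ((u a).length - (P a).R - 1))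
      (none : Option Bool) ++ (u a).map some ++ List.replicate (P a).w (some false) ++
      List.replicate ((P a).n - j a + 1 - (P a).W * ((u a).length - (P a).R - 1) -
        (u a).length - (P a).w) (none : Option Bool)) :=
    PT.append (PT.append (PT.append (pt_replicate hY (PT.const none)) (pt_mapSome hu))
      (pt_replicate h.w (PT.const (some false))))
      (pt_replicate (PT.sub (PT.sub (PT.sub hX hY) hU) h.w) (PT.const none))
  exact PT.ite (c := fun a => (u a).length ≤ (P a).R) (PT.le hU h.R) h1 h2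

theorem pt_jhi {P : α → Par} (h : PPT P) {u : α → List Bool} (hu : PT u) :
    PT (fun a => jhi (P a) (u a)) :=
  PT.ite (c := fun a => (u a).length ≤ (P a).R) (PT.le (PT.length hu) h.R)
    (PT.addConst h.s 6) (PT.addConst (PT.add h.R h.s) 4)

/-! ### The first two parameter functions -/

/-- the exponent of `H = 2 ^ (2 g)` -/
def prm1 (w : List Bool) : ℕ := 2 * gOf w

theorem pt_prm1 : PT prm1 := PT.mulConst (pt_gOf PT.id) 2

theorem two_pow_prm1 (g : ℕ) (u : List Bool) :
    2 ^ prm1 (List.replicate g true ++ false :: u) = hh g := by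
  rw [prm1, gOf_mk, hh]

/-- template, number of tables, `K`, `n`, `e0`, `e1` -/
def prm2 (x : List Bool × ℕ) : List (Option Bool) × ℕ × ℕ × ℕ × ℕ × ℕ :=
  ((tmpl (parOf (gOf x.1) x.2 0) (uOf x.1) (parOf (gOf x.1) x.2 0).l).reverse,
    jhi (parOf (gOf x.1) x.2 0) (uOf x.1) + 1 - (parOf (gOf x.1) x.2 0).l,
    (parOf (gOf x.1) x.2 0).K, (parOf (gOf x.1) x.2 0).n, 8 * x.2 ^ 16,
    (parOf (gOf x.1) x.2 0).n - (parOf (gOf x.1) x.2 0).K - (parOf (gOf x.1) x.2 0).c)

theorem pt_prm2 : PT prm2 := by
  have hg : PT (fun x : List Bool × ℕ => gOf x.1) := pt_gOf PT.fst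
  have hu : PT (fun x : List Bool × ℕ => uOf x.1) := pt_uOf PT.fst
  have h : PPT (fun x : List Bool × ℕ => parOf (gOf x.1) x.2 0) :=
    ppt_parOf hg PT.snd (PT.const 0)
  exact PT.pair (PT.reverse (pt_tmpl h hu h.l)) (PT.pair (PT.sub (PT.addConst (pt_jhi h hu) 1) h.l)
    (PT.pair h.K (PT.pair h.n (PT.pair (PT.mulConst (pt_powC PT.snd 16) 8)
      (PT.sub (PT.sub h.n h.K) h.c)))))

theorem prm2_eq (g : ℕ) (u : List Bool) : prm2 (List.replicate g true ++ false :: u, hh g) =
    ((tmpl (par g) u (par g).l).reverse, jhi (par g) u + 1 - (par g).l, (par g).K, (par g).n,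
      8 * hh g ^ 16, (par g).n - (par g).K - (par g).c) := by
  have hn := parOf_n g 0
  have hR := parOf_R g 0
  have h1 : tmpl (parOf g (hh g) 0) u (parOf g (hh g) 0).l = tmpl (par g) u (par g).l := by
    unfold tmpl
    rw [hn, hR]
    rfl
  have h2 : jhi (parOf g (hh g) 0) u = jhi (par g) u := by
    unfold jhi Par.jM
    rw [hR]
    rfl
  rw [prm2]
  simp only [gOf_mk, uOf_mk]
  rw [h1, h2, hn]
  rfl

/-! ### The message function -/

/-- the message -/
def msg0 (x : List Bool × ℕ × ℕ × List (List Bool × ℕ)) : List (List Bool) :=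
  tst (parOf (gOf x.1) x.2.1 x.2.2.1) (uOf x.1)
    (viewOf (parOf (gOf x.1) x.2.1 x.2.2.1) x.2.2.2) false ++
  tst (parOf (gOf x.1) x.2.1 x.2.2.1) (uOf x.1)
    (viewOf (parOf (gOf x.1) x.2.1 x.2.2.1) x.2.2.2) true

/-- the parameters are small enough -/
def grd (x : List Bool × ℕ × ℕ × List (List Bool × ℕ)) : Bool :=
  decide (pw (x.2.2.1 + 1) ((parOf (gOf x.1) x.2.1 x.2.2.1).K +
    (parOf (gOf x.1) x.2.1 x.2.2.1).c) ≤ x.2.2.1) &&
  decide (1 < (parOf (gOf x.1) x.2.1 x.2.2.1).p)

/-- the message function of the machine D -/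
def msg (x : List Bool × ℕ × ℕ × List (List Bool × ℕ)) : List (List Bool) :=
  if grd x then msg0 x else []

theorem msg_eq {g : ℕ} (hg : 5 ≤ g) (u : List Bool) (hist : List (List Bool × ℕ)) :
    msg (List.replicate g true ++ false :: u, hh g, 2 ^ (8 * hh g ^ 16), hist) =
      tst (par g) u (viewOf (par g) hist) false ++ tst (par g) u (viewOf (par g) hist) true := by
  have hP := par_good hg
  have h1 : 2 ^ ((par g).K + (par g).c) ≤ 2 ^ (8 * hh g ^ 16) := by
    refine le_trans ?_ hP.h16
    exact Nat.pow_le_pow_right (by norm_num) (by omega)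
  have h2 : 1 < (par g).p := hP.prime.one_lt
  have h3 : grd (List.replicate g true ++ false :: u, hh g, 2 ^ (8 * hh g ^ 16), hist) = true := by
    rw [grd]
    simp only [gOf_mk]
    rw [parOf_eq, Bool.and_eq_true, decide_eq_true_eq, decide_eq_true_eq]
    exact ⟨(min_le_left _ _).trans h1, h2⟩
  rw [msg, if_pos h3, msg0]
  simp only [gOf_mk, uOf_mk]
  rw [parOf_eq]

theorem pt_msg : PT msg := by
  have hg : PT (fun x : List Bool × ℕ × ℕ × List (List Bool × ℕ) => gOf x.1) := pt_gOf PT.fst
  have hu : PT (fun x : List Bool × ℕ × ℕ × List (List Bool × ℕ) => uOf x.1) := pt_uOf PT.fst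
  have h : PPT (fun x : List Bool × ℕ × ℕ × List (List Bool × ℕ) =>
      parOf (gOf x.1) x.2.1 x.2.2.1) := ppt_parOf hg PT.snd.fst' PT.snd.snd'.fst'
  have hgrd : PT grd :=
    PT.and (PT.le (pt_pw (PT.succ PT.snd.snd'.fst') (PT.add h.K h.c)) PT.snd.snd'.fst')
      (PT.lt (PT.const 1) h.p)
  have h0 : PT (fun x : {x : List Bool × ℕ × ℕ × List (List Bool × ℕ) // grd x = true} =>
      msg0 x.1) := by
    have hv : PT (fun x : {x : List Bool × ℕ × ℕ × List (List Bool × ℕ) // grd x = true} =>
        x.1) := PT.val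
    have h' := h.comp hv
    have hu' := hu.comp hv
    have hbig : ∀ x : {x : List Bool × ℕ × ℕ × List (List Bool × ℕ) // grd x = true},
        2 ^ ((parOf (gOf x.1.1) x.1.2.1 x.1.2.2.1).K + (parOf (gOf x.1.1) x.1.2.1 x.1.2.2.1).c) ≤
          x.1.2.2.1 ∧ 1 < (parOf (gOf x.1.1) x.1.2.1 x.1.2.2.1).p := by
      rintro ⟨x, hx⟩
      rw [grd, Bool.and_eq_true, decide_eq_true_eq, decide_eq_true_eq, pw] at hx
      refine ⟨?_, hx.2⟩
      rcases min_le_iff.mp hx.1 with h1 | h1
      · exact h1
      · omega
    have hNB : NB (fun x : {x : List Bool × ℕ × ℕ × List (List Bool × ℕ) // grd x = true} =>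
        x.1.2.2.1) := NB.of_pt (PT.snd.snd'.fst'.comp hv)
    have hK : NB (fun x : {x : List Bool × ℕ × ℕ × List (List Bool × ℕ) // grd x = true} =>
        2 ^ (parOf (gOf x.1.1) x.1.2.1 x.1.2.2.1).K) := hNB.le (fun x =>
          (Nat.pow_le_pow_right (by norm_num) (by omega)).trans (hbig x).1)
    have hc : NB (fun x : {x : List Bool × ℕ × ℕ × List (List Bool × ℕ) // grd x = true} =>
        2 ^ (parOf (gOf x.1.1) x.1.2.1 x.1.2.2.1).c) := hNB.le (fun x =>
          (Nat.pow_le_pow_right (by norm_num) (by omega)).trans (hbig x).1)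
    have hview := pt_viewOf h' hK hc (PT.snd.snd'.snd'.comp hv)
    exact PT.append (pt_tst h' (fun x => (hbig x).2) hu' hview false)
      (pt_tst h' (fun x => (hbig x).2) hu' hview true)
  refine PT.cond' (c := grd) (f := msg) hgrd ?_ ?_
  · exact h0.congr (fun x => by rw [msg, if_pos x.2])
  · refine (PT.const ([] : List (List Bool))).congr (fun x => ?_)
    have hx : ¬ (grd x.1 = true) := by rw [x.2]; exact Bool.false_ne_true
    rw [msg, if_neg hx]

end Pool.Agent.Lib.MP_33f9c4_lc.LK
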