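import Pool.Agent.Lib.MP_33f9c4_lc.K.Red

/-!
# MODULE Rd. What the programs read

`rd P u j` = the set of the entries of table `j` which `u` reads. For a coarse program (`u.length ≤ R`):
the lists of length `n - j + 1` which begin with `binw r (u.length - 1) ++ u`. For a fine program, with
`k = u.length - R - 1`: the lists `e` of length `n - j + 1` with
`(e.drop (W k)).take (u.length + w) = u ++ replicate w false`. (Induction on the template: `mat` of
`replicate m none ++ T` is `mat T` of `drop m` (if the lengths fit), `mat` of `v.map some ++ T` says that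
`v` is a prefix and `mat T` of the rest; `Bl.card_bl_add`, `card_prefix`.)
-/

namespace Pool.Agent.Lib.MP_33f9c4_lc.LK

open Finset

theorem mat_length {T : List (Option Bool)} {e : List Bool} (h : mat T e = true) :
    e.length = T.length := by
  induction T generalizing e with
  | nil =>
    cases e with
    | nil => rfl
    | cons b e => simp [mat] at h
  | cons o T ih =>
    cases e with
    | nil => cases o <;> simp [mat] at h
    | cons b e =>
      cases o with
      | none =>
        simp only [mat] at h
        simp [ih h]
      | some c =>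
        simp only [mat, Bool.and_eq_true] at h
        simp [ih h.2]

theorem mem_reads (P : Par) (u : List Bool) (j : ℕ) (e : List Bool) :
    (j, e) ∈ reads P u ↔ P.l ≤ j ∧ j ≤ jhi P u ∧ e.length = P.n - j + 1 ∧
      mat (tmpl P u j) e = true := by
  unfold reads
  simp only [List.mem_flatMap, List.mem_range'_1, List.mem_map, List.mem_filter, mem_allL,
    Prod.mk.injEq]
  constructor
  · rintro ⟨j', ⟨h1, h2⟩, e', ⟨h3, h4⟩, rfl, rfl⟩
    exact ⟨h1, by omega, h3, h4⟩
  · rintro ⟨h1, h2, h3, h4⟩
    exact ⟨j, ⟨h1, by omega⟩, e, ⟨h3, h4⟩, rfl, rfl⟩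

theorem nodup_reads (P : Par) (u : List Bool) : (reads P u).Nodup := by
  unfold reads
  rw [List.nodup_flatMap]
  constructor
  · intro j _
    apply List.Nodup.map
    · intro a b hab
      exact (Prod.mk.inj hab).2
    · exact (nodup_allL _).filter _
  · have h := List.nodup_range' (s := P.l) (n := jhi P u + 1 - P.l) (step := 1) (by norm_num)
    refine List.Pairwise.imp ?_ h
    intro a b hab
    simp only [Function.onFun, List.disjoint_left, List.mem_map, not_exists, not_and]
    rintro _ ⟨e, _, rfl⟩ e' _ he
    exact hab (Prod.mk.inj he).1.symm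

theorem mat_some (v : List Bool) (T : List (Option Bool)) (e : List Bool) :
    mat (v.map some ++ T) e = true ↔ v <+: e ∧ mat T (e.drop v.length) = true := by
  induction v generalizing e with
  | nil => simp
  | cons c v ih =>
    cases e with
    | nil => simp [mat]
    | cons b e =>
      simp only [List.map_cons, List.cons_append, mat, Bool.and_eq_true, ih, List.length_cons,
        List.drop_succ_cons, List.cons_prefix_cons, beq_iff_eq]
      tauto

theorem mat_none (m : ℕ) (T : List (Option Bool)) (e : List Bool) (h : m ≤ e.length) :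
    mat (List.replicate m none ++ T) e = true ↔ mat T (e.drop m) = true := by
  induction m generalizing e with
  | zero => simp
  | succ m ih =>
    cases e with
    | nil => simp at h
    | cons b e =>
      simp only [List.replicate_succ, List.cons_append, mat, List.drop_succ_cons]
      exact ih e (by simpa using h)

theorem mat_none_all (m : ℕ) (e : List Bool) :
    mat (List.replicate m none) e = true ↔ e.length = m := by
  constructor
  · intro h
    simpa using mat_length h
  · intro h
    have := (mat_none m [] e (by omega)).mpr (by rw [List.drop_eq_nil_of_le (by omega)]; rfl)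
    simpa using this

theorem Good.q_pos {P : Par} (hP : P.Good) : 8000 * P.R ≤ P.q := by
  have h3 := hP.h3
  have : 1 ≤ 2 ^ P.w := Nat.one_le_two_pow
  calc 8000 * P.R = 8000 * (P.R * 1) := by ring
    _ ≤ 8000 * (P.R * 2 ^ P.w) := by gcongr
    _ ≤ P.q := h3

theorem Good.R_pos {P : Par} (hP : P.Good) : 1 ≤ P.R := by
  rw [hP.hR]; exact Nat.one_le_two_pow

theorem Good.r_lt {P : Par} (hP : P.Good) : P.r < P.R := by
  rw [hP.hR]; exact Nat.lt_two_pow_self

theorem Good.qW {P : Par} (hP : P.Good) : 8000 * P.R ≤ P.q * P.W := by
  have h := Good.q_pos hP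
  have h4 := hP.h4
  have hR := Good.R_pos hP
  have : 1 ≤ P.W := by omega
  calc 8000 * P.R ≤ P.q * 1 := by omega
    _ ≤ P.q * P.W := by gcongr

theorem len_coarse {P : Par} (hP : P.Good) {j : ℕ} (hj : j ≤ P.jF) :
    P.r + P.R ≤ P.n - j + 1 := by
  have h := Good.qW hP
  have h5 := hP.h5
  have hR := Good.R_pos hP
  have hr := Good.r_lt hP
  unfold Par.jF at hj
  omega

theorem len_fine {P : Par} (hP : P.Good) {u : List Bool} (hu : P.R < u.length)
    (hu' : u.length ≤ P.R + P.q) {j : ℕ} (hj : j ≤ P.jM) :
    P.W * (u.length - P.R - 1) + u.length + P.w ≤ P.n - j + 1 := by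
  have h5 := hP.h5
  have h4 := hP.h4
  unfold Par.jM at hj
  have h : P.W * (u.length - P.R - 1) + P.W ≤ P.q * P.W := by
    calc P.W * (u.length - P.R - 1) + P.W = P.W * (u.length - P.R - 1 + 1) := by ring
      _ ≤ P.W * P.q := by
        apply Nat.mul_le_mul_left
        omega
      _ = P.q * P.W := by ring
  omega

/-- the entries which the coarse program `u` reads -/
theorem mat_coarse {P : Par} (hP : P.Good) {u : List Bool} (hu : u.length ≤ P.R) {j : ℕ}
    (hj : j ≤ P.jF) {e : List Bool} (he : e.length = P.n - j + 1) :
    mat (tmpl P u j) e = true ↔ (binw P.r (u.length - 1) ++ u) <+: e := by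
  have hlen := len_coarse hP hj
  unfold tmpl
  rw [if_pos hu, ← List.map_append, mat_some, mat_none_all]
  simp only [List.length_append, length_binw, List.length_drop]
  constructor
  · exact fun h => h.1
  · exact fun h => ⟨h, by omega⟩

/-- the entries which the fine program `u` reads -/
theorem mat_fine {P : Par} (hP : P.Good) {u : List Bool} (hu : P.R < u.length)
    (hu' : u.length ≤ P.R + P.q) {j : ℕ} (hj : j ≤ P.jM) {e : List Bool}
    (he : e.length = P.n - j + 1) :
    mat (tmpl P u j) e = true ↔
      (e.drop (P.W * (u.length - P.R - 1))).take (u.length + P.w) =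
        u ++ List.replicate P.w false := by
  have hlen := len_fine hP hu hu' hj
  unfold tmpl
  rw [if_neg (by omega)]
  have h1 : List.replicate (P.W * (u.length - P.R - 1)) none ++ u.map some ++
      List.replicate P.w (some false) ++
      List.replicate (P.n - j + 1 - P.W * (u.length - P.R - 1) - u.length - P.w) none =
      List.replicate (P.W * (u.length - P.R - 1)) none ++
        ((u ++ List.replicate P.w false).map some ++
      List.replicate (P.n - j + 1 - P.W * (u.length - P.R - 1) - u.length - P.w) none) := by
    simp
  rw [h1, mat_none _ _ _ (by omega), mat_some, mat_none_all]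
  simp only [List.length_append, List.length_drop, List.length_replicate]
  have h2 : (u ++ List.replicate P.w false).length = u.length + P.w := by simp
  constructor
  · rintro ⟨h, _⟩
    rw [List.prefix_iff_eq_take, h2] at h
    exact h.symm
  · intro h
    refine ⟨?_, by omega⟩
    rw [List.prefix_iff_eq_take, h2]
    exact h.symm

/-- the coarse program which reads the fast entry `e` -/
def own (P : Par) (e : List Bool) : List Bool :=
  (e.drop P.r).take (bv (e.take P.r) + 1)

theorem bv_take_lt {P : Par} (hP : P.Good) (e : List Bool) : bv (e.take P.r) < P.R := by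
  have h := bv_lt (e.take P.r)
  have h2 : (e.take P.r).length ≤ P.r := by simp
  rw [hP.hR]
  exact lt_of_lt_of_le h (Nat.pow_le_pow_right (by norm_num) h2)

theorem own_length {P : Par} (hP : P.Good) {j : ℕ} {e : List Bool} (hj' : j ≤ P.jF)
    (he : e.length = P.n - j + 1) :
    (own P e).length = bv (e.take P.r) + 1 ∧ (own P e).length ≤ P.R := by
  have hlen := len_coarse hP hj'
  have hb := bv_take_lt hP e
  have h : (own P e).length = bv (e.take P.r) + 1 := by
    unfold own
    rw [List.length_take, List.length_drop]
    omega
  exact ⟨h, by omega⟩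

/-- every fast entry is read by exactly one coarse program -/
theorem mem_reads_coarse {P : Par} (hP : P.Good) {u : List Bool} (hu : 1 ≤ u.length)
    (hu' : u.length ≤ P.R) {j : ℕ} {e : List Bool} (hj : P.l ≤ j) (hj' : j ≤ P.jF)
    (he : e.length = P.n - j + 1) : (j, e) ∈ reads P u ↔ own P e = u := by
  have hlen := len_coarse hP hj'
  have hjhi : jhi P u = P.jF := by unfold jhi; rw [if_pos hu']
  rw [mem_reads, hjhi, mat_coarse hP hu' hj' he]
  have hb := bv_take_lt hP e
  have htl : (e.take P.r).length = P.r := by rw [List.length_take]; omega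
  constructor
  · rintro ⟨_, _, _, h⟩
    obtain ⟨t, rfl⟩ := h
    have h1 : (binw P.r (u.length - 1) ++ u ++ t).take P.r = binw P.r (u.length - 1) := by
      rw [List.append_assoc, List.take_append_of_le_length (by rw [length_binw])]
      rw [List.take_of_length_le (by rw [length_binw])]
    have h2 : (binw P.r (u.length - 1) ++ u ++ t).drop P.r = u ++ t := by
      rw [List.append_assoc]
      exact List.drop_left' (length_binw _ _)
    unfold own
    rw [h1, h2, bv_binw, Nat.mod_eq_of_lt (by rw [← hP.hR]; omega)]
    rw [List.take_append_of_le_length (by omega), List.take_of_length_le (by omega)]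
  · intro h
    refine ⟨hj, hj', he, ?_⟩
    have hol := (own_length hP hj' he).1
    rw [h] at hol
    have h3 : binw P.r (u.length - 1) = e.take P.r := by
      have := binw_bv (e.take P.r)
      rw [htl] at this
      rw [← this]
      congr 1
      omega
    rw [h3, ← h]
    unfold own
    refine ⟨(e.drop P.r).drop (bv (e.take P.r) + 1), ?_⟩
    rw [List.append_assoc, List.take_append_drop, List.take_append_drop]

/-- number of entries of table `j` read by a program -/
theorem card_mat_coarse {P : Par} (hP : P.Good) {u : List Bool} (hu : u.length ≤ P.R) {j : ℕ}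
    (hj : j ≤ P.jF) :
    #{e ∈ bl (P.n - j + 1) | mat (tmpl P u j) e = true} = 2 ^ (P.n - j + 1 - P.r - u.length) := by
  have hlen := len_coarse hP hj
  have h1 : ({e ∈ bl (P.n - j + 1) | mat (tmpl P u j) e = true} : Finset (List Bool)) =
      {e ∈ bl (P.n - j + 1) | (binw P.r (u.length - 1) ++ u) <+: e} := by
    apply Finset.filter_congr
    intro e he
    exact mat_coarse hP hu hj (mem_bl.mp he)
  have h2 : (binw P.r (u.length - 1) ++ u).length = P.r + u.length := by
    rw [List.length_append, length_binw]
  rw [h1, card_prefix _ _ (by omega), h2]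
  congr 1
  omega

theorem card_mat_fine {P : Par} (hP : P.Good) {u : List Bool} (hu : P.R < u.length)
    (hu' : u.length ≤ P.R + P.q) {j : ℕ} (hj : j ≤ P.jM) :
    #{e ∈ bl (P.n - j + 1) | mat (tmpl P u j) e = true} = 2 ^ (P.n - j + 1 - u.length - P.w) := by
  have hlen := len_fine hP hu hu' hj
  set A := P.W * (u.length - P.R - 1) with hA
  set v := u ++ List.replicate P.w false with hv
  have hvl : v.length = u.length + P.w := by rw [hv]; simp
  obtain ⟨b, hb⟩ : ∃ b, P.n - j + 1 = A + b := ⟨P.n - j + 1 - A, by omega⟩
  have h1 : ({e ∈ bl (P.n - j + 1) | mat (tmpl P u j) e = true} : Finset (List Bool)) =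
      {e ∈ bl (A + b) | True ∧ v <+: e.drop A} := by
    rw [← hb]
    apply Finset.filter_congr
    intro e he
    rw [mat_fine hP hu hu' hj (mem_bl.mp he), List.prefix_iff_eq_take, hvl, true_and]
    exact eq_comm
  have h2 := card_bl_add A b (fun _ => True) (fun y => v <+: y)
  rw [h1, h2, Finset.filter_true, card_bl, card_prefix _ _ (by omega), ← pow_add, hvl]
  congr 1
  omega

/-- number of entries read by a fine program: at most `2 ^ (n + 2 - l - |u| - w)` -/
theorem length_reads_fine {P : Par} (hP : P.Good) {u : List Bool} (hu : P.R < u.length)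
    (hu' : u.length ≤ P.R + P.q) :
    (reads P u).length * 2 ^ (P.l + u.length + P.w) ≤ 2 ^ (P.n + 2) := by
  have hjhi : jhi P u = P.jM := by unfold jhi; rw [if_neg (by omega)]
  have h5 := hP.h5
  have hn : P.jM + 0 ≤ P.n := by unfold Par.jM; omega
  have hlen0 := len_fine hP hu hu' (le_refl P.jM)
  -- the length of one table
  have hone : ∀ j, j ≤ P.jM → (((allL (P.n - j + 1)).filter (mat (tmpl P u j))).map
      fun e => (j, e)).length = 2 ^ (P.n - j + 1 - u.length - P.w) := by
    intro j hj
    rw [List.length_map, ← List.countP_eq_length_filter, countP_allL,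
      card_mat_fine hP hu hu' hj]
  -- the sum over a range of tables
  have key : ∀ m, P.l + m ≤ P.jM + 1 →
      ((List.range' P.l m).map fun j => (((allL (P.n - j + 1)).filter (mat (tmpl P u j))).map
      fun e => (j, e)).length).sum * 2 ^ (P.l + u.length + P.w) + 2 ^ (P.n + 2 - m) ≤
        2 ^ (P.n + 2) := by
    intro m
    induction m with
    | zero => intro _; simp
    | succ m ih =>
      intro hm
      have ih' := ih (by omega)
      rw [List.range'_1_concat, List.map_append, List.sum_append, List.map_cons, List.map_nil,
        List.sum_cons, List.sum_nil, hone _ (by omega)]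
      have e1 : 2 ^ (P.n - (P.l + m) + 1 - u.length - P.w) * 2 ^ (P.l + u.length + P.w) =
          2 ^ (P.n + 2 - (m + 1)) := by
        rw [← pow_add]
        congr 1
        omega
      have e2 : 2 ^ (P.n + 2 - m) = 2 ^ (P.n + 2 - (m + 1)) + 2 ^ (P.n + 2 - (m + 1)) := by
        have : P.n + 2 - m = (P.n + 2 - (m + 1)) + 1 := by omega
        rw [this, pow_succ]
        ring
      rw [add_zero, add_mul, e1]
      rw [e2] at ih'
      omega
  unfold reads
  rw [hjhi, List.length_flatMap]
  rcases le_or_gt P.l (P.jM + 1) with hl | hl
  · have h := key (P.jM + 1 - P.l) (by omega)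
    exact le_trans (Nat.le_add_right _ _) h
  · have : P.jM + 1 - P.l = 0 := by omega
    rw [this]
    simp

end Pool.Agent.Lib.MP_33f9c4_lc.LK
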