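import Pool.Agent.Lib.MP_33f9c4_lc.K.HashT
import Pool.Agent.Lib.MP_33f9c4_lc.K.LSize
import Pool.Agent.Lib.MP_33f9c4_lc.K.Itp
import Pool.Agent.Lib.MP_33f9c4_lc.K.Rd

/-!
# MODULE OkZ. Lemma L: few values are listed; the number of points

`card_okZ`. Let `J` be the set of the `z < p` with `okZ`, suppose `#J ≥ 2^s t`; take a subset `J` of exactly
`m = 2^s t` elements (`m ≥ t`). Apply `lsize` with `Ω = bl K`, `S = {y : inS pre al y}`, `A z = {y : inZ pre s al z y}`,
`W y` = the weight of `y` in the view (a number `≤ 2^c`), `C = 2^c`, `θ = 8t`,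
`M = max = ⌊2 * 2^(K - |pre|) (θ_s)^t / p^(t+1)⌋`-type bound, `θ_s = thr p s`: by card_hash_le and card_bl_add
(`y = pre ++ y0 ++ rest`, `|y0| = K0`), `#{y : ∀ i ∈ I, inZ ..} * p^(t+1) ≤ 2 * 2^(K-|pre|) * θ_s^t`, and
`2^s θ_s < p + 2^s ≤ 2p` (h8: `2^s ≤ p`), so `#{..} ≤ 2^(K-|pre|+1) (2^(1-s))^t / p`. With
`(m choose t)/(8t choose t) ≤ (m/7t)^t = (2^s/7)^t`:
`∑_{z ∈ J} msum z ≤ 8t musum + 8t 2^c 2^(K-|pre|+1) (2/7)^t / p`.
Every `msum z ≥ 64 musum / 2^s` and `≥ 2^(K+c-|pre|-s-a)/p`. Summing: `m μ ≤ ...`: let `μ0 = min msum`,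
`2^s t μ0 ≤ 8t musum + ...`, `musum ≤ 2^s μ0/64`: `2^s t μ0 (1 - 1/8) ≤ 8t 2^(K+c-|pre|+1) (2/7)^t/p`, so
`μ0 ≤ 2^(K+c-|pre|-s+6) (2/7)^t/p < 2^(K+c-|pre|-s-a)/p` as `2^(a+6) (2/7)^t < 1` (h7: `t ≥ a + 8`).
Contradiction. (In the view the list of all `y` is `allL K`, so `msum = ∑ y ∈ bl K, ...` by sum_allL.)

`length_pts`: the listed points: at most `p * (number of slots) * 2^s t`, and the number of slots of
the fine programs is `∑_{k<q} 2^(R+1+k) ≤ 2^(R+1+q)` (every `y.take (R+1+k)`), `s` there is `P.s`; for the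
coarse slots (`i < R`): `∑_{i<R} 2^(i+1+s) t ≤ 2^(R+1+s) t`. Then h10.
-/

namespace Pool.Agent.Lib.MP_33f9c4_lc.LK

open Finset

/-- a valid slot -/
def Slot (P : Par) (pre : List Bool) (s : ℕ) : Prop :=
  pre.length + P.K0 ≤ P.K ∧ s ≤ P.R + P.s ∧ pre.length + s ≤ P.R + P.q + P.s + 1

/-- splitting off the prefix and the bits after the hashed ones -/
theorem okz_card_slot (P : Par) (pre : List Bool) (h : pre.length + P.K0 ≤ P.K)
    (Q : List Bool → Prop) [DecidablePred Q]
    (hQ : ∀ y z : List Bool, y.length = P.K0 → (Q (y ++ z) ↔ Q y)) :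
    #{y ∈ bl P.K | pre <+: y ∧ Q (y.drop pre.length)} =
      #{y ∈ bl P.K0 | Q y} * 2 ^ (P.K - pre.length - P.K0) := by
  obtain ⟨d, hd⟩ : ∃ d, P.K = pre.length + (P.K0 + d) := ⟨P.K - pre.length - P.K0, by omega⟩
  have h1 : #{y ∈ bl P.K | pre <+: y ∧ Q (y.drop pre.length)} =
      #{y ∈ bl (pre.length + (P.K0 + d)) | (y.take pre.length = pre) ∧
        Q (y.drop pre.length)} := by
    rw [hd]
    congr 1
    apply Finset.filter_congr
    intro y _
    rw [List.prefix_iff_eq_take, eq_comm (a := pre)]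
  have h2 := card_bl_add pre.length (P.K0 + d) (fun y => y = pre) Q
  have h3 : #{u ∈ bl pre.length | u = pre} = 1 := by
    rw [Finset.card_eq_one]
    refine ⟨pre, ?_⟩
    ext y
    simp only [Finset.mem_filter, mem_bl, Finset.mem_singleton]
    constructor
    · exact fun hy => hy.2
    · rintro rfl; exact ⟨rfl, rfl⟩
  have h4 : #{v ∈ bl (P.K0 + d) | Q v} = #{v ∈ bl P.K0 | Q v} * 2 ^ d := by
    have h5 := card_bl_add P.K0 d Q (fun _ => True)
    rw [Finset.filter_true, card_bl] at h5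
    rw [← h5]
    congr 1
    apply Finset.filter_congr
    intro y hy
    have hy' := mem_bl.mp hy
    have h6 := hQ (y.take P.K0) (y.drop P.K0) (by rw [List.length_take]; omega)
    rw [List.take_append_drop] at h6
    rw [h6, and_true]
  have h7 : P.K - pre.length - P.K0 = d := by omega
  rw [h1, h2, h3, h4, h7, one_mul]

/-- the weight of `y` in the view of `u` -/
def okzW (P : Par) (T : Tab) (u y : List Bool) : ℕ :=
  min (2 ^ P.c) (cnt P T u y / 2 ^ (P.n - P.K - P.c))

theorem okz_wv_le (P : Par) (T : Tab) (u y : List Bool) : okzW P T u y ≤ 2 ^ P.c := min_le_left _ _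

theorem okz_view_sum (P : Par) (T : Tab) (u : List Bool) (f : List Bool → Bool) :
    ((view P T u).map fun x => if f x.1 then x.2 else 0).sum =
      ∑ y ∈ bl P.K with f y = true, okzW P T u y := by
  unfold view
  rw [List.map_map]
  have h := sum_allL P.K (fun y => if f y then okzW P T u y else 0)
  rw [Finset.sum_filter, ← h]
  rfl

theorem okz_msum_view (P : Par) (T : Tab) (u pre : List Bool) (s al z : ℕ) :
    msum P (view P T u) pre s al z =
      ∑ y ∈ bl P.K with inZ P pre s al z y = true, okzW P T u y :=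
  okz_view_sum P T u (inZ P pre s al z)

theorem okz_musum_view (P : Par) (T : Tab) (u pre : List Bool) (al : ℕ) :
    musum P (view P T u) pre al =
      ∑ y ∈ bl P.K with inS P pre al y = true, okzW P T u y :=
  okz_view_sum P T u (inS P pre al)

/-- `t` values of the hash are all small: counting in a slot -/
theorem okz_card_slot_hash {P : Par} (hP : P.Good) {pre : List Bool} {s : ℕ} (hsl : Slot P pre s)
    {al : ℕ} (hal : al < P.p) {I : Finset ℕ} (hI : I ⊆ range P.p) (hIt : #I = P.t) :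
    #{y ∈ {y ∈ bl P.K | inS P pre al y = true} | ∀ z ∈ I, y ∈
        ({y ∈ bl P.K | inZ P pre s al z y = true} : Finset (List Bool))} * P.p ^ (P.t + 1) ≤
      2 * 2 ^ (P.K - pre.length) * thr P.p s ^ P.t := by
  classical
  set Q : List Bool → Prop := fun y => alp P y = al ∧ ∀ z ∈ I, hsh P y z < thr P.p s with hQ
  have h1 : ({y ∈ {y ∈ bl P.K | inS P pre al y = true} | ∀ z ∈ I, y ∈
        ({y ∈ bl P.K | inZ P pre s al z y = true} : Finset (List Bool))} : Finset (List Bool)) ⊆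
      {y ∈ bl P.K | pre <+: y ∧ Q (y.drop pre.length)} := by
    intro y hy
    simp only [Finset.mem_filter, inS, inZ, Bool.and_eq_true, List.isPrefixOf_iff_prefix,
      decide_eq_true_eq] at hy ⊢
    obtain ⟨⟨hy1, hy2, hy3⟩, hy4⟩ := hy
    exact ⟨hy1, hy2, hy3, fun z hz => (hy4 z hz).2.2⟩
  have h2 := okz_card_slot P pre hsl.1 Q (by
    intro y z hy
    simp only [hQ, alp_append P y z hy.ge, hsh_append P y z hy.ge])
  have h3 := card_hash_le P hP.prime hP.h9 al hal (fun i => (I.orderEmbOfFin hIt) i)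
    (fun i j hij => (I.orderEmbOfFin hIt).injective hij)
    (fun i => Finset.mem_range.mp (hI (Finset.orderEmbOfFin_mem I hIt i))) (thr P.p s)
    (thr_le_self _ _)
  have h4 : ({y ∈ bl P.K0 | Q y} : Finset (List Bool)) =
      {y ∈ bl P.K0 | alp P y = al ∧ ∀ i, hsh P y ((I.orderEmbOfFin hIt) i) < thr P.p s} := by
    apply Finset.filter_congr
    intro y _
    simp only [hQ]
    refine and_congr_right fun _ => ?_
    constructor
    · intro h i
      exact h _ (Finset.orderEmbOfFin_mem I hIt i)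
    · intro h z hz
      have : z ∈ Set.range (I.orderEmbOfFin hIt) := by
        rw [Finset.range_orderEmbOfFin]; exact hz
      obtain ⟨i, rfl⟩ := this
      exact h i
  have h5 : P.K - pre.length = P.K0 + (P.K - pre.length - P.K0) := by
    have := hsl.1
    omega
  calc #{y ∈ {y ∈ bl P.K | inS P pre al y = true} | ∀ z ∈ I, y ∈
        ({y ∈ bl P.K | inZ P pre s al z y = true} : Finset (List Bool))} * P.p ^ (P.t + 1)
      ≤ #{y ∈ bl P.K | pre <+: y ∧ Q (y.drop pre.length)} * P.p ^ (P.t + 1) :=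
        Nat.mul_le_mul_right _ (Finset.card_le_card h1)
    _ = (#{y ∈ bl P.K0 | alp P y = al ∧ ∀ i, hsh P y ((I.orderEmbOfFin hIt) i) <
          thr P.p s} * P.p ^ (P.t + 1)) * 2 ^ (P.K - pre.length - P.K0) := by
        rw [h2, h4]; ring
    _ ≤ (2 * 2 ^ P.K0 * thr P.p s ^ P.t) * 2 ^ (P.K - pre.length - P.K0) :=
        Nat.mul_le_mul_right _ h3
    _ = 2 * 2 ^ (P.K - pre.length) * thr P.p s ^ P.t := by
        conv_rhs => rw [h5, pow_add]
        ring

theorem card_okZ {P : Par} (hP : P.Good) (T : Tab) (v : List Bool) (pre : List Bool) (s : ℕ)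
    (hsl : Slot P pre s) (al : ℕ) (hal : al < P.p) :
    #{z ∈ range P.p | okZ P (view P T v) pre s al z = true} < 2 ^ s * P.t := by
  classical
  by_contra hcon
  push Not at hcon
  obtain ⟨J, hJsub, hJcard⟩ := Finset.exists_subset_card_eq hcon
  obtain ⟨hs1, hs2, hs3⟩ := hsl
  have h6 := hP.h6
  have h7 := hP.h7
  have h8 := hP.h8
  have h14 := hP.h14
  have ht : 1 ≤ P.t := by omega
  have hp0 : 0 < P.p := hP.prime.pos
  have hpR : (0 : ℝ) < P.p := by exact_mod_cast hp0
  have htR : (0 : ℝ) < P.t := by exact_mod_cast ht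
  -- the powers
  have hX : P.K + P.c - pre.length - s - P.a + s + P.a = P.K + P.c - pre.length := by omega
  have hpw1 : pw P.N s = 2 ^ s := pw_eq hP (by omega)
  have hpw2 : pw P.N (P.K + P.c - pre.length - s - P.a) =
      2 ^ (P.K + P.c - pre.length - s - P.a) := pw_eq hP (by omega)
  set ms : ℕ → ℕ := fun z => msum P (view P T v) pre s al z with hms
  set mu : ℕ := musum P (view P T v) pre al with hmu
  have hok : ∀ z ∈ J, z < P.p ∧ 64 * mu ≤ 2 ^ s * ms z ∧
      2 ^ (P.K + P.c - pre.length - s - P.a) ≤ P.p * ms z := by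
    intro z hz
    have h := hJsub hz
    simp only [Finset.mem_filter, Finset.mem_range, okZ, Bool.and_eq_true,
      decide_eq_true_eq, hpw1, hpw2] at h
    exact h
  -- application of lsize
  set S : Finset (List Bool) := {y ∈ bl P.K | inS P pre al y = true} with hS
  set A : ℕ → Finset (List Bool) := fun z => {y ∈ bl P.K | inZ P pre s al z y = true} with hA
  set M : ℝ := 2 * 2 ^ (P.K - pre.length) * (thr P.p s : ℝ) ^ P.t / (P.p : ℝ) ^ (P.t + 1) with hM
  have hlsize := lsize S (fun y => (okzW P T v y : ℝ)) (2 ^ P.c) (fun _ _ => by positivity)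
    (fun y _ => by exact_mod_cast okz_wv_le P T v y) (by positivity) J A
    (by
      intro z _ y hy
      simp only [hA, hS, Finset.mem_filter, inZ, Bool.and_eq_true] at hy ⊢
      exact ⟨hy.1, hy.2.1⟩) P.t (8 * P.t) ht (by omega) M
    (by
      intro I hIJ hIt
      have hIp : I ⊆ range P.p := fun z hz => Finset.mem_range.mpr (hok z (hIJ hz)).1
      have h := okz_card_slot_hash hP ⟨hs1, hs2, hs3⟩ hal hIp hIt
      rw [hM, le_div_iff₀ (by positivity)]
      exact_mod_cast h)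
  have hsum1 : ∑ z ∈ J, ∑ y ∈ A z, (okzW P T v y : ℝ) = ∑ z ∈ J, (ms z : ℝ) := by
    apply Finset.sum_congr rfl
    intro z _
    rw [hms]
    simp only [okz_msum_view]
    push_cast
    rfl
  have hsum2 : ∑ y ∈ S, (okzW P T v y : ℝ) = (mu : ℝ) := by
    rw [hmu, okz_musum_view]
    push_cast
    rfl
  have hquot := choose_quot P.t #J ht
  rw [hsum1, hsum2] at hlsize
  -- the bound for the second term
  have hthr : (thr P.p s : ℝ) * 2 ^ s ≤ 2 * P.p := by
    have h1 := thr_le P.p s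
    have h2 : 2 ^ s ≤ P.p := le_trans (Nat.pow_le_pow_right (by norm_num) hs2) h8
    have h3 : thr P.p s * 2 ^ s ≤ 2 * P.p := by nlinarith
    exact_mod_cast h3
  have hMC : M * ((#J).choose P.t : ℝ) / ((8 * P.t).choose P.t : ℝ) ≤
      2 * 2 ^ (P.K - pre.length) * (2 / 7) ^ P.t / P.p := by
    have hM0 : 0 ≤ M := by rw [hM]; positivity
    have hJ7 : ((#J : ℕ) : ℝ) / (7 * P.t) = 2 ^ s / 7 := by
      rw [hJcard]
      push_cast
      field_simp
    calc M * ((#J).choose P.t : ℝ) / ((8 * P.t).choose P.t : ℝ)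
        = M * (((#J).choose P.t : ℝ) / ((8 * P.t).choose P.t : ℝ)) := by ring
      _ ≤ M * ((#J : ℝ) / (7 * P.t)) ^ P.t := mul_le_mul_of_nonneg_left hquot hM0
      _ = 2 * 2 ^ (P.K - pre.length) * ((thr P.p s : ℝ) * 2 ^ s / 7) ^ P.t /
            (P.p : ℝ) ^ (P.t + 1) := by
          rw [hJ7, hM, div_pow, div_pow, mul_pow]
          ring
      _ ≤ 2 * 2 ^ (P.K - pre.length) * (2 * P.p / 7) ^ P.t / (P.p : ℝ) ^ (P.t + 1) := by
          gcongr
      _ = 2 * 2 ^ (P.K - pre.length) * (2 / 7) ^ P.t / P.p := by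
          have : (2 * (P.p : ℝ) / 7) ^ P.t = (2 / 7) ^ P.t * (P.p : ℝ) ^ P.t := by
            rw [← mul_pow]; congr 1; ring
          rw [this, pow_succ]
          field_simp
  have hup : ∑ z ∈ J, (ms z : ℝ) ≤ 8 * P.t * mu +
      16 * P.t * (2 ^ P.c * 2 ^ (P.K - pre.length)) * (2 / 7) ^ P.t / P.p := by
    refine le_trans hlsize ?_
    have e1 : ((8 * P.t : ℕ) : ℝ) * 2 ^ P.c * M * ((#J).choose P.t : ℝ) /
        ((8 * P.t).choose P.t : ℝ) = (8 * P.t * 2 ^ P.c) *
          (M * ((#J).choose P.t : ℝ) / ((8 * P.t).choose P.t : ℝ)) := by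
      push_cast; ring
    rw [e1]
    have e2 : (8 * P.t * 2 ^ P.c : ℝ) *
          (M * ((#J).choose P.t : ℝ) / ((8 * P.t).choose P.t : ℝ)) ≤
        (8 * P.t * 2 ^ P.c : ℝ) * (2 * 2 ^ (P.K - pre.length) * (2 / 7) ^ P.t / P.p) :=
      mul_le_mul_of_nonneg_left hMC (by positivity)
    have e3 : (8 * P.t * 2 ^ P.c : ℝ) * (2 * 2 ^ (P.K - pre.length) * (2 / 7) ^ P.t / P.p) =
        16 * P.t * (2 ^ P.c * 2 ^ (P.K - pre.length)) * (2 / 7) ^ P.t / P.p := by ring
    rw [e3] at e2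
    push_cast
    linarith
  -- lower bounds
  have hlow1 : 64 * P.t * (mu : ℝ) ≤ ∑ z ∈ J, (ms z : ℝ) := by
    have h1 : ∑ _z ∈ J, (64 * (mu : ℝ) / 2 ^ s) ≤ ∑ z ∈ J, (ms z : ℝ) := by
      apply Finset.sum_le_sum
      intro z hz
      rw [div_le_iff₀ (by positivity)]
      have := (hok z hz).2.1
      have h' : (64 * (mu : ℝ)) ≤ 2 ^ s * ms z := by exact_mod_cast this
      linarith
    rw [Finset.sum_const, hJcard, nsmul_eq_mul] at h1
    have h2 : ((2 ^ s * P.t : ℕ) : ℝ) * (64 * (mu : ℝ) / 2 ^ s) = 64 * P.t * mu := by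
      push_cast
      field_simp
    rw [h2] at h1
    exact h1
  have hlow2 : P.t * (2 ^ P.c * 2 ^ (P.K - pre.length)) / (2 ^ P.a * P.p) ≤
      ∑ z ∈ J, (ms z : ℝ) := by
    have h1 : ∑ _z ∈ J, ((2 : ℝ) ^ (P.K + P.c - pre.length - s - P.a) / P.p) ≤
        ∑ z ∈ J, (ms z : ℝ) := by
      apply Finset.sum_le_sum
      intro z hz
      rw [div_le_iff₀ hpR]
      have := (hok z hz).2.2
      have h' : (2 : ℝ) ^ (P.K + P.c - pre.length - s - P.a) ≤ P.p * ms z := by
        exact_mod_cast this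
      linarith
    rw [Finset.sum_const, hJcard, nsmul_eq_mul] at h1
    have h2 : ((2 ^ s * P.t : ℕ) : ℝ) * ((2 : ℝ) ^ (P.K + P.c - pre.length - s - P.a) / P.p) =
        P.t * (2 ^ P.c * 2 ^ (P.K - pre.length)) / (2 ^ P.a * P.p) := by
      have h3 : (2 : ℝ) ^ P.c * 2 ^ (P.K - pre.length) =
          2 ^ (P.K + P.c - pre.length - s - P.a) * 2 ^ s * 2 ^ P.a := by
        rw [← pow_add, ← pow_add, ← pow_add]
        congr 1
        omega
      rw [h3]
      push_cast
      field_simp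
    rw [h2] at h1
    exact h1
  -- the contradiction
  set Z : ℝ := P.t * (2 ^ P.c * 2 ^ (P.K - pre.length)) / P.p with hZ
  have hZ0 : 0 < Z := by rw [hZ]; positivity
  have h27 : (2 : ℝ) ^ P.a * (2 / 7) ^ P.t ≤ (2 / 7) ^ 8 := by
    obtain ⟨d, hd⟩ : ∃ d, P.t = P.a + 8 + d := ⟨P.t - (P.a + 8), by omega⟩
    rw [hd, pow_add, pow_add]
    have e1 : (2 : ℝ) ^ P.a * (2 / 7) ^ P.a ≤ 1 := by
      rw [← mul_pow]
      exact pow_le_one₀ (by norm_num) (by norm_num)
    have e2 : ((2 : ℝ) / 7) ^ d ≤ 1 := pow_le_one₀ (by norm_num) (by norm_num)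
    have e3 : (0 : ℝ) ≤ (2 / 7) ^ 8 := by positivity
    have e4 : (0 : ℝ) ≤ (2 / 7) ^ d := by positivity
    calc (2 : ℝ) ^ P.a * ((2 / 7) ^ P.a * (2 / 7) ^ 8 * (2 / 7) ^ d)
        = (2 : ℝ) ^ P.a * (2 / 7) ^ P.a * ((2 / 7) ^ 8 * (2 / 7) ^ d) := by ring
      _ ≤ 1 * ((2 / 7) ^ 8 * 1) := by gcongr
      _ = (2 / 7) ^ 8 := by ring
  have hup' : (7 / 8) * ∑ z ∈ J, (ms z : ℝ) ≤ 16 * Z * (2 / 7) ^ P.t := by
    have e : 16 * P.t * (2 ^ P.c * 2 ^ (P.K - pre.length)) * (2 / 7) ^ P.t / P.p =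
        16 * Z * (2 / 7) ^ P.t := by rw [hZ]; ring
    rw [e] at hup
    linarith
  have hlow' : Z ≤ 2 ^ P.a * ∑ z ∈ J, (ms z : ℝ) := by
    have e : P.t * (2 ^ P.c * 2 ^ (P.K - pre.length)) / (2 ^ P.a * (P.p : ℝ)) = Z / 2 ^ P.a := by
      rw [hZ]; field_simp
    rw [e, div_le_iff₀ (by positivity)] at hlow2
    linarith
  have hfin : (7 / 8) * Z ≤ 16 * Z * (2 / 7) ^ 8 := by
    calc (7 / 8) * Z ≤ (7 / 8) * (2 ^ P.a * ∑ z ∈ J, (ms z : ℝ)) := by linarith
      _ = 2 ^ P.a * ((7 / 8) * ∑ z ∈ J, (ms z : ℝ)) := by ring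
      _ ≤ 2 ^ P.a * (16 * Z * (2 / 7) ^ P.t) := by gcongr
      _ = 16 * Z * (2 ^ P.a * (2 / 7) ^ P.t) := by ring
      _ ≤ 16 * Z * (2 / 7) ^ 8 := by gcongr
  norm_num at hfin
  linarith

/-! ### The number of points -/

theorem okz_mem_prs {p : ℕ} {x : ℕ × ℕ} : x ∈ prs p ↔ x.1 < p ∧ x.2 < p := by
  unfold prs
  simp only [List.mem_flatMap, List.mem_range, List.mem_map]
  constructor
  · rintro ⟨a, ha, z, hz, rfl⟩
    exact ⟨ha, hz⟩
  · rintro ⟨h1, h2⟩
    exact ⟨x.1, h1, x.2, h2, rfl⟩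

theorem okz_nodup_prs (p : ℕ) : (prs p).Nodup := by
  unfold prs
  rw [List.nodup_flatMap]
  constructor
  · intro a _
    exact List.Nodup.map (fun x y hxy => (Prod.mk.inj hxy).2) List.nodup_range
  · refine List.Pairwise.imp ?_ (List.nodup_range (n := p))
    intro a b hab
    simp only [Function.onFun, List.disjoint_left, List.mem_map, not_exists, not_and]
    rintro _ ⟨z, _, rfl⟩ z' _ hz
    exact hab (Prod.mk.inj hz).1.symm

/-- the number of the pairs which are listed for a given slot -/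
theorem okz_card_slot_pts {P : Par} (hP : P.Good) (T : Tab) (v : List Bool) (pre : List Bool) (s : ℕ)
    (hsl : Slot P pre s) :
    #{x ∈ (prs P.p).toFinset | okZ P (view P T v) pre s x.1 x.2 = true} ≤
      P.p * (2 ^ s * P.t) := by
  classical
  have h1 : ({x ∈ (prs P.p).toFinset | okZ P (view P T v) pre s x.1 x.2 = true} :
      Finset (ℕ × ℕ)) ⊆ (range P.p).biUnion fun al =>
        ({z ∈ range P.p | okZ P (view P T v) pre s al z = true}).image fun z => (al, z) := by
    intro x hx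
    simp only [Finset.mem_filter, List.mem_toFinset, okz_mem_prs, Finset.mem_biUnion,
      Finset.mem_range, Finset.mem_image] at hx ⊢
    exact ⟨x.1, hx.1.1, x.2, ⟨hx.1.2, hx.2⟩, rfl⟩
  refine le_trans (Finset.card_le_card h1) ?_
  refine le_trans Finset.card_biUnion_le ?_
  calc ∑ al ∈ range P.p, #(({z ∈ range P.p | okZ P (view P T v) pre s al z = true}).image
        fun z => (al, z))
      ≤ ∑ _al ∈ range P.p, 2 ^ s * P.t := by
        apply Finset.sum_le_sum
        intro al hal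
        exact le_trans Finset.card_image_le
          (card_okZ hP T v pre s hsl al (Finset.mem_range.mp hal)).le
    _ = P.p * (2 ^ s * P.t) := by rw [Finset.sum_const, Finset.card_range, smul_eq_mul]

theorem okz_sum_two_pow_le (k m : ℕ) : ∑ i ∈ range m, 2 ^ (k + i) ≤ 2 ^ (k + m) := by
  induction m with
  | zero => simp
  | succ m ih =>
    rw [Finset.sum_range_succ]
    have : 2 ^ (k + (m + 1)) = 2 ^ (k + m) + 2 ^ (k + m) := by
      rw [← add_assoc, pow_succ]; ring
    omega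

theorem length_ptsC {P : Par} (hP : P.Good) (T : Tab) (v : List Bool) (ch : Bool) :
    (ptsC P (view P T v) ch).length ≤ P.p * 2 ^ P.B := by
  classical
  have h13 := hP.h13
  have h10 := hP.h10
  have hnd : (ptsC P (view P T v) ch).Nodup := (okz_nodup_prs P.p).filter _
  rw [← List.toFinset_card_of_nodup hnd]
  have h1 : (ptsC P (view P T v) ch).toFinset ⊆ (range P.q).biUnion fun k =>
      (bl (P.R + 1 + k)).biUnion fun u =>
        {x ∈ (prs P.p).toFinset | okZ P (view P T v) (u ++ [ch]) P.s x.1 x.2 = true} := by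
    intro x hx
    simp only [ptsC, List.mem_toFinset, List.mem_filter, List.any_eq_true, List.mem_range] at hx
    obtain ⟨hx1, k, hk, y, hy, hok⟩ := hx
    simp only [Finset.mem_biUnion, Finset.mem_range, Finset.mem_filter, List.mem_toFinset]
    refine ⟨k, hk, y.1.take (P.R + 1 + k), ?_, hx1, hok⟩
    have hyl : y.1.length = P.K := by
      unfold view at hy
      rw [List.mem_map] at hy
      obtain ⟨y', hy', rfl⟩ := hy
      exact (mem_allL _ _).mp hy'
    rw [mem_bl, List.length_take]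
    omega
  refine le_trans (Finset.card_le_card h1) (le_trans Finset.card_biUnion_le ?_)
  calc ∑ k ∈ range P.q, #((bl (P.R + 1 + k)).biUnion fun u =>
        {x ∈ (prs P.p).toFinset | okZ P (view P T v) (u ++ [ch]) P.s x.1 x.2 = true})
      ≤ ∑ k ∈ range P.q, 2 ^ (P.R + 1 + k) * (P.p * (2 ^ P.s * P.t)) := by
        apply Finset.sum_le_sum
        intro k hk
        have hk' := Finset.mem_range.mp hk
        refine le_trans Finset.card_biUnion_le ?_
        rw [← card_bl, ← smul_eq_mul, ← Finset.sum_const]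
        apply Finset.sum_le_sum
        intro u hu
        have hu' := mem_bl.mp hu
        apply okz_card_slot_pts hP
        refine ⟨?_, by omega, ?_⟩ <;> rw [List.length_append, List.length_singleton] <;> omega
    _ = (∑ k ∈ range P.q, 2 ^ (P.R + 1 + k)) * (P.p * (2 ^ P.s * P.t)) := by
        rw [Finset.sum_mul]
    _ ≤ 2 ^ (P.R + 1 + P.q) * (P.p * (2 ^ P.s * P.t)) :=
        Nat.mul_le_mul_right _ (okz_sum_two_pow_le _ _)
    _ = P.p * (2 ^ (P.R + P.q + 1 + P.s) * P.t) := by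
        have : P.R + P.q + 1 + P.s = (P.R + 1 + P.q) + P.s := by ring
        rw [this, pow_add]
        ring
    _ ≤ P.p * 2 ^ P.B := Nat.mul_le_mul_left _ h10

theorem length_ptsF {P : Par} (hP : P.Good) (T : Tab) (v : List Bool) (ch : Bool) :
    (ptsF P (view P T v) ch).length ≤ P.p * 2 ^ P.B := by
  classical
  have h13 := hP.h13
  have h10 := hP.h10
  have hnd : (ptsF P (view P T v) ch).Nodup := (okz_nodup_prs P.p).filter _
  rw [← List.toFinset_card_of_nodup hnd]
  have h1 : (ptsF P (view P T v) ch).toFinset ⊆ (range P.R).biUnion fun i =>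
        {x ∈ (prs P.p).toFinset | okZ P (view P T v) [ch] (i + 1 + P.s) x.1 x.2 = true} := by
    intro x hx
    simp only [ptsF, List.mem_toFinset, List.mem_filter, List.any_eq_true, List.mem_range] at hx
    obtain ⟨hx1, i, hi, hok⟩ := hx
    simp only [Finset.mem_biUnion, Finset.mem_range, Finset.mem_filter, List.mem_toFinset]
    exact ⟨i, hi, hx1, hok⟩
  refine le_trans (Finset.card_le_card h1) (le_trans Finset.card_biUnion_le ?_)
  calc ∑ i ∈ range P.R,
        #({x ∈ (prs P.p).toFinset | okZ P (view P T v) [ch] (i + 1 + P.s) x.1 x.2 = true})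
      ≤ ∑ i ∈ range P.R, 2 ^ (P.s + 1 + i) * (P.p * P.t) := by
        apply Finset.sum_le_sum
        intro i hi
        have hi' := Finset.mem_range.mp hi
        have h2 := okz_card_slot_pts hP T v [ch] (i + 1 + P.s) (by
          refine ⟨?_, by omega, ?_⟩ <;> rw [List.length_singleton] <;> omega)
        refine le_trans h2 (le_of_eq ?_)
        have : i + 1 + P.s = P.s + 1 + i := by ring
        rw [this]
        ring
    _ = (∑ i ∈ range P.R, 2 ^ (P.s + 1 + i)) * (P.p * P.t) := by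
        rw [Finset.sum_mul]
    _ ≤ 2 ^ (P.s + 1 + P.R) * (P.p * P.t) := Nat.mul_le_mul_right _ (okz_sum_two_pow_le _ _)
    _ ≤ 2 ^ (P.R + P.q + 1 + P.s) * (P.p * P.t) := by
        apply Nat.mul_le_mul_right
        exact Nat.pow_le_pow_right (by norm_num) (by omega)
    _ = P.p * (2 ^ (P.R + P.q + 1 + P.s) * P.t) := by ring
    _ ≤ P.p * 2 ^ P.B := Nat.mul_le_mul_left _ h10

theorem ptsC_lt {P : Par} {L : List (List Bool × ℕ)} {ch : Bool} {x : ℕ × ℕ}
    (hx : x ∈ ptsC P L ch) : x.1 < P.p ∧ x.2 < P.p := by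
  unfold ptsC at hx
  exact okz_mem_prs.mp (List.mem_of_mem_filter hx)

theorem ptsF_lt {P : Par} {L : List (List Bool × ℕ)} {ch : Bool} {x : ℕ × ℕ}
    (hx : x ∈ ptsF P L ch) : x.1 < P.p ∧ x.2 < P.p := by
  unfold ptsF at hx
  exact okz_mem_prs.mp (List.mem_of_mem_filter hx)

end Pool.Agent.Lib.MP_33f9c4_lc.LK
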