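import Pool.Agent.Lib.MP_33f9c4_lc.K.Lang

set_option autoImplicit false

/-!
# Tree programs with time bounds: basic rules

`R f x y t`: the program `f` transforms the tree `x` into the tree `y` within `t` elementary
operations. All states are trees `enc a` with `a` in an encoded type (`Pool.Agent.Lib.PolyTime`):
`enc (a, b) = node (enc a) (enc b)`, `enc (a :: l) = node (enc a) (enc l)`, `enc [] = leaf`,
`enc (n + 1) = node leaf (enc n)`, `enc true = node leaf leaf`, `enc false = leaf`,
`enc (some a) = node (enc a) leaf`, `enc none = leaf`.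
-/

namespace Pool.Agent.Lib.MP_33f9c4_lc.K

open Pool.Agent.Lib.PolyTime

/-- `f` transforms `x` into `y` within `t` elementary operations. -/
def R (f : TP) (x y : BT) (t : ℕ) : Prop := ∃ r, r ≤ t ∧ Ev f x y r

theorem R.mono {f : TP} {x y : BT} {s t : ℕ} (h : R f x y s) (hst : s ≤ t) : R f x y t := by
  obtain ⟨r, hr, h⟩ := h
  exact ⟨r, hr.trans hst, h⟩

theorem R.of {f : TP} {x y : BT} {t : ℕ} (h : Ev f x y t) : R f x y t := ⟨t, le_rfl, h⟩

theorem R.id (x : BT) : R .id x x 1 := .of (.id x)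
theorem R.leaf (x : BT) : R .leaf x .leaf 1 := .of (.leaf x)
theorem R.lft (x : BT) : R .lft x (K.lft x) 1 := .of (.lft x)
theorem R.rgt (x : BT) : R .rgt x (K.rgt x) 1 := .of (.rgt x)
theorem R.lft' (a b : BT) : R .lft (.node a b) a 1 := .of (.lft _)
theorem R.rgt' (a b : BT) : R .rgt (.node a b) b 1 := .of (.rgt _)

theorem R.pair {f g : TP} {x a b : BT} {s t : ℕ} (hf : R f x a s) (hg : R g x b t) :
    R (.pair f g) x (.node a b) (s + t + 1) := by
  obtain ⟨r, hr, h⟩ := hf
  obtain ⟨q, hq, h'⟩ := hg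
  exact ⟨r + q + 1, by omega, .pair h h'⟩

theorem R.comp {f g : TP} {x y z : BT} {s t : ℕ} (hf : R f x y s) (hg : R g y z t) :
    R (.comp f g) x z (s + t + 1) := by
  obtain ⟨r, hr, h⟩ := hf
  obtain ⟨q, hq, h'⟩ := hg
  exact ⟨r + q + 1, by omega, .comp h h'⟩

theorem R.iteN {c f g : TP} {x a b y : BT} {s t : ℕ} (hc : R c x (.node a b) s)
    (hf : R f x y t) : R (.ite c f g) x y (s + t + 1) := by
  obtain ⟨r, hr, h⟩ := hc
  obtain ⟨q, hq, h'⟩ := hf
  exact ⟨r + q + 1, by omega, .iteN h h'⟩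

theorem R.iteL {c f g : TP} {x y : BT} {s t : ℕ} (hc : R c x .leaf s)
    (hg : R g x y t) : R (.ite c f g) x y (s + t + 1) := by
  obtain ⟨r, hr, h⟩ := hc
  obtain ⟨q, hq, h'⟩ := hg
  exact ⟨r + q + 1, by omega, .iteL h h'⟩

theorem R.loopN {f : TP} {x a b y z : BT} {s t : ℕ} (hx : K.lft x = .node a b) (hf : R f x y s)
    (h : R (.loop f) y z t) : R (.loop f) x z (s + t + 1) := by
  obtain ⟨r, hr, h1⟩ := hf
  obtain ⟨q, hq, h2⟩ := h
  exact ⟨r + q + 1, by omega, .loopN hx h1 h2⟩

theorem R.loopL {f : TP} {x : BT} (hx : K.lft x = .leaf) : R (.loop f) x x 1 := .of (.loopL hx)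

/-! ### Partial runs of a loop -/

/-- The loop with body `f` leads from the state `x` to the state `y` within time `t`. -/
def Lp (f : TP) (x y : BT) (t : ℕ) : Prop :=
  ∀ z u, R (.loop f) y z u → R (.loop f) x z (t + u)

theorem Lp.refl (f : TP) (x : BT) : Lp f x x 0 := fun z u h => h.mono (by omega)

theorem Lp.step {f : TP} {x a b y : BT} {c : ℕ} (hx : K.lft x = .node a b) (hf : R f x y c) :
    Lp f x y (c + 1) := fun z u h => (R.loopN hx hf h).mono (by omega)

theorem Lp.step' {f : TP} {a b s y : BT} {c : ℕ} (hf : R f (.node (.node a b) s) y c) :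
    Lp f (.node (.node a b) s) y (c + 1) := Lp.step (a := a) (b := b) rfl hf

theorem Lp.trans {f : TP} {x y z : BT} {s t : ℕ} (h : Lp f x y s) (h' : Lp f y z t) :
    Lp f x z (s + t) := fun w u hw => (h w (t + u) (h' w u hw)).mono (by omega)

theorem Lp.mono {f : TP} {x y : BT} {s t : ℕ} (h : Lp f x y s) (hst : s ≤ t) : Lp f x y t :=
  fun z u hz => (h z u hz).mono (by omega)

theorem Lp.finish {f : TP} {x y : BT} {t : ℕ} (h : Lp f x y t) (hy : K.lft y = .leaf) :
    R (.loop f) x y (t + 1) := h y 1 (.loopL hy)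

/-! ### Programs which compute a function of encoded types -/

variable {α β γ δ : Type} [Enc α] [Enc β] [Enc γ] [Enc δ]

/-- `P` computes `f` within time `T`. -/
def Tx (P : TP) (f : α → β) (T : α → ℕ) : Prop := ∀ a, R P (enc a) (enc (f a)) (T a)

theorem Tx.mono {P : TP} {f : α → β} {T T' : α → ℕ} (h : Tx P f T) (hT : ∀ a, T a ≤ T' a) :
    Tx P f T' := fun a => (h a).mono (hT a)

theorem Tx.id : Tx (α := α) .id (fun a => a) (fun _ => 1) := fun _ => .id _
theorem Tx.fst : Tx (α := α × β) .lft (fun x => x.1) (fun _ => 1) := fun _ => .lft' _ _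
theorem Tx.snd : Tx (α := α × β) .rgt (fun x => x.2) (fun _ => 1) := fun _ => .rgt' _ _

theorem Tx.comp {P Q : TP} {f : α → β} {g : β → γ} {S : α → ℕ} {T : β → ℕ} (hf : Tx P f S)
    (hg : Tx Q g T) : Tx (.comp P Q) (fun a => g (f a)) (fun a => S a + T (f a) + 1) :=
  fun a => (hf a).comp (hg (f a))

theorem Tx.pair {P Q : TP} {f : α → β} {g : α → γ} {S T : α → ℕ} (hf : Tx P f S)
    (hg : Tx Q g T) : Tx (.pair P Q) (fun a => (f a, g a)) (fun a => S a + T a + 1) :=
  fun a => (hf a).pair (hg a)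

theorem Tx.cons {P Q : TP} {f : α → β} {g : α → List β} {S T : α → ℕ} (hf : Tx P f S)
    (hg : Tx Q g T) : Tx (.pair P Q) (fun a => f a :: g a) (fun a => S a + T a + 1) :=
  fun a => (hf a).pair (hg a)

theorem Tx.nil : Tx (α := α) .leaf (fun _ => ([] : List β)) (fun _ => 1) := fun _ => .leaf _
theorem Tx.zero : Tx (α := α) .leaf (fun _ => (0 : ℕ)) (fun _ => 1) := fun _ => .leaf _
theorem Tx.none : Tx (α := α) .leaf (fun _ => (none : Option β)) (fun _ => 1) := fun _ => .leaf _
theorem Tx.false : Tx (α := α) .leaf (fun _ => false) (fun _ => 1) := fun _ => .leaf _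
theorem Tx.true : Tx (α := α) (.pair .leaf .leaf) (fun _ => true) (fun _ => 3) :=
  fun _ => (R.leaf _).pair (.leaf _)

theorem Tx.some {P : TP} {f : α → β} {S : α → ℕ} (hf : Tx P f S) :
    Tx (.pair P .leaf) (fun a => some (f a)) (fun a => S a + 2) :=
  fun a => (hf a).pair (.leaf _)

theorem Tx.succ {P : TP} {f : α → ℕ} {S : α → ℕ} (hf : Tx P f S) :
    Tx (.pair .leaf P) (fun a => f a + 1) (fun a => S a + 2) :=
  fun a => by
    have h := (R.leaf (enc a)).pair (hf a)
    exact h.mono (show 1 + S a + 1 ≤ S a + 2 by omega)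

theorem Tx.pred : Tx .rgt (fun n : ℕ => n - 1) (fun _ => 1) := by
  intro n
  cases n with
  | zero => exact .rgt _
  | succ n => exact .rgt _

theorem Tx.tail : Tx .rgt (fun l : List β => l.tail) (fun _ => 1) := by
  intro l
  cases l with
  | nil => exact .rgt _
  | cons a l => exact .rgt _

/-- Case distinction with a Boolean condition. -/
theorem Tx.cond {C P Q : TP} {b : α → Bool} {f g : α → β} {c : α → ℕ} {S T : α → ℕ}
    (hc : Tx C b c) (hf : Tx P f S) (hg : Tx Q g T) :
    Tx (.ite C P Q) (fun a => if b a then f a else g a) (fun a => c a + (S a + T a) + 1) := by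
  intro a
  have h := hc a
  by_cases hb : b a
  · simp only [hb, if_true]
    rw [hb] at h
    exact (R.iteN h (hf a)).mono (by omega)
  · rw [Bool.not_eq_true] at hb
    rw [hb] at h
    simp only [hb]
    exact (R.iteL h (hg a)).mono (by omega)

/-- Trees of constants. -/
def quote : BT → TP
  | .leaf => .leaf
  | .node a b => .pair (quote a) (quote b)

theorem R.quote (a x : BT) : R (K.quote a) x a a.size := by
  induction a with
  | leaf => exact .leaf x
  | node a b iha ihb =>
    rw [BT.size_node]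
    exact iha.pair ihb

theorem Tx.const (b : β) : Tx (α := α) (K.quote (enc b)) (fun _ => b) (fun _ => size b) :=
  fun _ => .quote _ _

end Pool.Agent.Lib.MP_33f9c4_lc.K
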