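import Pool.Agent.Lib.MP_33f9c4_lc.K.RDef

set_option autoImplicit false

/-!
MODULE RChk. Checking that a tree is the code of a bit list of length exactly `n`.

States `node (enc m) (node cur mark)`: the counter, the rest of the tree, and `some y` or `none`.
-/

namespace Pool.Agent.Lib.MP_33f9c4_lc.K

open Pool.Agent.Lib.PolyTime

/-- One step of the check: remove the first bit, or report failure. -/
def chkStep : BT × BT → BT × BT
  | (.node .leaf b, k) => (b, k)
  | (.node (.node .leaf .leaf) b, k) => (b, k)
  | _ => (.leaf, .leaf)

/-- The result of the check. -/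
def chkFin : BT × BT → BT
  | (.leaf, k) => k
  | (.node _ _, _) => .leaf

/-- The current tree. -/
def chkC : TP := .comp .rgt .lft

/-- The mark. -/
def chkM : TP := .comp .rgt .rgt

/-- The next counter. -/
def chkN : TP := .comp .lft .rgt

/-- Success. -/
def chkG : TP := .pair chkN (.pair (.comp chkC .rgt) chkM)

/-- Failure. -/
def chkB : TP := .pair chkN (.pair .leaf .leaf)

/-- The body of the loop. -/
def chkBody : TP :=
  .ite chkC (.ite (.comp chkC .lft) (.ite (.comp (.comp chkC .lft) .lft) chkB
    (.ite (.comp (.comp chkC .lft) .rgt) chkB chkG)) chkG) chkB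

theorem chkC_run (c u k : BT) : R chkC (.node c (.node u k)) u 3 :=
  (R.rgt' _ _).comp (R.lft' _ _)

theorem chkM_run (c u k : BT) : R chkM (.node c (.node u k)) k 3 :=
  (R.rgt' _ _).comp (R.rgt' _ _)

theorem chkN_run (a c s : BT) : R chkN (.node (.node a c) s) c 3 :=
  (R.lft' _ _).comp (R.rgt' _ _)

theorem chkG_run (a c u v k : BT) :
    R chkG (.node (.node a c) (.node (.node u v) k)) (.node c (.node v k)) 13 :=
  ((chkN_run _ _ _).pair (((chkC_run _ _ _).comp (R.rgt' _ _)).pair (chkM_run _ _ _))).mono
    (by omega)

theorem chkB_run (a c s : BT) :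
    R chkB (.node (.node a c) s) (.node c (.node .leaf .leaf)) 7 :=
  ((chkN_run _ _ _).pair ((R.leaf _).pair (R.leaf _))).mono (by omega)

theorem chkBody_run (a c u k : BT) :
    R chkBody (.node (.node a c) (.node u k))
      (.node c (.node (chkStep (u, k)).1 (chkStep (u, k)).2)) 60 := by
  cases u with
  | leaf =>
    exact (R.iteL (chkC_run _ _ _) (chkB_run _ _ _)).mono (by omega)
  | node p b =>
    cases p with
    | leaf =>
      refine (R.iteN (chkC_run _ _ _) (R.iteL ((chkC_run _ _ _).comp (R.lft' _ _))
        (chkG_run _ _ _ _ _))).mono (by omega)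
    | node p q =>
      cases p with
      | node p p' =>
        refine (R.iteN (chkC_run _ _ _) (R.iteN ((chkC_run _ _ _).comp (R.lft' _ _))
          (R.iteN (((chkC_run _ _ _).comp (R.lft' _ _)).comp (R.lft' _ _))
            (chkB_run _ _ _)))).mono (by omega)
      | leaf =>
        cases q with
        | node q q' =>
          refine (R.iteN (chkC_run _ _ _) (R.iteN ((chkC_run _ _ _).comp (R.lft' _ _))
            (R.iteL (((chkC_run _ _ _).comp (R.lft' _ _)).comp (R.lft' _ _))
              (R.iteN (((chkC_run _ _ _).comp (R.lft' _ _)).comp (R.rgt' _ _))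
                (chkB_run _ _ _))))).mono (by omega)
        | leaf =>
          refine (R.iteN (chkC_run _ _ _) (R.iteN ((chkC_run _ _ _).comp (R.lft' _ _))
            (R.iteL (((chkC_run _ _ _).comp (R.lft' _ _)).comp (R.lft' _ _))
              (R.iteL (((chkC_run _ _ _).comp (R.lft' _ _)).comp (R.rgt' _ _))
                (chkG_run _ _ _ _ _))))).mono (by omega)

theorem chk_loop (m : ℕ) (s : BT × BT) :
    Lp chkBody (.node (enc m) (.node s.1 s.2))
      (.node .leaf (.node (chkStep^[m] s).1 (chkStep^[m] s).2)) (61 * m) := by
  induction m generalizing s with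
  | zero => exact Lp.refl _ _
  | succ m ih =>
    rw [Function.iterate_succ_apply]
    have h := (Lp.step' (chkBody_run .leaf (enc m) s.1 s.2)).trans (ih (chkStep (s.1, s.2)))
    exact h.mono (by omega)

theorem chk_fail (n : ℕ) : chkStep^[n] (.leaf, .leaf) = (.leaf, .leaf) := by
  induction n with
  | zero => rfl
  | succ n ih => exact ih

theorem chk_yes (x : List Bool) (k : BT) : chkStep^[x.length] (enc x, k) = (.leaf, k) := by
  induction x with
  | nil => rfl
  | cons b x ih =>
    rw [List.length_cons, Function.iterate_succ_apply]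
    cases b with
    | false => exact ih
    | true => exact ih

theorem chk_no (n : ℕ) (y k : BT) (h : ¬ ∃ x : List Bool, x.length = n ∧ y = enc x) :
    chkFin (chkStep^[n] (y, k)) = .leaf := by
  induction n generalizing y with
  | zero =>
    cases y with
    | leaf => exact absurd ⟨[], rfl, rfl⟩ h
    | node a b => rfl
  | succ n ih =>
    rw [Function.iterate_succ_apply]
    cases y with
    | leaf =>
      have : chkStep (.leaf, k) = (.leaf, .leaf) := rfl
      rw [this, chk_fail]
      rfl
    | node p b =>
      cases p with
      | leaf =>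
        refine ih b ?_
        rintro ⟨x, hx, hb⟩
        exact h ⟨false :: x, by rw [List.length_cons, hx], by rw [enc_cons, hb]; rfl⟩
      | node p q =>
        cases p with
        | node p p' =>
          have : chkStep (.node (.node (.node p p') q) b, k) = (.leaf, .leaf) := rfl
          rw [this, chk_fail]
          rfl
        | leaf =>
          cases q with
          | node q q' =>
            have : chkStep (.node (.node .leaf (.node q q')) b, k) = (.leaf, .leaf) := rfl
            rw [this, chk_fail]
            rfl
          | leaf =>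
            refine ih b ?_
            rintro ⟨x, hx, hb⟩
            exact h ⟨true :: x, by rw [List.length_cons, hx], by rw [enc_cons, hb]; rfl⟩

theorem chkFin_run (s : BT × BT) :
    R (.ite chkC .leaf chkM) (.node .leaf (.node s.1 s.2)) (chkFin s) 7 := by
  obtain ⟨u, k⟩ := s
  cases u with
  | leaf => exact R.iteL (chkC_run _ _ _) (chkM_run _ _ _)
  | node u v => exact (R.iteN (chkC_run _ _ _) (R.leaf _)).mono (by omega)

/-- The program of the check. -/
def chkP : TP := .comp (.pair .lft (.pair .rgt (.pair .rgt .leaf))) (.comp (.loop chkBody)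
  (.ite chkC .leaf chkM))

theorem chk_run (n : ℕ) (y : BT) : R chkP (.node (enc n) y)
      (chkFin (chkStep^[n] (y, .node y .leaf))) (61 * n + 17) := by
  have h1 : R (.pair .lft (.pair .rgt (.pair .rgt .leaf))) (.node (enc n) y)
      (.node (enc n) (.node y (.node y .leaf))) 7 :=
    (R.lft' _ _).pair ((R.rgt' _ _).pair ((R.rgt' _ _).pair (R.leaf _)))
  have h2 := (chk_loop n (y, .node y .leaf)).finish rfl
  exact (h1.comp (h2.comp (chkFin_run _))).mono (by omega)

theorem chk_tp : ∃ (P : TP) (A : ℕ), ∀ (n : ℕ) (y : BT),
    (∀ x : List Bool, x.length = n → y = enc x →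
      R P (.node (enc n) y) (enc (some x)) (A * (n + 1))) ∧
    ((¬ ∃ x : List Bool, x.length = n ∧ y = enc x) →
      R P (.node (enc n) y) .leaf (A * (n + 1))) := by
  refine ⟨chkP, 61, fun n y => ⟨?_, ?_⟩⟩
  · intro x hx hy
    have h := chk_run n y
    subst hy
    rw [← hx, chk_yes] at h
    rw [← hx]
    exact h.mono (by omega)
  · intro hno
    have h := chk_run n y
    rw [chk_no n y _ hno] at h
    exact h.mono (by omega)

end Pool.Agent.Lib.MP_33f9c4_lc.K
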