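import Pool.Agent.Lib.MP_33f9c4_lc.K.RDef

set_option autoImplicit false

/-!
# The entries matching a template, the values read, the cost of reading
-/

namespace Pool.Agent.Lib.MP_33f9c4_lc.K

open Pool.Agent.Lib.PolyTime

theorem length_ents (t : List (Option Bool)) (s : List Bool) :
    (ents t s).length = 2 ^ free t := by
  induction t generalizing s with
  | nil => simp [ents, free]
  | cons o t ih =>
    cases o with
    | none =>
      simp only [ents, List.length_append, ih, free, List.count_cons_self]
      ring
    | some b =>
      simp only [ents, ih, free]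
      rw [List.count_cons_of_ne (by simp)]

/-- Matching of a reversed template with a reversed list. -/
theorem mem_ents_iff {t : List (Option Bool)} {s e : List Bool} :
    e ∈ ents t s ↔ ∃ e' : List Bool, e = e'.reverse ++ s ∧
      List.Forall₂ (fun (o : Option Bool) (b : Bool) => o = none ∨ o = some b) t e' := by
  induction t generalizing s with
  | nil =>
    simp only [ents, List.mem_singleton, List.forall₂_nil_left_iff]
    constructor
    · rintro rfl
      exact ⟨[], rfl, rfl⟩
    · rintro ⟨e', rfl, rfl⟩
      rfl
  | cons o t ih =>
    cases o with
    | none =>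
      simp only [ents, List.mem_append, ih]
      constructor
      · rintro (⟨e', rfl, h⟩ | ⟨e', rfl, h⟩)
        · exact ⟨false :: e', by simp, .cons (Or.inl rfl) h⟩
        · exact ⟨true :: e', by simp, .cons (Or.inl rfl) h⟩
      · rintro ⟨e', rfl, h⟩
        cases h with
        | cons h1 h2 =>
          rename_i b l
          cases b with
          | false => exact Or.inl ⟨l, by simp, h2⟩
          | true => exact Or.inr ⟨l, by simp, h2⟩
    | some c =>
      simp only [ents, ih]
      constructor
      · rintro ⟨e', rfl, h⟩
        exact ⟨c :: e', by simp, .cons (Or.inr rfl) h⟩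
      · rintro ⟨e', rfl, h⟩
        cases h with
        | cons h1 h2 =>
          rename_i b l
          rcases h1 with h1 | h1
          · exact absurd h1 (by simp)
          · have : c = b := by simpa using h1
            subst this
            exact ⟨l, by simp, h2⟩

theorem mem_ents {t : List (Option Bool)} {e : List Bool} :
    e ∈ ents t [] ↔
      List.Forall₂ (fun (o : Option Bool) (b : Bool) => o = none ∨ o = some b) t e.reverse := by
  rw [mem_ents_iff]
  constructor
  · rintro ⟨e', rfl, h⟩
    simpa using h
  · intro h
    exact ⟨e.reverse, by simp, h⟩

theorem length_of_mem_ents' {t : List (Option Bool)} {e : List Bool} (h : e ∈ ents t []) :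
    e.length = t.length := by
  rw [mem_ents] at h
  have := h.length_eq
  simpa using this.symm

theorem nodup_ents (t : List (Option Bool)) (s : List Bool) : (ents t s).Nodup := by
  induction t generalizing s with
  | nil => simp [ents]
  | cons o t ih =>
    cases o with
    | none =>
      simp only [ents]
      refine List.Nodup.append (ih _) (ih _) ?_
      intro e h1 h2
      rw [mem_ents_iff] at h1 h2
      obtain ⟨a, ha, ha'⟩ := h1
      obtain ⟨b, hb, hb'⟩ := h2
      have hl : a.length = b.length := by rw [← ha'.length_eq, ← hb'.length_eq]
      rw [ha] at hb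
      have := List.append_inj hb (by simp [hl])
      simp at this
    | some b => exact ih _

/-- The cost of reading, when the number of free positions drops from table to table. -/
theorem readCost_le {m k f : ℕ} {t : List (Option Bool)} (h : ∀ i < m, free (t.drop i) + i ≤ f) :
    readCost m k t ≤ m * (2 ^ f * k) := by
  induction m generalizing k f t with
  | zero => simp [readCost]
  | succ m ih =>
    have h0 := h 0 (by omega)
    simp only [List.drop_zero, add_zero] at h0
    simp only [readCost]
    rcases Nat.eq_zero_or_pos m with hm | hm
    · subst hm
      simp only [readCost, add_zero, zero_add, one_mul]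
      exact Nat.mul_le_mul_right _ (Nat.pow_le_pow_right (by norm_num) h0)
    · have hf : 1 ≤ f := by
        have := h 1 (by omega)
        omega
      have h1 := ih (k := 2 * k) (f := f - 1) (t := t.tail) (by
        intro i hi
        have := h (i + 1) (by omega)
        rw [← List.drop_one, List.drop_drop]
        rw [Nat.add_comm i 1] at this
        omega)
      have h2 : 2 ^ free t * k ≤ 2 ^ f * k :=
        Nat.mul_le_mul_right _ (Nat.pow_le_pow_right (by norm_num) h0)
      have h3 : 2 ^ (f - 1) * (2 * k) = 2 ^ f * k := by
        obtain ⟨f', rfl⟩ := Nat.exists_eq_add_of_le' hf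
        rw [Nat.add_sub_cancel, pow_succ]
        ring
      rw [h3] at h1
      calc 2 ^ free t * k + readCost m (2 * k) t.tail ≤ 2 ^ f * k + m * (2 ^ f * k) :=
            Nat.add_le_add h2 h1
        _ = (m + 1) * (2 ^ f * k) := by ring

theorem length_outs_le (U : TP) (n k : ℕ) (t : List (Option Bool)) :
    (outs U n k t).length ≤ 2 ^ free t := by
  unfold outs
  exact (List.length_filterMap_le _ _).trans (length_ents t []).le

theorem length_outsAll_le {U : TP} {n m k f : ℕ} {t : List (Option Bool)}
    (h : ∀ i < m, free (t.drop i) + i ≤ f) : (outsAll U n m k t).length < 2 * 2 ^ f := by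
  induction m generalizing k f t with
  | zero => simp [outsAll]
  | succ m ih =>
    have h0 := h 0 (by omega)
    simp only [List.drop_zero, add_zero] at h0
    simp only [outsAll, List.length_append]
    have h2 := (length_outs_le U n k t).trans (Nat.pow_le_pow_right (by norm_num) h0)
    rcases Nat.eq_zero_or_pos m with hm | hm
    · subst hm
      simp only [outsAll, List.length_nil, add_zero]
      have : 0 < 2 ^ f := by positivity
      omega
    · have hf : 1 ≤ f := by
        have := h 1 (by omega)
        omega
      have h1 := ih (k := 2 * k) (f := f - 1) (t := t.tail) (by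
        intro i hi
        have := h (i + 1) (by omega)
        rw [← List.drop_one, List.drop_drop]
        rw [Nat.add_comm i 1] at this
        omega)
      have h3 : 2 * 2 ^ (f - 1) = 2 ^ f := by
        obtain ⟨f', rfl⟩ := Nat.exists_eq_add_of_le' hf
        rw [Nat.add_sub_cancel, pow_succ]
        ring
      rw [h3] at h1
      omega

/-- The values read are the values of the entries of all tables. -/
theorem mem_outsAll {U : TP} {n m k : ℕ} {t : List (Option Bool)} {x : List Bool} :
    x ∈ outsAll U n m k t ↔
      ∃ i < m, ∃ e ∈ ents (t.drop i) [], tbl U n (2 ^ i * k) e = some x := by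
  induction m generalizing k t with
  | zero => simp [outsAll]
  | succ m ih =>
    simp only [outsAll, List.mem_append, ih, outs, List.mem_filterMap]
    constructor
    · rintro (⟨e, he, hx⟩ | ⟨i, hi, e, he, hx⟩)
      · exact ⟨0, by omega, e, by simpa using he, by simpa using hx⟩
      · refine ⟨i + 1, by omega, e, ?_, ?_⟩
        · rwa [← List.drop_one, List.drop_drop, Nat.add_comm 1 i] at he
        · rwa [show 2 ^ (i + 1) * k = 2 ^ i * (2 * k) by ring]
    · rintro ⟨i, hi, e, he, hx⟩
      cases i with
      | zero => exact Or.inl ⟨e, by simpa using he, by simpa using hx⟩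
      | succ i =>
        refine Or.inr ⟨i, by omega, e, ?_, ?_⟩
        · rwa [← List.drop_one, List.drop_drop, Nat.add_comm 1 i]
        · rwa [show 2 ^ (i + 1) * k = 2 ^ i * (2 * k) by ring] at hx

theorem cnt_append (y : List Bool) (xs ys : List (List Bool)) :
    cnt y (xs ++ ys) = cnt y xs + cnt y ys := by
  simp [cnt]

/-- The number of entries of the table with clock `k` matching `t` whose value starts with `y`. -/
theorem cnt_outs (U : TP) (n k : ℕ) (t : List (Option Bool)) (y : List Bool) :
    cnt y (outs U n k t) =
      (ents t []).countP (fun e => (tbl U n k e).any (fun x => y.isPrefixOf x)) := by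
  unfold cnt outs
  generalize ents t [] = l
  induction l with
  | nil => rfl
  | cons e l ih =>
    cases h : tbl U n k e with
    | none => simp [h, ih]
    | some x => simp [h, ih, List.countP_cons]

theorem cnt_outsAll (U : TP) (n m k : ℕ) (t : List (Option Bool)) (y : List Bool) :
    cnt y (outsAll U n m k t) = ∑ i ∈ Finset.range m,
      (ents (t.drop i) []).countP (fun e => (tbl U n (2 ^ i * k) e).any
        (fun x => y.isPrefixOf x)) := by
  induction m generalizing k t with
  | zero => simp [outsAll, cnt]
  | succ m ih =>
    rw [outsAll, cnt_append, ih, cnt_outs, Finset.sum_range_succ']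
    rw [Nat.add_comm]
    congr 1
    · refine Finset.sum_congr rfl fun i _ => ?_
      rw [← List.drop_one, List.drop_drop, Nat.add_comm 1 i,
        show 2 ^ (i + 1) * k = 2 ^ i * (2 * k) by ring]
    · simp

/-- Every string of `outsAll` has the length `n`. -/
theorem length_of_mem_outsAll {U : TP} {n m k : ℕ} {t : List (Option Bool)} {x : List Bool}
    (h : x ∈ outsAll U n m k t) : x.length = n := by
  obtain ⟨i, -, e, -, hx⟩ := mem_outsAll.mp h
  unfold tbl at hx
  split at hx
  · next h' =>
    have h2 := h'.choose_spec
    rw [Option.some.injEq] at hx
    rw [hx] at h2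
    obtain ⟨d, r, -, h3, -⟩ := h2
    exact h3
  · exact absurd hx (by simp)

end Pool.Agent.Lib.MP_33f9c4_lc.K
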