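import Pool.Agent.Lib.MP_33f9c4_lc.K.RBase

set_option autoImplicit false

/-!
# The reading phase: definitions

An entry is a bit list `e = 0^a 1 d`; `strip e = some d`. A (reversed) template is a list of
`Option Bool`, `none` is a free position, the head of the template is the last bit of the entries;
`ents t []` is the list of all entries matching the template `t`.
-/

namespace Pool.Agent.Lib.MP_33f9c4_lc.K

open Pool.Agent.Lib.PolyTime

/-- Remove the leading zeros and the first one. -/
def strip : List Bool → Option (List Bool)
  | [] => none
  | false :: e => strip e
  | true :: d => some d

/-- All bit lists matching the reversed template `t`, followed by `s`. -/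
def ents : List (Option Bool) → List Bool → List (List Bool)
  | [], s => [s]
  | none :: t, s => ents t (false :: s) ++ ents t (true :: s)
  | some b :: t, s => ents t (b :: s)

/-- The number of free positions of a template. -/
def free (t : List (Option Bool)) : ℕ := t.count none

/-- The entry `e = 0^a 1 d` has the value `x` with the clock `k`: `U` transforms `d` into the string
`x` of length `n` in less than `k` elementary operations. -/
def Hit (U : TP) (n k : ℕ) (e x : List Bool) : Prop :=
  ∃ (d : List Bool) (r : ℕ), strip e = some d ∧ x.length = n ∧ r < k ∧ Ev U (tr d) (tr x) r

open Classical in
/-- The value of the entry `e` in the table with clock `k`. -/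
noncomputable def tbl (U : TP) (n k : ℕ) (e : List Bool) : Option (List Bool) :=
  if h : ∃ x, Hit U n k e x then some h.choose else none

/-- All values of the entries matching `t` in the table with clock `k`. -/
noncomputable def outs (U : TP) (n k : ℕ) (t : List (Option Bool)) : List (List Bool) :=
  (ents t []).filterMap (tbl U n k)

/-- All values read in `m` tables with the clocks `k, 2k, 4k, ...`; the template becomes shorter
by one element (at its head) from table to table. -/
noncomputable def outsAll (U : TP) (n : ℕ) : ℕ → ℕ → List (Option Bool) → List (List Bool)
  | 0, _, _ => []
  | m + 1, k, t => outs U n k t ++ outsAll U n m (2 * k) t.tail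

/-- The cost of reading `m` tables. -/
def readCost : ℕ → ℕ → List (Option Bool) → ℕ
  | 0, _, _ => 0
  | m + 1, k, t => 2 ^ free t * k + readCost m (2 * k) t.tail

/-- The number of elements of `xs` which start with `y`. -/
def cnt (y : List Bool) (xs : List (List Bool)) : ℕ := xs.countP (fun x => y.isPrefixOf x)

/-- The tails of the elements of `xs` which start with the bit `b`. -/
def sub (b : Bool) (xs : List (List Bool)) : List (List Bool) :=
  (xs.filter (fun x => x.head? == some b)).map List.tail

/-- The trie of depth `K` which counts the prefixes of length `K` of the elements of `xs`: at a leaf
with the number `m` we store `m mod F` (as `F - m mod F` in unary) and `m / F` (in unary). -/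
def trie (F : ℕ) : ℕ → List (List Bool) → BT
  | 0, xs => if xs.isEmpty then .leaf else .node (enc (F - xs.length % F)) (enc (xs.length / F))
  | K + 1, xs =>
    if xs.isEmpty then .leaf else .node (trie F K (sub false xs)) (trie F K (sub true xs))

/-- The list of all (reversed prefix, number / F) of a trie. -/
def flat (F : ℕ) : ℕ → List (List Bool) → List Bool → List (List Bool × ℕ)
  | 0, xs, p => if xs.isEmpty then [] else [(p, xs.length / F)]
  | K + 1, xs, p =>
    if xs.isEmpty then []
    else flat F K (sub false xs) (false :: p) ++ flat F K (sub true xs) (true :: p)

/-- The decider `M` declares the string `x` random: it stops with a tree which is not a leaf. -/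
def Says (M : TP) (x : List Bool) : Prop := ∃ a b r, Ev M (enc x) (.node a b) r

theorem tr_eq_enc (x : List Bool) : tr x = enc x := by
  induction x with
  | nil => rfl
  | cons b x ih => simp only [tr, enc_cons, ih]; rfl

theorem trie_nil (F K : ℕ) : trie F K [] = .leaf := by cases K <;> rfl

end Pool.Agent.Lib.MP_33f9c4_lc.K
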