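import Pool.Agent.Lib.MP_33f9c4_lc.K.RDef

set_option autoImplicit false

/-!
MODULE RStrip. Removing the leading zeros of a bit list.

State `node e r`, starting with `node (enc e) leaf` (`r = enc none`); `.loop body` while `e` is not
empty: if the head is a node (`true`) then `node leaf (node (rgt e) leaf)` (i.e. `e := []`,
`r := some (tail)`), else `node (rgt e) r`. At the end `.rgt`. Induction on `e`:
`Lp body (node (enc e) leaf) (node leaf (enc (strip e))) (a * e.length)` (in the case `strip e = none`
all bits are `false` and `r` stays a leaf).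
-/

namespace Pool.Agent.Lib.MP_33f9c4_lc.K

open Pool.Agent.Lib.PolyTime

/-- the body of the loop -/
private def RStrip_body : TP :=
  .ite (.comp .lft .lft) (.pair .leaf (.pair (.comp .lft .rgt) .leaf)) (.pair (.comp .lft .rgt) .rgt)

private theorem RStrip_lp : ∀ e : List Bool,
    Lp RStrip_body (.node (enc e) .leaf) (.node .leaf (enc (strip e))) (12 * (e.length + 1))
  | [] => (Lp.refl _ _).mono (by omega)
  | false :: e => by
    have ih := RStrip_lp e
    have h1 : R (.comp .lft .lft) (.node (.node (enc false) (enc e)) .leaf) (enc false) (1 + 1 + 1) :=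
      (R.lft' _ _).comp (R.lft' _ _)
    have h2 : R (.pair (.comp .lft .rgt) .rgt) (.node (.node (enc false) (enc e)) .leaf)
        (.node (enc e) .leaf) ((1 + 1 + 1) + 1 + 1) :=
      ((R.lft' _ _).comp (R.rgt' _ _)).pair (R.rgt' _ _)
    have h3 : R RStrip_body (.node (.node (enc false) (enc e)) .leaf) (.node (enc e) .leaf) 9 :=
      (R.iteL h1 h2).mono (by omega)
    exact ((Lp.step' h3).trans ih).mono (by simp only [List.length_cons]; omega)
  | true :: d => by
    have h1 : R (.comp .lft .lft) (.node (.node (enc true) (enc d)) .leaf) (enc true) (1 + 1 + 1) :=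
      (R.lft' _ _).comp (R.lft' _ _)
    have h2 : R (.pair .leaf (.pair (.comp .lft .rgt) .leaf)) (.node (.node (enc true) (enc d)) .leaf)
        (.node .leaf (.node (enc d) .leaf)) (1 + ((1 + 1 + 1) + 1 + 1) + 1) :=
      (R.leaf _).pair (((R.lft' _ _).comp (R.rgt' _ _)).pair (R.leaf _))
    have h3 : R RStrip_body (.node (.node (enc true) (enc d)) .leaf)
        (.node .leaf (.node (enc d) .leaf)) 11 :=
      (R.iteN h1 h2).mono (by omega)
    exact (Lp.step' h3).mono (by simp only [List.length_cons]; omega)

theorem strip_tp : ∃ (P : TP) (A : ℕ), ∀ e : List Bool,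
    R P (enc e) (enc (strip e)) (A * (e.length + 1)) := by
  refine ⟨.comp (.pair .id .leaf) (.comp (.loop RStrip_body) .rgt), 20, fun e => ?_⟩
  have h1 : R (.pair .id .leaf) (enc e) (.node (enc e) .leaf) (1 + 1 + 1) := (R.id _).pair (R.leaf _)
  have h2 : R (.loop RStrip_body) (.node (enc e) .leaf) (.node .leaf (enc (strip e)))
      (12 * (e.length + 1) + 1) := (RStrip_lp e).finish rfl
  have h3 := h1.comp (h2.comp (R.rgt' _ _))
  exact h3.mono (by omega)

end Pool.Agent.Lib.MP_33f9c4_lc.K
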