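import Pool.Agent.Lib.MP_33f9c4_lc.K.RDef

set_option autoImplicit false

/-!
MODULE RTrie. Updating a trie with one more string.

Input `node (enc x) (node (enc K) (node (enc F) (trie F K xs)))`, output `trie F K (x :: xs)`.
(1) Down loop: state `node (enc K') (node (enc x') (node stack T))` while `K' > 0`. Body: `K' := K' - 1`,
`x' := tail x'`; if the head of `x'` is a node (`true`) push `node (node leaf leaf) (lft T)` and `T := rgt T`,
else push `node leaf (rgt T)` and `T := lft T`. (For `T = leaf` both parts are leaves: `lft leaf = leaf`;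
this is right because `trie F K [] = leaf`.)
(2) Payload: `T = leaf` or `T = node (enc (F - m % F)) (enc (m / F))`. Let `low := if T is a leaf then F else lft T`,
`high := rgt T`, `low' := rgt low` (the predecessor). New payload: if `low'` is a leaf then
`node (enc F) (node leaf high)` else `node low' high`. This is the payload of `m + 1`:
`(m+1) % F`, `(m+1) / F` (case `m % F = F - 1` or not).
(3) Up loop over the stack: pop `node b s`: if `b` is a node then `T := node s T` else `T := node T s`.
Semantics: `trie F (K+1) (x :: xs)` for `x = b :: x'` is `node` of `trie F K (x' :: sub b xs)` on the side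
`b` and of `trie F K (sub (!b) xs)` on the other side; the children of `trie F (K+1) xs` are
`trie F K (sub false xs)`, `trie F K (sub true xs)` in all cases (also `xs = []`).
It may be easiest to prove one statement by induction on `K` for the combination (the down loop
starting with `K`, then payload, then the up loop from the resulting stack back to the stack one
started with): for all stacks `s`, the down loop leads from `(K, x, s, trie F K xs)` to
`(0, x', s', T')` and the up loop from `(s', new T')` to `(s, trie F K (x :: xs))`.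
-/

namespace Pool.Agent.Lib.MP_33f9c4_lc.K

open Pool.Agent.Lib.PolyTime

/-! #### the parts of the state -/

private def RTrie_dn : TP :=
  .pair (.comp .lft .rgt) (.pair (.comp .rgt (.comp .lft .rgt)) (.pair (.comp .rgt (.comp .rgt .lft))
    (.ite (.comp .rgt (.comp .lft .lft))
      (.pair (.pair (.pair (.pair .leaf .leaf) (.comp .rgt (.comp .rgt (.comp .rgt (.comp .rgt .lft)))))
        (.comp .rgt (.comp .rgt (.comp .rgt .lft)))) (.comp .rgt (.comp .rgt (.comp .rgt (.comp .rgt .rgt)))))
      (.pair (.pair (.pair .leaf (.comp .rgt (.comp .rgt (.comp .rgt (.comp .rgt .rgt)))))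
        (.comp .rgt (.comp .rgt (.comp .rgt .lft)))) (.comp .rgt (.comp .rgt (.comp .rgt (.comp .rgt .lft))))))))

private def RTrie_up : TP :=
  .pair (.comp .lft .rgt) (.ite (.comp .lft (.comp .lft .lft))
    (.pair (.comp .lft (.comp .lft .rgt)) .rgt) (.pair .rgt (.comp .lft (.comp .lft .rgt))))

/-- from `node leaf (node x (node F (node s T)))` to `node s T'` -/
private def RTrie_pay : TP :=
  .comp (.comp .rgt .rgt)
    (.pair (.comp .rgt .lft)
      (.comp
        (.pair .lft (.pair (.ite (.comp .rgt .rgt) (.comp .rgt (.comp .rgt .lft)) .lft)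
          (.comp .rgt (.comp .rgt .rgt))))
        (.ite (.comp .rgt (.comp .lft .rgt))
          (.pair (.comp .rgt (.comp .lft .rgt)) (.comp .rgt .rgt))
          (.pair .lft (.pair .leaf (.comp .rgt .rgt))))))

private def RTrie_init : TP :=
  .pair (.comp .rgt .lft) (.pair .lft (.pair (.comp .rgt (.comp .rgt .lft))
    (.pair .leaf (.comp .rgt (.comp .rgt .rgt)))))

private lemma RTrie_dn_true (k l f s T : BT) (a0 : BT) :
    R RTrie_dn (.node (.node a0 k) (.node (.node (.node .leaf .leaf) l) (.node f (.node s T))))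
      (.node k (.node l (.node f (.node (.node (.node (.node .leaf .leaf) (K.lft T)) s) (K.rgt T)))))
      60 := by
  refine R.mono (R.pair (R.comp (R.lft' _ _) (R.rgt' _ _)) (R.pair
    (R.comp (R.rgt' _ _) (R.comp (R.lft' _ _) (R.rgt' _ _))) (R.pair
    (R.comp (R.rgt' _ _) (R.comp (R.rgt' _ _) (R.lft' _ _)))
    (R.iteN (R.comp (R.rgt' _ _) (R.comp (R.lft' _ _) (R.lft' _ _)))
      (R.pair (R.pair (R.pair (R.pair (R.leaf _) (R.leaf _))
        (R.comp (R.rgt' _ _) (R.comp (R.rgt' _ _) (R.comp (R.rgt' _ _)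
          (R.comp (R.rgt' _ _) (R.lft _))))))
        (R.comp (R.rgt' _ _) (R.comp (R.rgt' _ _) (R.comp (R.rgt' _ _) (R.lft' _ _)))))
        (R.comp (R.rgt' _ _) (R.comp (R.rgt' _ _) (R.comp (R.rgt' _ _)
          (R.comp (R.rgt' _ _) (R.rgt _)))))))))) ?_
  norm_num

private lemma RTrie_dn_false (k l f s T : BT) (a0 : BT) :
    R RTrie_dn (.node (.node a0 k) (.node (.node .leaf l) (.node f (.node s T))))
      (.node k (.node l (.node f (.node (.node (.node .leaf (K.rgt T)) s) (K.lft T)))))
      60 := by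
  refine R.mono (R.pair (R.comp (R.lft' _ _) (R.rgt' _ _)) (R.pair
    (R.comp (R.rgt' _ _) (R.comp (R.lft' _ _) (R.rgt' _ _))) (R.pair
    (R.comp (R.rgt' _ _) (R.comp (R.rgt' _ _) (R.lft' _ _)))
    (R.iteL (R.comp (R.rgt' _ _) (R.comp (R.lft' _ _) (R.lft' _ _)))
      (R.pair (R.pair (R.pair (R.leaf _)
        (R.comp (R.rgt' _ _) (R.comp (R.rgt' _ _) (R.comp (R.rgt' _ _)
          (R.comp (R.rgt' _ _) (R.rgt _))))))
        (R.comp (R.rgt' _ _) (R.comp (R.rgt' _ _) (R.comp (R.rgt' _ _) (R.lft' _ _)))))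
        (R.comp (R.rgt' _ _) (R.comp (R.rgt' _ _) (R.comp (R.rgt' _ _)
          (R.comp (R.rgt' _ _) (R.lft _)))))))))) ?_
  norm_num

private lemma RTrie_up_true (sib s T : BT) :
    R RTrie_up (.node (.node (.node (.node .leaf .leaf) sib) s) T) (.node s (.node sib T)) 30 := by
  refine R.mono (R.pair (R.comp (R.lft' _ _) (R.rgt' _ _))
    (R.iteN (R.comp (R.lft' _ _) (R.comp (R.lft' _ _) (R.lft' _ _)))
      (R.pair (R.comp (R.lft' _ _) (R.comp (R.lft' _ _) (R.rgt' _ _))) (R.rgt' _ _)))) ?_
  norm_num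

private lemma RTrie_up_false (sib s T : BT) :
    R RTrie_up (.node (.node (.node .leaf sib) s) T) (.node s (.node T sib)) 30 := by
  refine R.mono (R.pair (R.comp (R.lft' _ _) (R.rgt' _ _))
    (R.iteL (R.comp (R.lft' _ _) (R.comp (R.lft' _ _) (R.lft' _ _)))
      (R.pair (R.rgt' _ _) (R.comp (R.lft' _ _) (R.comp (R.lft' _ _) (R.rgt' _ _)))))) ?_
  norm_num

private lemma RTrie_init_R (x k f T : BT) :
    R RTrie_init (.node x (.node k (.node f T)))
      (.node k (.node x (.node f (.node .leaf T)))) 40 := by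
  refine R.mono (R.pair (R.comp (R.rgt' _ _) (R.lft' _ _)) (R.pair (R.lft' _ _) (R.pair
    (R.comp (R.rgt' _ _) (R.comp (R.rgt' _ _) (R.lft' _ _)))
    (R.pair (R.leaf _) (R.comp (R.rgt' _ _) (R.comp (R.rgt' _ _) (R.rgt' _ _))))))) ?_
  norm_num

/-- the payload, low part equal to one, or the trie empty with `F = 1` -/
private lemma RTrie_pay_aux (f s T low high : BT)
    (h : (∃ a b, T = .node a b ∧ low = a ∧ high = b) ∨ (T = .leaf ∧ low = f ∧ high = .leaf)) :
    R (.pair .lft (.pair (.ite (.comp .rgt .rgt) (.comp .rgt (.comp .rgt .lft)) .lft)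
          (.comp .rgt (.comp .rgt .rgt)))) (.node f (.node s T))
      (.node f (.node low high)) 30 := by
  rcases h with ⟨a, b, rfl, rfl, rfl⟩ | ⟨rfl, rfl, rfl⟩
  · refine R.mono (R.pair (R.lft' _ _) (R.pair (R.iteN (R.comp (R.rgt' _ _) (R.rgt' _ _))
      (R.comp (R.rgt' _ _) (R.comp (R.rgt' _ _) (R.lft' _ _))))
      (R.comp (R.rgt' _ _) (R.comp (R.rgt' _ _) (R.rgt' _ _))))) ?_
    norm_num
  · refine R.mono (R.pair (R.lft' _ _) (R.pair (R.iteL (R.comp (R.rgt' _ _) (R.rgt' _ _))
      (R.lft' _ _))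
      (R.comp (R.rgt' _ _) (R.comp (R.rgt' _ _) (R.rgt _))))) ?_
    norm_num

private lemma RTrie_mod {F m : ℕ} (hF : 0 < F) (h : F - m % F = 1) :
    (m + 1) % F = 0 ∧ (m + 1) / F = m / F + 1 := by
  have h1 := Nat.mod_lt m hF
  have h2 := Nat.div_add_mod m F
  have h3 : m + 1 = F * (m / F + 1) := by
    rw [mul_add, mul_one]
    omega
  constructor
  · rw [h3]
    exact Nat.mul_mod_right F _
  · rw [h3, Nat.mul_div_cancel_left _ hF]

private lemma RTrie_mod' {F m l : ℕ} (hF : 0 < F) (h : F - m % F = l + 2) :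
    (m + 1) % F = m % F + 1 ∧ (m + 1) / F = m / F := by
  have h1 := Nat.mod_lt m hF
  have h2 := Nat.div_add_mod m F
  have h3 : m + 1 = (m % F + 1) + F * (m / F) := by omega
  have h4 : m % F + 1 < F := by omega
  constructor
  · rw [h3, Nat.add_mul_mod_self_left, Nat.mod_eq_of_lt h4]
  · rw [h3, Nat.add_mul_div_left _ _ hF, Nat.div_eq_of_lt h4, zero_add]

private lemma RTrie_pay_R (F : ℕ) (hF : 0 < F) (z x s : BT) (y : List Bool)
    (ys : List (List Bool)) :
    R RTrie_pay (.node z (.node x (.node (enc F) (.node s (trie F 0 ys)))))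
      (.node s (trie F 0 (y :: ys))) 80 := by
  obtain ⟨m, hm⟩ : ∃ m, m = ys.length := ⟨_, rfl⟩
  have hlow : ∃ l, F - m % F = l + 1 := by
    have := Nat.mod_lt m hF
    exact ⟨F - m % F - 1, by omega⟩
  obtain ⟨l, hl⟩ := hlow
  have hT : (∃ a b, trie F 0 ys = .node a b ∧ enc (F - m % F) = a ∧ enc (m / F) = b) ∨
      (trie F 0 ys = .leaf ∧ enc (F - m % F) = enc F ∧ enc (m / F) = BT.leaf) := by
    cases ys with
    | nil =>
      right
      rw [List.length_nil] at hm
      subst hm
      refine ⟨rfl, ?_, ?_⟩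
      · rw [Nat.zero_mod, Nat.sub_zero]
      · rw [Nat.zero_div]
        rfl
    | cons y0 ys0 =>
      left
      refine ⟨_, _, rfl, ?_, ?_⟩
      · rw [hm]
      · rw [hm]
  have h1 := RTrie_pay_aux (enc F) s (trie F 0 ys) (enc (F - m % F)) (enc (m / F)) hT
  have hnew : trie F 0 (y :: ys) = .node (enc (F - (m + 1) % F)) (enc ((m + 1) / F)) := by
    rw [hm]
    rfl
  have h2 : R (.ite (.comp .rgt (.comp .lft .rgt))
          (.pair (.comp .rgt (.comp .lft .rgt)) (.comp .rgt .rgt))
          (.pair .lft (.pair .leaf (.comp .rgt .rgt))))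
      (.node (enc F) (.node (enc (F - m % F)) (enc (m / F)))) (trie F 0 (y :: ys)) 30 := by
    rw [hnew, hl, enc_succ]
    cases l with
    | zero =>
      obtain ⟨e1, e2⟩ := RTrie_mod hF hl
      rw [e1, e2, Nat.sub_zero, enc_succ, enc_zero]
      refine R.mono (R.iteL (R.comp (R.rgt' _ _) (R.comp (R.lft' _ _) (R.rgt' _ _)))
        (R.pair (R.lft' _ _) (R.pair (R.leaf _) (R.comp (R.rgt' _ _) (R.rgt' _ _))))) ?_
      norm_num
    | succ l =>
      obtain ⟨e1, e2⟩ := RTrie_mod' hF hl
      have e3 : F - (m % F + 1) = l + 1 := by omega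
      rw [e1, e2, e3, enc_succ]
      refine R.mono (R.iteN (R.comp (R.rgt' _ _) (R.comp (R.lft' _ _) (R.rgt' _ _)))
        (R.pair (R.comp (R.rgt' _ _) (R.comp (R.lft' _ _) (R.rgt' _ _)))
          (R.comp (R.rgt' _ _) (R.rgt' _ _)))) ?_
      norm_num
  refine R.mono (R.comp (R.comp (R.rgt' _ _) (R.rgt' _ _))
    (R.pair (R.comp (R.rgt' _ _) (R.lft' _ _)) (R.comp h1 h2))) ?_
  norm_num

private lemma RTrie_lft (F k : ℕ) (xs : List (List Bool)) :
    K.lft (trie F (k + 1) xs) = trie F k (sub false xs) := by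
  cases xs with
  | nil =>
    rw [trie_nil]
    exact (trie_nil F k).symm
  | cons x xs => rfl

private lemma RTrie_rgt (F k : ℕ) (xs : List (List Bool)) :
    K.rgt (trie F (k + 1) xs) = trie F k (sub true xs) := by
  cases xs with
  | nil =>
    rw [trie_nil]
    exact (trie_nil F k).symm
  | cons x xs => rfl

private lemma RTrie_run (F : ℕ) : ∀ (K : ℕ) (x : List Bool) (xs : List (List Bool))
    (s : BT), K ≤ x.length → ∃ (x' s' : BT) (y : List Bool) (ys : List (List Bool)),
    Lp RTrie_dn (.node (enc K) (.node (enc x) (.node (enc F) (.node s (trie F K xs)))))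
      (.node .leaf (.node x' (.node (enc F) (.node s' (trie F 0 ys))))) (61 * K) ∧
    Lp RTrie_up (.node s' (trie F 0 (y :: ys))) (.node s (trie F K (x :: xs))) (31 * K) := by
  intro K
  induction K with
  | zero =>
    intro x xs s _
    exact ⟨enc x, s, x, xs, Lp.refl _ _, Lp.refl _ _⟩
  | succ K ih =>
    intro x xs s hK
    cases x with
    | nil => simp at hK
    | cons b x =>
      rw [List.length_cons, Nat.add_le_add_iff_right] at hK
      cases b with
      | true =>
        obtain ⟨x', s', y, ys, h1, h2⟩ := ih x (sub true xs)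
          (.node (.node (.node .leaf .leaf) (trie F K (sub false xs))) s) hK
        refine ⟨x', s', y, ys, ?_, ?_⟩
        · have h3 := RTrie_dn_true (enc K) (enc x) (enc F) s (trie F (K + 1) xs) .leaf
          rw [RTrie_lft, RTrie_rgt] at h3
          exact ((Lp.step' h3).trans h1).mono (by omega)
        · have h3 := RTrie_up_true (trie F K (sub false xs)) s (trie F K (x :: sub true xs))
          exact (h2.trans (Lp.step' h3)).mono (by omega)
      | false =>
        obtain ⟨x', s', y, ys, h1, h2⟩ := ih x (sub false xs)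
          (.node (.node .leaf (trie F K (sub true xs))) s) hK
        refine ⟨x', s', y, ys, ?_, ?_⟩
        · have h3 := RTrie_dn_false (enc K) (enc x) (enc F) s (trie F (K + 1) xs) .leaf
          rw [RTrie_lft, RTrie_rgt] at h3
          exact ((Lp.step' h3).trans h1).mono (by omega)
        · have h3 := RTrie_up_false (trie F K (sub true xs)) s (trie F K (x :: sub false xs))
          exact (h2.trans (Lp.step' h3)).mono (by omega)

theorem upd_tp : ∃ (P : TP) (A : ℕ), ∀ (F K : ℕ) (x : List Bool) (xs : List (List Bool)),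
    0 < F → K ≤ x.length →
    R P (.node (enc x) (.node (enc K) (.node (enc F) (trie F K xs)))) (trie F K (x :: xs))
      (A * (K + 1)) := by
  refine ⟨.comp RTrie_init (.comp (.loop RTrie_dn) (.comp RTrie_pay (.comp (.loop RTrie_up) .rgt))),
    200, fun F K x xs hF hK => ?_⟩
  obtain ⟨x', s', y, ys, h1, h2⟩ := RTrie_run F K x xs .leaf hK
  have e1 := RTrie_init_R (enc x) (enc K) (enc F) (trie F K xs)
  have e2 := h1.finish rfl
  have e3 := RTrie_pay_R F hF .leaf x' s' y ys
  have e4 := h2.finish rfl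
  exact (R.comp e1 (R.comp e2 (R.comp e3 (R.comp e4 (R.rgt' _ _))))).mono (by omega)

end Pool.Agent.Lib.MP_33f9c4_lc.K
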