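import Pool.Agent.Lib.MP_33f9c4_lc.K.AClk
import Pool.Agent.Lib.MP_33f9c4_lc.K.APT
import Pool.Agent.Lib.MP_33f9c4_lc.K.RStrip
import Pool.Agent.Lib.MP_33f9c4_lc.K.RChk
import Pool.Agent.Lib.MP_33f9c4_lc.K.RTrie

set_option autoImplicit false

/-!
MODULE REntry. Processing one entry `e`: strip, run `U` with clock `k`, check that the output is a string of
length `n`, update the trie. State `node (enc e) (node T (enc (k, n, K, F)))` with `T = trie F K xs`.

`y := strip e`; if it is a leaf (`none`) return the right part of the input. Else `y = node (enc d) leaf`;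
`z := clk U (node (enc k) (enc d))`; if `lft z` is a leaf return the right part of the input. Else
`w := chk (node (enc n) (rgt z))`; if it is a leaf return the right part, else `w = enc (some x)` and the new
trie is `upd (node (enc x) (node (enc K) (node (enc F) T)))`.
-/

namespace Pool.Agent.Lib.MP_33f9c4_lc.K

open Pool.Agent.Lib.PolyTime

private theorem hit_unique {U : TP} {n k : ℕ} {e x x' : List Bool} (h : Hit U n k e x)
    (h' : Hit U n k e x') : x = x' := by
  obtain ⟨d, r, h1, -, -, h4⟩ := h
  obtain ⟨d', r', h1', -, -, h4'⟩ := h'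
  rw [h1] at h1'
  obtain rfl := Option.some.inj h1'
  have h5 := (Ev.det h4 h4').1
  rw [tr_eq_enc, tr_eq_enc] at h5
  exact Enc.inj h5

theorem tbl_eq_some {U : TP} {n k : ℕ} {e x : List Bool} :
    tbl U n k e = some x ↔ Hit U n k e x := by
  constructor
  · intro h
    unfold tbl at h
    split_ifs at h with h1
    rw [← Option.some.inj h]
    exact h1.choose_spec
  · intro h
    unfold tbl
    rw [dif_pos ⟨x, h⟩]
    exact congrArg some (hit_unique (Exists.choose_spec (⟨x, h⟩ : ∃ x, Hit U n k e x)) h)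

private theorem tbl_eq_none {U : TP} {n k : ℕ} {e : List Bool} (h : ∀ x, ¬ Hit U n k e x) :
    tbl U n k e = none := by
  unfold tbl
  rw [dif_neg]
  rintro ⟨x, hx⟩
  exact h x hx

/-- Step 1. -/
private def st1 (Ps : TP) : TP := .pair (.comp .lft Ps) .rgt
/-- Step 2. -/
private def st2 (C : TP) : TP :=
  .pair (.comp (.pair (.comp .rgt (.comp .rgt .lft)) (.comp .lft .lft)) C) .rgt
/-- Step 3. -/
private def st3 (Ck : TP) : TP :=
  .pair (.comp (.pair (.comp .rgt (.comp .rgt (.comp .rgt .lft))) (.comp .lft .rgt)) Ck) .rgt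
/-- Step 4. -/
private def st4 (Up : TP) : TP :=
  .pair (.comp (.pair (.comp .lft .lft)
    (.pair (.comp .rgt (.comp .rgt (.comp .rgt (.comp .rgt .lft))))
      (.pair (.comp .rgt (.comp .rgt (.comp .rgt (.comp .rgt .rgt)))) (.comp .rgt .lft)))) Up)
    (.comp .rgt .rgt)

private theorem r1 {Ps : TP} {e y s : BT} {c : ℕ} (h : R Ps e y c) :
    R (st1 Ps) (.node e s) (.node y s) (c + 4) :=
  (((R.lft' _ _).comp h).pair (.rgt' _ _)).mono (by omega)

private theorem r2 {C : TP} {d l T k q z : BT} {c : ℕ} (h : R C (.node k d) z c) :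
    R (st2 C) (.node (.node d l) (.node T (.node k q))) (.node z (.node T (.node k q)))
      (c + 20) :=
  (((((R.rgt' _ _).comp ((R.rgt' _ _).comp (.lft' _ _))).pair
    ((R.lft' _ _).comp (.lft' _ _))).comp h).pair (.rgt' _ _)).mono (by omega)

private theorem r3 {Ck : TP} {a y T k n q w : BT} {c : ℕ} (h : R Ck (.node n y) w c) :
    R (st3 Ck) (.node (.node a y) (.node T (.node k (.node n q))))
      (.node w (.node T (.node k (.node n q)))) (c + 20) :=
  (((((R.rgt' _ _).comp ((R.rgt' _ _).comp ((R.rgt' _ _).comp (.lft' _ _)))).pair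
    ((R.lft' _ _).comp (.rgt' _ _))).comp h).pair (.rgt' _ _)).mono (by omega)

private theorem r4 {Up : TP} {x l T k n K F T' : BT} {c : ℕ}
    (h : R Up (.node x (.node K (.node F T))) T' c) :
    R (st4 Up) (.node (.node x l) (.node T (.node k (.node n (.node K F)))))
      (.node T' (.node k (.node n (.node K F)))) (c + 50) :=
  ((((((R.lft' _ _).comp (.lft' _ _)).pair
    (((R.rgt' _ _).comp ((R.rgt' _ _).comp ((R.rgt' _ _).comp
      ((R.rgt' _ _).comp (.lft' _ _))))).pair
    (((R.rgt' _ _).comp ((R.rgt' _ _).comp ((R.rgt' _ _).comp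
      ((R.rgt' _ _).comp (.rgt' _ _))))).pair
      ((R.rgt' _ _).comp (.lft' _ _)))))).comp h).pair
    ((R.rgt' _ _).comp (.rgt' _ _))).mono (by omega)

theorem entry_tp (U : TP) : ∃ (P : TP) (A : ℕ), ∀ (k n K F : ℕ) (e : List Bool)
    (xs : List (List Bool)), 0 < F → K ≤ n →
    R P (.node (enc e) (.node (trie F K xs) (enc (k, n, K, F))))
      (.node (trie F K ((tbl U n k e).toList ++ xs)) (enc (k, n, K, F)))
      (A * (e.length + k + n + 1)) := by
  obtain ⟨Ps, As, hs⟩ := strip_tp
  obtain ⟨C, Ac, hc⟩ := clk U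
  obtain ⟨Ck, Ak, hk⟩ := chk_tp
  obtain ⟨Up, Au, hu⟩ := upd_tp
  refine ⟨.comp (st1 Ps) (.ite .lft (.comp (st2 C) (.ite (.comp .lft .lft)
    (.comp (st3 Ck) (.ite .lft (st4 Up) .rgt)) .rgt)) .rgt), As + Ac + Ak + Au + 200, ?_⟩
  intro k n K F e xs hF hK
  have hA : As * (e.length + 1) + Ac * (k + 1) + Ak * (n + 1) + Au * (K + 1) + 200
      ≤ (As + Ac + Ak + Au + 200) * (e.length + k + n + 1) := by
    have e1 : As * (e.length + 1) ≤ As * (e.length + k + n + 1) :=
      Nat.mul_le_mul_left _ (by omega)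
    have e2 : Ac * (k + 1) ≤ Ac * (e.length + k + n + 1) := Nat.mul_le_mul_left _ (by omega)
    have e3 : Ak * (n + 1) ≤ Ak * (e.length + k + n + 1) := Nat.mul_le_mul_left _ (by omega)
    have e4 : Au * (K + 1) ≤ Au * (e.length + k + n + 1) := Nat.mul_le_mul_left _ (by omega)
    have e5 : 200 * 1 ≤ 200 * (e.length + k + n + 1) := Nat.mul_le_mul_left _ (by omega)
    have e6 : (As + Ac + Ak + Au + 200) * (e.length + k + n + 1)
        = As * (e.length + k + n + 1) + Ac * (e.length + k + n + 1)
          + Ak * (e.length + k + n + 1) + Au * (e.length + k + n + 1)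
          + 200 * (e.length + k + n + 1) := by ring
    omega
  simp only [enc_prod]
  have h1 := r1 (s := .node (trie F K xs) (.node (enc k) (.node (enc n) (.node (enc K) (enc F)))))
    (hs e)
  rcases hse : strip e with _ | d
  · -- no leading one
    rw [hse] at h1
    have ht : tbl U n k e = none := tbl_eq_none (by
      rintro x ⟨d, r, h, -⟩
      rw [hse] at h
      exact absurd h (by simp))
    rw [ht]
    have h2 := h1.comp (R.iteL (f := .comp (st2 C) (.ite (.comp .lft .lft)
      (.comp (st3 Ck) (.ite .lft (st4 Up) .rgt)) .rgt)) (R.lft' _ _) (R.rgt' _ _))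
    exact h2.mono (by omega)
  · rw [hse] at h1
    obtain ⟨z, hz1, hz2, hz3⟩ := hc k (enc d)
    have h2 := r2 (l := .leaf) (T := trie F K xs)
      (q := .node (enc n) (.node (enc K) (enc F))) hz1
    by_cases hy : ∃ y r, r < k ∧ Ev U (enc d) y r
    · obtain ⟨y, r, hr, hy⟩ := hy
      obtain ⟨m, hm⟩ : ∃ m, k - r = m + 1 := ⟨k - r - 1, by omega⟩
      have hz := hz2 y r hy hr
      rw [hm, enc_succ] at hz
      rw [hz] at h2
      by_cases hx : ∃ x : List Bool, x.length = n ∧ y = enc x
      · obtain ⟨x, hx1, hx2⟩ := hx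
        have ht : tbl U n k e = some x := tbl_eq_some.2 ⟨d, r, hse, hx1, hr, by
          rw [tr_eq_enc, tr_eq_enc, ← hx2]
          exact hy⟩
        rw [ht]
        have h3 := r3 (a := .node .leaf (enc m)) (T := trie F K xs) (k := enc k)
          (q := .node (enc K) (enc F)) ((hk n y).1 x hx1 hx2)
        have h4 := r4 (l := .leaf) (k := enc k) (n := enc n)
          (hu F K x xs hF (by omega))
        have h5 := h1.comp (R.iteN (g := .rgt) (R.lft' _ _) (h2.comp
          (R.iteN (g := .rgt) ((R.lft' _ _).comp (R.lft' _ _))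
            (h3.comp (R.iteN (g := .rgt) (R.lft' _ _) h4)))))
        exact h5.mono (by omega)
      · have ht : tbl U n k e = none := tbl_eq_none (by
          rintro x ⟨d', r', h3, h4, h5, h6⟩
          rw [hse] at h3
          obtain rfl := Option.some.inj h3
          rw [tr_eq_enc, tr_eq_enc] at h6
          exact hx ⟨x, h4, (Ev.det hy h6).1⟩)
        rw [ht]
        have h3 := r3 (a := .node .leaf (enc m)) (T := trie F K xs) (k := enc k)
          (q := .node (enc K) (enc F)) ((hk n y).2 hx)
        have h5 := h1.comp (R.iteN (g := .rgt) (R.lft' _ _) (h2.comp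
          (R.iteN (g := .rgt) ((R.lft' _ _).comp (R.lft' _ _))
            (h3.comp (R.iteL (f := st4 Up) (R.lft' _ _) (R.rgt' _ _))))))
        exact h5.mono (by omega)
    · have ht : tbl U n k e = none := tbl_eq_none (by
        rintro x ⟨d', r', h3, h4, h5, h6⟩
        rw [hse] at h3
        obtain rfl := Option.some.inj h3
        rw [tr_eq_enc] at h6
        exact hy ⟨_, r', h5, h6⟩)
      rw [ht]
      have hl : lft z = .leaf := hz3 hy
      have h3 : R (.comp .lft .lft) (.node z (.node (trie F K xs) (.node (enc k)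
          (.node (enc n) (.node (enc K) (enc F)))))) .leaf 3 := by
        have := (R.lft' z (.node (trie F K xs) (.node (enc k)
          (.node (enc n) (.node (enc K) (enc F)))))).comp (R.lft z)
        rw [hl] at this
        exact this
      have h5 := h1.comp (R.iteN (g := .rgt) (R.lft' _ _) (h2.comp
        (R.iteL (f := .comp (st3 Ck) (.ite .lft (st4 Up) .rgt)) h3 (R.rgt' _ _))))
      exact h5.mono (by omega)

end Pool.Agent.Lib.MP_33f9c4_lc.K
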