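import Pool.Agent.Lib.MP_33f9c4_lc.K.RDef

set_option autoImplicit false

/-!
MODULE REnum. Enumeration of all entries matching a template, by depth first search.

`E P` = first `X := node [(t, [])] st`, then `.loop body`, then `.rgt`. The state is
`node stack st`, the stack is a list of items `node (enc t') (enc s)`. Body, for the state
`node (node (node t' s) rest) st`:
* if `t'` is a leaf: `node rest (P (node s st))`;
* else if the head `lft t'` is a node (`some b`, `enc (some b) = node (enc b) leaf`): replace the item by
  `node (rgt t') (node (lft (lft t')) s)`;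
* else (`none`) replace the item by the two items `node (rgt t') (node leaf s)` (first) and
  `node (rgt t') (node (node leaf leaf) s)`.
-/

namespace Pool.Agent.Lib.MP_33f9c4_lc.K

open Pool.Agent.Lib.PolyTime

/-- The template of the first item. -/
private def eT : TP := .comp .lft (.comp .lft .lft)
/-- The bits of the first item. -/
private def eS : TP := .comp .lft (.comp .lft .rgt)
/-- The other items. -/
private def eR : TP := .comp .lft .rgt
/-- The head of the template. -/
private def eH : TP := .comp eT .lft
/-- The tail of the template. -/
private def eU : TP := .comp eT .rgt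

/-- The body of the loop. -/
private def eBody (P : TP) : TP :=
  .ite eT
    (.ite eH
      (.pair (.pair (.pair eU (.pair (.comp eH .lft) eS)) eR) .rgt)
      (.pair (.pair (.pair eU (.pair .leaf eS))
        (.pair (.pair eU (.pair (.pair .leaf .leaf) eS)) eR)) .rgt))
    (.pair eR (.comp (.pair eS .rgt) P))

private theorem rT (t s rest st : BT) : R eT (.node (.node (.node t s) rest) st) t 5 :=
  (R.lft' _ _).comp ((R.lft' _ _).comp (.lft' _ _))

private theorem rS (t s rest st : BT) : R eS (.node (.node (.node t s) rest) st) s 5 :=
  (R.lft' _ _).comp ((R.lft' _ _).comp (.rgt' _ _))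

private theorem rR (i rest st : BT) : R eR (.node (.node i rest) st) rest 3 :=
  (R.lft' _ _).comp (.rgt' _ _)

private theorem rH (h u s rest st : BT) :
    R eH (.node (.node (.node (.node h u) s) rest) st) h 7 :=
  (rT _ _ _ _).comp (.lft' _ _)

private theorem rU (h u s rest st : BT) :
    R eU (.node (.node (.node (.node h u) s) rest) st) u 7 :=
  (rT _ _ _ _).comp (.rgt' _ _)

private theorem body_nil (P : TP) (s rest st st' : BT) (c : ℕ) (h : R P (.node s st) st' c) :
    R (eBody P) (.node (.node (.node .leaf s) rest) st) (.node rest st') (100 + c) := by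
  have h1 := (rR (.node .leaf s) rest st).pair
    (((rS .leaf s rest st).pair (R.rgt' _ _)).comp h)
  exact (R.iteL (rT .leaf s rest st) h1).mono (by omega)

private theorem body_some (P : TP) (b : Bool) (u s rest st : BT) :
    R (eBody P) (.node (.node (.node (.node (.node (enc b) .leaf) u) s) rest) st)
      (.node (.node (.node u (.node (enc b) s)) rest) st) 100 := by
  have h1 := (((rU (.node (enc b) .leaf) u s rest st).pair
    (((rH (.node (enc b) .leaf) u s rest st).comp (.lft' _ _)).pair (rS _ _ _ _))).pair
    (rR _ _ _)).pair (R.rgt' (.node (.node (.node (.node (enc b) .leaf) u) s) rest) st)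
  exact (R.iteN (rT (.node (.node (enc b) .leaf) u) s rest st)
    (R.iteN (rH (.node (enc b) .leaf) u s rest st) h1)).mono (by omega)

private theorem body_none (P : TP) (u s rest st : BT) :
    R (eBody P) (.node (.node (.node (.node .leaf u) s) rest) st)
      (.node (.node (.node u (.node .leaf s))
        (.node (.node u (.node (.node .leaf .leaf) s)) rest)) st) 100 := by
  have h1 := (((rU .leaf u s rest st).pair ((R.leaf _).pair (rS _ _ _ _))).pair
    (((rU .leaf u s rest st).pair (((R.leaf _).pair (.leaf _)).pair (rS _ _ _ _))).pair
      (rR _ _ _))).pair (R.rgt' (.node (.node (.node .leaf u) s) rest) st)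
  exact (R.iteN (rT (.node .leaf u) s rest st)
    (R.iteL (rH .leaf u s rest st) h1)).mono (by omega)

private theorem enum_lp (P : TP) (S : List (List Bool) → BT) (c : ℕ)
    (t : List (Option Bool)) : ∀ (s : List Bool) (rest : BT) (es : List (List Bool)),
    (∀ e ∈ ents t s, ∀ es, R P (.node (enc e) (S es)) (S (e :: es)) c) →
    Lp (eBody P) (.node (.node (.node (enc t) (enc s)) rest) (S es))
      (.node rest (S ((ents t s).reverse ++ es))) ((101 * (t.length + 1) + c) * 2 ^ free t) := by
  induction t with
  | nil =>
    intro s rest es h
    have h1 := body_nil P (enc s) rest (S es) (S (s :: es)) c (h s (by simp [ents]) es)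
    refine (Lp.step' h1).mono ?_
    simp only [free, List.count_nil, pow_zero, List.length_nil]
    omega
  | cons o t ih =>
    intro s rest es h
    cases o with
    | none =>
      have h1 := Lp.step' (body_none P (enc t) (enc s) rest (S es))
      have h2 := ih (false :: s) (.node (.node (enc t) (enc (true :: s))) rest) es
        (fun e he => h e (by simp only [ents, List.mem_append]; exact .inl he))
      have h3 := ih (true :: s) rest ((ents t (false :: s)).reverse ++ es)
        (fun e he => h e (by simp only [ents, List.mem_append]; exact .inr he))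
      have h4 := h1.trans (h2.trans h3)
      have h5 : (ents (none :: t) s).reverse ++ es
          = (ents t (true :: s)).reverse ++ ((ents t (false :: s)).reverse ++ es) := by
        simp [ents]
      rw [h5]
      refine h4.mono ?_
      have h6 : free (none :: t) = free t + 1 := by simp [free]
      rw [h6, pow_succ, List.length_cons]
      have h7 : 1 ≤ 2 ^ free t := Nat.one_le_two_pow
      nlinarith
    | some b =>
      have h1 := Lp.step' (body_some P b (enc t) (enc s) rest (S es))
      have h2 := ih (b :: s) rest es (fun e he => h e he)
      refine (h1.trans h2).mono ?_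
      have h6 : free (some b :: t) = free t := by simp [free]
      rw [h6, List.length_cons]
      have h7 : 1 ≤ 2 ^ free t := Nat.one_le_two_pow
      nlinarith

theorem enum_tp : ∃ (E : TP → TP) (A : ℕ), ∀ (P : TP) (S : List (List Bool) → BT) (c : ℕ)
    (t : List (Option Bool)) (es₀ : List (List Bool)),
    (∀ e ∈ ents t [], ∀ es, R P (.node (enc e) (S es)) (S (e :: es)) c) →
    R (E P) (.node (enc t) (S es₀)) (S ((ents t []).reverse ++ es₀))
      ((A * (t.length + 1) + c) * 2 ^ free t) := by
  refine ⟨fun P => .comp (.pair (.pair (.pair .lft .leaf) .leaf) .rgt)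
    (.comp (.loop (eBody P)) .rgt), 200, ?_⟩
  intro P S c t es₀ h
  have h1 : R (.pair (.pair (.pair .lft .leaf) .leaf) .rgt) (.node (enc t) (S es₀))
      (.node (.node (.node (enc t) (enc ([] : List Bool))) .leaf) (S es₀)) 7 :=
    (((R.lft' _ _).pair (.leaf _)).pair (.leaf _)).pair (.rgt' _ _)
  have h2 := (enum_lp P S c t [] .leaf es₀ h).finish rfl
  have h3 := h1.comp (h2.comp (.rgt' _ _))
  refine h3.mono ?_
  have h7 : 1 ≤ 2 ^ free t := Nat.one_le_two_pow
  nlinarith

end Pool.Agent.Lib.MP_33f9c4_lc.K
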