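import Pool.Agent.Lib.MP_33f9c4_lc.K.RDef

set_option autoImplicit false

/-!
MODULE RFlat. Flattening a trie into the list of pairs (reversed prefix, high count).

State `node stack res` (`res` a list), the stack is a list of items `node (enc K) (node T (enc p))`. Start:
one item `(K, T, [])`, `res = []`. Body, for the item `(K', T, p)`:
* `T = leaf`: pop only;
* `K' = 0` (and `T` a node `node low high`): pop and `res := (p, high) :: res`;
* `K' = k + 1`, `T = node a b`: replace the item by `(k, b, true :: p)` (on top) and `(k, a, false :: p)`.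
As the item with `true` is processed first and results are put in front of `res`, the final list is
`flat F K xs []` in the right order. Lemma by induction on `K`, for all `xs`, `p`, `rest`, `res`:
`Lp body (node (node (node (enc K) (node (trie F K xs) (enc p))) rest) res) (node rest (enc-append of flat F K xs p in front of res))`
within `a * (2 ^ (K+1) - 1)` (for a list `res = enc l` the result is `enc (flat F K xs p ++ l)`).
-/

namespace Pool.Agent.Lib.MP_33f9c4_lc.K

open Pool.Agent.Lib.PolyTime

/-- the stack item `node k (node T p)` -/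
def rFlatItem : TP := .comp .lft .lft
/-- the depth of the item -/
def rFlatK : TP := .comp rFlatItem .lft
/-- the trie of the item -/
def rFlatT : TP := .comp rFlatItem (.comp .rgt .lft)
/-- the prefix of the item -/
def rFlatP : TP := .comp rFlatItem (.comp .rgt .rgt)
/-- the other items -/
def rFlatR : TP := .comp .lft .rgt
/-- drop the item -/
def rFlatPop : TP := .pair rFlatR .rgt
/-- move the item to the result -/
def rFlatHi : TP := .pair rFlatR (.pair (.pair rFlatP (.comp rFlatT .rgt)) .rgt)
/-- replace the item by its two successors -/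
def rFlatStep : TP :=
  .pair (.pair (.pair (.comp rFlatK .rgt) (.pair (.comp rFlatT .rgt) (.pair (.pair .leaf .leaf)
      rFlatP)))
    (.pair (.pair (.comp rFlatK .rgt) (.pair (.comp rFlatT .lft) (.pair .leaf rFlatP))) rFlatR))
    .rgt
/-- one turn -/
def rFlatBody : TP := .ite rFlatT (.ite rFlatK rFlatStep rFlatHi) rFlatPop

theorem rFlat_item (k T p rest res : BT) :
    R rFlatItem (.node (.node (.node k (.node T p)) rest) res) (.node k (.node T p)) 3 :=
  (R.lft' _ _).comp (R.lft' _ _)

theorem rFlat_K (k T p rest res : BT) :
    R rFlatK (.node (.node (.node k (.node T p)) rest) res) k 5 :=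
  (rFlat_item k T p rest res).comp (R.lft' _ _)

theorem rFlat_T (k T p rest res : BT) :
    R rFlatT (.node (.node (.node k (.node T p)) rest) res) T 7 :=
  (rFlat_item k T p rest res).comp ((R.rgt' _ _).comp (R.lft' _ _))

theorem rFlat_P (k T p rest res : BT) :
    R rFlatP (.node (.node (.node k (.node T p)) rest) res) p 7 :=
  (rFlat_item k T p rest res).comp ((R.rgt' _ _).comp (R.rgt' _ _))

theorem rFlat_R (item rest res : BT) : R rFlatR (.node (.node item rest) res) rest 3 :=
  (R.lft' _ _).comp (R.rgt' _ _)

theorem rFlat_pop (k p rest res : BT) :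
    R rFlatBody (.node (.node (.node k (.node .leaf p)) rest) res) (.node rest res) 99 :=
  (R.iteL (rFlat_T k .leaf p rest res) ((rFlat_R _ rest res).pair (R.rgt' _ _))).mono
    (by norm_num)

theorem rFlat_hi (u v p rest res : BT) :
    R rFlatBody (.node (.node (.node .leaf (.node (.node u v) p)) rest) res)
      (.node rest (.node (.node p v) res)) 99 :=
  (R.iteN (rFlat_T .leaf (.node u v) p rest res)
    (R.iteL (rFlat_K .leaf (.node u v) p rest res)
      ((rFlat_R _ rest res).pair
        (((rFlat_P .leaf (.node u v) p rest res).pair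
          ((rFlat_T .leaf (.node u v) p rest res).comp (R.rgt' _ _))).pair (R.rgt' _ _))))).mono
    (by norm_num)

theorem rFlat_step (k u v p rest res : BT) :
    R rFlatBody (.node (.node (.node (.node .leaf k) (.node (.node u v) p)) rest) res)
      (.node (.node (.node k (.node v (.node (.node .leaf .leaf) p)))
        (.node (.node k (.node u (.node .leaf p))) rest)) res) 99 :=
  (R.iteN (rFlat_T (.node .leaf k) (.node u v) p rest res)
    (R.iteN (rFlat_K (.node .leaf k) (.node u v) p rest res)
      (((((rFlat_K (.node .leaf k) (.node u v) p rest res).comp (R.rgt' _ _)).pair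
        (((rFlat_T (.node .leaf k) (.node u v) p rest res).comp (R.rgt' _ _)).pair
          (((R.leaf _).pair (R.leaf _)).pair
            (rFlat_P (.node .leaf k) (.node u v) p rest res)))).pair
        ((((rFlat_K (.node .leaf k) (.node u v) p rest res).comp (R.rgt' _ _)).pair
          (((rFlat_T (.node .leaf k) (.node u v) p rest res).comp (R.lft' _ _)).pair
            ((R.leaf _).pair (rFlat_P (.node .leaf k) (.node u v) p rest res)))).pair
          (rFlat_R _ rest res))).pair (R.rgt' _ _)))).mono (by norm_num)

theorem rFlat_loop (F : ℕ) (K : ℕ) : ∀ (xs : List (List Bool)) (p : List Bool) (rest : BT)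
    (l : List (List Bool × ℕ)), ∃ n, n + 100 ≤ 100 * 2 ^ (K + 1) ∧
    Lp rFlatBody (.node (.node (.node (enc K) (.node (trie F K xs) (enc p))) rest) (enc l))
      (.node rest (enc (flat F K xs p ++ l))) n := by
  induction K with
  | zero =>
    intro xs p rest l
    refine ⟨100, by norm_num, ?_⟩
    by_cases hx : xs.isEmpty
    · simp only [trie, flat, hx, if_true, List.nil_append]
      exact Lp.step rfl (rFlat_pop _ _ _ _)
    · simp only [trie, flat, hx]
      exact Lp.step rfl (rFlat_hi _ _ _ _ _)
  | succ K ih =>
    intro xs p rest l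
    by_cases hx : xs.isEmpty
    · refine ⟨100, ?_, ?_⟩
      · have h1 : 1 ≤ 2 ^ (K + 1) := Nat.one_le_two_pow
        rw [pow_succ 2 (K + 1)]
        omega
      · simp only [trie, flat, hx, if_true, List.nil_append]
        exact Lp.step rfl (rFlat_pop _ _ _ _)
    · obtain ⟨n1, hn1, h1⟩ := ih (sub true xs) (true :: p)
        (.node (.node (enc K) (.node (trie F K (sub false xs)) (enc (false :: p)))) rest) l
      obtain ⟨n2, hn2, h2⟩ := ih (sub false xs) (false :: p) rest
        (flat F K (sub true xs) (true :: p) ++ l)
      refine ⟨99 + 1 + (n1 + n2), ?_, ?_⟩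
      · rw [pow_succ 2 (K + 1)]
        omega
      · simp only [trie, flat, hx, Bool.false_eq_true, if_false]
        have h0 : Lp rFlatBody (.node (.node (.node (enc (K + 1)) (.node (.node
            (trie F K (sub false xs)) (trie F K (sub true xs))) (enc p))) rest) (enc l))
            (.node (.node (.node (enc K) (.node (trie F K (sub true xs)) (enc (true :: p))))
              (.node (.node (enc K) (.node (trie F K (sub false xs)) (enc (false :: p))))
                rest)) (enc l)) (99 + 1) := Lp.step rfl (rFlat_step _ _ _ _ _ _)
        have h3 := h0.trans (h1.trans h2)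
        rw [List.append_assoc]
        exact h3

theorem flat_tp : ∃ (P : TP) (A : ℕ), ∀ (F K : ℕ) (xs : List (List Bool)), 0 < F →
    R P (.node (enc K) (trie F K xs)) (enc (flat F K xs [])) (A * 2 ^ K) := by
  refine ⟨.comp (.pair (.pair (.pair .lft (.pair .rgt .leaf)) .leaf) .leaf)
    (.comp (.loop rFlatBody) .rgt), 300, fun F K xs _ => ?_⟩
  have h1 : R (.pair (.pair (.pair .lft (.pair .rgt .leaf)) .leaf) .leaf)
      (.node (enc K) (trie F K xs))
      (.node (.node (.node (enc K) (.node (trie F K xs) (enc ([] : List Bool)))) .leaf)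
        (enc ([] : List (List Bool × ℕ)))) 9 :=
    (((R.lft' _ _).pair ((R.rgt' _ _).pair (R.leaf _))).pair (R.leaf _)).pair (R.leaf _)
  obtain ⟨n, hn, h⟩ := rFlat_loop F K xs [] .leaf []
  have h2 := h.finish rfl
  have h3 := h1.comp (h2.comp (R.rgt' _ _))
  rw [List.append_nil] at h3
  refine h3.mono ?_
  have h5 : 1 ≤ 2 ^ K := Nat.one_le_two_pow
  rw [pow_succ] at hn
  omega

end Pool.Agent.Lib.MP_33f9c4_lc.K
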