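import Pool.Agent.Lib.MP_33f9c4_lc.K.RDef

set_option autoImplicit false

/-!
MODULE RHist (no programs). Properties of the list `flat`.

By induction on `K` with a general `p`: `(q, c) ∈ flat F K xs p` iff there is `y` with `y.length = K`,
`q = y.reverse ++ p`, `cnt y xs ≠ 0` and `c = cnt y xs / F`; `cnt (b :: y) xs = cnt y (sub b xs)`,
`cnt [] xs = xs.length`.
-/

namespace Pool.Agent.Lib.MP_33f9c4_lc.K

open Pool.Agent.Lib.PolyTime

theorem cnt_nil (xs : List (List Bool)) : cnt [] xs = xs.length := by
  unfold cnt
  rw [List.countP_eq_length]
  intro x _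
  exact List.isPrefixOf_nil_left

theorem cnt_cons (b : Bool) (y : List Bool) (xs : List (List Bool)) :
    cnt (b :: y) xs = cnt y (sub b xs) := by
  unfold cnt sub
  rw [List.countP_map, List.countP_filter]
  refine List.countP_congr fun x _ => ?_
  cases x with
  | nil => simp
  | cons c x =>
    cases b <;> cases c <;> simp [List.isPrefixOf]

private lemma RHist_cnt_empty (y : List Bool) : cnt y [] = 0 := rfl

private lemma RHist_mem (F : ℕ) : ∀ (k : ℕ) (xs : List (List Bool)) (p q : List Bool) (c : ℕ),
    (q, c) ∈ flat F k xs p ↔
      ∃ y : List Bool, y.length = k ∧ q = y.reverse ++ p ∧ cnt y xs ≠ 0 ∧ c = cnt y xs / F := by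
  intro k
  induction k with
  | zero =>
    intro xs p q c
    cases xs with
    | nil =>
      constructor
      · intro h
        simp [flat] at h
      · rintro ⟨y, _, _, h, _⟩
        exact absurd (RHist_cnt_empty y) h
    | cons x xs =>
      have e : flat F 0 (x :: xs) p = [(p, (x :: xs).length / F)] := rfl
      rw [e, List.mem_singleton, Prod.mk.injEq]
      constructor
      · rintro ⟨h1, h2⟩
        refine ⟨[], rfl, ?_, ?_, ?_⟩
        · rw [h1]
          rfl
        · rw [cnt_nil, List.length_cons]
          omega
        · rw [cnt_nil]
          exact h2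
      · rintro ⟨y, h1, h2, _, h4⟩
        rw [List.length_eq_zero_iff] at h1
        subst h1
        rw [cnt_nil] at h4
        exact ⟨h2, h4⟩
  | succ k ih =>
    intro xs p q c
    have e : xs ≠ [] → flat F (k + 1) xs p =
        flat F k (sub false xs) (false :: p) ++ flat F k (sub true xs) (true :: p) := by
      intro h
      cases xs with
      | nil => exact absurd rfl h
      | cons x xs => rfl
    by_cases hx : xs = []
    · subst hx
      constructor
      · intro h
        simp [flat] at h
      · rintro ⟨y, _, _, h, _⟩
        exact absurd (RHist_cnt_empty y) h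
    · rw [e hx, List.mem_append, ih, ih]
      constructor
      · rintro (⟨y, h1, h2, h3, h4⟩ | ⟨y, h1, h2, h3, h4⟩)
        · refine ⟨false :: y, ?_, ?_, ?_, ?_⟩
          · rw [List.length_cons, h1]
          · rw [h2, List.reverse_cons, List.append_assoc]
            rfl
          · rw [cnt_cons]
            exact h3
          · rw [cnt_cons]
            exact h4
        · refine ⟨true :: y, ?_, ?_, ?_, ?_⟩
          · rw [List.length_cons, h1]
          · rw [h2, List.reverse_cons, List.append_assoc]
            rfl
          · rw [cnt_cons]
            exact h3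
          · rw [cnt_cons]
            exact h4
      · rintro ⟨y, h1, h2, h3, h4⟩
        cases y with
        | nil => simp at h1
        | cons b y =>
          rw [List.length_cons, Nat.add_right_cancel_iff] at h1
          rw [cnt_cons] at h3 h4
          rw [List.reverse_cons, List.append_assoc, List.singleton_append] at h2
          cases b with
          | false => exact Or.inl ⟨y, h1, h2, h3, h4⟩
          | true => exact Or.inr ⟨y, h1, h2, h3, h4⟩

theorem mem_flat {F K : ℕ} {xs : List (List Bool)} {q : List Bool} {c : ℕ} :
    (q, c) ∈ flat F K xs [] ↔ q.length = K ∧ cnt q.reverse xs ≠ 0 ∧ c = cnt q.reverse xs / F := by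
  rw [RHist_mem]
  constructor
  · rintro ⟨y, h1, h2, h3, h4⟩
    rw [List.append_nil] at h2
    subst h2
    rw [List.reverse_reverse, List.length_reverse]
    exact ⟨h1, h3, h4⟩
  · rintro ⟨h1, h2, h3⟩
    refine ⟨q.reverse, ?_, ?_, h2, h3⟩
    · rw [List.length_reverse, h1]
    · rw [List.reverse_reverse, List.append_nil]

private lemma RHist_nodup (F : ℕ) : ∀ (k : ℕ) (xs : List (List Bool)) (p : List Bool),
    ((flat F k xs p).map Prod.fst).Nodup := by
  intro k
  induction k with
  | zero =>
    intro xs p
    cases xs with
    | nil => exact List.nodup_nil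
    | cons x xs => exact List.nodup_singleton _
  | succ k ih =>
    intro xs p
    cases xs with
    | nil => exact List.nodup_nil
    | cons x xs =>
      have e : flat F (k + 1) (x :: xs) p =
        flat F k (sub false (x :: xs)) (false :: p) ++ flat F k (sub true (x :: xs)) (true :: p) :=
        rfl
      rw [e, List.map_append, List.nodup_append]
      refine ⟨ih _ _, ih _ _, ?_⟩
      intro a ha b hb hab
      subst hab
      rw [List.mem_map] at ha hb
      obtain ⟨⟨q1, c1⟩, h1, h2⟩ := ha
      obtain ⟨⟨q2, c2⟩, h3, h4⟩ := hb
      rw [RHist_mem] at h1 h3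
      obtain ⟨y, hy1, hy2, _⟩ := h1
      obtain ⟨z, hz1, hz2, _⟩ := h3
      simp only at h2 h4
      have h5 : y.reverse ++ false :: p = z.reverse ++ true :: p := by
        rw [← hy2, ← hz2, h2, h4]
      have h6 := (List.append_inj h5 (by rw [List.length_reverse, List.length_reverse, hy1, hz1])).2
      simp at h6

theorem nodup_flat (F K : ℕ) (xs : List (List Bool)) :
    ((flat F K xs []).map Prod.fst).Nodup := RHist_nodup F K xs []

private lemma RHist_sub_perm (b : Bool) {xs ys : List (List Bool)} (h : xs.Perm ys) :
    (sub b xs).Perm (sub b ys) := by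
  unfold sub
  exact (h.filter _).map _

private lemma RHist_perm (F : ℕ) : ∀ (k : ℕ) (xs ys : List (List Bool)), xs.Perm ys →
    ∀ p : List Bool, flat F k xs p = flat F k ys p := by
  intro k
  induction k with
  | zero =>
    intro xs ys h p
    cases xs with
    | nil =>
      rw [h.nil_eq]
    | cons x xs =>
      cases ys with
      | nil => exact absurd h.eq_nil (List.cons_ne_nil _ _)
      | cons y ys =>
        have e1 : flat F 0 (x :: xs) p = [(p, (x :: xs).length / F)] := rfl
        have e2 : flat F 0 (y :: ys) p = [(p, (y :: ys).length / F)] := rfl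
        rw [e1, e2, h.length_eq]
  | succ k ih =>
    intro xs ys h p
    cases xs with
    | nil =>
      rw [h.nil_eq]
    | cons x xs =>
      cases ys with
      | nil => exact absurd h.eq_nil (List.cons_ne_nil _ _)
      | cons y ys =>
        have e1 : flat F (k + 1) (x :: xs) p =
          flat F k (sub false (x :: xs)) (false :: p) ++ flat F k (sub true (x :: xs)) (true :: p) :=
          rfl
        have e2 : flat F (k + 1) (y :: ys) p =
          flat F k (sub false (y :: ys)) (false :: p) ++ flat F k (sub true (y :: ys)) (true :: p) :=
          rfl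
        rw [e1, e2, ih _ _ (RHist_sub_perm false h), ih _ _ (RHist_sub_perm true h)]

theorem flat_perm {F K : ℕ} {xs ys : List (List Bool)} (h : xs.Perm ys) (p : List Bool) :
    flat F K xs p = flat F K ys p := RHist_perm F K xs ys h p

private lemma RHist_sub_length (xs : List (List Bool)) :
    (sub false xs).length + (sub true xs).length ≤ xs.length := by
  induction xs with
  | nil => exact le_rfl
  | cons x xs ih =>
    unfold sub at ih ⊢
    simp only [List.length_map] at ih ⊢
    cases x with
    | nil => simp; omega
    | cons b x =>
      cases b <;> simp <;> omega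

private lemma RHist_bools (p : List Bool) : size p ≤ 4 * p.length + 1 := by
  induction p with
  | nil => exact le_rfl
  | cons b p ih =>
    rw [size_cons, List.length_cons]
    have : size b ≤ 3 := by cases b <;> decide
    omega

private lemma RHist_size (F : ℕ) : ∀ (k : ℕ) (xs : List (List Bool)) (p : List Bool),
    size (flat F k xs p) ≤ 2 ^ k * (4 * (k + p.length) + 4) + 2 * (xs.length / F) + 1 := by
  intro k
  induction k with
  | zero =>
    intro xs p
    cases xs with
    | nil =>
      have : size (flat F 0 [] p) = 1 := rfl
      rw [this]
      omega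
    | cons x xs =>
      have e : flat F 0 (x :: xs) p = [(p, (x :: xs).length / F)] := rfl
      rw [e, size_cons, size_prod, size_nil, size_nat]
      have := RHist_bools p
      simp only
      omega
  | succ k ih =>
    intro xs p
    cases xs with
    | nil =>
      have : size (flat F (k + 1) [] p) = 1 := rfl
      rw [this]
      omega
    | cons x xs =>
      have e : flat F (k + 1) (x :: xs) p =
        flat F k (sub false (x :: xs)) (false :: p) ++ flat F k (sub true (x :: xs)) (true :: p) :=
        rfl
      have h1 := size_append (flat F k (sub false (x :: xs)) (false :: p))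
        (flat F k (sub true (x :: xs)) (true :: p))
      have h2 := ih (sub false (x :: xs)) (false :: p)
      have h3 := ih (sub true (x :: xs)) (true :: p)
      rw [List.length_cons] at h2 h3
      have h4 : (sub false (x :: xs)).length / F + (sub true (x :: xs)).length / F ≤
          (x :: xs).length / F :=
        Nat.div_add_div_le_add_div.trans (Nat.div_le_div_right (RHist_sub_length _))
      rw [e]
      have h5 : 2 ^ (k + 1) * (4 * (k + 1 + p.length) + 4) =
          2 ^ k * (4 * (k + (p.length + 1)) + 4) + 2 ^ k * (4 * (k + (p.length + 1)) + 4) := by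
        ring
      rw [h5]
      omega

/-- The size of the list, if there are at most `F * N` strings. -/
theorem size_flat_le {F K N : ℕ} {xs : List (List Bool)} (hF : 0 < F)
    (hN : xs.length ≤ F * N) : size (flat F K xs []) ≤ 2 ^ K * (6 * K + 20) + 2 * N := by
  have h1 := RHist_size F K xs []
  have h2 : xs.length / F ≤ N := by
    calc xs.length / F ≤ F * N / F := Nat.div_le_div_right hN
      _ = N := Nat.mul_div_cancel_left N hF
  rw [List.length_nil, add_zero] at h1
  have h3 : 2 ^ K * (4 * K + 4) + 1 ≤ 2 ^ K * (6 * K + 20) := by
    have h4 : 1 ≤ 2 ^ K := Nat.one_le_two_pow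
    nlinarith
  omega

end Pool.Agent.Lib.MP_33f9c4_lc.K
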