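import Pool.Agent.Lib.MP_33f9c4_lc.K.RTest
import Pool.Agent.Lib.MP_33f9c4_lc.K.RFlat
import Pool.Agent.Lib.MP_33f9c4_lc.K.RHist
import Pool.Agent.Lib.PolyTime.BinNat

set_option autoImplicit false

/-!
# The diagonalising machine with arbitrary polynomial-time parameter and message functions

Program, on the input `w`: `H := 2^(prm1 w)`; `(t, m, K, n, e0, e1) := prm2 (w, H)`;
`N0 := 2^e0`, `F := 2^e1`; read the tables into a trie; flatten it to the list `hist`;
`pres := msg (w, H, N0, hist)`; test all extensions of the elements of `pres` with `M`; output the first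
one which `M` declares random.
-/

namespace Pool.Agent.Lib.MP_33f9c4_lc.K

open Pool.Agent.Lib.PolyTime

/-- `X := right^k X` (at least one step). -/
private def rm : ℕ → TP
  | 0 => .id
  | k + 1 => .comp .rgt (rm k)

private theorem R.rm0 (x : BT) : R (rm 0) x x 1 := .id x

private theorem R.rmS {k t : ℕ} {a x y : BT} (h : R (rm k) x y t) :
    R (rm (k + 1)) (.node a x) y (t + 2) :=
  ((R.rgt' a x).comp h).mono (by omega)

/-- selectors on `node (node w H) (t, m, K, n, e0, e1)` -/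
private def sw : TP := .comp .lft .lft
private def sH : TP := .comp .lft .rgt
private def st' : TP := .comp .rgt .lft
private def sm : TP := .comp .rgt (.comp (rm 1) .lft)
private def sK : TP := .comp .rgt (.comp (rm 2) .lft)
private def sn : TP := .comp .rgt (.comp (rm 3) .lft)
private def s0 : TP := .comp .rgt (.comp (rm 4) .lft)
private def s1 : TP := .comp .rgt (rm 5)

private theorem sel (w H t m K n e0 e1 : BT) :
    R sw (.node (.node w H) (.node t (.node m (.node K (.node n (.node e0 e1)))))) w 30 ∧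
    R sH (.node (.node w H) (.node t (.node m (.node K (.node n (.node e0 e1)))))) H 30 ∧
    R st' (.node (.node w H) (.node t (.node m (.node K (.node n (.node e0 e1)))))) t 30 ∧
    R sm (.node (.node w H) (.node t (.node m (.node K (.node n (.node e0 e1)))))) m 30 ∧
    R sK (.node (.node w H) (.node t (.node m (.node K (.node n (.node e0 e1)))))) K 30 ∧
    R sn (.node (.node w H) (.node t (.node m (.node K (.node n (.node e0 e1)))))) n 30 ∧
    R s0 (.node (.node w H) (.node t (.node m (.node K (.node n (.node e0 e1)))))) e0 30 ∧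
    R s1 (.node (.node w H) (.node t (.node m (.node K (.node n (.node e0 e1)))))) e1 30 := by
  refine ⟨?_, ?_, ?_, ?_, ?_, ?_, ?_, ?_⟩
  · exact ((R.lft' _ _).comp (R.lft' _ _)).mono (by omega)
  · exact ((R.lft' _ _).comp (R.rgt' _ _)).mono (by omega)
  · exact ((R.rgt' _ _).comp (R.lft' _ _)).mono (by omega)
  · exact ((R.rgt' _ _).comp ((R.rmS (R.rm0 _)).comp (R.lft' _ _))).mono (by omega)
  · exact ((R.rgt' _ _).comp ((R.rmS (R.rmS (R.rm0 _))).comp (R.lft' _ _))).mono (by omega)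
  · exact ((R.rgt' _ _).comp ((R.rmS (R.rmS (R.rmS (R.rm0 _)))).comp
      (R.lft' _ _))).mono (by omega)
  · exact ((R.rgt' _ _).comp ((R.rmS (R.rmS (R.rmS (R.rmS (R.rm0 _))))).comp
      (R.lft' _ _))).mono (by omega)
  · exact ((R.rgt' _ _).comp (R.rmS (R.rmS (R.rmS (R.rmS (R.rmS (R.rm0 _))))))).mono (by omega)

theorem gen_tp (U M : TP) {prm1 : List Bool → ℕ} (h1 : PT prm1)
    {prm2 : List Bool × ℕ → List (Option Bool) × ℕ × ℕ × ℕ × ℕ × ℕ} (h2 : PT prm2)
    {msg : List Bool × ℕ × ℕ × List (List Bool × ℕ) → List (List Bool)} (h3 : PT msg) :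
    ∃ (D : TP) (A : ℕ) (Q : Polynomial ℕ), ∀ (w : List Bool) (t : List (Option Bool))
      (m K n e0 e1 S N : ℕ),
      prm2 (w, 2 ^ prm1 w) = (t, m, K, n, e0, e1) → 0 < n → K ≤ n → t.length ≤ n + 1 →
      (outsAll U n m n t).length ≤ 2 ^ e1 * N →
      (∀ x : List Bool, x.length = n → ∃ y, R M (enc x) y S) →
      ∀ pres : List (List Bool),
      pres = msg (w, 2 ^ prm1 w, 2 ^ e0, flat (2 ^ e1) K (outsAll U n m n t) []) →
      (∀ p ∈ pres, p.length ≤ n) →
      (∃ x : List Bool, x.length = n ∧ (∃ p ∈ pres, p <+: x) ∧ Says M x) →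
      ∃ x : List Bool, x.length = n ∧ (∃ p ∈ pres, p <+: x) ∧ Says M x ∧
        R D (enc w) (enc x) (Q.eval (w.length + 2 ^ prm1 w + 2 ^ e0 + 2 ^ K + N) +
          A * (2 ^ e1 + readCost m n t +
            (pres.map (fun p => 2 ^ (n - p.length))).sum * (n + S + 1))) := by
  obtain ⟨P1, Q1, hP1⟩ := PT.tp h1
  obtain ⟨P2, Q2, hP2⟩ := PT.tp h2
  obtain ⟨P3, Q3, hP3⟩ := PT.tp h3
  obtain ⟨Pw, Aw, hPw⟩ := pow_tp
  obtain ⟨Pt, At, hPt⟩ := tabs_tp U
  obtain ⟨Pf, Af, hPf⟩ := flat_tp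
  obtain ⟨Pe, Ae, hPe⟩ := test_tp M
  refine ⟨.comp (.pair .id (.comp P1 Pw)) (.comp (.pair .id P2)
    (.comp (.pair (.comp (.pair sw (.pair sH (.pair (.comp s0 Pw)
      (.comp (.pair sK (.comp (.pair sm (.pair st' (.pair sn (.pair sn (.pair sK
        (.comp s1 Pw)))))) Pt)) Pf)))) P3) sn) (.comp Pe .lft))),
    Aw + At + Ae,
    Q1.comp (4 * Polynomial.X + 1) + Polynomial.C Aw * Polynomial.X +
      Q2.comp (6 * Polynomial.X + 4) + Polynomial.C Aw * Polynomial.X +
      Polynomial.C Af * Polynomial.X + Polynomial.C (At + Ae) +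
      Q3.comp (60 * (Polynomial.X + 1) ^ 2) + 1000, ?_⟩
  intro w t m K n e0 e1 S N hprm hn hK ht hN hM pres hpres hlen hex
  obtain ⟨xs, hxs, hT⟩ := hPt m n n K (2 ^ e1) t (by positivity) hK le_rfl hn ht
  have hF := hPf (2 ^ e1) K xs (by positivity)
  rw [flat_perm hxs] at hF
  obtain ⟨o, ho1, ho2, ho3⟩ := hPe n S pres hlen hM
  obtain ⟨x, hx⟩ : ∃ x, o = some x := by
    cases ho : o with
    | none =>
      obtain ⟨x, hx1, hx2, hx3⟩ := hex
      exact absurd hx3 (ho3 ho x hx1 hx2)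
    | some x => exact ⟨x, rfl⟩
  obtain ⟨g1, g2, g3⟩ := ho2 x hx
  refine ⟨x, g1, g2, g3, ?_⟩
  subst hx
  -- the steps
  have a1 := (R.id (enc w)).pair ((hP1 w).comp (hPw (prm1 w)))
  have a2 := hP2 (w, 2 ^ prm1 w)
  rw [hprm] at a2
  obtain ⟨c1, c2, c3, c4, c5, c6, c7, c8⟩ := sel (enc w) (enc (2 ^ prm1 w)) (enc t) (enc m) (enc K)
    (enc n) (enc e0) (enc e1)
  have a3 := ((c4.pair (c3.pair (c6.pair (c6.pair (c5.pair (c8.comp (hPw e1))))))).comp hT)
  have a4 := (c5.pair a3).comp hF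
  have a5 := (c1.pair (c2.pair ((c7.comp (hPw e0)).pair a4))).comp
    (hP3 (w, 2 ^ prm1 w, 2 ^ e0, flat (2 ^ e1) K (outsAll U n m n t) []))
  rw [← hpres] at a5
  have a6 := (a5.pair c6).comp (ho1.comp (R.lft' (enc x) .leaf))
  have a7 := a1.comp (((R.id (.node (enc w) (enc (2 ^ prm1 w)))).pair a2).comp a6)
  refine a7.mono ?_
  -- sizes
  have aux : ∀ a b c d e : ℕ, a ≤ a + b + c + d + e ∧ b ≤ a + b + c + d + e ∧
      c ≤ a + b + c + d + e ∧ d ≤ a + b + c + d + e ∧ e ≤ a + b + c + d + e ∧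
      a + b ≤ a + b + c + d + e ∧ a + b + c + e ≤ a + b + c + d + e := by
    intro a b c d e
    omega
  have aux' := aux w.length (2 ^ prm1 w) (2 ^ e0) (2 ^ K) N
  set V := w.length + 2 ^ prm1 w + 2 ^ e0 + 2 ^ K + N with hV
  obtain ⟨v1, v2, v3, v4, v5, v6, v7⟩ := aux'
  have hK2 : K ≤ 2 ^ K := Nat.lt_two_pow_self.le
  have b1 : size w ≤ 4 * V + 1 := (size_bools_le w).trans (by omega)
  have b2 : size (w, 2 ^ prm1 w) ≤ 6 * V + 4 := by
    rw [size_prod]
    have := size_bools_le w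
    simp only [size_nat]
    omega
  have hfl := size_flat_le (F := 2 ^ e1) (K := K) (N := N) (by positivity) hN
  have b3 : size (w, 2 ^ prm1 w, 2 ^ e0, flat (2 ^ e1) K (outsAll U n m n t) []) ≤
      60 * (V + 1) ^ 2 := by
    rw [size_prod, size_prod, size_prod]
    have := size_bools_le w
    simp only [size_nat]
    have h4 : 2 ^ K * (6 * K + 20) ≤ V * (6 * V + 20) := by
      apply Nat.mul_le_mul
      · omega
      · omega
    nlinarith
  have d1 := eval_mono Q1 b1
  have d2 := eval_mono Q2 b2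
  have d3 := eval_mono Q3 b3
  have e1' : Aw * 2 ^ prm1 w ≤ Aw * V := Nat.mul_le_mul_left _ v2
  have e2' : Aw * 2 ^ e0 ≤ Aw * V := Nat.mul_le_mul_left _ v3
  have e3' : Af * 2 ^ K ≤ Af * V := Nat.mul_le_mul_left _ v4
  simp only [Polynomial.eval_add, Polynomial.eval_comp, Polynomial.eval_mul,
    Polynomial.eval_C, Polynomial.eval_X, Polynomial.eval_pow, Polynomial.eval_ofNat,
    Polynomial.eval_one]
  generalize hsum : (pres.map (fun p => 2 ^ (n - p.length))).sum * (n + S + 1) = Sm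
  rw [hsum] at ho1
  have f1 : (Aw + At + Ae) * (2 ^ e1 + readCost m n t + Sm) =
      Aw * 2 ^ e1 + At * readCost m n t + Ae * Sm + (Aw * (readCost m n t + Sm) +
        At * (2 ^ e1 + Sm) + Ae * (2 ^ e1 + readCost m n t)) := by ring
  have f2 : At * (readCost m n t + 1) = At * readCost m n t + At := by ring
  have f3 : Ae * (Sm + 1) = Ae * Sm + Ae := by ring
  rw [f1, f2, f3]
  omega

end Pool.Agent.Lib.MP_33f9c4_lc.K
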