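import Pool.Agent.Lib.MP_33f9c4_lc.K.RBase

set_option autoImplicit false

/-!
MODULE RPow. Unary numbers: doubling and powers of two.

dbl_tp: state `(k, acc)` starting with `(k, 0)`: `loop` with body `(k+1, acc) -> (k, acc + 2)`
(body = `.pair (.comp .lft .rgt) (.pair .leaf (.pair .leaf .rgt))`), at the end project to `acc`. Use
`Lp.step'`, `Lp.trans`, `Lp.finish` (RBase) and an induction on `k` of the form
`Lp body (enc (k, a)) (enc (0, a + 2 * k)) (c * k)`.
pow_tp: state `(k, acc)` starting with `(k, 1)`, body `(k+1, acc) -> (k, 2 * acc)` with the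
program of dbl_tp; the cost of the step with `acc = 2^i` is at most `A' * (2^i + 1)`, the sum is at
most `A * 2^k`: prove by induction on `k`, for all `a ≥ 1`,
`Lp body (enc (k, a)) (enc (0, a * 2^k)) (A * (a * 2^k) - A * a)` or with the bound
`A * (a * (2^k - 1))`.
-/

namespace Pool.Agent.Lib.MP_33f9c4_lc.K

open Pool.Agent.Lib.PolyTime

/-- body of the doubling loop: `(k+1, acc) -> (k, acc + 2)` -/
def rPowBody : TP := .pair (.comp .lft .rgt) (.pair .leaf (.pair .leaf .rgt))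

theorem rPow_body (k s : BT) :
    R rPowBody (.node (.node .leaf k) s) (.node k (.node .leaf (.node .leaf s))) 9 :=
  ((R.lft' _ _).comp (R.rgt' _ _)).pair ((R.leaf _).pair ((R.leaf _).pair (R.rgt' _ _)))

theorem rPow_dbl (k a : ℕ) : Lp rPowBody (enc (k, a)) (enc (0, a + 2 * k)) (10 * k) := by
  induction k generalizing a with
  | zero => exact Lp.refl _ _
  | succ k ih =>
    have h1 : Lp rPowBody (enc (k + 1, a)) (enc (k, a + 2)) (9 + 1) :=
      Lp.step' (rPow_body (enc k) (enc a))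
    have h2 := h1.trans (ih (a + 2))
    have e : a + 2 + 2 * k = a + 2 * (k + 1) := by ring
    rw [e] at h2
    exact h2.mono (by omega)

theorem dbl_tp : ∃ (P : TP) (A : ℕ), ∀ k : ℕ, R P (enc k) (enc (2 * k)) (A * (k + 1)) := by
  refine ⟨.comp (.pair .id .leaf) (.comp (.loop rPowBody) .rgt), 10, fun k => ?_⟩
  have h1 : R (.pair .id .leaf) (enc k) (enc (k, 0)) (1 + 1 + 1) := (R.id _).pair (R.leaf _)
  have h2 := (rPow_dbl k 0).finish rfl
  have h3 : R .rgt (enc (0, 0 + 2 * k)) (enc (0 + 2 * k)) 1 := R.rgt' _ _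
  have h4 := h1.comp (h2.comp h3)
  rw [zero_add] at h4
  exact h4.mono (by omega)

theorem rPow_loop (P : TP) (A : ℕ) (hP : ∀ k : ℕ, R P (enc k) (enc (2 * k)) (A * (k + 1)))
    (k : ℕ) : ∀ a : ℕ, 1 ≤ a → ∃ n, n + (2 * A + 7) * a = (2 * A + 7) * (a * 2 ^ k) ∧
      Lp (.pair (.comp .lft .rgt) (.comp .rgt P)) (enc (k, a)) (enc (0, a * 2 ^ k)) n := by
  induction k with
  | zero =>
    intro a ha
    refine ⟨0, by ring, ?_⟩
    rw [pow_zero, mul_one]
    exact Lp.refl _ _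
  | succ k ih =>
    intro a ha
    obtain ⟨n, hn, h⟩ := ih (2 * a) (by omega)
    have h1 : R (.pair (.comp .lft .rgt) (.comp .rgt P)) (enc (k + 1, a)) (enc (k, 2 * a))
        ((1 + 1 + 1) + (1 + A * (a + 1) + 1) + 1) :=
      ((R.lft' _ _).comp (R.rgt' _ _)).pair ((R.rgt' _ _).comp (hP a))
    have h2 : Lp (.pair (.comp .lft .rgt) (.comp .rgt P)) (enc (k + 1, a)) (enc (k, 2 * a))
        ((1 + 1 + 1) + (1 + A * (a + 1) + 1) + 1 + 1) := Lp.step' h1
    have h3 := h2.trans h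
    have e : 2 * a * 2 ^ k = a * 2 ^ (k + 1) := by ring
    rw [e] at h3 hn
    refine ⟨n + (2 * A + 7) * a, by linarith, h3.mono ?_⟩
    nlinarith [Nat.zero_le (A * (a - 1)), Nat.mul_le_mul_left A ha]

theorem pow_tp : ∃ (P : TP) (A : ℕ), ∀ k : ℕ, R P (enc k) (enc (2 ^ k)) (A * 2 ^ k) := by
  obtain ⟨P, A, hP⟩ := dbl_tp
  refine ⟨.comp (.pair .id (.pair .leaf .leaf))
    (.comp (.loop (.pair (.comp .lft .rgt) (.comp .rgt P))) .rgt), 2 * A + 20, fun k => ?_⟩
  have h1 : R (.pair .id (.pair .leaf .leaf)) (enc k) (enc (k, 1)) (1 + (1 + 1 + 1) + 1) :=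
    (R.id _).pair ((R.leaf _).pair (R.leaf _))
  obtain ⟨n, hn, h⟩ := rPow_loop P A hP k 1 le_rfl
  have h2 := h.finish rfl
  have h3 : R .rgt (enc (0, 1 * 2 ^ k)) (enc (1 * 2 ^ k)) 1 := R.rgt' _ _
  have h4 := h1.comp (h2.comp h3)
  rw [one_mul] at h4
  refine h4.mono ?_
  have h5 : 1 ≤ 2 ^ k := Nat.one_le_two_pow
  rw [one_mul] at hn
  have h6 : (2 * A + 20) * 2 ^ k = (2 * A + 7) * 2 ^ k + 13 * 2 ^ k := by ring
  omega

end Pool.Agent.Lib.MP_33f9c4_lc.K
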