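import Pool.Agent.Lib.MP_33f9c4_lc.K.REntry
import Pool.Agent.Lib.MP_33f9c4_lc.K.REnum
import Pool.Agent.Lib.MP_33f9c4_lc.K.RPow

set_option autoImplicit false

/-!
MODULE RTabs. Reading `m` tables with the clocks `k, 2k, 4k, ...`.

State of the outer loop: `node (enc m) (node (enc t) (node T (enc (k, n, K, F))))`, `T = trie F K xs`; start with
`T = leaf = trie F K []`, end: return `T`. Body: `m := m - 1`; `(T, (k, n, K, F)) := E P (node (enc t) (node T (enc (k, n, K, F))))`
with `enum_tp` and the program `P` of `entry_tp`; `t := rgt t`; `k := 2 k` (`dbl_tp`).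
`enum_tp` is applied with `S es = node (trie F K ((es.filterMap (tbl U n k)) ++ xs)) (enc (k, n, K, F))`
(`(e :: es).filterMap f = (f e).toList ++ es.filterMap f`); all entries have length `t.length ≤ n + 1`
(`length_of_mem_ents`, to be proved here), so `c = A * (2 n + k + 2) ≤ 4 A k + ...` and one turn costs at most
`A' * (k * 2 ^ free t)` (`n ≤ k`, `1 ≤ k`). Result: a permutation of `outsAll`
(`(ents t []).reverse.filterMap ...` is a permutation of `outs`). Induction on `m`, general `k ≥ n`, `t`, `xs`.
-/

namespace Pool.Agent.Lib.MP_33f9c4_lc.K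

open Pool.Agent.Lib.PolyTime

theorem length_of_mem_ents {t : List (Option Bool)} {s e : List Bool} (h : e ∈ ents t s) :
    e.length = t.length + s.length := by
  induction t generalizing s with
  | nil =>
    simp only [ents, List.mem_singleton] at h
    simp [h]
  | cons o t ih =>
    cases o with
    | none =>
      simp only [ents, List.mem_append] at h
      rcases h with h | h
      · have := ih h
        simp only [List.length_cons] at this ⊢
        omega
      · have := ih h
        simp only [List.length_cons] at this ⊢
        omega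
    | some b =>
      simp only [ents] at h
      have := ih h
      simp only [List.length_cons] at this ⊢
      omega

/-- The body of the outer loop; `Q` reads one table, `D` doubles. -/
private def rTabsBody (Q D : TP) : TP :=
  .comp (.pair (.pair (.comp .lft .rgt) (.comp (.comp .rgt .lft) .rgt)) (.comp .rgt Q))
    (.pair (.comp .lft .lft) (.pair (.comp .lft .rgt) (.pair (.comp .rgt .lft)
      (.pair (.comp (.comp (.comp .rgt .rgt) .lft) D) (.comp (.comp .rgt .rgt) .rgt)))))

private theorem rTabs_rgt_enc (t : List (Option Bool)) : R .rgt (enc t) (enc t.tail) 1 := by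
  cases t with
  | nil => exact .rgt _
  | cons a l => exact .rgt _

private theorem rTabsBody_spec {Q D : TP} {a T T' k k' z : BT} {t : List (Option Bool)} {q d : ℕ}
    (hQ : R Q (.node (enc t) (.node T (.node k z))) (.node T' (.node k z)) q)
    (hD : R D k k' d) :
    R (rTabsBody Q D) (.node (.node .leaf a) (.node (enc t) (.node T (.node k z))))
      (.node a (.node (enc t.tail) (.node T' (.node k' z)))) (q + d + 60) := by
  have h1 : R (.pair (.pair (.comp .lft .rgt) (.comp (.comp .rgt .lft) .rgt)) (.comp .rgt Q))
      (.node (.node .leaf a) (.node (enc t) (.node T (.node k z))))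
      (.node (.node a (enc t.tail)) (.node T' (.node k z))) _ :=
    R.pair (R.pair ((R.lft' _ _).comp (R.rgt' _ _))
      (((R.rgt' _ _).comp (R.lft' _ _)).comp (rTabs_rgt_enc t)))
      ((R.rgt' _ _).comp hQ)
  have h2 : R (.pair (.comp .lft .lft) (.pair (.comp .lft .rgt) (.pair (.comp .rgt .lft)
      (.pair (.comp (.comp (.comp .rgt .rgt) .lft) D) (.comp (.comp .rgt .rgt) .rgt)))))
      (.node (.node a (enc t.tail)) (.node T' (.node k z)))
      (.node a (.node (enc t.tail) (.node T' (.node k' z)))) _ :=
    R.pair ((R.lft' _ _).comp (R.lft' _ _)) (R.pair ((R.lft' _ _).comp (R.rgt' _ _))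
      (R.pair ((R.rgt' _ _).comp (R.lft' _ _))
        (R.pair ((((R.rgt' _ _).comp (R.rgt' _ _)).comp (R.lft' _ _)).comp hD)
          (((R.rgt' _ _).comp (R.rgt' _ _)).comp (R.rgt' _ _)))))
  exact (h1.comp h2).mono (by omega)

theorem tabs_tp (U : TP) : ∃ (P : TP) (A : ℕ), ∀ (m k n K F : ℕ) (t : List (Option Bool)),
    0 < F → K ≤ n → n ≤ k → 0 < k → t.length ≤ n + 1 →
    ∃ xs : List (List Bool), xs.Perm (outsAll U n m k t) ∧
      R P (enc (m, t, k, n, K, F)) (trie F K xs) (A * (readCost m k t + 1)) := by
  obtain ⟨E, AE, hE⟩ := enum_tp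
  obtain ⟨P, AP, hP⟩ := entry_tp U
  obtain ⟨D, AD, hD⟩ := dbl_tp
  have key : ∀ (m k n K F : ℕ) (t : List (Option Bool)) (xs : List (List Bool)),
      0 < F → K ≤ n → n ≤ k → 0 < k → t.length ≤ n + 1 →
      ∃ (ys : List (List Bool)) (y : BT), ys.Perm (outsAll U n m k t ++ xs) ∧
        Lp (rTabsBody (E P) D)
          (.node (enc m) (.node (enc t) (.node (trie F K xs) (enc (k, n, K, F)))))
          (.node .leaf (.node (enc (t.drop m)) (.node (trie F K ys) y)))
          ((3 * AE + 5 * AP + 2 * AD + 61) * readCost m k t) := by
    intro m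
    induction m with
    | zero =>
      intro k n K F t xs hF hK hn hk ht
      refine ⟨xs, enc (k, n, K, F), ?_, ?_⟩
      · simp [outsAll]
      · exact (Lp.refl _ _).mono (by omega)
    | succ m ih =>
      intro k n K F t xs hF hK hn hk ht
      have hS : R (E P) (.node (enc t) (.node (trie F K xs) (enc (k, n, K, F))))
          (.node (trie F K (((ents t []).reverse ++ []).filterMap (tbl U n k) ++ xs))
            (enc (k, n, K, F)))
          ((AE * (t.length + 1) + AP * (2 * n + k + 2)) * 2 ^ free t) := by
        have := hE P (fun es => .node (trie F K (es.filterMap (tbl U n k) ++ xs))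
          (enc (k, n, K, F))) (AP * (2 * n + k + 2)) t [] ?_
        · simpa using this
        · intro e he es
          have h1 := hP k n K F e (es.filterMap (tbl U n k) ++ xs) hF hK
          have h2 : (e :: es).filterMap (tbl U n k) ++ xs =
              (tbl U n k e).toList ++ (es.filterMap (tbl U n k) ++ xs) := by
            cases h : tbl U n k e with
            | none => simp [h]
            | some x => simp [h]
          rw [h2]
          refine h1.mono ?_
          have h3 : e.length = t.length := by simpa using length_of_mem_ents he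
          exact Nat.mul_le_mul le_rfl (by omega)
      have hbody := rTabsBody_spec (a := enc m) hS (hD k)
      have hstep := Lp.step' hbody
      obtain ⟨ys, y, hys, hlp⟩ := ih (2 * k) n K F t.tail
        (((ents t []).reverse ++ []).filterMap (tbl U n k) ++ xs) hF hK (by omega) (by omega)
        (by have := List.length_tail (l := t); omega)
      refine ⟨ys, y, ?_, ?_⟩
      · refine hys.trans ?_
        simp only [outsAll, outs, List.append_nil, List.append_assoc]
        have h1 : ((ents t []).reverse.filterMap (tbl U n k)).Perm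
            ((ents t []).filterMap (tbl U n k)) :=
          (List.reverse_perm _).filterMap _
        have h2 := (h1.append_right xs).append_left (outsAll U n m (2 * k) t.tail)
        refine h2.trans ?_
        rw [← List.append_assoc, ← List.append_assoc]
        exact List.perm_append_comm.append_right xs
      · have hd : t.drop (m + 1) = t.tail.drop m := by
          cases t <;> simp
        rw [hd]
        refine (hstep.trans hlp).mono ?_
        simp only [readCost]
        have hf : 1 ≤ 2 ^ free t := Nat.one_le_two_pow
        have e1 : AE * (t.length + 1) ≤ AE * (3 * k) := Nat.mul_le_mul le_rfl (by omega)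
        have e2 : AP * (2 * n + k + 2) ≤ AP * (5 * k) := Nat.mul_le_mul le_rfl (by omega)
        have e3 : (AE * (t.length + 1) + AP * (2 * n + k + 2)) * 2 ^ free t ≤
            (AE * (3 * k) + AP * (5 * k)) * 2 ^ free t :=
          Nat.mul_le_mul (Nat.add_le_add e1 e2) le_rfl
        have e4 : AD * (k + 1) + 61 ≤ (2 * AD + 61) * (2 ^ free t * k) := by
          have h5 : k ≤ 2 ^ free t * k := Nat.le_mul_of_pos_left _ (by omega)
          nlinarith
        nlinarith
  refine ⟨.comp (.comp (.pair .lft (.pair (.comp .rgt .lft) (.pair .leaf (.comp .rgt .rgt))))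
    (.loop (rTabsBody (E P) D))) (.comp .rgt (.comp .rgt .lft)),
    3 * AE + 5 * AP + 2 * AD + 61 + 40, ?_⟩
  intro m k n K F t hF hK hn hk ht
  obtain ⟨ys, y, hys, hlp⟩ := key m k n K F t [] hF hK hn hk ht
  refine ⟨ys, by simpa using hys, ?_⟩
  have h0 : R (.pair .lft (.pair (.comp .rgt .lft) (.pair .leaf (.comp .rgt .rgt))))
      (enc (m, t, k, n, K, F))
      (.node (enc m) (.node (enc t) (.node (trie F K []) (enc (k, n, K, F))))) 20 := by
    rw [trie_nil]
    exact (R.pair (R.lft' _ _) (R.pair ((R.rgt' _ _).comp (R.lft' _ _))
      (R.pair (R.leaf _) ((R.rgt' _ _).comp (R.rgt' _ _))))).mono (by omega)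
  have h1 := hlp.finish rfl
  have h2 : R (.comp .rgt (.comp .rgt .lft))
      (.node .leaf (.node (enc (t.drop m)) (.node (trie F K ys) y))) (trie F K ys) 10 :=
    ((R.rgt' _ _).comp ((R.rgt' _ _).comp (R.lft' _ _))).mono (by omega)
  refine ((h0.comp h1).comp h2).mono ?_
  nlinarith

end Pool.Agent.Lib.MP_33f9c4_lc.K
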