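import Pool.Agent.Lib.MP_33f9c4_lc.K.RTabs

set_option autoImplicit false

/-!
MODULE RTest. The test loop: for every prefix `p` of a list and every extension `x` of length `n` of `p` run the
decider `M`; the result is the first string declared random (or `none`).

(1) `tmpl n p` = the reversed template `List.replicate (n - p.length) none ++ p.reverse.map some`; program: from `(p, n)`
go through `p` (loop over `p`, push `some b` on an accumulator, decrease `n`), then push `none` `n - p.length` times;
cost `A (n + 1)` (for `p.length ≤ n`). `ents (tmpl n p) []` = all lists of length `n` with prefix `p` (`mem_ents_tmpl`),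
`free (tmpl n p) = n - p.length`.
(2) test of one string: state `node (enc e) (node (enc o) s)`, `o : Option (List Bool)`: if `o` is a node then unchanged,
else run `M` on `enc e` (within `S`); if the result is a node then `o := some e`. `enum_tp` with
`S' es = node (enc (fnd es)) s`, where `fnd (e :: es) = if (fnd es).isSome then fnd es else if Says M e then some e else none`
and `fnd [] = o₀`.
(3) outer loop over the list of prefixes; state `node (enc pres) (node (enc o) (enc n))`.
If `Says M x` fails then the result of `M` on `enc x` is a leaf (`M` stops by hypothesis; `Ev.det`).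
-/

namespace Pool.Agent.Lib.MP_33f9c4_lc.K

open Pool.Agent.Lib.PolyTime

/-- The reversed template of all strings of length `n` with the prefix `p`. -/
def tmpl (n : ℕ) (p : List Bool) : List (Option Bool) :=
  List.replicate (n - p.length) none ++ p.reverse.map some

theorem free_tmpl (n : ℕ) (p : List Bool) : free (tmpl n p) = n - p.length := by
  unfold free tmpl
  rw [List.count_append, List.count_replicate_self, List.count_eq_zero_of_not_mem, add_zero]
  intro h
  obtain ⟨a, -, ha⟩ := List.mem_map.mp h
  exact absurd ha (by simp)

private theorem RTest_length (n : ℕ) (p : List Bool) (hp : p.length ≤ n) :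
    (tmpl n p).length = n := by
  unfold tmpl
  rw [List.length_append, List.length_replicate, List.length_map, List.length_reverse]
  omega

private theorem RTest_rep (t : List (Option Bool)) (x : List Bool) : ∀ (k : ℕ) (s : List Bool),
    x ∈ ents (List.replicate k none ++ t) s ↔ ∃ w : List Bool, w.length = k ∧ x ∈ ents t (w ++ s)
  | 0, s => by
    constructor
    · intro h
      exact ⟨[], rfl, h⟩
    · rintro ⟨w, hw, h⟩
      rw [List.length_eq_zero_iff] at hw
      rw [hw] at h
      exact h
  | k + 1, s => by
    have h1 : ents (List.replicate (k + 1) none ++ t) s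
        = ents (List.replicate k none ++ t) (false :: s)
          ++ ents (List.replicate k none ++ t) (true :: s) := by
      rw [List.replicate_succ]
      rfl
    rw [h1, List.mem_append, RTest_rep t x k, RTest_rep t x k]
    constructor
    · rintro (⟨w, hw, h⟩ | ⟨w, hw, h⟩)
      · refine ⟨w ++ [false], by rw [List.length_append, hw]; rfl, ?_⟩
        rw [List.append_assoc]
        exact h
      · refine ⟨w ++ [true], by rw [List.length_append, hw]; rfl, ?_⟩
        rw [List.append_assoc]
        exact h
    · rintro ⟨w, hw, h⟩
      have hne : w ≠ [] := by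
        rintro rfl
        exact absurd hw (by simp)
      have h2 := List.dropLast_append_getLast hne
      have h3 : w.dropLast.length = k := by
        rw [List.length_dropLast, hw]
        rfl
      rw [← h2, List.append_assoc] at h
      cases hb : w.getLast hne with
      | false =>
        rw [hb] at h
        exact Or.inl ⟨_, h3, h⟩
      | true =>
        rw [hb] at h
        exact Or.inr ⟨_, h3, h⟩

private theorem RTest_some : ∀ (q s : List Bool), ents (q.map some) s = [q.reverse ++ s]
  | [], s => rfl
  | b :: q, s => by
    have h1 : ents ((b :: q).map some) s = ents (q.map some) (b :: s) := rfl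
    rw [h1, RTest_some q, List.reverse_cons, List.append_assoc]
    rfl

theorem mem_ents_tmpl {n : ℕ} {p x : List Bool} (hp : p.length ≤ n) :
    x ∈ ents (tmpl n p) [] ↔ x.length = n ∧ p <+: x := by
  unfold tmpl
  rw [RTest_rep]
  constructor
  · rintro ⟨w, hw, h⟩
    rw [RTest_some, List.reverse_reverse, List.mem_singleton, List.append_nil] at h
    rw [h]
    refine ⟨?_, List.prefix_append _ _⟩
    rw [List.length_append, hw]
    omega
  · rintro ⟨hx, w, hw⟩
    refine ⟨w, ?_, ?_⟩
    · rw [← hw, List.length_append] at hx
      omega
    · rw [RTest_some, List.reverse_reverse, List.mem_singleton, List.append_nil, hw]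

/-- first loop of the template program -/
private def RTest_b1 : TP :=
  .pair (.comp .lft .rgt)
    (.pair (.pair (.pair (.comp .lft .lft) .leaf) (.comp .rgt .lft)) (.comp (.comp .rgt .rgt) .rgt))

/-- second loop of the template program -/
private def RTest_b2 : TP := .pair (.comp .lft .rgt) (.pair .leaf .rgt)

private theorem RTest_b1_run (b p acc n : BT) :
    R RTest_b1 (.node (.node b p) (.node acc n)) (.node p (.node (.node (.node b .leaf) acc) (K.rgt n)))
      20 := by
  have h := (((R.lft' (.node b p) (.node acc n)).comp (R.rgt' b p)).pair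
    (((((R.lft' (.node b p) (.node acc n)).comp (R.lft' b p)).pair (R.leaf _)).pair
      ((R.rgt' (.node b p) (.node acc n)).comp (R.lft' acc n))).pair
      (((R.rgt' (.node b p) (.node acc n)).comp (R.rgt' acc n)).comp (R.rgt n))))
  exact h.mono (by norm_num)

private theorem RTest_b2_run (k acc : BT) :
    R RTest_b2 (.node (.node .leaf k) acc) (.node k (.node .leaf acc)) 8 := by
  have h := ((R.lft' (.node .leaf k) acc).comp (R.rgt' .leaf k)).pair
    ((R.leaf (.node (.node .leaf k) acc)).pair (R.rgt' (.node .leaf k) acc))
  exact h.mono (by norm_num)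

private theorem RTest_pred (n : ℕ) : K.rgt (enc n) = enc (n - 1) := by
  cases n with
  | zero => rfl
  | succ n => rfl

private theorem RTest_loop1 : ∀ (p : List Bool) (acc : List (Option Bool)) (n : ℕ),
    Lp RTest_b1 (.node (enc p) (.node (enc acc) (enc n)))
      (.node .leaf (.node (enc (p.reverse.map some ++ acc)) (enc (n - p.length)))) (21 * p.length)
  | [], acc, n => by
    have := Lp.refl RTest_b1 (.node (enc ([] : List Bool)) (.node (enc acc) (enc n)))
    exact this
  | b :: p, acc, n => by
    have h1 : Lp RTest_b1 (.node (enc (b :: p)) (.node (enc acc) (enc n)))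
        (.node (enc p) (.node (enc (some b :: acc)) (enc (n - 1)))) 21 := by
      have h2 := RTest_b1_run (enc b) (enc p) (enc acc) (enc n)
      rw [RTest_pred] at h2
      exact Lp.step' h2
    have h3 := RTest_loop1 p (some b :: acc) (n - 1)
    have h4 := h1.trans h3
    have e1 : (b :: p).reverse.map some ++ acc = p.reverse.map some ++ some b :: acc := by
      rw [List.reverse_cons, List.map_append, List.append_assoc]
      rfl
    have e2 : n - (b :: p).length = n - 1 - p.length := by
      rw [List.length_cons]
      omega
    rw [e1, e2]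
    refine h4.mono ?_
    rw [List.length_cons]
    omega

private theorem RTest_loop2 : ∀ (k : ℕ) (acc : List (Option Bool)),
    Lp RTest_b2 (.node (enc k) (enc acc)) (.node .leaf (enc (List.replicate k none ++ acc))) (9 * k)
  | 0, acc => Lp.refl _ _
  | k + 1, acc => by
    have h1 : Lp RTest_b2 (.node (enc (k + 1)) (enc acc)) (.node (enc k) (enc (none :: acc))) 9 :=
      Lp.step' (RTest_b2_run (enc k) (enc acc))
    have h2 := h1.trans (RTest_loop2 k (none :: acc))
    have e1 : List.replicate (k + 1) none ++ acc = List.replicate k none ++ none :: acc := by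
      rw [List.replicate_succ', List.append_assoc]
      rfl
    rw [e1]
    exact h2.mono (by omega)

/-- the template program -/
private def RTest_T : TP :=
  .comp (.comp (.pair .lft (.pair .leaf .rgt)) (.loop RTest_b1))
    (.comp (.comp (.comp .rgt (.pair .rgt .lft)) (.loop RTest_b2)) .rgt)

private theorem RTest_T_run (n : ℕ) (p : List Bool) (hp : p.length ≤ n) :
    R RTest_T (enc (p, n)) (enc (tmpl n p)) (30 * n + 40) := by
  have h0 : R (.pair .lft (.pair .leaf .rgt)) (enc (p, n))
      (.node (enc p) (.node (enc ([] : List (Option Bool))) (enc n))) 5 :=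
    ((R.lft' (enc p) (enc n)).pair ((R.leaf _).pair (R.rgt' (enc p) (enc n)))).mono (by norm_num)
  have h1 := h0.comp ((RTest_loop1 p [] n).finish rfl)
  rw [List.append_nil] at h1
  have h2 : R (.comp .rgt (.pair .rgt .lft))
      (.node .leaf (.node (enc (p.reverse.map some)) (enc (n - p.length))))
      (.node (enc (n - p.length)) (enc (p.reverse.map some))) 5 :=
    ((R.rgt' .leaf (.node (enc (p.reverse.map some)) (enc (n - p.length)))).comp
      ((R.rgt' (enc (p.reverse.map some)) (enc (n - p.length))).pair
        (R.lft' (enc (p.reverse.map some)) (enc (n - p.length))))).mono (by norm_num)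
  have h3 := (h2.comp ((RTest_loop2 (n - p.length) (p.reverse.map some)).finish rfl)).comp
    (R.rgt' .leaf (enc (List.replicate (n - p.length) none ++ p.reverse.map some)))
  exact (h1.comp h3).mono (by omega)

theorem tmpl_tp : ∃ (P : TP) (A : ℕ), ∀ (n : ℕ) (p : List Bool), p.length ≤ n →
    R P (enc (p, n)) (enc (tmpl n p)) (A * (n + 1)) :=
  ⟨RTest_T, 40, fun n p hp => (RTest_T_run n p hp).mono (by omega)⟩

open Classical in
/-- the first string declared random -/
private noncomputable def RTest_fnd (M : TP) (o : Option (List Bool)) :
    List (List Bool) → Option (List Bool)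
  | [] => o
  | e :: es => if (RTest_fnd M o es).isSome then RTest_fnd M o es
      else if Says M e then some e else none

private theorem RTest_fnd_some (M : TP) (o : Option (List Bool)) (x : List Bool) :
    ∀ es : List (List Bool), RTest_fnd M o es = some x → o = some x ∨ (x ∈ es ∧ Says M x)
  | [], h => Or.inl h
  | e :: es, h => by
    unfold RTest_fnd at h
    by_cases h1 : (RTest_fnd M o es).isSome
    · rw [if_pos h1] at h
      rcases RTest_fnd_some M o x es h with h2 | ⟨h2, h3⟩
      · exact Or.inl h2
      · exact Or.inr ⟨List.mem_cons_of_mem _ h2, h3⟩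
    · rw [if_neg h1] at h
      by_cases h2 : Says M e
      · rw [if_pos h2] at h
        have h3 : e = x := Option.some.inj h
        subst h3
        exact Or.inr ⟨List.mem_cons_self, h2⟩
      · rw [if_neg h2] at h
        exact absurd h (by simp)

private theorem RTest_fnd_none (M : TP) (o : Option (List Bool)) :
    ∀ es : List (List Bool), RTest_fnd M o es = none → o = none ∧ ∀ x ∈ es, ¬ Says M x
  | [], h => ⟨h, fun x hx => absurd hx (by simp)⟩
  | e :: es, h => by
    unfold RTest_fnd at h
    by_cases h1 : (RTest_fnd M o es).isSome
    · rw [if_pos h1] at h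
      rw [h] at h1
      exact absurd h1 (by simp)
    · rw [if_neg h1] at h
      have h2 : RTest_fnd M o es = none := by
        cases h3 : RTest_fnd M o es with
        | none => rfl
        | some y => rw [h3] at h1; exact absurd rfl h1
      obtain ⟨h4, h5⟩ := RTest_fnd_none M o es h2
      refine ⟨h4, fun x hx => ?_⟩
      rcases List.mem_cons.mp hx with rfl | hx
      · intro h6
        rw [if_pos h6] at h
        exact absurd h (by simp)
      · exact h5 x hx

/-- test of one string -/
private def RTest_one (M : TP) : TP :=
  .ite (.comp .rgt .lft) .rgt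
    (.ite (.comp .lft M) (.pair (.pair .lft .leaf) (.comp .rgt .rgt)) .rgt)

private theorem RTest_one_run (M : TP) (o : Option (List Bool)) (s : BT) (e : List Bool)
    (es : List (List Bool)) (S : ℕ) (hM : ∃ y, R M (enc e) y S) :
    R (RTest_one M) (.node (enc e) (.node (enc (RTest_fnd M o es)) s))
      (.node (enc (RTest_fnd M o (e :: es))) s) (S + 20) := by
  have hc : R (.comp .rgt .lft) (.node (enc e) (.node (enc (RTest_fnd M o es)) s))
      (enc (RTest_fnd M o es)) 3 :=
    ((R.rgt' (enc e) (.node (enc (RTest_fnd M o es)) s)).comp
      (R.lft' (enc (RTest_fnd M o es)) s)).mono (by norm_num)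
  have hr := R.rgt' (enc e) (.node (enc (RTest_fnd M o es)) s)
  cases h1 : RTest_fnd M o es with
  | some y =>
    have h2 : RTest_fnd M o (e :: es) = some y := by
      unfold RTest_fnd
      rw [h1]
      rfl
    rw [h2]
    rw [h1] at hc hr
    exact (R.iteN hc hr).mono (by omega)
  | none =>
    rw [h1] at hc hr
    obtain ⟨y, hy⟩ := hM
    have hc2 : R (.comp .lft M) (.node (enc e) (.node (enc (none : Option (List Bool))) s)) y
        (S + 2) :=
      ((R.lft' (enc e) (.node (enc (none : Option (List Bool))) s)).comp hy).mono (by omega)
    cases y with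
    | leaf =>
      have h3 : ¬ Says M e := by
        rintro ⟨a, b, r, h4⟩
        obtain ⟨q, -, h5⟩ := hy
        exact absurd (Ev.det h4 h5).1 (by simp)
      have h2 : RTest_fnd M o (e :: es) = none := by
        unfold RTest_fnd
        rw [h1]
        simp [h3]
      rw [h2]
      exact (R.iteL hc (R.iteL hc2 hr)).mono (by omega)
    | node a b =>
      have h3 : Says M e := by
        obtain ⟨q, -, h5⟩ := hy
        exact ⟨a, b, q, h5⟩
      have h2 : RTest_fnd M o (e :: es) = some e := by
        unfold RTest_fnd
        rw [h1]
        simp [h3]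
      rw [h2]
      have h4 : R (.pair (.pair .lft .leaf) (.comp .rgt .rgt))
          (.node (enc e) (.node (enc (none : Option (List Bool))) s))
          (.node (enc (some e)) s) 7 :=
        (((R.lft' (enc e) (.node (enc (none : Option (List Bool))) s)).pair (R.leaf _)).pair
          ((R.rgt' (enc e) (.node (enc (none : Option (List Bool))) s)).comp
            (R.rgt' (enc (none : Option (List Bool))) s))).mono (by norm_num)
      exact (R.iteL hc (R.iteN hc2 h4)).mono (by omega)

theorem test_tp (M : TP) : ∃ (P : TP) (A : ℕ), ∀ (n S : ℕ) (pres : List (List Bool)),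
    (∀ p ∈ pres, p.length ≤ n) → (∀ x : List Bool, x.length = n → ∃ y, R M (enc x) y S) →
    ∃ o : Option (List Bool),
      R P (enc (pres, n)) (enc o)
        (A * ((pres.map (fun p => 2 ^ (n - p.length))).sum * (n + S + 1) + 1)) ∧
      (∀ x, o = some x → x.length = n ∧ (∃ p ∈ pres, p <+: x) ∧ Says M x) ∧
      (o = none → ∀ x : List Bool, x.length = n → (∃ p ∈ pres, p <+: x) → ¬ Says M x) := by
  obtain ⟨E, A, hE⟩ := enum_tp
  -- the body of the outer loop
  obtain ⟨body, hbody⟩ : ∃ body : TP, body = TP.comp
      (.comp (.pair (.comp (.pair (.comp .lft .lft) (.comp .rgt .rgt)) RTest_T)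
        (.pair (.comp .rgt .lft) (.pair (.comp .rgt .rgt) (.comp .lft .rgt)))) (E (RTest_one M)))
      (.pair (.comp .rgt .rgt) (.pair .lft (.comp .rgt .lft))) := ⟨_, rfl⟩
  refine ⟨.comp (.comp (.pair .lft (.pair .leaf .rgt)) (.loop body)) (.comp .rgt .lft),
    A + 200, ?_⟩
  intro n S pres hpres hM
  have main : ∀ (pres : List (List Bool)) (o₀ : Option (List Bool)), (∀ p ∈ pres, p.length ≤ n) →
      ∃ o : Option (List Bool),
        Lp body (.node (enc pres) (.node (enc o₀) (enc n))) (.node .leaf (.node (enc o) (enc n)))
          ((A + 120) * ((pres.map (fun p => 2 ^ (n - p.length))).sum * (n + S + 1))) ∧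
        (∀ x, o = some x → o₀ = some x ∨
          (x.length = n ∧ (∃ p ∈ pres, p <+: x) ∧ Says M x)) ∧
        (o = none → o₀ = none ∧
          ∀ x : List Bool, x.length = n → (∃ p ∈ pres, p <+: x) → ¬ Says M x) := by
    intro pres
    induction pres with
    | nil =>
      intro o₀ _
      refine ⟨o₀, ?_, fun x hx => Or.inl hx, fun h => ⟨h, ?_⟩⟩
      · exact (Lp.refl _ _).mono (Nat.zero_le _)
      · rintro x - ⟨p, hp, -⟩
        exact absurd hp (by simp)
    | cons p rest ih =>
      intro o₀ hp
      have hpn := hp p List.mem_cons_self
      obtain ⟨o₁, ho₁⟩ : ∃ o₁, o₁ = RTest_fnd M o₀ (ents (tmpl n p) []).reverse := ⟨_, rfl⟩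
      obtain ⟨o, hL, h1, h2⟩ := ih o₁ (fun q hq => hp q (List.mem_cons_of_mem _ hq))
      refine ⟨o, ?_, ?_, ?_⟩
      · -- one turn
        have hT : R (.pair (.comp (.pair (.comp .lft .lft) (.comp .rgt .rgt)) RTest_T)
            (.pair (.comp .rgt .lft) (.pair (.comp .rgt .rgt) (.comp .lft .rgt))))
            (.node (enc (p :: rest)) (.node (enc o₀) (enc n)))
            (.node (enc (tmpl n p)) (.node (enc o₀) (.node (enc n) (enc rest)))) (30 * n + 70) := by
          have a1 : R (.pair (.comp .lft .lft) (.comp .rgt .rgt))
              (.node (enc (p :: rest)) (.node (enc o₀) (enc n))) (enc (p, n)) 7 :=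
            (((R.lft' (enc (p :: rest)) (.node (enc o₀) (enc n))).comp
              (R.lft' (enc p) (enc rest))).pair
              ((R.rgt' (enc (p :: rest)) (.node (enc o₀) (enc n))).comp
                (R.rgt' (enc o₀) (enc n)))).mono (by norm_num)
          have a2 := a1.comp (RTest_T_run n p hpn)
          have a3 : R (.pair (.comp .rgt .lft) (.pair (.comp .rgt .rgt) (.comp .lft .rgt)))
              (.node (enc (p :: rest)) (.node (enc o₀) (enc n)))
              (.node (enc o₀) (.node (enc n) (enc rest))) 11 :=
            (((R.rgt' (enc (p :: rest)) (.node (enc o₀) (enc n))).comp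
              (R.lft' (enc o₀) (enc n))).pair
              (((R.rgt' (enc (p :: rest)) (.node (enc o₀) (enc n))).comp
                (R.rgt' (enc o₀) (enc n))).pair
                ((R.lft' (enc (p :: rest)) (.node (enc o₀) (enc n))).comp
                  (R.rgt' (enc p) (enc rest))))).mono (by norm_num)
          exact (a2.pair a3).mono (by omega)
        have hE1 := hE (RTest_one M)
          (fun es => .node (enc (RTest_fnd M o₀ es)) (.node (enc n) (enc rest))) (S + 20)
          (tmpl n p) [] (fun e he es => RTest_one_run M o₀ _ e es S
            (hM e ((mem_ents_tmpl hpn).mp he).1))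
        rw [List.append_nil, free_tmpl, RTest_length n p hpn, ← ho₁] at hE1
        have hR : R (.pair (.comp .rgt .rgt) (.pair .lft (.comp .rgt .lft)))
            (.node (enc o₁) (.node (enc n) (enc rest)))
            (.node (enc rest) (.node (enc o₁) (enc n))) 9 :=
          (((R.rgt' (enc o₁) (.node (enc n) (enc rest))).comp (R.rgt' (enc n) (enc rest))).pair
            ((R.lft' (enc o₁) (.node (enc n) (enc rest))).pair
              ((R.rgt' (enc o₁) (.node (enc n) (enc rest))).comp
                (R.lft' (enc n) (enc rest))))).mono (by norm_num)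
        have hB := (hT.comp hE1).comp hR
        rw [← hbody] at hB
        have hstep : Lp body (.node (enc (p :: rest)) (.node (enc o₀) (enc n)))
            (.node (enc rest) (.node (enc o₁) (enc n))) _ := Lp.step' hB
        refine (hstep.trans hL).mono ?_
        rw [List.map_cons, List.sum_cons]
        have hpow : 1 ≤ 2 ^ (n - p.length) := Nat.one_le_two_pow
        generalize (rest.map (fun p => 2 ^ (n - p.length))).sum = sg at *
        generalize 2 ^ (n - p.length) = q at *
        have e1 : (A * (n + 1) + (S + 20)) * q ≤ (A + 20) * (q * (n + S + 1)) := by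
          have : A * (n + 1) + (S + 20) ≤ (A + 20) * (n + S + 1) := by nlinarith
          calc (A * (n + 1) + (S + 20)) * q ≤ ((A + 20) * (n + S + 1)) * q :=
                Nat.mul_le_mul_right _ this
            _ = (A + 20) * (q * (n + S + 1)) := by ring
        have e2 : n + S + 1 ≤ q * (n + S + 1) := Nat.le_mul_of_pos_left _ hpow
        have e3 : (A + 120) * ((q + sg) * (n + S + 1))
            = (A + 20) * (q * (n + S + 1)) + 100 * (q * (n + S + 1))
              + (A + 120) * (sg * (n + S + 1)) := by ring
        rw [e3]
        generalize q * (n + S + 1) = X at *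
        generalize (A + 20) * X = Y at *
        generalize (A + 120) * (sg * (n + S + 1)) = Z at *
        generalize (A * (n + 1) + (S + 20)) * q = W at *
        clear e3
        omega
      · intro x hx
        rcases h1 x hx with h3 | ⟨h3, ⟨p', hp', h4⟩, h5⟩
        · rw [ho₁] at h3
          rcases RTest_fnd_some M o₀ x _ h3 with h4 | ⟨h4, h5⟩
          · exact Or.inl h4
          · rw [List.mem_reverse] at h4
            obtain ⟨h6, h7⟩ := (mem_ents_tmpl hpn).mp h4
            exact Or.inr ⟨h6, ⟨p, List.mem_cons_self, h7⟩, h5⟩
        · exact Or.inr ⟨h3, ⟨p', List.mem_cons_of_mem _ hp', h4⟩, h5⟩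
      · intro ho
        obtain ⟨h3, h4⟩ := h2 ho
        rw [ho₁] at h3
        obtain ⟨h5, h6⟩ := RTest_fnd_none M o₀ _ h3
        refine ⟨h5, ?_⟩
        rintro x hx ⟨p', hp', h7⟩
        rcases List.mem_cons.mp hp' with rfl | hp'
        · apply h6
          rw [List.mem_reverse]
          exact (mem_ents_tmpl hpn).mpr ⟨hx, h7⟩
        · exact h4 x hx ⟨p', hp', h7⟩
  obtain ⟨o, hL, h1, h2⟩ := main pres none hpres
  refine ⟨o, ?_, ?_, fun h => (h2 h).2⟩
  · have h0 : R (.pair .lft (.pair .leaf .rgt)) (enc (pres, n))
        (.node (enc pres) (.node (enc (none : Option (List Bool))) (enc n))) 5 :=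
      ((R.lft' (enc pres) (enc n)).pair
        ((R.leaf _).pair (R.rgt' (enc pres) (enc n)))).mono (by norm_num)
    have h3 : R (.comp .rgt .lft) (.node .leaf (.node (enc o) (enc n))) (enc o) 3 :=
      ((R.rgt' .leaf (.node (enc o) (enc n))).comp (R.lft' (enc o) (enc n))).mono (by norm_num)
    refine ((h0.comp (hL.finish rfl)).comp h3).mono ?_
    generalize (pres.map (fun p => 2 ^ (n - p.length))).sum * (n + S + 1) = q
    nlinarith
  · intro x hx
    rcases h1 x hx with h3 | h3
    · exact absurd h3 (by simp)
    · exact h3

end Pool.Agent.Lib.MP_33f9c4_lc.K
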