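import Pool.Agent.Lib.MP_33f9c4_lc.K.Bl

/-!
# MODULE Red. How many bit lists have a given value modulo `p`; the numbers `binw`, `thr`

`bv v` = the value of the bit list (most significant first) = `v.foldl (fun x b => 2 * x + b.toNat) 0`.
`bv` is a bijection from `bl b` onto `range (2 ^ b)` (induction, last bit), `red p v = bv v % p`
(for `p > 0`; for the foldl: induction from the right, `List.foldl_append`). In `range (2 ^ b)` the
residue `v < p` occurs `⌊2 ^ b / p⌋` or `⌊2 ^ b / p⌋ + 1` times (`Nat.count_modEq_card` or directly).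
`binw r` is the inverse of `bv` on lists of length `r`.
`thr p s = ⌈p / 2 ^ s⌉`: induction on `s` (with `Function.iterate_succ_apply'`).
-/

namespace Pool.Agent.Lib.MP_33f9c4_lc.LK

open Finset

/-- the value of a bit list -/
def bv (v : List Bool) : ℕ := v.foldl (fun x b => 2 * x + b.toNat) 0

theorem bv_append_singleton (v : List Bool) (b : Bool) : bv (v ++ [b]) = 2 * bv v + b.toNat := by
  simp only [bv, List.foldl_append, List.foldl_cons, List.foldl_nil]

private theorem toNat_lt (b : Bool) : b.toNat < 2 := by cases b <;> decide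

theorem bv_lt (v : List Bool) : bv v < 2 ^ v.length := by
  induction v using List.reverseRecOn with
  | nil => simp [bv]
  | append_singleton v b ih =>
    rw [bv_append_singleton, List.length_append, List.length_singleton, pow_succ]
    have := toNat_lt b
    omega

theorem red_eq {p : ℕ} (hp : 0 < p) (v : List Bool) : red p v = bv v % p := by
  induction v using List.reverseRecOn with
  | nil => simp [bv, red, Nat.mod_eq_of_lt hp]
  | append_singleton v b ih =>
    rw [bv_append_singleton]
    have h1 : red p (v ++ [b]) = (2 * red p v + b.toNat) % p := by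
      simp only [red, List.foldl_append, List.foldl_cons, List.foldl_nil]
    rw [h1, ih, Nat.add_mod, Nat.mul_mod, Nat.mod_mod, ← Nat.mul_mod, ← Nat.add_mod]

theorem red_lt {p : ℕ} (hp : 0 < p) (v : List Bool) : red p v < p := by
  rw [red_eq hp]
  exact Nat.mod_lt _ hp

theorem length_binw (r i : ℕ) : (binw r i).length = r := by
  induction r generalizing i with
  | zero => rfl
  | succ r ih => simp [binw, ih]

theorem bv_binw (r i : ℕ) : bv (binw r i) = i % 2 ^ r := by
  induction r generalizing i with
  | zero => simp [binw, bv, Nat.mod_one]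
  | succ r ih =>
    rw [binw, bv_append_singleton, ih]
    have h1 : (decide (i % 2 = 1)).toNat = i % 2 := by
      rcases Nat.mod_two_eq_zero_or_one i with h | h <;> simp [h]
    rw [h1, pow_succ, mul_comm (2 ^ r) 2, Nat.mod_mul]
    ring

theorem binw_bv (v : List Bool) : binw v.length (bv v) = v := by
  induction v using List.reverseRecOn with
  | nil => rfl
  | append_singleton v b ih =>
    rw [List.length_append, List.length_singleton, binw, bv_append_singleton]
    have h1 : (2 * bv v + b.toNat) / 2 = bv v := by
      have := toNat_lt b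
      omega
    rw [h1, ih]
    congr 2
    cases b
    · simp
    · simp only [Bool.toNat_true, decide_eq_true_eq]
      omega

private theorem bv_inj {b : ℕ} {u v : List Bool} (hu : u.length = b) (hv : v.length = b)
    (h : bv u = bv v) : u = v := by
  rw [← binw_bv u, ← binw_bv v, h, hu, hv]

/-- the number of lists with a given value is the number of integers below `2 ^ b` -/
private theorem card_red {p b v : ℕ} (hp : 0 < p) :
    #{y ∈ bl b | red p y = v} = #{i ∈ range (2 ^ b) | i % p = v} := by
  refine card_nbij' bv (fun i => binw b i) ?_ ?_ ?_ ?_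
  · intro y hy
    simp only [coe_filter, mem_bl, Set.mem_setOf_eq] at hy
    simp only [coe_filter, mem_range, Set.mem_setOf_eq]
    rw [← red_eq hp]
    refine ⟨?_, hy.2⟩
    rw [← hy.1]
    exact bv_lt y
  · intro i hi
    simp only [coe_filter, mem_range, Set.mem_setOf_eq] at hi
    simp only [coe_filter, mem_bl, Set.mem_setOf_eq]
    rw [red_eq hp, bv_binw, Nat.mod_eq_of_lt hi.1]
    exact ⟨length_binw _ _, hi.2⟩
  · intro y hy
    simp only [coe_filter, mem_bl, Set.mem_setOf_eq] at hy
    simp only
    rw [← hy.1, binw_bv]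
  · intro i hi
    simp only [coe_filter, mem_range, Set.mem_setOf_eq] at hi
    simp only
    rw [bv_binw, Nat.mod_eq_of_lt hi.1]

theorem card_red_le {p b v : ℕ} (hp : 0 < p) (hv : v < p) :
    #{y ∈ bl b | red p y = v} ≤ 2 ^ b / p + 1 := by
  rw [card_red hp]
  have h1 : ({i ∈ range (2 ^ b) | i % p = v} : Finset ℕ)
      ⊆ (range (2 ^ b / p + 1)).image (fun k => p * k + v) := by
    intro i hi
    rw [mem_filter, mem_range] at hi
    rw [mem_image]
    refine ⟨i / p, ?_, ?_⟩
    · rw [mem_range]
      have := Nat.div_le_div_right (c := p) hi.1.le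
      omega
    · rw [← hi.2]
      exact Nat.div_add_mod i p
  refine (card_le_card h1).trans (card_image_le.trans ?_)
  rw [card_range]

theorem card_red_ge {p b v : ℕ} (hp : 0 < p) (hv : v < p) :
    2 ^ b / p ≤ #{y ∈ bl b | red p y = v} := by
  rw [card_red hp]
  have h1 : (range (2 ^ b / p)).image (fun k => p * k + v)
      ⊆ ({i ∈ range (2 ^ b) | i % p = v} : Finset ℕ) := by
    intro i hi
    rw [mem_image] at hi
    obtain ⟨k, hk, rfl⟩ := hi
    rw [mem_range] at hk
    rw [mem_filter, mem_range]
    constructor
    · have h2 : p * (k + 1) ≤ p * (2 ^ b / p) := Nat.mul_le_mul_left _ hk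
      have h3 : p * (2 ^ b / p) ≤ 2 ^ b := Nat.mul_div_le _ _
      nlinarith
    · rw [Nat.mul_add_mod, Nat.mod_eq_of_lt hv]
  refine le_trans ?_ (card_le_card h1)
  rw [card_image_of_injective, card_range]
  intro k l hkl
  simp only [Nat.add_right_cancel_iff] at hkl
  exact Nat.eq_of_mul_eq_mul_left hp hkl

private theorem thr_succ (p s : ℕ) : thr p (s + 1) = (thr p s + 1) / 2 := by
  simp only [thr, Function.iterate_succ_apply']

theorem thr_le (p s : ℕ) : 2 ^ s * thr p s < p + 2 ^ s := by
  induction s with
  | zero => simp [thr]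
  | succ s ih =>
    rw [thr_succ, pow_succ]
    have h1 : 2 * ((thr p s + 1) / 2) ≤ thr p s + 1 := Nat.mul_div_le _ _
    have h2 : 2 ^ s * (2 * ((thr p s + 1) / 2)) ≤ 2 ^ s * (thr p s + 1) :=
      Nat.mul_le_mul_left _ h1
    nlinarith

theorem le_thr (p s : ℕ) : p ≤ 2 ^ s * thr p s := by
  induction s with
  | zero => simp [thr]
  | succ s ih =>
    rw [thr_succ, pow_succ]
    have h1 : thr p s ≤ 2 * ((thr p s + 1) / 2) := by omega
    have h2 : 2 ^ s * thr p s ≤ 2 ^ s * (2 * ((thr p s + 1) / 2)) :=
      Nat.mul_le_mul_left _ h1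
    nlinarith

theorem thr_le_self (p s : ℕ) : thr p s ≤ p := by
  induction s with
  | zero => simp [thr]
  | succ s ih =>
    rw [thr_succ]
    rcases Nat.eq_zero_or_pos (thr p s) with h | h
    · rw [h]; simp
    · omega

end Pool.Agent.Lib.MP_33f9c4_lc.LK
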