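import Pool.Agent.Lib.MP_33f9c4_lc.K.Sums
import Pool.Agent.Lib.MP_33f9c4_lc.K.OkZ
import Pool.Agent.Lib.MP_33f9c4_lc.K.AvgG

/-!
# MODULE Sees. Tested sets; who sees whom; Lemma G

`tset`: the strings tested by `u` for the channel `ch`. `S P T v u ch`: the program `v` sees the channel `ch`
of the program `u`.

`mem_tset_iff`: the elements of `tst` are `pre ++ y0` for all `y0 ∈ bl K0` with the hash condition (the
`y ∈ allL K` with `y.drop K0` all false correspond to the `y0`; hsh_append, alp_append, hsh_take).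
`card_tset_ge`: `card_hash_ge` with `θ = thr`, `p ≤ 2^s thr`, card_bl_add twice. `card_tset_le`: sum over
`al < p` of card_hash_one_le, `2^s thr ≤ 2p`.

`sees_of_hosts`. `pre`, `s` the slot of `u`, `Y al = evL p (cont ..) al < p`, `m al = msum pre s al (Y al)`,
`μ al = musum pre al`. By `sum_msum_ge`, with `Δ = 2^(n-K-c)`: `Δ ∑ m ≥ #H - 2^(n-c) ≥ #H/2`, as
`#H ≥ 2^(n+5-|pre|-s-a) ≥ 2^(n+1-c)` (h14). By `sum_musum_le`, `Δ ∑ μ ≤ nread`, and `512 nread ≤ 2^s #H`. So
`∑ m ≥ 256 2^(-s) ∑ μ`, and `∑ m ≥ 2^(K+c+4-|pre|-s-a)`. `avgG` with `x = 2^(-s)`, `c = 2^(K+c+3-|pre|-s)/p`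
(msum_le): at least `∑ m/(2c) ≥ p 2^(-a)` of the `al < p` have `m ≥ 64 2^(-s) μ` and
`m ≥ ∑ m/(4p) ≥ 2^(K+c-|pre|-s-a)/p`, i.e. `okZ`; hence `(al, Y al)` is in `pts` (for a fine reader: the slot is
`i = u.length - 1 < R`, `[ch]`, `i + 1 + P.s`; for a coarse reader `k = u.length - R - 1 < q`, and `u` is
`y.take (R+1+k)` for some `y ∈ allL K`).
-/

namespace Pool.Agent.Lib.MP_33f9c4_lc.LK

open Finset

/-- the value which the content of `u` takes at the point `al` -/
def val (P : Par) (T : Tab) (u : List Bool) (ch : Bool) (al : ℕ) : ℕ :=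
  evL P.p (cont P u (view P T u) ch) al

/-- the strings tested by `u` for the channel `ch` -/
def tset (P : Par) (T : Tab) (u : List Bool) (ch : Bool) : Finset (List Bool) :=
  {x ∈ bl P.n | pre P u ch <+: x ∧
    hsh P (x.drop (pre P u ch).length) (val P T u ch (alp P (x.drop (pre P u ch).length))) <
      thr P.p (sl P u)}

/-- the points listed by the program `v` -/
def pts (P : Par) (T : Tab) (v : List Bool) (ch : Bool) : List (ℕ × ℕ) :=
  if v.length ≤ P.R then ptsC P (view P T v) ch else ptsF P (view P T v) ch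

/-- the program `v` sees the channel `ch` of the program `u` -/
def S (P : Par) (T : Tab) (v u : List Bool) (ch : Bool) : Prop :=
  P.p ≤ 2 ^ P.a * #{al ∈ range P.p | (al, val P T u ch al) ∈ pts P T v ch}

/-- `u` is a coarse program -/
def Co (P : Par) (u : List Bool) : Prop := 1 ≤ u.length ∧ u.length ≤ P.R

/-- `u` is a fine program -/
def Fi (P : Par) (u : List Bool) : Prop := P.R < u.length ∧ u.length ≤ P.R + P.q


private theorem pre_len {P : Par} (hP : P.Good) {u : List Bool} (hu : Co P u ∨ Fi P u) (ch : Bool) :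
    (pre P u ch).length + P.K0 ≤ P.K := by
  have h13 := hP.h13
  have h2 := hP.h2
  unfold pre
  split_ifs with h
  · simp only [List.length_singleton]
    omega
  · rcases hu with hu | hu
    · exact absurd hu.2 h
    · have := hu.2
      simp only [List.length_append, List.length_singleton]
      omega

private theorem sl_le {P : Par} {u : List Bool} : sl P u ≤ P.R + P.s := by
  unfold sl
  split_ifs with h
  · omega
  · omega

private theorem pre_sl {P : Par} {u : List Bool} (hu : Co P u ∨ Fi P u) (ch : Bool) :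
    (pre P u ch).length + sl P u ≤ P.R + P.q + P.s + 1 := by
  unfold pre sl
  split_ifs with h
  · simp only [List.length_singleton]
    omega
  · rcases hu with hu | hu
    · exact absurd hu.2 h
    · have := hu.2
      simp only [List.length_append, List.length_singleton]
      omega

private theorem drop_hash {P : Par} (y0 w : List Bool) (hy : y0.length = P.K0) (Y : ℕ → ℕ) :
    hsh P (y0 ++ w) (Y (alp P (y0 ++ w))) = hsh P y0 (Y (alp P y0)) := by
  rw [alp_append P y0 w hy.ge, hsh_append P y0 w hy.ge]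

private theorem take_hash {P : Par} (y : List Bool) (Y : ℕ → ℕ) :
    hsh P (y.take P.K0) (Y (alp P (y.take P.K0))) = hsh P y (Y (alp P y)) := by
  rw [alp_take P y, hsh_take P y]

theorem mem_tset_iff {P : Par} (hP : P.Good) (T : Tab) {u : List Bool} (hu : Co P u ∨ Fi P u)
    (ch : Bool) (x : List Bool) :
    x ∈ tset P T u ch ↔ x.length = P.n ∧ ∃ v ∈ tst P u (view P T u) ch, v <+: x := by
  have hpl := pre_len hP hu ch
  have h15 := hP.h15
  unfold tset tst
  simp only [mem_filter, mem_bl, List.mem_map, List.mem_filter, Bool.and_eq_true,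
    decide_eq_true_eq]
  constructor
  · rintro ⟨hx, hpre, hh⟩
    refine ⟨hx, ?_⟩
    obtain ⟨z, rfl⟩ := hpre
    rw [List.drop_left] at hh
    rw [List.length_append] at hx
    have hzl : P.K0 ≤ z.length := by omega
    have hy0 : (z.take P.K0).length = P.K0 := by simp [hzl]
    refine ⟨pre P u ch ++ z.take P.K0, ⟨(z.take P.K0 ++ List.replicate (P.K - P.K0) false,
      min (2 ^ P.c) (cnt P T u (z.take P.K0 ++ List.replicate (P.K - P.K0) false) /
        2 ^ (P.n - P.K - P.c))), ⟨?_, ?_, ?_⟩, ?_⟩, ?_⟩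
    · unfold view
      rw [List.mem_map]
      refine ⟨_, (mem_allL _ _).2 ?_, rfl⟩
      rw [List.length_append, hy0, List.length_replicate]
      omega
    · show ((z.take P.K0 ++ List.replicate (P.K - P.K0) false).drop P.K0).all (fun b => !b) = true
      rw [List.drop_append_of_le_length hy0.ge, List.drop_of_length_le hy0.le, List.nil_append]
      rw [List.all_replicate]
      simp
    · show hsh P (z.take P.K0 ++ List.replicate (P.K - P.K0) false)
        (val P T u ch (alp P (z.take P.K0 ++ List.replicate (P.K - P.K0) false))) < thr P.p (sl P u)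
      rw [drop_hash _ _ hy0, take_hash]
      exact hh
    · show pre P u ch ++ (z.take P.K0 ++ List.replicate (P.K - P.K0) false).take P.K0 =
        pre P u ch ++ z.take P.K0
      rw [List.take_append_of_le_length hy0.ge, List.take_take, min_self]
    · exact (List.prefix_append_right_inj _).2 (List.take_prefix _ _)
  · rintro ⟨hx, v, ⟨⟨y, wt⟩, ⟨hyL, hy2, hy3⟩, rfl⟩, hv⟩
    refine ⟨hx, (List.prefix_append _ _).trans hv, ?_⟩
    have hyl : y.length = P.K := by
      unfold view at hyL
      rw [List.mem_map] at hyL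
      obtain ⟨y', hy', he⟩ := hyL
      have := congrArg Prod.fst he
      simp only at this
      rw [← this]
      exact (mem_allL _ _).1 hy'
    obtain ⟨w, rfl⟩ := hv
    simp only [List.append_assoc, List.drop_left]
    have hy0 : (y.take P.K0).length = P.K0 := by
      rw [List.length_take]; omega
    rw [drop_hash _ _ hy0, take_hash]
    exact hy3


/-- number of the blocks which satisfy the hash condition -/
private def nb (P : Par) (Y : ℕ → ℕ) (θ : ℕ) : ℕ :=
  #{y ∈ bl P.K0 | hsh P y (Y (alp P y)) < θ}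

private theorem nb_ge {P : Par} (hP : P.Good) (Y : ℕ → ℕ) (s : ℕ) :
    2 ^ P.K0 ≤ 2 ^ (s + 1) * nb P Y (thr P.p s) := by
  have hp := hP.prime.pos
  have ht : 1 ≤ P.t := by have := hP.h7; omega
  have h1 := card_hash_ge P hP.prime ht hP.h9 Y (thr P.p s) (thr_le_self _ _)
  have h2 := le_thr P.p s
  have h3 : P.p * 2 ^ P.K0 ≤ P.p * (2 ^ (s + 1) * nb P Y (thr P.p s)) := by
    calc P.p * 2 ^ P.K0 ≤ 2 ^ s * thr P.p s * 2 ^ P.K0 := Nat.mul_le_mul_right _ h2
      _ = 2 ^ s * (2 ^ P.K0 * thr P.p s) := by ring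
      _ ≤ 2 ^ s * (2 * P.p * nb P Y (thr P.p s)) := Nat.mul_le_mul_left _ h1
      _ = P.p * (2 ^ (s + 1) * nb P Y (thr P.p s)) := by ring
  exact Nat.le_of_mul_le_mul_left h3 hp

private theorem nb_le {P : Par} (hP : P.Good) (Y : ℕ → ℕ) (s : ℕ) (hs : s ≤ P.R + P.s) :
    2 ^ s * nb P Y (thr P.p s) ≤ 2 ^ (P.K0 + 2) := by
  classical
  have hp := hP.prime.pos
  have ht : 1 ≤ P.t := by have := hP.h7; omega
  have h2 : 2 ^ s * thr P.p s ≤ 2 * P.p := by
    have := thr_le P.p s
    have h8 : 2 ^ s ≤ P.p := (Nat.pow_le_pow_right (by norm_num) hs).trans hP.h8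
    omega
  have h3 : nb P Y (thr P.p s) = ∑ al ∈ range P.p,
      #{y ∈ bl P.K0 | alp P y = al ∧ hsh P y (Y al) < thr P.p s} := by
    unfold nb
    rw [card_eq_sum_card_fiberwise (f := fun y => alp P y) (t := range P.p)]
    · refine sum_congr rfl fun al _ => ?_
      congr 1
      ext y
      simp only [mem_filter]
      constructor
      · rintro ⟨⟨h1, h2⟩, h3⟩
        exact ⟨h1, h3, h3 ▸ h2⟩
      · rintro ⟨h1, h2, h3⟩
        exact ⟨⟨h1, h2 ▸ h3⟩, h2⟩
    · intro y _
      simp only [coe_range, Set.mem_Iio]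
      exact red_lt hp _
  have h4 : nb P Y (thr P.p s) * P.p ^ 2 ≤ P.p * (2 * 2 ^ P.K0 * thr P.p s) := by
    rw [h3, sum_mul]
    calc ∑ al ∈ range P.p,
        #{y ∈ bl P.K0 | alp P y = al ∧ hsh P y (Y al) < thr P.p s} * P.p ^ 2
        ≤ ∑ al ∈ range P.p, 2 * 2 ^ P.K0 * thr P.p s :=
          sum_le_sum fun al hal => card_hash_one_le P hP.prime ht hP.h9 al (mem_range.1 hal) _ _
            (thr_le_self _ _)
      _ = P.p * (2 * 2 ^ P.K0 * thr P.p s) := by rw [sum_const, card_range, smul_eq_mul]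
  have h5 : P.p ^ 2 * (2 ^ s * nb P Y (thr P.p s)) ≤ P.p ^ 2 * 2 ^ (P.K0 + 2) := by
    calc P.p ^ 2 * (2 ^ s * nb P Y (thr P.p s)) = 2 ^ s * (nb P Y (thr P.p s) * P.p ^ 2) := by ring
      _ ≤ 2 ^ s * (P.p * (2 * 2 ^ P.K0 * thr P.p s)) := Nat.mul_le_mul_left _ h4
      _ = P.p * (2 * 2 ^ P.K0) * (2 ^ s * thr P.p s) := by ring
      _ ≤ P.p * (2 * 2 ^ P.K0) * (2 * P.p) := Nat.mul_le_mul_left _ h2
      _ = P.p ^ 2 * 2 ^ (P.K0 + 2) := by ring
  exact Nat.le_of_mul_le_mul_left h5 (by positivity)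

private theorem card_tset_eq {P : Par} (hP : P.Good) (T : Tab) {u : List Bool}
    (hu : Co P u ∨ Fi P u) (ch : Bool) :
    #(tset P T u ch) * 2 ^ ((pre P u ch).length + P.K0) =
      2 ^ P.n * nb P (val P T u ch) (thr P.p (sl P u)) := by
  classical
  have hpl := pre_len hP hu ch
  have h15 := hP.h15
  obtain ⟨m, hm⟩ : ∃ m, P.n = (pre P u ch).length + (P.K0 + m) :=
    ⟨P.n - (pre P u ch).length - P.K0, by omega⟩
  have h1 : #(tset P T u ch) = #{x ∈ bl ((pre P u ch).length + (P.K0 + m)) |
      x.take (pre P u ch).length = pre P u ch ∧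
      hsh P (x.drop (pre P u ch).length) (val P T u ch (alp P (x.drop (pre P u ch).length))) <
        thr P.p (sl P u)} := by
    unfold tset
    rw [hm]
    congr 1
    ext x
    simp only [mem_filter, List.prefix_iff_eq_take]
    constructor
    · rintro ⟨a, b, c⟩
      exact ⟨a, b.symm, c⟩
    · rintro ⟨a, b, c⟩
      exact ⟨a, b.symm, c⟩
  have h2 := card_bl_add (pre P u ch).length (P.K0 + m) (fun x => x = pre P u ch)
    (fun y => hsh P y (val P T u ch (alp P y)) < thr P.p (sl P u))
  have h3 : #{x ∈ bl (pre P u ch).length | x = pre P u ch} = 1 := by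
    rw [card_eq_one]
    refine ⟨pre P u ch, ?_⟩
    ext x
    simp only [mem_filter, mem_bl, mem_singleton]
    constructor
    · exact fun h => h.2
    · rintro rfl
      exact ⟨rfl, rfl⟩
  have h4 := card_bl_add P.K0 m (fun y => hsh P y (val P T u ch (alp P y)) < thr P.p (sl P u))
    (fun _ => True)
  have h5 : #{y ∈ bl (P.K0 + m) | hsh P y (val P T u ch (alp P y)) < thr P.p (sl P u)} =
      #{y ∈ bl (P.K0 + m) | hsh P (y.take P.K0) (val P T u ch (alp P (y.take P.K0))) <
        thr P.p (sl P u) ∧ True} := by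
    congr 1
    ext y
    simp only [mem_filter, and_true, take_hash]
  have h6 : #{v ∈ bl m | True} = 2 ^ m := by
    rw [filter_true, card_bl]
  rw [h1, h2, h3, h5, h4, h6, one_mul]
  rw [hm]
  show nb P (val P T u ch) (thr P.p (sl P u)) * 2 ^ m * 2 ^ ((pre P u ch).length + P.K0) = _
  rw [pow_add, pow_add, pow_add]
  ring

theorem card_tset_ge {P : Par} (hP : P.Good) (T : Tab) {u : List Bool} (hu : Co P u ∨ Fi P u)
    (ch : Bool) : 2 ^ P.n ≤ 2 ^ ((pre P u ch).length + sl P u + 1) * #(tset P T u ch) := by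
  have h1 := card_tset_eq hP T hu ch
  have h2 := nb_ge hP (val P T u ch) (sl P u)
  have h3 : 2 ^ P.K0 * 2 ^ P.n ≤
      2 ^ P.K0 * (2 ^ ((pre P u ch).length + sl P u + 1) * #(tset P T u ch)) := by
    calc 2 ^ P.K0 * 2 ^ P.n ≤
          2 ^ (sl P u + 1) * nb P (val P T u ch) (thr P.p (sl P u)) * 2 ^ P.n :=
          Nat.mul_le_mul_right _ h2
      _ = 2 ^ (sl P u + 1) * (2 ^ P.n * nb P (val P T u ch) (thr P.p (sl P u))) := by ring
      _ = 2 ^ (sl P u + 1) * (#(tset P T u ch) * 2 ^ ((pre P u ch).length + P.K0)) := by rw [h1]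
      _ = 2 ^ P.K0 * (2 ^ ((pre P u ch).length + sl P u + 1) * #(tset P T u ch)) := by
          rw [pow_add, pow_add, pow_add, pow_add]
          ring
  exact Nat.le_of_mul_le_mul_left h3 (by positivity)

theorem card_tset_le {P : Par} (hP : P.Good) (T : Tab) {u : List Bool} (hu : Co P u ∨ Fi P u)
    (ch : Bool) : 2 ^ ((pre P u ch).length + sl P u) * #(tset P T u ch) ≤ 2 ^ (P.n + 2) := by
  have h1 := card_tset_eq hP T hu ch
  have h2 := nb_le hP (val P T u ch) (sl P u) sl_le
  have h3 : 2 ^ P.K0 * (2 ^ ((pre P u ch).length + sl P u) * #(tset P T u ch)) ≤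
      2 ^ P.K0 * 2 ^ (P.n + 2) := by
    calc 2 ^ P.K0 * (2 ^ ((pre P u ch).length + sl P u) * #(tset P T u ch))
        = 2 ^ sl P u * (#(tset P T u ch) * 2 ^ ((pre P u ch).length + P.K0)) := by
          rw [pow_add, pow_add]
          ring
      _ = 2 ^ sl P u * (2 ^ P.n * nb P (val P T u ch) (thr P.p (sl P u))) := by rw [h1]
      _ = 2 ^ P.n * (2 ^ sl P u * nb P (val P T u ch) (thr P.p (sl P u))) := by ring
      _ ≤ 2 ^ P.n * 2 ^ (P.K0 + 2) := Nat.mul_le_mul_left _ h2
      _ = 2 ^ P.K0 * 2 ^ (P.n + 2) := by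
          rw [pow_add, pow_add]
          ring
  exact Nat.le_of_mul_le_mul_left h3 (by positivity)

theorem length_tst_le {P : Par} (hP : P.Good) (T : Tab) {u : List Bool} (hu : Co P u ∨ Fi P u)
    (ch : Bool) : 2 ^ sl P u * (tst P u (view P T u) ch).length ≤ 2 ^ (P.K0 + 2) := by
  classical
  have hK : P.K0 ≤ P.K := by have := pre_len hP hu ch; omega
  obtain ⟨m, hm⟩ : ∃ m, P.K = P.K0 + m := ⟨P.K - P.K0, by omega⟩
  have key : ∀ g : List Bool → ℕ, (((allL P.K).map fun y => (y, g y)).filter fun x =>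
      (x.1.drop P.K0).all (fun b => !b) &&
      decide (hsh P x.1 (val P T u ch (alp P x.1)) < thr P.p (sl P u))).length =
      nb P (val P T u ch) (thr P.p (sl P u)) := by
    intro g
    rw [List.filter_map, List.length_map, ← List.countP_eq_length_filter, countP_allL, hm]
    have h4 := card_bl_add P.K0 m
      (fun y => hsh P y (val P T u ch (alp P y)) < thr P.p (sl P u))
      (fun y => y.all (fun b => !b) = true)
    have h6 : #{v ∈ bl m | v.all (fun b => !b) = true} = 1 := by
      rw [card_eq_one]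
      refine ⟨List.replicate m false, ?_⟩
      ext x
      simp only [mem_filter, mem_bl, mem_singleton, List.all_eq_true, Bool.not_eq_true']
      rw [List.eq_replicate_iff]
    rw [h6, mul_one] at h4
    unfold nb
    rw [← h4]
    congr 1
    ext y
    simp only [mem_filter, Function.comp, Bool.and_eq_true, decide_eq_true_eq]
    rw [take_hash]
    constructor
    · rintro ⟨a, b, c⟩
      exact ⟨a, c, b⟩
    · rintro ⟨a, b, c⟩
      exact ⟨a, c, b⟩
  have h1 : (tst P u (view P T u) ch).length = nb P (val P T u ch) (thr P.p (sl P u)) := by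
    unfold tst
    rw [List.length_map]
    exact key _
  rw [h1]
  exact nb_le hP _ _ sl_le


theorem sees_of_hosts {P : Par} (hP : P.Good) (T : Tab)
    (hT : ∀ j e x, T j e = some x → x.length = P.n) {v u : List Bool}
    (hvu : Co P v ∧ Fi P u ∨ Fi P v ∧ Co P u) (ch : Bool) (H : Finset (List Bool))
    (hH : ∀ x ∈ H, x ∈ tset P T u ch ∧ ∃ je ∈ reads P v, T je.1 je.2 = some x)
    (h1 : 2 ^ (P.n + 5) ≤ 2 ^ ((pre P u ch).length + sl P u + P.a) * #H)
    (h2 : 512 * nread P T v (pre P u ch) ≤ 2 ^ sl P u * #H) : S P T v u ch := by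
  classical
  have hu : Co P u ∨ Fi P u := by
    rcases hvu with h | h
    · exact Or.inr h.2
    · exact Or.inl h.2
  have hp := hP.prime.pos
  have hpl := pre_len hP hu ch
  have hsl : sl P u ≤ P.R + P.s := sl_le
  have hps := pre_sl hu ch
  have h14 := hP.h14
  have h15 := hP.h15
  have h16 := hP.h16
  have h13 := hP.h13
  set L := (pre P u ch).length with hL
  set s := sl P u with hs
  set Y := val P T u ch with hY
  have hYlt : ∀ al, Y al < P.p := fun al => evL_lt hp _ _
  -- the two sums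
  have hsum1 := sum_msum_ge hP T hT v (pre P u ch) hpl s Y H (by
    intro x hx
    obtain ⟨hx1, hx2⟩ := hH x hx
    unfold tset at hx1
    rw [mem_filter] at hx1
    exact ⟨hx2, hx1.2⟩)
  have hsum2 := sum_musum_le hP T hT v (pre P u ch) hpl
  set D := 2 ^ (P.n - P.K - P.c) with hD
  set M := ∑ al ∈ range P.p, msum P (view P T v) (pre P u ch) s al (Y al) with hM
  set U := ∑ al ∈ range P.p, musum P (view P T v) (pre P u ch) al with hU
  -- `#H` is large compared with `2 ^ (n - c)`
  have hH1 : 2 * 2 ^ (P.n - P.c) ≤ #H := by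
    have e1 : 2 ^ (L + s + P.a) * (2 * 2 ^ (P.n - P.c)) ≤ 2 ^ (L + s + P.a) * #H := by
      calc 2 ^ (L + s + P.a) * (2 * 2 ^ (P.n - P.c)) = 2 ^ (L + s + P.a + 1 + (P.n - P.c)) := by
            ring
        _ ≤ 2 ^ (P.n + 5) := Nat.pow_le_pow_right (by norm_num) (by omega)
        _ ≤ _ := h1
    exact Nat.le_of_mul_le_mul_left e1 (by positivity)
  have hM1 : #H ≤ 2 * (D * M) := by omega
  have hMU : 256 * U ≤ 2 ^ s * M := by
    have e1 : D * (2 * (256 * U)) ≤ D * (2 * (2 ^ s * M)) := by
      calc D * (2 * (256 * U)) = 512 * (D * U) := by ring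
        _ ≤ 512 * nread P T v (pre P u ch) := Nat.mul_le_mul_left _ hsum2
        _ ≤ 2 ^ s * #H := h2
        _ ≤ 2 ^ s * (2 * (D * M)) := Nat.mul_le_mul_left _ hM1
        _ = D * (2 * (2 ^ s * M)) := by ring
    have e2 := Nat.le_of_mul_le_mul_left e1 (by positivity)
    omega
  have hMbig : 2 ^ (P.K + P.c + 4) ≤ 2 ^ (L + s + P.a) * M := by
    have e1 : 2 * D * 2 ^ (P.K + P.c + 4) ≤ 2 * D * (2 ^ (L + s + P.a) * M) := by
      calc 2 * D * 2 ^ (P.K + P.c + 4) = 2 ^ (1 + (P.n - P.K - P.c) + (P.K + P.c + 4)) := by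
            rw [hD]
            ring
        _ = 2 ^ (P.n + 5) := by
            congr 1
            omega
        _ ≤ 2 ^ (L + s + P.a) * #H := h1
        _ ≤ 2 ^ (L + s + P.a) * (2 * (D * M)) := Nat.mul_le_mul_left _ hM1
        _ = 2 * D * (2 ^ (L + s + P.a) * M) := by ring
    exact Nat.le_of_mul_le_mul_left e1 (by positivity)
  -- real version
  have hpR : (0 : ℝ) < P.p := by exact_mod_cast hp
  have havg := avgG (range P.p)
    (fun al => (msum P (view P T v) (pre P u ch) s al (Y al) : ℝ))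
    (fun al => (musum P (view P T v) (pre P u ch) al : ℝ)) (1 / 2 ^ s)
    (2 ^ (P.K + P.c + 3) / (P.p * 2 ^ (L + s))) (by positivity) (by positivity)
    (fun _ _ => Nat.cast_nonneg _) (fun _ _ => Nat.cast_nonneg _) (by
      intro al hal
      have e := msum_le hP T v (pre P u ch) hpl s hsl al (Y al) (mem_range.1 hal)
      rw [le_div_iff₀ (by positivity)]
      have e' : ((P.p * 2 ^ (L + s) * msum P (view P T v) (pre P u ch) s al (Y al) : ℕ) : ℝ) ≤
          ((2 ^ (P.K + P.c + 3) : ℕ) : ℝ) := by exact_mod_cast e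
      push_cast at e'
      linarith) (by
      have e : ((256 * U : ℕ) : ℝ) ≤ ((2 ^ s * M : ℕ) : ℝ) := by exact_mod_cast hMU
      push_cast [hM, hU] at e
      rw [← sub_nonneg] at e ⊢
      have hs0 : (0 : ℝ) < 2 ^ s := by positivity
      have : (0 : ℝ) ≤ (2 ^ s) * (∑ i ∈ range P.p, (msum P (view P T v) (pre P u ch) s i (Y i) : ℝ) -
          256 * (1 / 2 ^ s) * ∑ i ∈ range P.p, (musum P (view P T v) (pre P u ch) i : ℝ)) := by
        have e3 : (2 ^ s : ℝ) * (256 * (1 / 2 ^ s) *
            ∑ i ∈ range P.p, (musum P (view P T v) (pre P u ch) i : ℝ)) =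
            256 * ∑ i ∈ range P.p, (musum P (view P T v) (pre P u ch) i : ℝ) := by
          field_simp
        rw [mul_sub, e3]
        exact e
      exact nonneg_of_mul_nonneg_right this hs0)
  have hMR : (∑ i ∈ range P.p, (msum P (view P T v) (pre P u ch) s i (Y i) : ℝ)) = (M : ℝ) := by
    rw [hM]; push_cast; rfl
  rw [hMR] at havg
  have hMbigR : (2 : ℝ) ^ (P.K + P.c + 4) ≤ 2 ^ (L + s + P.a) * M := by exact_mod_cast hMbig
  have hcount : (P.p : ℝ) ≤ 2 ^ P.a * #{i ∈ range P.p |
      64 * (1 / 2 ^ s) * (musum P (view P T v) (pre P u ch) i : ℝ) ≤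
        (msum P (view P T v) (pre P u ch) s i (Y i) : ℝ) ∧
      (M : ℝ) / (4 * #(range P.p)) ≤ (msum P (view P T v) (pre P u ch) s i (Y i) : ℝ)} := by
    have e1 : (P.p : ℝ) ≤ 2 ^ P.a *
        ((M : ℝ) / (2 * (2 ^ (P.K + P.c + 3) / (P.p * 2 ^ (L + s))))) := by
      have e2 : (2 : ℝ) ^ P.a * ((M : ℝ) / (2 * (2 ^ (P.K + P.c + 3) / (P.p * 2 ^ (L + s))))) =
          P.p * ((2 ^ (L + s + P.a) * M) / 2 ^ (P.K + P.c + 4)) := by
        rw [pow_add _ (L + s) P.a, pow_succ _ (P.K + P.c + 3)]
        field_simp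
      rw [e2]
      have e3 : (1 : ℝ) ≤ (2 ^ (L + s + P.a) * M) / 2 ^ (P.K + P.c + 4) := by
        rw [le_div_iff₀ (by positivity), one_mul]
        exact hMbigR
      nlinarith
    exact e1.trans (mul_le_mul_of_nonneg_left havg (by positivity))
  have hcountN : P.p ≤ 2 ^ P.a * #{i ∈ range P.p |
      64 * (1 / 2 ^ s) * (musum P (view P T v) (pre P u ch) i : ℝ) ≤
        (msum P (view P T v) (pre P u ch) s i (Y i) : ℝ) ∧
      (M : ℝ) / (4 * #(range P.p)) ≤ (msum P (view P T v) (pre P u ch) s i (Y i) : ℝ)} := by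
    exact_mod_cast hcount
  unfold S
  refine hcountN.trans (Nat.mul_le_mul_left _ (card_le_card ?_))
  intro al hal
  rw [mem_filter] at hal ⊢
  obtain ⟨hal1, hal2, hal3⟩ := hal
  refine ⟨hal1, ?_⟩
  have halp := mem_range.1 hal1
  -- the value is listed
  have hok : okZ P (view P T v) (pre P u ch) s al (Y al) = true := by
    unfold okZ
    rw [Bool.and_eq_true, decide_eq_true_eq, decide_eq_true_eq]
    constructor
    · have hpw : pw P.N s = 2 ^ s := by
        unfold pw
        exact min_eq_left ((Nat.pow_le_pow_right (by norm_num) (by omega)).trans h16)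
      rw [hpw]
      have e1 : (64 : ℝ) * (musum P (view P T v) (pre P u ch) al : ℝ) ≤
          2 ^ s * (msum P (view P T v) (pre P u ch) s al (Y al) : ℝ) := by
        have hs0 : (0 : ℝ) < 2 ^ s := by positivity
        have := mul_le_mul_of_nonneg_left hal2 hs0.le
        have e3 : (2 : ℝ) ^ s * (64 * (1 / 2 ^ s) * (musum P (view P T v) (pre P u ch) al : ℝ)) =
            64 * (musum P (view P T v) (pre P u ch) al : ℝ) := by
          field_simp
        rw [e3] at this
        exact this
      exact_mod_cast e1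
    · have hpw : pw P.N (P.K + P.c - L - s - P.a) ≤ 2 ^ (P.K + P.c - L - s - P.a) := min_le_left _ _
      refine hpw.trans ?_
      rw [card_range] at hal3
      have e1 : (M : ℝ) ≤ 4 * (P.p * (msum P (view P T v) (pre P u ch) s al (Y al) : ℝ)) := by
        rw [div_le_iff₀ (by positivity)] at hal3
        linarith
      have e2 : M ≤ 4 * (P.p * msum P (view P T v) (pre P u ch) s al (Y al)) := by
        exact_mod_cast e1
      have e3 : 2 ^ (L + s + P.a) * 2 ^ (P.K + P.c - L - s - P.a) * 4 ≤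
          2 ^ (L + s + P.a) * (P.p * msum P (view P T v) (pre P u ch) s al (Y al)) * 4 := by
        calc 2 ^ (L + s + P.a) * 2 ^ (P.K + P.c - L - s - P.a) * 4
            = 2 ^ (L + s + P.a + (P.K + P.c - L - s - P.a) + 2) := by
              ring
          _ ≤ 2 ^ (P.K + P.c + 4) := Nat.pow_le_pow_right (by norm_num) (by omega)
          _ ≤ 2 ^ (L + s + P.a) * M := hMbig
          _ ≤ 2 ^ (L + s + P.a) * (4 * (P.p * msum P (view P T v) (pre P u ch) s al (Y al))) :=
              Nat.mul_le_mul_left _ e2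
          _ = _ := by ring
      have e4 := Nat.le_of_mul_le_mul_right e3 (by norm_num)
      exact Nat.le_of_mul_le_mul_left e4 (by positivity)
  have hprs : (al, Y al) ∈ prs P.p := by
    unfold prs
    rw [List.mem_flatMap]
    refine ⟨al, List.mem_range.2 halp, ?_⟩
    rw [List.mem_map]
    exact ⟨Y al, List.mem_range.2 (hYlt al), rfl⟩
  show (al, Y al) ∈ pts P T v ch
  unfold pts
  rcases hvu with ⟨hv, hu'⟩ | ⟨hv, hu'⟩
  · rw [if_pos hv.2]
    unfold ptsC
    rw [List.mem_filter]
    refine ⟨hprs, ?_⟩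
    rw [List.any_eq_true]
    have hu1 := hu'.1
    have hu2 := hu'.2
    refine ⟨u.length - P.R - 1, List.mem_range.2 (by omega), ?_⟩
    rw [List.any_eq_true]
    have hK : u.length ≤ P.K := by omega
    refine ⟨(u ++ List.replicate (P.K - u.length) false,
      min (2 ^ P.c) (cnt P T v (u ++ List.replicate (P.K - u.length) false) /
        2 ^ (P.n - P.K - P.c))), ?_, ?_⟩
    · unfold view
      rw [List.mem_map]
      refine ⟨_, (mem_allL _ _).2 ?_, rfl⟩
      rw [List.length_append, List.length_replicate]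
      omega
    · have e1 : P.R + 1 + (u.length - P.R - 1) = u.length := by omega
      have e2 : ((u ++ List.replicate (P.K - u.length) false).take (P.R + 1 + (u.length - P.R - 1))) =
          u := by
        rw [e1, List.take_left]
      have e3 : pre P u ch = u ++ [ch] := by
        unfold pre
        rw [if_neg (by omega)]
      have e4 : s = P.s := by
        rw [hs]
        unfold sl
        rw [if_neg (by omega)]
      rw [e3, e4] at hok
      show okZ P (view P T v) ((u ++ List.replicate (P.K - u.length) false).take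
        (P.R + 1 + (u.length - P.R - 1)) ++ [ch]) P.s al (Y al) = true
      rw [e2]
      exact hok
  · have hv1 := hv.1
    rw [if_neg (by omega)]
    unfold ptsF
    rw [List.mem_filter]
    refine ⟨hprs, ?_⟩
    rw [List.any_eq_true]
    have hu1 := hu'.1
    have hu2 := hu'.2
    refine ⟨u.length - 1, List.mem_range.2 (by omega), ?_⟩
    have e3 : pre P u ch = [ch] := by
      unfold pre
      rw [if_pos hu2]
    have e4 : s = u.length - 1 + 1 + P.s := by
      rw [hs]
      unfold sl
      rw [if_pos hu2]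
      omega
    rw [e3, e4] at hok
    exact hok

end Pool.Agent.Lib.MP_33f9c4_lc.LK
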