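import Pool.Agent.Lib.MP_33f9c4_lc.K.HashT
import Pool.Agent.Lib.MP_33f9c4_lc.K.Rd

/-!
# MODULE Sums. The masses of a slot in a view

`L = view P T v`. `Δ = 2^(n-K-c)` (so `cnt/Δ` is rounded and capped at `2^c`).
(1) `sum_musum_le`: `∑_{al<p} musum pre al = ∑_{y ∈ bl K, pre prefix of y} W y ≤ (1/Δ) ∑_y cnt y =
(1/Δ) #{je ∈ reads : value begins with pre}` (each value of length `n ≥ K` has exactly one prefix of
length `K`; the points `al` partition, as `alp < p`).
(2) `sum_msum_ge`: `H` a set of strings `x` of length `n`, each is the value of an entry read by `v`, begins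
with `pre`, and `hsh P (x.drop |pre|) (Y (alp P (x.drop |pre|))) < thr p s`. For `y ∈ bl K` let `H_y` be the
set of the `x ∈ H` with prefix `y`: `#H_y ≤ cnt y` (different strings are values of different entries)
and `#H_y ≤ 2^(n-K)`; so `W y ≥ min(2^c, ⌊#H_y/Δ⌋) = ⌊#H_y/Δ⌋ ≥ #H_y/Δ - 1`, and `H_y` is empty unless `y` is in
`inZ pre s al (Y al)` for `al = alp (y.drop |pre|)` (hsh and alp depend on the first `K0` bits only).
Summing over `y`: `Δ ∑_{al<p} msum (Y al) ≥ #H - Δ 2^K`.
(3) `msum_le`: `msum ≤ 2^c #{y ∈ bl K : inZ}`, card_bl_add and card_hash_one_le, `2^s thr ≤ 2p`.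
-/

namespace Pool.Agent.Lib.MP_33f9c4_lc.LK

open Finset

/-- number of entries read by `v` whose value begins with `pre` -/
def nread (P : Par) (T : Tab) (v pre : List Bool) : ℕ :=
  (reads P v).countP fun je => ((T je.1 je.2).map (pre.isPrefixOf ·)).getD false

/-- weight of `y` in the view of `v` -/
private def wt (P : Par) (T : Tab) (v y : List Bool) : ℕ :=
  min (2 ^ P.c) (cnt P T v y / 2 ^ (P.n - P.K - P.c))

private theorem musum_eq (P : Par) (T : Tab) (v pre : List Bool) (al : ℕ) :
    musum P (view P T v) pre al = ∑ y ∈ bl P.K, if inS P pre al y then wt P T v y else 0 := by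
  unfold musum view
  rw [List.map_map, ← sum_allL]
  rfl

private theorem msum_eq (P : Par) (T : Tab) (v pre : List Bool) (s al z : ℕ) :
    msum P (view P T v) pre s al z =
      ∑ y ∈ bl P.K, if inZ P pre s al z y then wt P T v y else 0 := by
  unfold msum view
  rw [List.map_map, ← sum_allL]
  rfl

/-- the value of the entry `je` begins with `y` -/
private def gg (T : Tab) (y : List Bool) (je : ℕ × List Bool) : Bool :=
  ((T je.1 je.2).map (y.isPrefixOf ·)).getD false

private theorem gg_iff (T : Tab) (y : List Bool) (je : ℕ × List Bool) :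
    gg T y je = true ↔ ∃ x, T je.1 je.2 = some x ∧ y <+: x := by
  unfold gg
  cases h : T je.1 je.2 with
  | none => simp
  | some x => simp

private theorem countP_reads (P : Par) (v : List Bool) (f : ℕ × List Bool → Bool) :
    (reads P v).countP f = #{je ∈ (reads P v).toFinset | f je = true} := by
  rw [List.countP_eq_length_filter, ← List.toFinset_card_of_nodup ((nodup_reads P v).filter _),
    List.toFinset_filter]

private theorem cnt_eq (P : Par) (T : Tab) (v y : List Bool) :
    cnt P T v y = #{je ∈ (reads P v).toFinset | gg T y je = true} :=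
  countP_reads P v _

private theorem nread_eq (P : Par) (T : Tab) (v y : List Bool) :
    nread P T v y = #{je ∈ (reads P v).toFinset | gg T y je = true} :=
  countP_reads P v _

private theorem prefix_unique {K : ℕ} {x y : List Bool} (hy : y.length = K) (h : y <+: x) :
    y = x.take K := by
  rw [← hy]
  exact List.prefix_iff_eq_take.1 h

theorem sum_musum_le {P : Par} (hP : P.Good) (T : Tab)
    (hT : ∀ j e x, T j e = some x → x.length = P.n) (v pre : List Bool)
    (hpre : pre.length + P.K0 ≤ P.K) :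
    2 ^ (P.n - P.K - P.c) * ∑ al ∈ range P.p, musum P (view P T v) pre al ≤ nread P T v pre := by
  have h1 : ∑ al ∈ range P.p, musum P (view P T v) pre al ≤
      ∑ y ∈ bl P.K, if pre.isPrefixOf y then wt P T v y else 0 := by
    simp_rw [musum_eq]
    rw [Finset.sum_comm]
    refine Finset.sum_le_sum fun y _ => ?_
    unfold inS
    by_cases hy : pre.isPrefixOf y = true
    · simp only [hy, Bool.true_and, decide_eq_true_eq, if_true]
      rw [Finset.sum_ite_eq]
      split_ifs <;> simp
    · simp [hy]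
  have h2 : 2 ^ (P.n - P.K - P.c) * ∑ y ∈ bl P.K, (if pre.isPrefixOf y then wt P T v y else 0) ≤
      ∑ y ∈ bl P.K, if pre.isPrefixOf y then cnt P T v y else 0 := by
    rw [Finset.mul_sum]
    refine Finset.sum_le_sum fun y _ => ?_
    split_ifs
    · calc 2 ^ (P.n - P.K - P.c) * wt P T v y
          ≤ 2 ^ (P.n - P.K - P.c) * (cnt P T v y / 2 ^ (P.n - P.K - P.c)) :=
            Nat.mul_le_mul_left _ (min_le_right _ _)
        _ ≤ cnt P T v y := Nat.mul_div_le _ _
    · simp
  have h3 : ∑ y ∈ bl P.K, (if pre.isPrefixOf y then cnt P T v y else 0) ≤ nread P T v pre := by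
    rw [nread_eq, Finset.card_filter]
    have : ∀ y ∈ bl P.K, (if pre.isPrefixOf y then cnt P T v y else 0) =
        ∑ je ∈ (reads P v).toFinset, if (pre.isPrefixOf y = true ∧ gg T y je = true) then 1 else 0 := by
      intro y _
      split_ifs with hy
      · rw [cnt_eq, Finset.card_filter]
        exact Finset.sum_congr rfl fun je _ => by simp [hy]
      · simp [hy]
    rw [Finset.sum_congr rfl this, Finset.sum_comm]
    refine Finset.sum_le_sum fun je _ => ?_
    rw [← Finset.card_filter]
    split_ifs with hg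
    · rw [Finset.card_le_one]
      intro a ha b hb
      rw [Finset.mem_filter, mem_bl, gg_iff] at ha hb
      obtain ⟨ha1, -, x, hx, hax⟩ := ha
      obtain ⟨hb1, -, x', hx', hbx⟩ := hb
      rw [hx] at hx'
      have hxx : x = x' := Option.some.inj hx'
      subst hxx
      rw [prefix_unique ha1 hax, prefix_unique hb1 hbx]
    · rw [Nat.le_zero, Finset.card_eq_zero, Finset.filter_eq_empty_iff]
      rintro y - ⟨hy1, hy2⟩
      apply hg
      rw [gg_iff] at hy2 ⊢
      obtain ⟨x, hx, hyx⟩ := hy2
      exact ⟨x, hx, (List.isPrefixOf_iff_prefix.1 hy1).trans hyx⟩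
  calc 2 ^ (P.n - P.K - P.c) * ∑ al ∈ range P.p, musum P (view P T v) pre al
      ≤ 2 ^ (P.n - P.K - P.c) * ∑ y ∈ bl P.K, (if pre.isPrefixOf y then wt P T v y else 0) :=
        Nat.mul_le_mul_left _ h1
    _ ≤ _ := h2
    _ ≤ _ := h3

theorem sum_msum_ge {P : Par} (hP : P.Good) (T : Tab)
    (hT : ∀ j e x, T j e = some x → x.length = P.n) (v pre : List Bool)
    (hpre : pre.length + P.K0 ≤ P.K) (s : ℕ) (Y : ℕ → ℕ) (H : Finset (List Bool))
    (hH : ∀ x ∈ H, (∃ je ∈ reads P v, T je.1 je.2 = some x) ∧ pre <+: x ∧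
      hsh P (x.drop pre.length) (Y (alp P (x.drop pre.length))) < thr P.p s) :
    #H ≤ 2 ^ (P.n - P.K - P.c) * ∑ al ∈ range P.p, msum P (view P T v) pre s al (Y al) +
      2 ^ (P.n - P.c) := by
  have h15 := hP.h15
  have hHn : ∀ x ∈ H, x.length = P.n := by
    intro x hx
    obtain ⟨⟨je, -, hje⟩, -⟩ := hH x hx
    exact hT _ _ _ hje
  have hcard : #H = ∑ y ∈ bl P.K, #{x ∈ H | y <+: x} := by
    rw [← Finset.card_biUnion]
    · congr 1
      ext x
      simp only [Finset.mem_biUnion, Finset.mem_filter, mem_bl]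
      constructor
      · intro hx
        refine ⟨x.take P.K, ?_, hx, List.take_prefix _ _⟩
        rw [List.length_take, hHn x hx]; omega
      · rintro ⟨y, -, hx, -⟩; exact hx
    · intro y hy y' hy' hne
      rw [Function.onFun, Finset.disjoint_left]
      intro x hx hx'
      rw [Finset.mem_filter] at hx hx'
      rw [Finset.mem_coe, mem_bl] at hy hy'
      exact hne ((prefix_unique hy hx.2).trans (prefix_unique hy' hx'.2).symm)
  have hmain : ∀ y ∈ bl P.K, #{x ∈ H | y <+: x} ≤
      2 ^ (P.n - P.K - P.c) *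
        (∑ al ∈ range P.p, if inZ P pre s al (Y al) y then wt P T v y else 0) +
        2 ^ (P.n - P.K - P.c) := by
    intro y hy
    rw [mem_bl] at hy
    rcases Finset.eq_empty_or_nonempty {x ∈ H | y <+: x} with he | ⟨x, hx⟩
    · rw [he]; simp
    rw [Finset.mem_filter] at hx
    obtain ⟨hxH, w, rfl⟩ := hx
    obtain ⟨-, hpx, hhx⟩ := hH _ hxH
    have hpy : pre <+: y :=
      List.prefix_of_prefix_length_le hpx (List.prefix_append _ _) (by omega)
    have hdrop : (y ++ w).drop pre.length = y.drop pre.length ++ w :=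
      List.drop_append_of_le_length (by omega)
    have hlen : P.K0 ≤ (y.drop pre.length).length := by
      rw [List.length_drop]; omega
    rw [hdrop, hsh_append P _ _ hlen, alp_append P _ _ hlen] at hhx
    have hal : alp P (y.drop pre.length) < P.p := red_lt hP.prime.pos _
    have hin : inZ P pre s (alp P (y.drop pre.length)) (Y (alp P (y.drop pre.length))) y = true := by
      unfold inZ inS
      rw [List.isPrefixOf_iff_prefix.2 hpy, decide_eq_true hhx]
      simp
    have hle : wt P T v y ≤
        ∑ al ∈ range P.p, if inZ P pre s al (Y al) y then wt P T v y else 0 := by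
      have := Finset.single_le_sum (f := fun al => if inZ P pre s al (Y al) y then wt P T v y else 0)
        (fun i _ => Nat.zero_le _) (Finset.mem_range.2 hal)
      simp only [hin, if_true] at this
      exact this
    -- the two bounds for the number of the strings
    have hc1 : #{x ∈ H | y <+: x} ≤ cnt P T v y := by
      rw [cnt_eq]
      refine (Finset.card_le_card ?_).trans
        (Finset.card_image_le (s := {je ∈ (reads P v).toFinset | gg T y je = true})
          (f := fun je => (T je.1 je.2).getD []))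
      intro x hx
      rw [Finset.mem_filter] at hx
      obtain ⟨⟨je, hje, hT'⟩, -⟩ := hH x hx.1
      rw [Finset.mem_image]
      refine ⟨je, ?_, ?_⟩
      · rw [Finset.mem_filter, List.mem_toFinset, gg_iff]
        exact ⟨hje, x, hT', hx.2⟩
      · simp [hT']
    have hc2 : #{x ∈ H | y <+: x} ≤ 2 ^ (P.n - P.K) := by
      rw [← hy, ← card_prefix P.n y (by omega)]
      refine Finset.card_le_card fun x hx => ?_
      rw [Finset.mem_filter] at hx ⊢
      exact ⟨mem_bl.2 (hHn x hx.1), hx.2⟩
    have hpow : 2 ^ (P.n - P.K) = 2 ^ P.c * 2 ^ (P.n - P.K - P.c) := by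
      rw [← pow_add]; congr 1; omega
    have hΔ : 0 < 2 ^ (P.n - P.K - P.c) := by positivity
    have hw : #{x ∈ H | y <+: x} / 2 ^ (P.n - P.K - P.c) ≤ wt P T v y := by
      refine le_min ?_ (Nat.div_le_div_right hc1)
      rw [hpow] at hc2
      exact (Nat.div_le_div_right hc2).trans (by rw [Nat.mul_div_cancel _ hΔ])
    have hdm := Nat.div_add_mod #{x ∈ H | y <+: x} (2 ^ (P.n - P.K - P.c))
    have hml := Nat.mod_lt #{x ∈ H | y <+: x} hΔ
    have h5 := Nat.mul_le_mul_left (2 ^ (P.n - P.K - P.c)) (hw.trans hle)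
    omega
  rw [hcard]
  refine (Finset.sum_le_sum hmain).trans ?_
  rw [Finset.sum_add_distrib, ← Finset.mul_sum, Finset.sum_comm, Finset.sum_const, card_bl,
    smul_eq_mul, ← pow_add]
  simp_rw [msum_eq]
  have : P.K + (P.n - P.K - P.c) = P.n - P.c := by omega
  rw [this]

theorem msum_le {P : Par} (hP : P.Good) (T : Tab) (v pre : List Bool)
    (hpre : pre.length + P.K0 ≤ P.K) (s : ℕ) (hs : s ≤ P.R + P.s) (al z : ℕ) (hal : al < P.p) :
    P.p * 2 ^ (pre.length + s) * msum P (view P T v) pre s al z ≤ 2 ^ (P.K + P.c + 3) := by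
  have hp := hP.prime
  have hpp := hp.pos
  have h7 := hP.h7
  set m := msum P (view P T v) pre s al z with hm
  set C := #{y ∈ bl P.K0 | alp P y = al ∧ hsh P y z < thr P.p s} with hC
  have h1 : m ≤ 2 ^ P.c * #{y ∈ bl P.K | inZ P pre s al z y = true} := by
    rw [hm, msum_eq, Finset.card_filter, Finset.mul_sum]
    refine Finset.sum_le_sum fun y _ => ?_
    split_ifs
    · rw [mul_one]; exact min_le_left _ _
    · simp
  have hKsplit : P.K = pre.length + (P.K0 + (P.K - pre.length - P.K0)) := by omega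
  have h2 : #{y ∈ bl P.K | inZ P pre s al z y = true} ≤ C * 2 ^ (P.K - pre.length - P.K0) := by
    have e1 := card_bl_add pre.length (P.K0 + (P.K - pre.length - P.K0)) (fun u => u = pre)
      (fun u => alp P u = al ∧ hsh P u z < thr P.p s)
    have e2 := card_bl_add P.K0 (P.K - pre.length - P.K0)
      (fun u => alp P u = al ∧ hsh P u z < thr P.p s) (fun _ => True)
    have e3 : #{v ∈ bl (P.K - pre.length - P.K0) | (fun _ : List Bool => True) v} =
        2 ^ (P.K - pre.length - P.K0) := by
      rw [Finset.filter_true_of_mem (fun _ _ => trivial), card_bl]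
    have e4 : #{u ∈ bl pre.length | u = pre} = 1 := by
      rw [Finset.card_eq_one]
      refine ⟨pre, ?_⟩
      ext u
      rw [Finset.mem_filter, mem_bl, Finset.mem_singleton]
      constructor
      · exact fun h => h.2
      · rintro rfl; exact ⟨rfl, rfl⟩
    rw [e4, one_mul] at e1
    rw [e3] at e2
    have e5 : #{v ∈ bl (P.K0 + (P.K - pre.length - P.K0)) |
        alp P v = al ∧ hsh P v z < thr P.p s} = C * 2 ^ (P.K - pre.length - P.K0) := by
      rw [← e2]
      congr 1
      ext u
      simp only [Finset.mem_filter, mem_bl, and_true, alp_take, hsh_take]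
    rw [← e5, ← e1, ← hKsplit]
    refine Finset.card_le_card fun y hy => ?_
    rw [Finset.mem_filter] at hy ⊢
    refine ⟨hy.1, ?_⟩
    have h := hy.2
    unfold inZ inS at h
    rw [Bool.and_eq_true, Bool.and_eq_true, decide_eq_true_eq, decide_eq_true_eq,
      List.isPrefixOf_iff_prefix] at h
    exact ⟨(List.prefix_iff_eq_take.1 h.1.1).symm, h.1.2, h.2⟩
  have h3 : C * P.p ^ 2 ≤ 2 * 2 ^ P.K0 * thr P.p s :=
    card_hash_one_le P hp (by omega) hP.h9 al hal z _ (thr_le_self _ _)
  have h4 : 2 ^ s * thr P.p s ≤ 2 * P.p := by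
    have a1 := thr_le P.p s
    have a2 : 2 ^ s ≤ P.p := (Nat.pow_le_pow_right (by norm_num) hs).trans hP.h8
    omega
  refine Nat.le_of_mul_le_mul_left ?_ hpp
  have hpow : 2 ^ (pre.length + s) * (2 ^ P.c * (2 ^ (P.K - pre.length - P.K0) * (2 * 2 ^ P.K0))) =
      2 ^ s * 2 ^ (P.K + P.c + 1) := by
    have : P.K + P.c + 1 = pre.length + (P.c + ((P.K - pre.length - P.K0) + (1 + P.K0))) := by omega
    rw [this]
    simp only [pow_add, pow_one]
    ring
  calc P.p * (P.p * 2 ^ (pre.length + s) * m)
      ≤ P.p * (P.p * 2 ^ (pre.length + s) *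
          (2 ^ P.c * (C * 2 ^ (P.K - pre.length - P.K0)))) :=
        Nat.mul_le_mul_left _ (Nat.mul_le_mul_left _ (h1.trans (Nat.mul_le_mul_left _ h2)))
    _ = 2 ^ (pre.length + s) * (2 ^ P.c * (2 ^ (P.K - pre.length - P.K0) * (C * P.p ^ 2))) := by
        ring
    _ ≤ 2 ^ (pre.length + s) * (2 ^ P.c * (2 ^ (P.K - pre.length - P.K0) *
          (2 * 2 ^ P.K0 * thr P.p s))) := by gcongr
    _ = (2 ^ (pre.length + s) * (2 ^ P.c * (2 ^ (P.K - pre.length - P.K0) * (2 * 2 ^ P.K0)))) *
          thr P.p s := by ring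
    _ = 2 ^ (P.K + P.c + 1) * (2 ^ s * thr P.p s) := by rw [hpow]; ring
    _ ≤ 2 ^ (P.K + P.c + 1) * (2 * P.p) := Nat.mul_le_mul_left _ h4
    _ ≤ P.p * 2 ^ (P.K + P.c + 3) := by
        have : 2 ^ (P.K + P.c + 3) = 2 ^ (P.K + P.c + 1) * 4 := by
          rw [show P.K + P.c + 3 = (P.K + P.c + 1) + 2 by ring, pow_add]; norm_num
        rw [this]
        nlinarith [Nat.zero_le (2 ^ (P.K + P.c + 1) * P.p)]

end Pool.Agent.Lib.MP_33f9c4_lc.LK
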