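import Pool.Agent.Lib.MP_33f9c4_lc.K.RBase

set_option autoImplicit false

/-!
# A universal tree program with linear-time simulation

The input of the universal program is `BT.ser (code M) ++ d`. It first parses the code (a tree
in preorder), then it interprets `M` with a control list, the current value and a stack.
-/

namespace Pool.Agent.Lib.MP_33f9c4_lc.K

open Pool.Agent.Lib.PolyTime

/-! ### Dispatch on a unary tag -/

/-- `q` computes a tag `enc n`; run the `n`-th program of the list. -/
def disp : TP → List TP → TP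
  | _, [] => .id
  | q, p :: ps => .ite q (disp (.comp q .rgt) ps) p

theorem disp_spec : ∀ (ps : List TP) (q : TP) (n : ℕ) (p : TP) (x y : BT) (tq t : ℕ),
    ps[n]? = some p → R q x (enc n) tq → R p x y t →
    R (disp q ps) x y ((n + 1) * (tq + 2 * n + 1) + t) := by
  intro ps
  induction ps with
  | nil => intro q n p x y tq t h; simp at h
  | cons p0 ps ih =>
    intro q n p x y tq t h hq hp
    cases n with
    | zero =>
      simp only [List.getElem?_cons_zero, Option.some.injEq] at h
      subst h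
      exact (R.iteL hq hp).mono (by omega)
    | succ n =>
      simp only [List.getElem?_cons_succ] at h
      have hq' : R (.comp q .rgt) x (enc n) (tq + 2) := by
        rw [enc_succ] at hq
        exact (hq.comp (R.rgt' _ _)).mono (by omega)
      have h1 := ih (.comp q .rgt) n p x y (tq + 2) t h hq' hp
      have h2 : R q x (.node .leaf (enc n)) tq := hq
      refine (R.iteN h2 h1).mono ?_
      ring_nf
      nlinarith

/-! ### Codes -/

/-- an item: tag and arguments -/
def itm (n : ℕ) (a : BT) : BT := .node (enc n) a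

/-- the code of a program -/
def code : TP → BT
  | .id => itm 0 .leaf
  | .leaf => itm 1 .leaf
  | .lft => itm 2 .leaf
  | .rgt => itm 3 .leaf
  | .pair f g => itm 4 (.node (code f) (code g))
  | .comp f g => itm 5 (.node (code f) (code g))
  | .ite c f g => itm 6 (.node (code c) (.node (code f) (code g)))
  | .loop f => itm 7 (code f)

/-- the state with control list `C`, value `X`, stack `S` -/
def stt (C X S : BT) : BT := .node C (.node X S)

def qTag : TP := .comp (.comp .lft .lft) .lft
def qArg : TP := .comp (.comp .lft .lft) .rgt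
def qItm : TP := .comp .lft .lft
def qC : TP := .comp .lft .rgt
def qX : TP := .comp .rgt .lft
def qS : TP := .comp .rgt .rgt
def mkS (c x s : TP) : TP := .pair c (.pair x s)

section
variable (tg a C X S : BT)

theorem R.qTag : R qTag (stt (.node (.node tg a) C) X S) tg 5 :=
  (((R.lft' _ _).comp (R.lft' _ _)).comp (R.lft' _ _)).mono (by omega)
theorem R.qArg : R qArg (stt (.node (.node tg a) C) X S) a 5 :=
  (((R.lft' _ _).comp (R.lft' _ _)).comp (R.rgt' _ _)).mono (by omega)
theorem R.qItm : R qItm (stt (.node (.node tg a) C) X S) (.node tg a) 5 :=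
  ((R.lft' _ _).comp (R.lft' _ _)).mono (by omega)
theorem R.qC : R qC (stt (.node (.node tg a) C) X S) C 5 :=
  ((R.lft' _ _).comp (R.rgt' _ _)).mono (by omega)
theorem R.qX (C : BT) : R qX (stt C X S) X 5 :=
  ((R.rgt' _ _).comp (R.lft' _ _)).mono (by omega)
theorem R.qS (C : BT) : R qS (stt C X S) S 5 :=
  ((R.rgt' _ _).comp (R.rgt' _ _)).mono (by omega)
end

theorem R.mkS {c x s : TP} {z C X S : BT} {tc tx ts : ℕ} (hc : R c z C tc) (hx : R x z X tx)
    (hs : R s z S ts) : R (mkS c x s) z (stt C X S) (tc + tx + ts + 2) :=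
  (hc.pair (hx.pair hs)).mono (by omega)

/-- the programs for the items -/
def uIns : List TP :=
  [ mkS qC qX qS,
    mkS qC .leaf qS,
    mkS qC (.comp qX .lft) qS,
    mkS qC (.comp qX .rgt) qS,
    mkS (.pair (.comp qArg .lft) (.pair (.pair (quote (enc 8)) (.comp qArg .rgt)) qC)) qX
      (.pair qX qS),
    mkS (.pair (.comp qArg .lft) (.pair (.comp qArg .rgt) qC)) qX qS,
    mkS (.pair (.comp qArg .lft) (.pair (.pair (quote (enc 10)) (.comp qArg .rgt)) qC)) qX
      (.pair qX qS),
    .ite (.comp qX .lft) (mkS (.pair qArg (.pair qItm qC)) qX qS) (mkS qC qX qS),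
    mkS (.pair qArg (.pair (quote (itm 9 .leaf)) qC)) (.comp qS .lft) (.pair qX (.comp qS .rgt)),
    mkS qC (.pair (.comp qS .lft) qX) (.comp qS .rgt),
    .ite qX (mkS (.pair (.comp qArg .lft) qC) (.comp qS .lft) (.comp qS .rgt))
      (mkS (.pair (.comp qArg .rgt) qC) (.comp qS .lft) (.comp qS .rgt)) ]

/-- the body of the interpreter -/
def uBody : TP := disp qTag uIns

/-- the cost of one turn -/
def uB : ℕ := 600

theorem uStep {n : ℕ} {p : TP} {a C X S y : BT} {t : ℕ} (hp : uIns[n]? = some p) (hn : n ≤ 10)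
    (h : R p (stt (.node (itm n a) C) X S) y t) (ht : t ≤ 200) :
    Lp uBody (stt (.node (itm n a) C) X S) y uB := by
  have h1 := disp_spec uIns qTag n p _ y 5 t hp (R.qTag _ _ _ _ _) h
  refine (Lp.step (a := itm n a) (b := C) rfl h1).mono ?_
  have : (n + 1) * (5 + 2 * n + 1) ≤ 11 * 26 := Nat.mul_le_mul (by omega) (by omega)
  simp only [uB]
  omega

theorem u0 (C X S a : BT) : Lp uBody (stt (.node (itm 0 a) C) X S) (stt C X S) uB :=
  uStep rfl (by omega) (R.mkS (.qC _ _ _ _ _) (.qX _ _ _) (.qS _ _ _)) (by omega)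

theorem u1 (C X S a : BT) : Lp uBody (stt (.node (itm 1 a) C) X S) (stt C .leaf S) uB :=
  uStep rfl (by omega) (R.mkS (.qC _ _ _ _ _) (.leaf _) (.qS _ _ _)) (by omega)

theorem u2 (C X S a : BT) : Lp uBody (stt (.node (itm 2 a) C) X S) (stt C (K.lft X) S) uB :=
  uStep rfl (by omega) (R.mkS (.qC _ _ _ _ _) ((R.qX _ _ _).comp (.lft _)) (.qS _ _ _)) (by omega)

theorem u3 (C X S a : BT) : Lp uBody (stt (.node (itm 3 a) C) X S) (stt C (K.rgt X) S) uB :=
  uStep rfl (by omega) (R.mkS (.qC _ _ _ _ _) ((R.qX _ _ _).comp (.rgt _)) (.qS _ _ _)) (by omega)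

theorem size_enc_nat (n : ℕ) : (enc n).size = 2 * n + 1 := size_nat n

theorem u4 (C X S f g : BT) : Lp uBody (stt (.node (itm 4 (.node f g)) C) X S)
    (stt (.node f (.node (itm 8 g) C)) X (.node X S)) uB := by
  refine uStep rfl (by omega) (R.mkS (R.pair ((R.qArg _ _ _ _ _).comp (.lft' _ _))
    (R.pair (R.pair (R.quote _ _) ((R.qArg _ _ _ _ _).comp (.rgt' _ _))) (.qC _ _ _ _ _)))
    (.qX _ _ _) (R.pair (.qX _ _ _) (.qS _ _ _))) ?_
  rw [size_enc_nat]
  omega

theorem u5 (C X S f g : BT) : Lp uBody (stt (.node (itm 5 (.node f g)) C) X S)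
    (stt (.node f (.node g C)) X S) uB :=
  uStep rfl (by omega) (R.mkS (R.pair ((R.qArg _ _ _ _ _).comp (.lft' _ _))
    (R.pair ((R.qArg _ _ _ _ _).comp (.rgt' _ _)) (.qC _ _ _ _ _)))
    (.qX _ _ _) (.qS _ _ _)) (by omega)

theorem u6 (C X S c fg : BT) : Lp uBody (stt (.node (itm 6 (.node c fg)) C) X S)
    (stt (.node c (.node (itm 10 fg) C)) X (.node X S)) uB := by
  refine uStep rfl (by omega) (R.mkS (R.pair ((R.qArg _ _ _ _ _).comp (.lft' _ _))
    (R.pair (R.pair (R.quote _ _) ((R.qArg _ _ _ _ _).comp (.rgt' _ _))) (.qC _ _ _ _ _)))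
    (.qX _ _ _) (R.pair (.qX _ _ _) (.qS _ _ _))) ?_
  rw [size_enc_nat]
  omega

theorem u7N (C X S f a b : BT) (h : K.lft X = .node a b) :
    Lp uBody (stt (.node (itm 7 f) C) X S) (stt (.node f (.node (itm 7 f) C)) X S) uB := by
  have h1 : R (.comp qX .lft) (stt (.node (itm 7 f) C) X S) (.node a b) 7 := by
    rw [← h]
    exact ((R.qX _ _ _).comp (.lft _)).mono (by omega)
  exact uStep rfl (by omega) (R.iteN h1 (R.mkS (R.pair (.qArg _ _ _ _ _) (R.pair (.qItm _ _ _ _ _)
    (.qC _ _ _ _ _))) (.qX _ _ _) (.qS _ _ _))) (by omega)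

theorem u7L (C X S f : BT) (h : K.lft X = .leaf) :
    Lp uBody (stt (.node (itm 7 f) C) X S) (stt C X S) uB := by
  have h1 : R (.comp qX .lft) (stt (.node (itm 7 f) C) X S) .leaf 7 := by
    rw [← h]
    exact ((R.qX _ _ _).comp (.lft _)).mono (by omega)
  exact uStep rfl (by omega) (R.iteL h1 (R.mkS (.qC _ _ _ _ _) (.qX _ _ _) (.qS _ _ _))) (by omega)

theorem u8 (C X S g x : BT) : Lp uBody (stt (.node (itm 8 g) C) X (.node x S))
    (stt (.node g (.node (itm 9 .leaf) C)) x (.node X S)) uB := by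
  refine uStep rfl (by omega) (R.mkS (R.pair (.qArg _ _ _ _ _) (R.pair (R.quote _ _)
    (.qC _ _ _ _ _))) ((R.qS _ _ _).comp (.lft' _ _)) (R.pair (.qX _ _ _)
      ((R.qS _ _ _).comp (.rgt' _ _)))) ?_
  rw [itm, BT.size_node, size_enc_nat, BT.size_leaf]
  omega

theorem u9 (C X S x a : BT) : Lp uBody (stt (.node (itm 9 a) C) X (.node x S))
    (stt C (.node x X) S) uB :=
  uStep rfl (by omega) (R.mkS (.qC _ _ _ _ _) (R.pair ((R.qS _ _ _).comp (.lft' _ _))
    (.qX _ _ _)) ((R.qS _ _ _).comp (.rgt' _ _))) (by omega)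

theorem u10N (C S f g x a b : BT) :
    Lp uBody (stt (.node (itm 10 (.node f g)) C) (.node a b) (.node x S))
      (stt (.node f C) x S) uB :=
  uStep rfl (by omega) (R.iteN (R.qX _ _ _) (R.mkS (R.pair ((R.qArg _ _ _ _ _).comp (.lft' _ _))
    (.qC _ _ _ _ _)) ((R.qS _ _ _).comp (.lft' _ _)) ((R.qS _ _ _).comp (.rgt' _ _)))) (by omega)

theorem u10L (C S f g x : BT) :
    Lp uBody (stt (.node (itm 10 (.node f g)) C) .leaf (.node x S)) (stt (.node g C) x S) uB :=
  uStep rfl (by omega) (R.iteL (R.qX _ _ _) (R.mkS (R.pair ((R.qArg _ _ _ _ _).comp (.rgt' _ _))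
    (.qC _ _ _ _ _)) ((R.qS _ _ _).comp (.lft' _ _)) ((R.qS _ _ _).comp (.rgt' _ _)))) (by omega)

theorem uSim {M : TP} {x y : BT} {t : ℕ} (h : Ev M x y t) : ∀ C S : BT,
    Lp uBody (stt (.node (code M) C) x S) (stt C y S) (3 * uB * t) := by
  induction h with
  | id x => intro C S; exact (u0 C x S _).mono (by omega)
  | leaf x => intro C S; exact (u1 C x S _).mono (by omega)
  | lft x => intro C S; exact (u2 C x S _).mono (by omega)
  | rgt x => intro C S; exact (u3 C x S _).mono (by omega)
  | @pair f g x a b s t hf hg ihf ihg =>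
    intro C S
    refine (((((u4 C x S (code f) (code g)).trans (ihf _ _)).trans (u8 C a S (code g) x)).trans
      (ihg _ _)).trans (u9 C b S a _)).mono ?_
    ring_nf
    omega
  | @comp f g x y z s t hf hg ihf ihg =>
    intro C S
    refine (((u5 C x S (code f) (code g)).trans (ihf _ _)).trans (ihg _ _)).mono ?_
    ring_nf
    omega
  | @iteN c f g x a b y r s hc hf ihc ihf =>
    intro C S
    refine ((((u6 C x S (code c) (.node (code f) (code g))).trans (ihc _ _)).trans
      (u10N C S (code f) (code g) x a b)).trans (ihf _ _)).mono ?_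
    ring_nf
    omega
  | @iteL c f g x y r s hc hg ihc ihg =>
    intro C S
    refine ((((u6 C x S (code c) (.node (code f) (code g))).trans (ihc _ _)).trans
      (u10L C S (code f) (code g) x)).trans (ihg _ _)).mono ?_
    ring_nf
    omega
  | @loopN f x a b y z s t hx hf h ihf ih =>
    intro C S
    refine (((u7N C x S (code f) a b hx).trans (ihf _ _)).trans (ih C S)).mono ?_
    ring_nf
    omega
  | @loopL f x hx =>
    intro C S
    exact (u7L C x S (code f) hx).mono (by omega)

/-! ### The parser -/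

/-- the body of the parser: state `node W (node bits V)` -/
def pBody : TP :=
  .ite qItm
    (mkS qC qX (.pair (.pair (.comp (.comp qS .rgt) .lft) (.comp qS .lft))
      (.comp (.comp qS .rgt) .rgt)))
    (.ite (.comp qX .lft)
      (mkS (.pair .leaf (.pair .leaf (.pair (.pair .leaf .leaf) qC))) (.comp qX .rgt) qS)
      (mkS qC (.comp qX .rgt) (.pair .leaf qS)))

theorem R.qItm' (i C X S : BT) : R K.qItm (stt (.node i C) X S) i 5 :=
  ((R.lft' _ _).comp (R.lft' _ _)).mono (by omega)
theorem R.qC' (i C X S : BT) : R K.qC (stt (.node i C) X S) C 5 :=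
  ((R.lft' _ _).comp (R.rgt' _ _)).mono (by omega)

theorem pJ (W X V a b : BT) :
    Lp pBody (stt (.node (.node .leaf .leaf) W) X (.node b (.node a V)))
      (stt W X (.node (.node a b) V)) 100 := by
  have h1 := R.iteN (g := (.ite (.comp qX .lft)
      (mkS (.pair .leaf (.pair .leaf (.pair (.pair .leaf .leaf) qC))) (.comp qX .rgt) qS)
      (mkS qC (.comp qX .rgt) (.pair .leaf qS)))) (R.qItm' (.node .leaf .leaf) W X
        (.node b (.node a V))) (R.mkS (R.qC' _ _ _ _) (R.qX _ _ _) (R.pair (R.pair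
          (((R.qS X (.node b (.node a V)) (.node (.node .leaf .leaf) W)).comp (.rgt' _ _)).comp
            (.lft' _ _)) ((R.qS _ _ _).comp (.lft' _ _)))
          (((R.qS X (.node b (.node a V)) (.node (.node .leaf .leaf) W)).comp (.rgt' _ _)).comp
            (.rgt' _ _))))
  exact (Lp.step (a := .node .leaf .leaf) (b := W) rfl h1).mono (by omega)

theorem pT (W V : BT) (l : List Bool) :
    Lp pBody (stt (.node .leaf W) (tr (true :: l)) V)
      (stt (.node .leaf (.node .leaf (.node (.node .leaf .leaf) W))) (tr l) V) 100 := by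
  have h0 : R (.comp qX .lft) (stt (.node .leaf W) (tr (true :: l)) V) (.node .leaf .leaf) 7 :=
    ((R.qX _ _ _).comp (.lft' _ _)).mono (by omega)
  have h2 : R (.comp qX .rgt) (stt (.node .leaf W) (tr (true :: l)) V) (tr l) 7 :=
    ((R.qX _ _ _).comp (.rgt' _ _)).mono (by omega)
  have h1 := R.iteL (f := (mkS qC qX (.pair (.pair (.comp (.comp qS .rgt) .lft) (.comp qS .lft))
      (.comp (.comp qS .rgt) .rgt)))) (R.qItm' .leaf W (tr (true :: l)) V)
      (R.iteN (g := (mkS qC (.comp qX .rgt) (.pair .leaf qS))) h0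
        (R.mkS (R.pair (R.leaf _) (R.pair (R.leaf _) (R.pair (R.pair (R.leaf _) (R.leaf _))
          (R.qC' _ _ _ _)))) h2 (R.qS _ _ _)))
  exact (Lp.step (a := .leaf) (b := W) rfl h1).mono (by omega)

theorem pF (W V : BT) (l : List Bool) :
    Lp pBody (stt (.node .leaf W) (tr (false :: l)) V) (stt W (tr l) (.node .leaf V)) 100 := by
  have h0 : R (.comp qX .lft) (stt (.node .leaf W) (tr (false :: l)) V) .leaf 7 :=
    ((R.qX _ _ _).comp (.lft' _ _)).mono (by omega)
  have h2 : R (.comp qX .rgt) (stt (.node .leaf W) (tr (false :: l)) V) (tr l) 7 :=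
    ((R.qX _ _ _).comp (.rgt' _ _)).mono (by omega)
  have h1 := R.iteL (f := (mkS qC qX (.pair (.pair (.comp (.comp qS .rgt) .lft) (.comp qS .lft))
      (.comp (.comp qS .rgt) .rgt)))) (R.qItm' .leaf W (tr (false :: l)) V)
      (R.iteL (f := (mkS (.pair .leaf (.pair .leaf (.pair (.pair .leaf .leaf) qC)))
        (.comp qX .rgt) qS)) h0
        (R.mkS (R.qC' _ _ _ _) h2 (R.pair (R.leaf _) (R.qS _ _ _))))
  exact (Lp.step (a := .leaf) (b := W) rfl h1).mono (by omega)

theorem pSim (x : BT) : ∀ (W V : BT) (l : List Bool),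
    Lp pBody (stt (.node .leaf W) (tr (x.ser ++ l)) V) (stt W (tr l) (.node x V))
      (200 * x.size) := by
  induction x with
  | leaf =>
    intro W V l
    exact (pF W V l).mono (by rw [BT.size_leaf]; omega)
  | node a b iha ihb =>
    intro W V l
    have h1 := pT W V (a.ser ++ (b.ser ++ l))
    have h2 := iha (.node .leaf (.node (.node .leaf .leaf) W)) V (b.ser ++ l)
    have h3 := ihb (.node (.node .leaf .leaf) W) (.node a V) l
    have h4 := pJ W (tr l) V a b
    have e : tr ((BT.node a b).ser ++ l) = tr (true :: (a.ser ++ (b.ser ++ l))) := by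
      simp [BT.ser]
    rw [e, BT.size_node]
    exact (((h1.trans h2).trans h3).trans h4).mono (by omega)

/-- The universal program. -/
def univ : TP :=
  .comp (mkS (.pair .leaf .leaf) .id .leaf) (.comp (.loop pBody)
    (.comp (mkS (.pair (.comp qS .lft) .leaf) qX .leaf) (.comp (.loop uBody) qX)))

theorem univ_spec (M : TP) (d : List Bool) (y : BT) (t : ℕ) (h : Ev M (tr d) y t) :
    R univ (tr ((code M).ser ++ d)) y (3 * uB * t + (200 * (code M).size + 100)) := by
  have h1 := (pSim (code M) .leaf .leaf d).finish rfl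
  have h2 := ((uSim h .leaf .leaf)).finish rfl
  have h0 : R (mkS (.pair .leaf .leaf) .id .leaf) (tr ((code M).ser ++ d))
      (stt (.node .leaf .leaf) (tr ((code M).ser ++ d)) .leaf) 10 :=
    (R.mkS (R.pair (R.leaf _) (R.leaf _)) (R.id _) (R.leaf _)).mono (by omega)
  have h3 : R (mkS (.pair (.comp qS .lft) .leaf) qX .leaf) (stt .leaf (tr d)
      (.node (code M) .leaf)) (stt (.node (code M) .leaf) (tr d) .leaf) 30 :=
    (R.mkS (R.pair ((R.qS _ _ _).comp (.lft' _ _)) (R.leaf _)) (R.qX _ _ _)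
      (R.leaf _)).mono (by omega)
  exact (h0.comp (h1.comp (h3.comp (h2.comp (R.qX _ _ _))))).mono (by omega)

theorem uPos {M : TP} {x y : BT} {t : ℕ} (h : Ev M x y t) : 1 ≤ t := by
  cases h <;> omega

theorem exists_linUniv : ∃ U : TP, LinUniv U := by
  refine ⟨univ, fun M => ⟨3 * uB + (200 * (code M).size + 100), fun d x t h => ?_⟩⟩
  obtain ⟨r, hr, hrt⟩ := h
  refine ⟨(code M).ser ++ d, ?_, ?_⟩
  · rw [List.length_append]
    have : (code M).ser.length = (code M).size := rfl
    omega
  · obtain ⟨q, hq, hev⟩ := univ_spec M d _ _ hr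
    refine ⟨q, hev, ?_⟩
    have hr1 : 1 ≤ r := uPos hr
    have h1 : 200 * (code M).size + 100 ≤ (200 * (code M).size + 100) * r :=
      Nat.le_mul_of_pos_right _ hr1
    have h2 : x.length ≤ (3 * uB + (200 * (code M).size + 100)) * x.length :=
      Nat.le_mul_of_pos_left _ (by omega)
    calc q + x.length ≤ (3 * uB * r + (200 * (code M).size + 100)) + x.length := by omega
      _ ≤ (3 * uB + (200 * (code M).size + 100)) * (r + x.length) := by nlinarith
      _ ≤ _ := Nat.mul_le_mul_left _ hrt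

end Pool.Agent.Lib.MP_33f9c4_lc.K
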