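import Pool.Agent.Lib.MP_33f9c4_lc.K.VView
import Pool.Agent.Lib.MP_33f9c4_lc.K.Sees
import Pool.Agent.Lib.MP_33f9c4_lc.K.ParG
import Pool.Agent.Lib.PolyTime

set_option autoImplicit false

/-!
# The cost of the diagonalising machine
-/

namespace Pool.Agent.Lib.MP_33f9c4_lc.LK

open Pool.Agent.Lib.PolyTime (eval_mono)

/-- The prefixes of all strings tested by `u`. -/
noncomputable def allT (P : Par) (T : Tab) (u : List Bool) : List (List Bool) :=
  tst P u (view P T u) false ++ tst P u (view P T u) true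

theorem VCost_mem {P : Par} {T : Tab} {u x : List Bool} :
    (x.length = P.n ∧ ∃ p ∈ allT P T u, p <+: x) ↔ Tested P u (view P T u) x := by
  unfold allT Tested
  constructor
  · rintro ⟨h, p, hp, hx⟩
    rw [List.mem_append] at hp
    rcases hp with hp | hp
    · exact ⟨h, false, p, hp, hx⟩
    · exact ⟨h, true, p, hp, hx⟩
  · rintro ⟨h, ch, p, hp, hx⟩
    refine ⟨h, p, ?_, hx⟩
    rw [List.mem_append]
    cases ch with
    | false => exact Or.inl hp
    | true => exact Or.inr hp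

theorem VCost_length_pre (P : Par) (u : List Bool) (ch : Bool) :
    (pre P u ch).length + sl P u = u.length + P.s + 1 := by
  unfold pre sl
  split
  · simp only [List.length_singleton]
    omega
  · simp only [List.length_append, List.length_singleton]
    omega

theorem VCost_length {P : Par} (hP : P.Good) {T : Tab} {u p : List Bool} (hp : p ∈ allT P T u) :
    p.length + sl P u = u.length + P.s + 1 + P.K0 := by
  unfold allT at hp
  rw [List.mem_append] at hp
  have key : ∀ ch, p ∈ tst P u (view P T u) ch → p.length + sl P u = u.length + P.s + 1 + P.K0 := by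
    intro ch h
    unfold tst at h
    rw [List.mem_map] at h
    obtain ⟨y, hy, rfl⟩ := h
    rw [List.mem_filter] at hy
    obtain ⟨hy, -⟩ := hy
    unfold view at hy
    rw [List.mem_map] at hy
    obtain ⟨z, hz, rfl⟩ := hy
    rw [VView_mem_allL] at hz
    have h13 := hP.h13
    have := VCost_length_pre P u ch
    rw [List.length_append, List.length_take, hz]
    omega
  rcases hp with hp | hp
  · exact key false hp
  · exact key true hp

theorem VCost_le {P : Par} (hP : P.Good) {T : Tab} {u p : List Bool} (hu1 : 1 ≤ u.length)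
    (hu' : u.length ≤ P.R + P.q) (hp : p ∈ allT P T u) : p.length ≤ P.n := by
  have h := VCost_length hP hp
  have h13 := hP.h13
  have h15 := hP.h15
  have : P.s ≤ sl P u := by
    unfold sl
    split <;> omega
  omega

/-- The number of strings tested. -/
theorem VCost_sum {P : Par} (hP : P.Good) (T : Tab) {u : List Bool} (hu1 : 1 ≤ u.length)
    (hu' : u.length ≤ P.R + P.q) :
    ((allT P T u).map (fun p => 2 ^ (P.n - p.length))).sum * 2 ^ (u.length + P.s) ≤
      2 ^ (P.n + 2) := by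
  have hCF : Co P u ∨ Fi P u := by
    unfold Co Fi
    omega
  have hsl : sl P u ≤ u.length + P.s := by
    unfold sl
    split <;> omega
  have h13 := hP.h13
  have h15 := hP.h15
  have hsl' : P.s ≤ sl P u := by
    unfold sl
    split <;> omega
  have hs2 : u.length + P.s + 1 + P.K0 ≤ P.n + sl P u := by omega
  have h1 : ∀ p ∈ allT P T u, 2 ^ (P.n - p.length) =
      2 ^ (P.n + sl P u - (u.length + P.s + 1 + P.K0)) := by
    intro p hp
    have := VCost_length hP hp
    congr 1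
    omega
  have h2 : (allT P T u).map (fun p => 2 ^ (P.n - p.length)) =
      (allT P T u).map (fun _ => 2 ^ (P.n + sl P u - (u.length + P.s + 1 + P.K0))) :=
    List.map_congr_left h1
  rw [h2, List.map_const', List.sum_replicate, smul_eq_mul]
  have h3 : 2 ^ sl P u * (allT P T u).length ≤ 2 ^ (P.K0 + 3) := by
    unfold allT
    rw [List.length_append, mul_add]
    have a := length_tst_le hP T hCF false
    have b := length_tst_le hP T hCF true
    calc _ ≤ 2 ^ (P.K0 + 2) + 2 ^ (P.K0 + 2) := Nat.add_le_add a b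
      _ = 2 ^ (P.K0 + 3) := by ring
  -- multiply by `2 ^ sl` and compare
  have h4 : (allT P T u).length * 2 ^ (P.n + sl P u - (u.length + P.s + 1 + P.K0)) *
      2 ^ (u.length + P.s) * 2 ^ (P.K0 + 1) = (2 ^ sl P u * (allT P T u).length) * 2 ^ P.n := by
    have e : 2 ^ (P.n + sl P u - (u.length + P.s + 1 + P.K0)) * 2 ^ (u.length + P.s) *
        2 ^ (P.K0 + 1) = 2 ^ sl P u * 2 ^ P.n := by
      rw [← pow_add, ← pow_add, ← pow_add]
      congr 1
      omega
    calc _ = (allT P T u).length * (2 ^ (P.n + sl P u - (u.length + P.s + 1 + P.K0)) *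
          2 ^ (u.length + P.s) * 2 ^ (P.K0 + 1)) := by ring
      _ = _ := by rw [e]; ring
  have h5 : (2 ^ sl P u * (allT P T u).length) * 2 ^ P.n ≤ 2 ^ (P.n + 2) * 2 ^ (P.K0 + 1) := by
    calc _ ≤ 2 ^ (P.K0 + 3) * 2 ^ P.n := Nat.mul_le_mul_right _ h3
      _ = _ := by ring
  rw [← h4] at h5
  exact Nat.le_of_mul_le_mul_right h5 (by positivity)

/-- The cost of reading. -/
theorem VCost_read {g : ℕ} (hg : 5 ≤ g) {u : List Bool} (hu1 : 1 ≤ u.length)
    (hu' : u.length ≤ (par g).R + (par g).q) :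
    K.readCost (mt (par g) u) (par g).n (rt (par g) u) * 2 ^ (u.length + 2 * g) ≤
      2 ^ ((par g).n + 4) := by
  have hP := par_good hg
  have hg2 : g < 2 ^ g := Nat.lt_two_pow_self
  have hh1 : hh g = 2 ^ (2 * g) := rfl
  have hh10 : 2 ^ 10 ≤ 2 ^ (2 * g) := Nat.pow_le_pow_right (by norm_num) (by omega)
  obtain ⟨hC, hF⟩ := VView_readCost hP hu1 hu'
  have hl : (par g).l ≤ jhi (par g) u := by
    unfold jhi
    have h2 : 40 * g ≤ 2 * 2 ^ (2 * g) + 6 := by
      have : g * 2 ^ 5 ≤ 2 ^ g * 2 ^ g := by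
        apply Nat.mul_le_mul hg2.le
        exact Nat.pow_le_pow_right (by norm_num) hg
      have e : 2 ^ g * 2 ^ g = 2 ^ (2 * g) := by rw [← pow_add]; congr 1; omega
      rw [e] at this
      omega
    split
    · show 40 * g ≤ 2 * hh g + 6
      exact h2
    · show 40 * g ≤ 2 ^ (4 * g) + 2 * hh g + 4
      have e2 : 2 ^ 10 ≤ 2 ^ (4 * g) := Nat.pow_le_pow_right (by norm_num) (by omega)
      rw [hh1]
      omega
  obtain ⟨fA, fB, -⟩ := VView_fit hP hu1 hu' (j := (par g).l) hl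
  have hn : (par g).n = 2 ^ (par g).l := rfl
  rcases Nat.lt_or_ge (par g).R u.length with h | h
  · have h1 := hF h
    have h2 := fB h
    have h3 : mt (par g) u ≤ 2 ^ (4 * g + 2) := by
      unfold mt jhi
      rw [if_neg (by omega)]
      show 2 ^ (4 * g) + 2 * hh g + 4 + 1 - 40 * g ≤ 2 ^ (4 * g + 2)
      have e : 2 ^ (4 * g) = 2 ^ (2 * g) * 2 ^ (2 * g) := by rw [← pow_add]; congr 1; omega
      have e3 : 2 * 2 ^ (2 * g) + 5 ≤ 2 ^ (2 * g) * 2 ^ (2 * g) := by nlinarith
      rw [hh1, pow_add, e]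
      omega
    calc _ ≤ 2 ^ (4 * g + 2) * (2 ^ ((par g).n + 1 - (par g).l - u.length - (par g).w) *
          2 ^ (par g).l) * 2 ^ (u.length + 2 * g) := by
          refine Nat.mul_le_mul_right _ (h1.trans ?_)
          rw [← hn]
          exact Nat.mul_le_mul_right _ h3
      _ = 2 ^ ((par g).n + 3) := by
          rw [← pow_add, ← pow_add, ← pow_add]
          congr 1
          have hw : (par g).w = 6 * g := rfl
          rw [hw] at h2 ⊢
          have h6 : (par g).W * (u.length - (par g).R - 1) + u.length + 6 * g + (par g).l ≤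
            (par g).n := h2
          generalize (par g).W * (u.length - (par g).R - 1) = z at h6
          omega
      _ ≤ 2 ^ ((par g).n + 4) := Nat.pow_le_pow_right (by norm_num) (by omega)
  · have h1 := hC h
    have h2 := (fA h).2
    have h3 : mt (par g) u ≤ 2 ^ (2 * g + 2) := by
      unfold mt jhi
      rw [if_pos h]
      show 2 * hh g + 6 + 1 - 40 * g ≤ 2 ^ (2 * g + 2)
      rw [hh1, pow_add]
      omega
    calc _ ≤ 2 ^ (2 * g + 2) * (2 ^ ((par g).n + 1 - (par g).l - (par g).r - u.length) *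
          2 ^ (par g).l) * 2 ^ (u.length + 2 * g) := by
          refine Nat.mul_le_mul_right _ (h1.trans ?_)
          rw [← hn]
          exact Nat.mul_le_mul_right _ h3
      _ = 2 ^ ((par g).n + 3) := by
          rw [← pow_add, ← pow_add, ← pow_add]
          congr 1
          have hr : (par g).r = 4 * g := rfl
          rw [hr] at h2 ⊢
          omega
      _ ≤ 2 ^ ((par g).n + 4) := Nat.pow_le_pow_right (by norm_num) (by omega)

/-- A polynomial of an exponentially large number. -/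
theorem VCost_poly (Q : Polynomial ℕ) : ∃ C : ℕ, ∀ V : ℕ, Q.eval V ≤ 2 ^ C * (V + 2) ^ C := by
  induction Q using Polynomial.induction_on' with
  | add p q hp hq =>
    obtain ⟨C, hC⟩ := hp
    obtain ⟨D, hD⟩ := hq
    refine ⟨C + D + 1, fun V => ?_⟩
    rw [Polynomial.eval_add]
    have h1 : 2 ^ C * (V + 2) ^ C ≤ 2 ^ (C + D) * (V + 2) ^ (C + D + 1) :=
      Nat.mul_le_mul (Nat.pow_le_pow_right (by norm_num) (by omega))
        (Nat.pow_le_pow_right (by omega) (by omega))
    have h2 : 2 ^ D * (V + 2) ^ D ≤ 2 ^ (C + D) * (V + 2) ^ (C + D + 1) :=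
      Nat.mul_le_mul (Nat.pow_le_pow_right (by norm_num) (by omega))
        (Nat.pow_le_pow_right (by omega) (by omega))
    calc _ ≤ 2 ^ (C + D) * (V + 2) ^ (C + D + 1) + 2 ^ (C + D) * (V + 2) ^ (C + D + 1) :=
          Nat.add_le_add ((hC V).trans h1) ((hD V).trans h2)
      _ = 2 ^ (C + D + 1) * (V + 2) ^ (C + D + 1) := by rw [pow_succ 2 (C + D)]; ring
  | monomial i a =>
    refine ⟨i + a, fun V => ?_⟩
    rw [Polynomial.eval_monomial]
    have h1 : a ≤ 2 ^ (i + a) := Nat.lt_two_pow_self.le.trans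
      (Nat.pow_le_pow_right (by norm_num) (by omega))
    have h2 : V ^ i ≤ (V + 2) ^ (i + a) := (Nat.pow_le_pow_left (by omega) i).trans
      (Nat.pow_le_pow_right (by omega) (by omega))
    exact Nat.mul_le_mul h1 h2

private theorem VCost_b1 (g : ℕ) (hg : 5 ≤ g) : g + 8 ≤ 2 ^ g := by
  induction g, hg using Nat.le_induction with
  | base => norm_num
  | succ k hk ih => rw [pow_succ]; omega

private theorem VCost_b2 (g h : ℕ) (h1 : 40 * g + 1 ≤ h) :
    2 ^ (40 * g) + 2 ^ h + 1 ≤ 2 ^ (h + 1) := by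
  have c1 : 2 ^ (40 * g) + 1 ≤ 2 ^ h := by
    calc 2 ^ (40 * g) + 1 ≤ 2 ^ (40 * g) + 2 ^ (40 * g) :=
          Nat.add_le_add_left Nat.one_le_two_pow _
      _ = 2 ^ (40 * g + 1) := by ring
      _ ≤ 2 ^ h := Nat.pow_le_pow_right (by norm_num) h1
  rw [pow_succ]
  omega

/-- The final arithmetic. -/
private theorem VCost_arith (A N qc fc rc tc n' M : ℕ) (a1 : qc * M ≤ 2 ^ N)
    (a2 : fc * M ≤ 2 ^ N) (a3 : rc * M ≤ 2 ^ (N + 4)) (a4 : tc * M ≤ 2 ^ (N + 2))
    (a5 : n' * M ≤ 2 ^ N) : (qc + A * (fc + rc + tc) + n') * M ≤ 2 ^ (N + (A + 5)) := by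
  have e3 : 2 ^ (N + 4) = 16 * 2 ^ N := by ring
  have e4 : 2 ^ (N + 2) = 4 * 2 ^ N := by ring
  have e5 : 2 ^ (N + (A + 5)) = 32 * (2 ^ A * 2 ^ N) := by ring
  rw [e3] at a3
  rw [e4] at a4
  rw [e5]
  have hA : A < 2 ^ A := Nat.lt_two_pow_self
  generalize 2 ^ N = X at a1 a2 a3 a4 a5 ⊢
  have t1 : (qc + A * (fc + rc + tc) + n') * M =
      qc * M + A * (fc * M + rc * M + tc * M) + n' * M := by ring
  rw [t1]
  have t2 : A * (fc * M + rc * M + tc * M) ≤ A * (21 * X) :=
    Nat.mul_le_mul_left _ (by linarith)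
  have t3 : A * (21 * X) ≤ 2 ^ A * (21 * X) := Nat.mul_le_mul_right _ hA.le
  have t4 : 1 * X ≤ 2 ^ A * X := Nat.mul_le_mul_right _ Nat.one_le_two_pow
  have t6 : 2 ^ A * (21 * X) = 21 * (2 ^ A * X) := by ring
  rw [t6] at t3
  rw [one_mul] at t4
  omega

/-- The total cost, in the form `total * 2 ^ (|u| + 2 g) ≤ 2 ^ (n + C)`. -/
theorem VCost_total (A : ℕ) (Q : Polynomial ℕ) : ∃ C g₀ : ℕ, ∀ g, g₀ ≤ g → ∀ (T : Tab)
    (u : List Bool), 1 ≤ u.length → u.length ≤ (par g).R + (par g).q →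
    (Q.eval ((g + 1 + u.length) + 2 ^ (2 * g) + 2 ^ (8 * hh g ^ 16) + 2 ^ (par g).K +
        2 ^ ((par g).K + (par g).c + 2)) +
      A * (2 ^ ((par g).n - (par g).K - (par g).c) +
        K.readCost (mt (par g) u) (par g).n (rt (par g) u) +
        ((allT (par g) T u).map (fun p => 2 ^ ((par g).n - p.length))).sum *
          ((par g).n + 2 ^ (2 ^ (2 * g)) + 1)) + (par g).n) * 2 ^ (u.length + 2 * g) ≤
      2 ^ ((par g).n + C) := by
  obtain ⟨C, hC⟩ := VCost_poly Q
  refine ⟨A + 5, C + 5, fun g hg T u hu1 hu' => ?_⟩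
  have hg5 : 5 ≤ g := by omega
  have hP := par_good hg5
  have hg2 : g < 2 ^ g := Nat.lt_two_pow_self
  set h := hh g with hh_def
  have hhe : h = 2 ^ (2 * g) := rfl
  have e0 : (2 : ℕ) ^ (2 * g) = 2 ^ g * 2 ^ g := by rw [← pow_add]; congr 1; omega
  have hg32 : 32 ≤ 2 ^ g := by
    calc 32 = 2 ^ 5 := by norm_num
      _ ≤ 2 ^ g := Nat.pow_le_pow_right (by norm_num) hg5
  have hh10 : 1024 ≤ h := by rw [hhe, e0]; nlinarith
  have hgh : 32 * g ≤ h := by rw [hhe, e0]; nlinarith
  have h40 : 40 * g + 1 ≤ h := by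
    have e1 : g + 8 ≤ 2 ^ g := VCost_b1 g hg5
    rw [hhe, e0]
    nlinarith
  have hCh : 1024 * (C + 1) ≤ h := by
    rw [hhe]
    calc 1024 * (C + 1) ≤ 2 ^ 10 * 2 ^ C := by
          have : C < 2 ^ C := Nat.lt_two_pow_self
          omega
      _ = 2 ^ (10 + C) := by rw [← pow_add]
      _ ≤ 2 ^ (2 * g) := Nat.pow_le_pow_right (by norm_num) (by omega)
  have hR : (par g).R = h ^ 2 := by
    show 2 ^ (4 * g) = (2 ^ (2 * g)) ^ 2
    rw [← pow_mul]
    congr 1
    omega
  have hq : (par g).q = h ^ 7 := rfl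
  have hn : (par g).n = h ^ 20 := by
    show 2 ^ (40 * g) = (2 ^ (2 * g)) ^ 20
    rw [← pow_mul]
    congr 1
    omega
  have hn' : (par g).n = 2 ^ (40 * g) := rfl
  have hK : (par g).K = (h ^ 8 + 1) * (4 * h ^ 8) + 3 * h ^ 7 := rfl
  have hc : (par g).c = h ^ 9 := rfl
  have hs : (par g).s = 2 * h := rfl
  have step : ∀ k, 1024 * h ^ k ≤ h ^ (k + 1) := by
    intro k
    rw [pow_succ, mul_comm]
    exact Nat.mul_le_mul_left _ hh10
  have s1 := step 1
  have s2 := step 2
  have s3 := step 3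
  have s4 := step 4
  have s5 := step 5
  have s6 := step 6
  have s7 := step 7
  have s8 := step 8
  have s9 := step 9
  have s10 := step 10
  have s11 := step 11
  have s12 := step 12
  have s13 := step 13
  have s14 := step 14
  have s15 := step 15
  have s16 := step 16
  have s17 := step 17
  have s18 := step 18
  have s19 := step 19
  simp only [Nat.reduceAdd] at s1 s2 s3 s4 s5 s6 s7 s8 s9 s10 s11 s12 s13 s14 s15 s16 s17 s18 s19
  rw [pow_one] at s1
  have hK2 : (par g).K = 4 * h ^ 16 + 4 * h ^ 8 + 3 * h ^ 7 := by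
    rw [hK]
    ring
  rw [hR, hq] at hu'
  -- the total size
  have f1 : g + 1 + u.length ≤ 2 ^ (8 * h ^ 16) := by
    have : g + 1 + u.length ≤ 8 * h ^ 16 := by omega
    exact this.trans Nat.lt_two_pow_self.le
  have f2 : 2 ^ (2 * g) ≤ 2 ^ (8 * h ^ 16) := Nat.pow_le_pow_right (by norm_num) (by omega)
  have f3 : 2 ^ (par g).K ≤ 2 ^ (8 * h ^ 16) := Nat.pow_le_pow_right (by norm_num) (by omega)
  have f4 : 2 ^ ((par g).K + (par g).c + 2) ≤ 2 ^ (8 * h ^ 16) :=
    Nat.pow_le_pow_right (by norm_num) (by omega)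
  have f5 : 2 ≤ 2 ^ (8 * h ^ 16) := by
    calc 2 = 2 ^ 1 := by norm_num
      _ ≤ _ := Nat.pow_le_pow_right (by norm_num) (by omega)
  set V := (g + 1 + u.length) + 2 ^ (2 * g) + 2 ^ (8 * h ^ 16) + 2 ^ (par g).K +
    2 ^ ((par g).K + (par g).c + 2) with hV
  have f6 : V + 2 ≤ 2 ^ (9 * h ^ 16) := by
    have : V + 2 ≤ 8 * 2 ^ (8 * h ^ 16) := by
      rw [hV]
      linarith
    calc V + 2 ≤ 2 ^ 3 * 2 ^ (8 * h ^ 16) := this
      _ = 2 ^ (3 + 8 * h ^ 16) := by rw [← pow_add]
      _ ≤ _ := Nat.pow_le_pow_right (by norm_num) (by omega)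
  have a1 : Q.eval V * 2 ^ (u.length + 2 * g) ≤ 2 ^ (par g).n := by
    calc _ ≤ (2 ^ C * (2 ^ (9 * h ^ 16)) ^ C) * 2 ^ (u.length + 2 * g) :=
          Nat.mul_le_mul_right _ ((hC V).trans (Nat.mul_le_mul_left _
            (Nat.pow_le_pow_left f6 C)))
      _ = 2 ^ (C + 9 * h ^ 16 * C + (u.length + 2 * g)) := by
          rw [← pow_mul, ← pow_add, ← pow_add]
      _ ≤ _ := by
          refine Nat.pow_le_pow_right (by norm_num) ?_
          rw [hn]
          have g1 : 1024 * (C + 1) * h ^ 16 ≤ h ^ 17 := by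
            rw [pow_succ h 16, mul_comm (h ^ 16) h]
            exact Nat.mul_le_mul_right _ hCh
          have g2 : C ≤ C * h ^ 16 := Nat.le_mul_of_pos_right _ (by positivity)
          nlinarith
  have a2 : 2 ^ ((par g).n - (par g).K - (par g).c) * 2 ^ (u.length + 2 * g) ≤
      2 ^ (par g).n := by
    rw [← pow_add]
    refine Nat.pow_le_pow_right (by norm_num) ?_
    have := hP.h15
    omega
  have a3 := VCost_read hg5 (u := u) hu1 (by rw [hR, hq]; exact hu')
  have a4 : ((allT (par g) T u).map (fun p => 2 ^ ((par g).n - p.length))).sum *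
      ((par g).n + 2 ^ (2 ^ (2 * g)) + 1) * 2 ^ (u.length + 2 * g) ≤ 2 ^ ((par g).n + 2) := by
    have b1 := VCost_sum hP T (u := u) hu1 (by rw [hR, hq]; exact hu')
    generalize ((allT (par g) T u).map (fun p => 2 ^ ((par g).n - p.length))).sum = Sm at b1 ⊢
    rw [hs] at b1
    have b2 : (par g).n + 2 ^ (2 ^ (2 * g)) + 1 ≤ 2 ^ (h + 1) := by
      rw [hn', ← hhe]
      exact VCost_b2 g h h40
    calc Sm * ((par g).n + 2 ^ (2 ^ (2 * g)) + 1) * 2 ^ (u.length + 2 * g)
        ≤ Sm * 2 ^ (h + 1) * 2 ^ (u.length + 2 * g) :=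
          Nat.mul_le_mul_right _ (Nat.mul_le_mul_left _ b2)
      _ = Sm * 2 ^ (h + 1 + (u.length + 2 * g)) := by rw [mul_assoc, ← pow_add]
      _ ≤ Sm * 2 ^ (u.length + 2 * h) :=
          Nat.mul_le_mul_left _ (Nat.pow_le_pow_right (by norm_num) (by omega))
      _ ≤ _ := b1
  have a5 : (par g).n * 2 ^ (u.length + 2 * g) ≤ 2 ^ (par g).n := by
    conv_lhs => rw [hn', ← pow_add]
    refine Nat.pow_le_pow_right (by norm_num) ?_
    rw [hn]
    omega
  exact VCost_arith A _ _ _ _ _ _ _ a1 a2 a3 a4 a5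

end Pool.Agent.Lib.MP_33f9c4_lc.LK
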