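import Pool.Agent.Lib.MP_33f9c4_lc.K.VCost
import Pool.Agent.Lib.MP_33f9c4_lc.K.MsgC
import Pool.Agent.Lib.MP_33f9c4_lc.K.RMain
import Pool.Agent.Lib.MP_33f9c4_lc.K.REntry
import Pool.Agent.Lib.MP_33f9c4_lc.K.Core

set_option autoImplicit false

/-!
# No program decides the set of Levin-random strings fast

For every machine `U` which is optimal and every program `M` there is, for all large `g`, a bit string
`x` of length `2 ^ (40 g)` for which `M` does not find out within `2 ^ (2 ^ (2 g))` elementary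
operations whether `x` is Levin-random with respect to `U`.
-/

namespace Pool.Agent.Lib.MP_33f9c4_lc.LK

open Pool.Agent.Lib.PolyTime
open Pool.Agent.Lib.MP_33f9c4_lc.K (TP Ev R Out Kt RKt Optimal Says strip Hit)

theorem VFin_strip (k : ℕ) (d : List Bool) :
    strip (List.replicate k false ++ true :: d) = some d := by
  induction k with
  | zero => rfl
  | succ k ih => rw [List.replicate_succ, List.cons_append, strip, ih]

/-- A string which is not Levin-random is the value of an entry of one of the tables. -/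
theorem VFin_host {U : TP} {x : List Bool} {n l : ℕ} (hx : x.length = n) (hn : n = 2 ^ l)
    (hne : ∃ (d : List Bool) (t : ℕ), Out U d x t) (h : Kt U x < n) :
    ∃ (j : ℕ) (e : List Bool), l ≤ j ∧ j ≤ n ∧ e.length = n - j + 1 ∧
      tabU U n j e = some x := by
  obtain ⟨d0, t0, h0⟩ := hne
  obtain ⟨v, ⟨d, t, hout, rfl⟩, hv⟩ := exists_lt_of_csInf_lt
    (s := {v : ℝ | ∃ (d : List Bool) (t : ℕ), Out U d x t ∧ v = d.length + Real.logb 2 t})
    ⟨_, d0, t0, h0, rfl⟩ h
  obtain ⟨r, hr, hrt⟩ := hout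
  rw [hx] at hrt
  have hn1 : 1 ≤ n := by rw [hn]; exact Nat.one_le_two_pow
  have ht1 : 1 ≤ t := by omega
  have h1 : t ≤ 2 ^ Nat.clog 2 t := Nat.le_pow_clog (by norm_num) t
  have h2 : d.length + Nat.clog 2 t ≤ n := by
    rcases Nat.lt_or_ge 1 t with h3 | h3
    · have h4 : 2 ^ (Nat.clog 2 t - 1) < t := by
        have := Nat.pow_pred_clog_lt_self (b := 2) (by norm_num) h3
        simpa using this
      have h5 : ((Nat.clog 2 t - 1 : ℕ) : ℝ) < Real.logb 2 t := by
        rw [Real.lt_logb_iff_rpow_lt (by norm_num) (by exact_mod_cast ht1), Real.rpow_natCast]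
        exact_mod_cast h4
      have h6 : ((d.length + (Nat.clog 2 t - 1) : ℕ) : ℝ) < n := by
        push_cast
        linarith
      have h7 : d.length + (Nat.clog 2 t - 1) < n := by exact_mod_cast h6
      omega
    · have h4 : t = 1 := by omega
      subst h4
      rw [Nat.clog_one_right]
      have h5 : ((d.length : ℕ) : ℝ) < n := by
        simpa using hv
      have h6 : d.length < n := by exact_mod_cast h5
      omega
  refine ⟨Nat.clog 2 t, List.replicate (n - Nat.clog 2 t - d.length) false ++ true :: d, ?_,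
    by omega, ?_, ?_⟩
  · have h3 : 2 ^ l ≤ 2 ^ Nat.clog 2 t := by omega
    exact (Nat.pow_le_pow_iff_right (by norm_num)).mp h3
  · rw [List.length_append, List.length_replicate, List.length_cons]
    omega
  · show K.tbl U n (2 ^ Nat.clog 2 t) _ = some x
    rw [K.tbl_eq_some]
    exact ⟨d, r, VFin_strip _ _, hx, by omega, hr⟩

theorem VFin {U : TP} (hU : Optimal U) (M : TP) : ∃ g₀ : ℕ, ∀ g, g₀ ≤ g → ∃ x : List Bool,
    x.length = 2 ^ (40 * g) ∧ ¬ ∃ (y : BT) (r : ℕ), Ev M (enc x) y r ∧ r ≤ 2 ^ 2 ^ (2 * g) ∧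
      (x ∈ RKt U ↔ ∃ a b, y = .node a b) := by
  obtain ⟨D, A, Q, hD⟩ := K.gen_tp U M pt_prm1 pt_prm2 pt_msg
  obtain ⟨c0, hc0⟩ := hU D
  obtain ⟨C, g1, hC⟩ := VCost_total (A := A) Q
  obtain ⟨B, hB⟩ := exists_nat_gt (C + c0 + 2)
  refine ⟨5 * B + g1 + 5, fun g hg => ?_⟩
  by_contra hcon
  push Not at hcon
  have hg5 : 5 ≤ g := by omega
  have hP := par_good hg5
  have hn : (par g).n = 2 ^ (par g).l := rfl
  have hn' : (par g).n = 2 ^ (40 * g) := rfl
  have hn1 : 0 < (par g).n := by rw [hn]; positivity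
  -- `M` decides correctly
  have hdec : ∀ x : List Bool, x.length = (par g).n → (Says M x ↔ x ∈ RKt U) ∧
      ∃ y, R M (enc x) y (2 ^ 2 ^ (2 * g)) := by
    intro x hx
    obtain ⟨y, r, h1, h2, h3⟩ := hcon x hx
    refine ⟨⟨?_, ?_⟩, y, r, h2, h1⟩
    · rintro ⟨a, b, r', h4⟩
      rw [h3]
      exact ⟨a, b, (K.Ev.det h1 h4).1⟩
    · intro h4
      obtain ⟨a, b, rfl⟩ := h3.mp h4
      exact ⟨a, b, r, h1⟩
  -- the core theorem
  obtain ⟨u, hu1, hu2, x0, hx0, hx0'⟩ := core hP (tabU U (par g).n) (by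
    intro j e x h
    have h1 : K.tbl U (par g).n (2 ^ j) e = some x := h
    rw [K.tbl_eq_some] at h1
    obtain ⟨d, r, -, h2, -⟩ := h1
    exact h2)
  have hx0n : x0.length = (par g).n := hx0.1
  have hx0K : x0 ∈ RKt U := by
    by_contra h
    have h1 : Kt U x0 < (par g).n := by
      have h2 : ¬ ((x0.length : ℝ) ≤ Kt U x0) := h
      rw [hx0n] at h2
      exact not_le.mp h2
    have hne : ∃ (d : List Bool) (t : ℕ), Out U d x0 t := by
      obtain ⟨c, hc⟩ := hU .id
      exact (hc x0 x0 (1 + x0.length) ⟨1, .id _, le_rfl⟩).1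
    obtain ⟨j, e, h2, h3, h4, h5⟩ := VFin_host hx0n hn hne h1
    exact hx0' j e h2 h3 h4 h5
  -- run the machine `D` on `w`
  set w := List.replicate g true ++ false :: u with hw
  have hwl : w.length = g + 1 + u.length := by
    rw [hw, List.length_append, List.length_replicate, List.length_cons]
    omega
  have hprm1 : prm1 w = 2 * g := by rw [hw, prm1, gOf_mk]
  have hH : 2 ^ prm1 w = hh g := by rw [hprm1]; rfl
  have hlj : (par g).l ≤ jhi (par g) u := by
    have hg2 : g < 2 ^ g := Nat.lt_two_pow_self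
    have hh1 : hh g = 2 ^ (2 * g) := rfl
    have hh10 : 2 ^ 10 ≤ 2 ^ (2 * g) := Nat.pow_le_pow_right (by norm_num) (by omega)
    unfold jhi
    have h2 : 40 * g ≤ 2 * 2 ^ (2 * g) + 6 := by
      have : g * 2 ^ 5 ≤ 2 ^ g * 2 ^ g := by
        apply Nat.mul_le_mul hg2.le
        exact Nat.pow_le_pow_right (by norm_num) hg5
      have e : 2 ^ g * 2 ^ g = 2 ^ (2 * g) := by rw [← pow_add]; congr 1; omega
      rw [e] at this
      omega
    split
    · show 40 * g ≤ 2 * hh g + 6
      exact h2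
    · show 40 * g ≤ 2 ^ (4 * g) + 2 * hh g + 4
      have e2 : 2 ^ 10 ≤ 2 ^ (4 * g) := Nat.pow_le_pow_right (by norm_num) (by omega)
      rw [hh1]
      omega
  have h15 := hP.h15
  have hlist : allT (par g) (tabU U (par g).n) u =
      msg (w, 2 ^ prm1 w, 2 ^ (8 * hh g ^ 16),
        K.flat (2 ^ ((par g).n - (par g).K - (par g).c)) (par g).K
          (K.outsAll U (par g).n (mt (par g) u) (par g).n (rt (par g) u)) []) := by
    rw [hH, hw, msg_eq hg5, viewOf_eq hP hn U hu1 hu2]
    rfl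
  obtain ⟨x, hx1, hx2, hx3, hx4⟩ := hD w (rt (par g) u) (mt (par g) u) (par g).K (par g).n
    (8 * hh g ^ 16) ((par g).n - (par g).K - (par g).c) (2 ^ 2 ^ (2 * g))
    (2 ^ ((par g).K + (par g).c + 2)) (by rw [hH, hw, prm2_eq]; rfl) hn1 (by omega)
    (VView_length_rt hP hu1 hu2 hlj) (VView_length_outsAll hP U hu1 hu2)
    (fun x hx => (hdec x hx).2) _ hlist (fun p hp => VCost_le hP hu1 hu2 hp)
    (by
      obtain ⟨h1, h2⟩ := VCost_mem.mpr hx0
      exact ⟨x0, h1, h2, ((hdec x0 hx0n).1).mpr hx0K⟩)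
  have hxK : x ∈ RKt U := ((hdec x hx1).1).mp hx3
  have hxK' : ((par g).n : ℝ) ≤ Kt U x := by
    have h : (x.length : ℝ) ≤ Kt U x := hxK
    rwa [hx1] at h
  -- the cost
  obtain ⟨r, hr, hev⟩ := hx4
  have hout : Out D w x (r + (par g).n) := by
    refine ⟨r, ?_, by rw [hx1]⟩
    rw [K.tr_eq_enc, K.tr_eq_enc]
    exact hev
  have hKt := (hc0 w x _ hout).2
  have hcost := hC g (by omega) (tabU U (par g).n) u hu1 hu2
  have hcost' : (r + (par g).n) * 2 ^ (u.length + 2 * g) ≤ 2 ^ ((par g).n + C) := by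
    refine le_trans (Nat.mul_le_mul_right _ ?_) hcost
    rw [hprm1, hwl] at hr
    exact Nat.add_le_add_right hr _
  have hpos : 0 < r + (par g).n := by omega
  have hlog : Real.logb 2 ((r + (par g).n : ℕ) : ℝ) ≤ (par g).n + C - (u.length + 2 * g) := by
    have h1 : (((r + (par g).n) * 2 ^ (u.length + 2 * g) : ℕ) : ℝ) ≤
        ((2 ^ ((par g).n + C) : ℕ) : ℝ) := by exact_mod_cast hcost'
    have h2 := Real.logb_le_logb_of_le (b := 2) (by norm_num) (by
      have : 0 < (r + (par g).n) * 2 ^ (u.length + 2 * g) := by positivity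
      exact_mod_cast this) h1
    push_cast at h2
    rw [Real.logb_mul (by
        have : (0 : ℝ) < ((r + (par g).n : ℕ) : ℝ) := by exact_mod_cast hpos
        push_cast at this
        exact this.ne') (by positivity), Real.logb_pow, Real.logb_pow,
      Real.logb_self_eq_one (by norm_num)] at h2
    push_cast at h2 ⊢
    linarith
  have hlog2 : Real.logb 2 ((x.length : ℝ) + 1) / 50 ≤ (40 * g + 1) / 50 := by
    rw [hx1]
    have h1 : (((par g).n : ℝ) + 1) ≤ 2 ^ (40 * g + 1 : ℕ) := by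
      have h2 : (par g).n + 1 ≤ 2 ^ (40 * g + 1) := by
        rw [hn', pow_succ]
        have : 1 ≤ 2 ^ (40 * g) := Nat.one_le_two_pow
        omega
      exact_mod_cast h2
    have h3 : Real.logb 2 (((par g).n : ℝ) + 1) ≤ (40 * g + 1 : ℕ) := by
      have h4 := Real.logb_le_logb_of_le (b := 2) (by norm_num) (by positivity) h1
      rwa [Real.logb_pow, Real.logb_self_eq_one (by norm_num), mul_one] at h4
    push_cast at h3
    linarith
  have hgB : (5 * B : ℝ) ≤ g := by
    have : 5 * B ≤ g := by omega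
    exact_mod_cast this
  have hwl' : (w.length : ℝ) = g + 1 + u.length := by
    rw [hwl]
    push_cast
    ring
  rw [hwl'] at hKt
  linarith

end Pool.Agent.Lib.MP_33f9c4_lc.LK
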