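import Pool.Agent.Lib.MP_33f9c4_lc.K.VFin
import Pool.Agent.Lib.MP_33f9c4_lc.K.ATM

set_option autoImplicit false

/-!
# The set of Levin-random strings is not in P
-/

namespace Pool.Agent.Lib.MP_33f9c4_lc.LK

open Pool.Agent.Lib.PolyTime
open Pool.Agent.Lib.MP_33f9c4_lc.K (TP Ev R Out LinUniv inP_tp)

/-- `Kt U x` is at most the value given by any description. -/
theorem VNot_kt_le {U : TP} {d x : List Bool} {t : ℕ} (h : Out U d x t) :
    K.Kt U x ≤ d.length + Real.logb 2 t := by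
  refine csInf_le ⟨0, ?_⟩ ⟨d, t, h, rfl⟩
  rintro v ⟨d, t, -, rfl⟩
  have h1 : 0 ≤ Real.logb 2 (t : ℝ) := by
    rcases Nat.eq_zero_or_pos t with rfl | ht
    · simp
    · exact Real.logb_nonneg (by norm_num) (by exact_mod_cast ht)
  positivity

/-- A universal machine with linear-time simulation is optimal. -/
theorem optimal_of_linUniv {U : TP} (hU : LinUniv U) : K.Optimal U := by
  intro M
  obtain ⟨c, hc⟩ := hU M
  refine ⟨c + Real.logb 2 (c + 1), fun d x t h => ?_⟩
  obtain ⟨d', h1, h2⟩ := hc d x t h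
  refine ⟨⟨d', _, h2⟩, (VNot_kt_le h2).trans ?_⟩
  have h3 : Real.logb 2 ((c * t : ℕ) : ℝ) ≤ Real.logb 2 t + Real.logb 2 (c + 1) := by
    rcases Nat.eq_zero_or_pos (c * t) with h0 | h0
    · rw [h0]
      have e1 : 0 ≤ Real.logb 2 (t : ℝ) := by
        rcases Nat.eq_zero_or_pos t with rfl | ht
        · simp
        · exact Real.logb_nonneg (by norm_num) (by exact_mod_cast ht)
      have e2 : 0 ≤ Real.logb 2 ((c : ℝ) + 1) := Real.logb_nonneg (by norm_num) (by simp)
      simp only [Nat.cast_zero, Real.logb_zero]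
      linarith
    · have ht : 0 < t := Nat.pos_of_mul_pos_left h0
      have hc0 : 0 < c := Nat.pos_of_mul_pos_right h0
      have ht' : (0 : ℝ) < t := by exact_mod_cast ht
      have hc' : (0 : ℝ) < c := by exact_mod_cast hc0
      push_cast
      rw [Real.logb_mul hc'.ne' ht'.ne', add_comm]
      have := Real.logb_le_logb_of_le (b := 2) (by norm_num) hc' (by linarith : (c : ℝ) ≤ c + 1)
      linarith
  have h4 : (d'.length : ℝ) ≤ d.length + c := by exact_mod_cast h1
  have h5 : 0 ≤ Real.logb 2 ((x.length : ℝ) + 1) / 50 := by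
    refine div_nonneg (Real.logb_nonneg (by norm_num) ?_) (by norm_num)
    have : (0 : ℝ) ≤ x.length := by positivity
    linarith
  linarith

/-- A polynomial in `2 ^ (40 g)` is less than `2 ^ 2 ^ (2 g)`. -/
private theorem VNot_poly (Q : Polynomial ℕ) : ∃ g₁ : ℕ, ∀ g, g₁ ≤ g →
    Q.eval (2 ^ (40 * g)) ≤ 2 ^ 2 ^ (2 * g) := by
  obtain ⟨C, hC⟩ := VCost_poly Q
  refine ⟨C + 43, fun g hg => (hC _).trans ?_⟩
  have h1 : 2 ^ (40 * g) + 2 ≤ 2 ^ (40 * g + 1) := by
    rw [pow_succ]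
    have : 2 ^ 1 ≤ 2 ^ (40 * g) := Nat.pow_le_pow_right (by norm_num) (by omega)
    omega
  calc 2 ^ C * (2 ^ (40 * g) + 2) ^ C ≤ 2 ^ C * (2 ^ (40 * g + 1)) ^ C :=
        Nat.mul_le_mul_left _ (Nat.pow_le_pow_left h1 C)
    _ = 2 ^ (C + (40 * g + 1) * C) := by rw [← pow_mul, ← pow_add]
    _ ≤ 2 ^ 2 ^ (2 * g) := by
        refine Nat.pow_le_pow_right (by norm_num) ?_
        have h2 : g < 2 ^ g := Nat.lt_two_pow_self
        have h3 : 2 ^ (2 * g) = 2 ^ g * 2 ^ g := by rw [← pow_add]; congr 1; omega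
        have h4 : 42 * g ≤ 2 ^ g := by
          clear h3 h2 h1 hC
          have key : ∀ k : ℕ, 42 * (k + 43) ≤ 2 ^ (k + 43) := by
            intro k
            induction k with
            | zero => norm_num
            | succ k ih =>
              have e : 2 ^ (k + 1 + 43) = 2 * 2 ^ (k + 43) := by ring
              rw [e]
              omega
          have := key (g - 43)
          have e : g - 43 + 43 = g := by omega
          rwa [e] at this
        rw [h3]
        calc C + (40 * g + 1) * C = (40 * g + 2) * C := by ring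
          _ ≤ (42 * g) * g := Nat.mul_le_mul (by omega) (by omega)
          _ ≤ 2 ^ g * 2 ^ g := Nat.mul_le_mul h4 h2.le

/-- The set of Levin-random strings is not in P. -/
theorem rkt_not_inP {U : TP} (hU : K.Optimal U) : ¬ InP (K.RKt U) := by
  intro h
  obtain ⟨M, Q, hM⟩ := inP_tp h
  obtain ⟨g₀, hg₀⟩ := VFin hU M
  obtain ⟨g₁, hg₁⟩ := VNot_poly Q
  obtain ⟨x, hx, hn⟩ := hg₀ (g₀ + g₁) (by omega)
  apply hn
  obtain ⟨r, hr, hev⟩ := hM x
  rw [hx] at hr
  refine ⟨_, r, hev, hr.trans (hg₁ (g₀ + g₁) (by omega)), ?_⟩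
  by_cases hxR : x ∈ K.RKt U
  · simp [hxR]
  · simp [hxR]

end Pool.Agent.Lib.MP_33f9c4_lc.LK
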