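import Pool.Agent.Lib.MP_33f9c4_lc.K.VDef
import Pool.Agent.Lib.MP_33f9c4_lc.K.RCnt
import Pool.Agent.Lib.MP_33f9c4_lc.K.RHist

set_option autoImplicit false

/-!
# The view of the core and the view computed by the machine
-/

namespace Pool.Agent.Lib.MP_33f9c4_lc.LK

/-- The table function of the machine `U`. -/
noncomputable def tabU (U : K.TP) (n : ℕ) : Tab := fun j e => K.tbl U n (2 ^ j) e

/-- The reversed template of the first table read by `u`. -/
def rt (P : Par) (u : List Bool) : List (Option Bool) := (tmpl P u P.l).reverse

/-- The number of tables read by `u`. -/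
def mt (P : Par) (u : List Bool) : ℕ := jhi P u + 1 - P.l

/-! ### Lists of bit lists -/

theorem VView_mem_allL {N : ℕ} {e : List Bool} : e ∈ allL N ↔ e.length = N := by
  induction N generalizing e with
  | zero => simp [allL, List.length_eq_zero_iff]
  | succ N ih =>
    simp only [allL, List.mem_append, List.mem_map]
    constructor
    · rintro (⟨a, ha, rfl⟩ | ⟨a, ha, rfl⟩)
      · simp [ih.mp ha]
      · simp [ih.mp ha]
    · intro h
      cases e with
      | nil => simp at h
      | cons b e =>
        simp only [List.length_cons, Nat.add_right_cancel_iff] at h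
        cases b with
        | false => exact Or.inl ⟨e, ih.mpr h, rfl⟩
        | true => exact Or.inr ⟨e, ih.mpr h, rfl⟩

theorem VView_nodup_allL (N : ℕ) : (allL N).Nodup := by
  induction N with
  | zero => simp [allL]
  | succ N ih =>
    simp only [allL]
    refine List.Nodup.append (ih.map fun a b h => by simpa using h)
      (ih.map fun a b h => by simpa using h) ?_
    intro a h1 h2
    simp only [List.mem_map] at h1 h2
    obtain ⟨x, -, rfl⟩ := h1
    obtain ⟨y, -, h⟩ := h2
    simp at h

theorem VView_mat_iff {T : List (Option Bool)} {e : List Bool} :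
    mat T e = true ↔ List.Forall₂ (fun (o : Option Bool) (b : Bool) => o = none ∨ o = some b) T e := by
  induction T generalizing e with
  | nil =>
    cases e with
    | nil => simp [mat]
    | cons b e => simp [mat]
  | cons o T ih =>
    cases e with
    | nil => cases o <;> simp [mat]
    | cons b e =>
      cases o with
      | none => simp [mat, ih]
      | some c => simp [mat, ih]

/-- The entries of a template, in the two descriptions. -/
theorem VView_perm (T : List (Option Bool)) :
    ((allL T.length).filter (mat T)).Perm (K.ents T.reverse []) := by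
  rw [List.perm_ext_iff_of_nodup ((VView_nodup_allL _).filter _) (K.nodup_ents _ _)]
  intro e
  rw [List.mem_filter, VView_mem_allL, VView_mat_iff, K.mem_ents]
  constructor
  · rintro ⟨-, h⟩
    exact List.rel_reverse h
  · intro h
    have h' := List.rel_reverse h
    simp only [List.reverse_reverse] at h'
    exact ⟨h'.length_eq.symm, h'⟩

/-! ### Templates -/

/-- the lengths of the templates: everything fits -/
theorem VView_fit {P : Par} (hP : P.Good) {u : List Bool} (hu : 1 ≤ u.length)
    (hu' : u.length ≤ P.R + P.q) {j : ℕ} (hj : j ≤ jhi P u) :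
    (u.length ≤ P.R → P.r + u.length + j ≤ P.n + 1 ∧ P.r + u.length + j ≤ P.n) ∧
    (P.R < u.length → P.W * (u.length - P.R - 1) + u.length + P.w + j ≤ P.n) ∧ j ≤ P.n := by
  have h1 := hP.h1
  have h2 := hP.h2
  have h3 := hP.h3
  have h4 := hP.h4
  have h5 := hP.h5
  have hRr : P.r < P.R := by
    rw [hP.hR]
    exact Nat.lt_two_pow_self
  have hR0 : 0 < P.R := by omega
  have hw : 0 < 2 ^ P.w := by positivity
  have hq : 8000 * P.R ≤ P.q := by
    refine le_trans ?_ h3
    nlinarith
  have hqW : P.q ≤ P.q * P.W := Nat.le_mul_of_pos_right _ (by omega)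
  have hA : u.length ≤ P.R → P.r + u.length + j ≤ P.n := by
    intro h
    unfold jhi at hj
    rw [if_pos h] at hj
    unfold Par.jF at hj
    omega
  have hB : P.R < u.length → P.W * (u.length - P.R - 1) + u.length + P.w + j ≤ P.n := by
    intro h
    unfold jhi at hj
    rw [if_neg (by omega)] at hj
    unfold Par.jM at hj
    have h6 : P.W * (u.length - P.R - 1) + P.W ≤ P.q * P.W := by
      have : u.length - P.R - 1 + 1 ≤ P.q := by omega
      nlinarith
    omega
  refine ⟨fun h => ⟨by have := hA h; omega, hA h⟩, hB, ?_⟩
  rcases Nat.lt_or_ge P.R u.length with h | h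
  · have := hB h
    omega
  · have := hA h
    omega

theorem VView_length_tmpl {P : Par} (hP : P.Good) {u : List Bool} (hu : 1 ≤ u.length)
    (hu' : u.length ≤ P.R + P.q) {j : ℕ} (hj : j ≤ jhi P u) :
    (tmpl P u j).length = P.n - j + 1 := by
  obtain ⟨hA, hB, hC⟩ := VView_fit hP hu hu' hj
  unfold tmpl
  have hbin : ∀ k i, (binw k i).length = k := by
    intro k
    induction k with
    | zero => intro i; rfl
    | succ k ih => intro i; simp [binw, ih]
  rcases Nat.lt_or_ge P.R u.length with h | h
  · rw [if_neg (by omega)]
    have := hB h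
    simp only [List.length_append, List.length_replicate, List.length_map]
    omega
  · rw [if_pos h]
    have := hA h
    simp only [List.length_append, List.length_replicate, List.length_map, hbin]
    omega

/-- the template of the table `l + i` -/
theorem VView_drop {P : Par} (hP : P.Good) {u : List Bool} (hu : 1 ≤ u.length)
    (hu' : u.length ≤ P.R + P.q) {i : ℕ} (hi : P.l + i ≤ jhi P u) :
    ((rt P u).drop i).reverse = tmpl P u (P.l + i) := by
  obtain ⟨hA, hB, hC⟩ := VView_fit hP hu hu' hi
  have hl : P.l ≤ jhi P u := by omega
  unfold rt tmpl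
  rcases Nat.lt_or_ge P.R u.length with h | h
  · rw [if_neg (by omega), if_neg (by omega)]
    have := hB h
    rw [List.reverse_append, List.reverse_replicate,
      List.drop_append_of_le_length (by simp only [List.length_replicate]; omega),
      List.drop_replicate, List.reverse_append, List.reverse_reverse, List.reverse_replicate]
    congr 2
    omega
  · rw [if_pos h, if_pos h]
    have := hA h
    rw [List.reverse_append, List.reverse_replicate,
      List.drop_append_of_le_length (by simp only [List.length_replicate]; omega),
      List.drop_replicate, List.reverse_append, List.reverse_reverse, List.reverse_replicate]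
    congr 2
    omega

/-- the number of free positions -/
theorem VView_free {P : Par} (hP : P.Good) {u : List Bool} (hu : 1 ≤ u.length)
    (hu' : u.length ≤ P.R + P.q) {i : ℕ} (hi : P.l + i ≤ jhi P u) :
    (u.length ≤ P.R → K.free ((rt P u).drop i) + i = P.n + 1 - P.l - P.r - u.length) ∧
    (P.R < u.length → K.free ((rt P u).drop i) + i = P.n + 1 - P.l - u.length - P.w) := by
  obtain ⟨hA, hB, hC⟩ := VView_fit hP hu hu' hi
  have hcount : K.free ((rt P u).drop i) = (tmpl P u (P.l + i)).count none := by
    rw [← VView_drop hP hu hu' hi]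
    unfold K.free
    rw [List.count_reverse]
  have hsome : ∀ v : List Bool, (v.map some).count (none : Option Bool) = 0 := by
    intro v
    rw [List.count_eq_zero]
    simp
  have hrep : ∀ k, (List.replicate k (none : Option Bool)).count none = k := by
    intro k
    simp
  have hrep' : ∀ k, (List.replicate k (some false)).count (none : Option Bool) = 0 := by
    intro k
    rw [List.count_eq_zero]
    simp
  rw [hcount]
  unfold tmpl
  constructor
  · intro h
    have := hA h
    rw [if_pos h]
    simp only [List.count_append, hsome, hrep]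
    omega
  · intro h
    have := hB h
    rw [if_neg (by omega)]
    simp only [List.count_append, hsome, hrep, hrep']
    omega

/-! ### Counts -/

theorem VView_cnt {P : Par} (hP : P.Good) (hn : P.n = 2 ^ P.l) (U : K.TP) {u : List Bool}
    (hu : 1 ≤ u.length) (hu' : u.length ≤ P.R + P.q) (y : List Bool) :
    cnt P (tabU U P.n) u y = K.cnt y (K.outsAll U P.n (mt P u) P.n (rt P u)) := by
  rw [K.cnt_outsAll]
  unfold cnt reads
  rw [List.countP_flatMap]
  have h0 : ∀ m, (List.range' P.l m) = (List.range m).map (P.l + ·) := by
    intro m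
    rw [List.range'_eq_map_range]
  rw [h0, List.map_map]
  have hsum : ∀ (m : ℕ) (f : ℕ → ℕ), ((List.range m).map f).sum = ∑ i ∈ Finset.range m, f i := by
    intro m f
    induction m with
    | zero => simp
    | succ m ih => rw [List.range_succ, List.map_append, List.sum_append, ih,
        Finset.sum_range_succ]; simp
  rw [hsum]
  refine Finset.sum_congr rfl fun i hi => ?_
  rw [Finset.mem_range] at hi
  have hij : P.l + i ≤ jhi P u := by
    unfold mt at hi
    omega
  simp only [Function.comp]
  rw [List.countP_map]
  have hlen := VView_length_tmpl hP hu hu' hij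
  have hperm := VView_perm (tmpl P u (P.l + i))
  rw [hlen] at hperm
  rw [hperm.countP_eq, ← VView_drop hP hu hu' hij, List.reverse_reverse]
  refine List.countP_congr fun e _ => ?_
  simp only [Function.comp, tabU]
  rw [pow_add, mul_comm (2 ^ P.l) (2 ^ i)]
  have : (2 : ℕ) ^ i * P.n = 2 ^ i * 2 ^ P.l := by rw [← hn]
  rw [this]
  cases K.tbl U P.n (2 ^ i * 2 ^ P.l) e with
  | none => simp
  | some x => simp

/-! ### The view -/

theorem VView_look {F Kd : ℕ} {xs : List (List Bool)} {y : List Bool} (hy : y.length = Kd) :
    look (K.flat F Kd xs []) y.reverse = K.cnt y xs / F := by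
  unfold look
  by_cases h0 : K.cnt y xs = 0
  · have : (K.flat F Kd xs []).find? (fun x => decide (x.1 = y.reverse)) = none := by
      rw [List.find?_eq_none]
      rintro ⟨q, c⟩ hq
      rw [K.mem_flat] at hq
      simp only [decide_eq_true_eq]
      rintro rfl
      rw [List.reverse_reverse] at hq
      exact hq.2.1 h0
    rw [this, h0]
    simp
  · have hmem : (y.reverse, K.cnt y xs / F) ∈ K.flat F Kd xs [] := by
      rw [K.mem_flat]
      refine ⟨by simpa using hy, by simpa using h0, by simp⟩
    obtain ⟨a, ha⟩ : ∃ a, (K.flat F Kd xs []).find? (fun x => decide (x.1 = y.reverse)) = some a := by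
      rw [← Option.isSome_iff_exists, List.find?_isSome]
      exact ⟨_, hmem, by simp⟩
    have ha1 := List.mem_of_find?_eq_some ha
    have ha2 := List.find?_some ha
    obtain ⟨q, c⟩ := a
    rw [K.mem_flat] at ha1
    simp only [decide_eq_true_eq] at ha2
    subst ha2
    rw [ha]
    rw [List.reverse_reverse] at ha1
    simpa using ha1.2.2

theorem viewOf_eq {P : Par} (hP : P.Good) (hn : P.n = 2 ^ P.l) (U : K.TP) {u : List Bool}
    (hu : 1 ≤ u.length) (hu' : u.length ≤ P.R + P.q) :
    viewOf P (K.flat (2 ^ (P.n - P.K - P.c)) P.K (K.outsAll U P.n (mt P u) P.n (rt P u)) []) =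
      view P (tabU U P.n) u := by
  unfold viewOf view
  refine List.map_congr_left fun y hy => ?_
  rw [VView_mem_allL] at hy
  rw [VView_look hy, VView_cnt hP hn U hu hu']

/-! ### Costs -/

theorem VView_readCost {P : Par} (hP : P.Good) {u : List Bool} (hu : 1 ≤ u.length)
    (hu' : u.length ≤ P.R + P.q) :
    (u.length ≤ P.R → K.readCost (mt P u) P.n (rt P u) ≤
      mt P u * (2 ^ (P.n + 1 - P.l - P.r - u.length) * P.n)) ∧
    (P.R < u.length → K.readCost (mt P u) P.n (rt P u) ≤
      mt P u * (2 ^ (P.n + 1 - P.l - u.length - P.w) * P.n)) := by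
  constructor
  · intro h
    refine K.readCost_le fun i hi => ?_
    exact ((VView_free hP hu hu' (i := i) (by unfold mt at hi; omega)).1 h).le
  · intro h
    refine K.readCost_le fun i hi => ?_
    exact ((VView_free hP hu hu' (i := i) (by unfold mt at hi; omega)).2 h).le

theorem VView_length_outsAll {P : Par} (hP : P.Good) (U : K.TP) {u : List Bool}
    (hu : 1 ≤ u.length) (hu' : u.length ≤ P.R + P.q) :
    (K.outsAll U P.n (mt P u) P.n (rt P u)).length ≤ 2 ^ (P.n - P.K - P.c) *
      2 ^ (P.K + P.c + 2) := by
  have h15 := hP.h15
  have h1 : (K.outsAll U P.n (mt P u) P.n (rt P u)).length < 2 * 2 ^ (P.n + 1 - P.l) := by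
    refine K.length_outsAll_le fun i hi => ?_
    have h := VView_free hP hu hu' (i := i) (by unfold mt at hi; omega)
    rcases Nat.lt_or_ge P.R u.length with h' | h'
    · have := h.2 h'
      omega
    · have := h.1 h'
      omega
  refine h1.le.trans ?_
  rw [← pow_succ', ← pow_add]
  refine Nat.pow_le_pow_right (by norm_num) ?_
  omega

theorem VView_length_rt {P : Par} (hP : P.Good) {u : List Bool} (hu : 1 ≤ u.length)
    (hu' : u.length ≤ P.R + P.q) (hl : P.l ≤ jhi P u) : (rt P u).length ≤ P.n + 1 := by
  unfold rt
  rw [List.length_reverse, VView_length_tmpl hP hu hu' hl]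
  omega

end Pool.Agent.Lib.MP_33f9c4_lc.LK
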