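import Pool.Agent.Lib.MP_33f9c4_lc.K.FSeen

/-!
# MODULE Walk. A closed walk of length 4

`U` = the disjoint union of the `bl (R+1+k)`, `k < q` (as a Finset of bit lists: all lists of length in
`(R, R+q]`), weights `wt f = 1/(q 2^|f|)`, total weight 1. `Ga` = the fine `f` with `∃ v, Co v ∧ S v f false`, `Gb` with
channel `true`: weight at least 1/2 each (fine_seen). `ia f` = such a `v` for channel `false`, `jb g` = such a
`v` for channel `true`. By coarse_seen, for every coarse `c` the fine `f` with `¬ S f c ch` have weight `≤ 1/8`.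
`twoChoice` (module AvgG) with `Sa f c = S P T f c false`, `Sb g c = S P T g c true`.
Result: `f`, `g` fine, `i = jb g`, `j = ia f` coarse with
`S f i false` (f sees channel a of i), `S j f false`, `S g j true`, `S i g true`.
-/

namespace Pool.Agent.Lib.MP_33f9c4_lc.LK

open Finset

private theorem walk_sum (P : Par) (Q : List Bool → Prop) [DecidablePred Q] :
    ∑ f ∈ (range P.q).biUnion (fun k => bl (P.R + 1 + k)) with Q f,
      (1 / ((P.q : ℝ) * 2 ^ f.length)) =
      (∑ k ∈ range P.q, (#{v ∈ bl (P.R + 1 + k) | Q v} : ℝ) / 2 ^ (P.R + 1 + k)) / P.q := by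
  rw [Finset.filter_biUnion, Finset.sum_biUnion]
  · rw [Finset.sum_div]
    refine Finset.sum_congr rfl fun k _ => ?_
    rw [Finset.sum_congr rfl (g := fun _ => 1 / ((P.q : ℝ) * 2 ^ (P.R + 1 + k)))]
    · rw [Finset.sum_const, nsmul_eq_mul, div_div, mul_one_div, mul_comm (P.q : ℝ)]
    · intro f hf
      rw [mem_bl.1 (Finset.mem_filter.1 hf).1]
  · intro a _ b _ hab
    rw [Function.onFun, Finset.disjoint_left]
    intro f hf hf'
    have h1 := mem_bl.1 (Finset.mem_filter.1 hf).1
    have h2 := mem_bl.1 (Finset.mem_filter.1 hf').1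
    omega

open Classical in
private theorem walk_good {P : Par} (hP : P.Good) (hq : 0 < P.q) (T : Tab)
    (hT : ∀ j e x, T j e = some x → x.length = P.n) (hH : Hosted P T) (ch : Bool) :
    1 / 2 ≤ ∑ f ∈ (range P.q).biUnion (fun k => bl (P.R + 1 + k)) with
      (∃ v, Co P v ∧ S P T v f ch), (1 / ((P.q : ℝ) * 2 ^ f.length)) := by
  rw [walk_sum]
  have hq' : (0 : ℝ) < P.q := by exact_mod_cast hq
  rw [le_div_iff₀ hq']
  have h1 : ∀ k ∈ range P.q, (1 / 2 : ℝ) ≤
      (#{v ∈ bl (P.R + 1 + k) | ∃ c, Co P c ∧ S P T c v ch} : ℝ) / 2 ^ (P.R + 1 + k) := by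
    intro k hk
    have h2 := fine_seen hP T hT hH (Finset.mem_range.1 hk) ch
    have h3 : ((2 : ℝ) ^ (P.R + 1 + k)) ≤
        2 * (#{v ∈ bl (P.R + 1 + k) | ∃ c, Co P c ∧ S P T c v ch} : ℝ) := by exact_mod_cast h2
    rw [le_div_iff₀ (by positivity)]
    linarith
  have h4 := Finset.sum_le_sum h1
  rw [Finset.sum_const, Finset.card_range, nsmul_eq_mul] at h4
  linarith

open Classical in
theorem walk {P : Par} (hP : P.Good) (T : Tab)
    (hT : ∀ j e x, T j e = some x → x.length = P.n) (hH : Hosted P T) :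
    ∃ f g i j, Fi P f ∧ Fi P g ∧ Co P i ∧ Co P j ∧ S P T f i false ∧ S P T j f false ∧
      S P T g j true ∧ S P T i g true := by
  have hq : 0 < P.q := by
    have h3 := hP.h3
    have h4 : 0 < P.R := by rw [hP.hR]; positivity
    have h5 : 0 < 8000 * (P.R * 2 ^ P.w) := by positivity
    omega
  have hq' : (0 : ℝ) < P.q := by exact_mod_cast hq
  set U : Finset (List Bool) := (range P.q).biUnion (fun k => bl (P.R + 1 + k)) with hU
  have hUF : ∀ f ∈ U, Fi P f := by
    intro f hf
    obtain ⟨k, hk, hf⟩ := Finset.mem_biUnion.1 hf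
    have h1 := mem_bl.1 hf
    have h2 := Finset.mem_range.1 hk
    exact ⟨by omega, by omega⟩
  set ia : List Bool → List Bool := fun f =>
    if h : ∃ v, Co P v ∧ S P T v f false then h.choose else [] with hia
  set jb : List Bool → List Bool := fun f =>
    if h : ∃ v, Co P v ∧ S P T v f true then h.choose else [] with hjb
  have hia' : ∀ f, (∃ v, Co P v ∧ S P T v f false) → Co P (ia f) ∧ S P T (ia f) f false := by
    intro f h
    have : ia f = h.choose := by simp only [hia, dif_pos h]
    rw [this]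
    exact h.choose_spec
  have hjb' : ∀ f, (∃ v, Co P v ∧ S P T v f true) → Co P (jb f) ∧ S P T (jb f) f true := by
    intro f h
    have : jb f = h.choose := by simp only [hjb, dif_pos h]
    rw [this]
    exact h.choose_spec
  have hbad : ∀ u, Co P u → ∀ ch, ∑ f ∈ U with ¬ S P T f u ch,
      (1 / ((P.q : ℝ) * 2 ^ f.length)) ≤ 1 / 8 := by
    intro u hu ch
    rw [hU, walk_sum, div_le_iff₀ hq']
    have := coarse_seen hP T hT hH hu ch
    linarith
  obtain ⟨f, hf, g, hg, h1, h2⟩ := twoChoice U (fun f => 1 / ((P.q : ℝ) * 2 ^ f.length))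
    (fun f _ => by positivity)
    {f ∈ U | ∃ v, Co P v ∧ S P T v f false} {f ∈ U | ∃ v, Co P v ∧ S P T v f true}
    (Finset.filter_subset _ _) (Finset.filter_subset _ _)
    (walk_good hP hq T hT hH false) (walk_good hP hq T hT hH true) ia jb
    (fun f c => S P T f c false) (fun f c => S P T f c true)
    (fun g hg => hbad _ (hjb' g (Finset.mem_filter.1 hg).2).1 false)
    (fun f hf => hbad _ (hia' f (Finset.mem_filter.1 hf).2).1 true)
  have hf' := Finset.mem_filter.1 hf
  have hg' := Finset.mem_filter.1 hg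
  exact ⟨f, g, jb g, ia f, hUF f hf'.1, hUF g hg'.1, (hjb' g hg'.2).1, (hia' f hf'.2).1, h1,
    (hia' f hf'.2).2, h2, (hjb' g hg'.2).2⟩

end Pool.Agent.Lib.MP_33f9c4_lc.LK
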